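import Pool.Agent.NH62.SB.Defs

/-!
Abstract lemmas on strong boundary points (statements).
-/

set_option autoImplicit false

open Metric Set Filter Topology
open scoped ENNReal BoundedContinuousFunction

namespace Pool.Agent.NH62.SB

/-- Completeness of the algebra. -/
def S_Complete : Prop :=
  ∀ (X : Type) [NormedAddCommGroup X] [NormedSpace ℂ X], CompleteSpace ↥(Au X)

/-- Existence of strong boundary points in intersections of peak sets. -/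
def S_Zorn : Prop :=
  ∀ (A : Type) [NormedCommRing A] [NormedAlgebra ℂ A] [CompleteSpace A] [NormOneClass A],
    NP A → ∀ (φ : WeakDual.characterSpace ℂ A) (P : Set A),
      (∀ F ∈ P, ‖F‖ ≤ 1 ∧ φ F = 1) →
      ∃ χ : WeakDual.characterSpace ℂ A, IsSB χ ∧ ∀ F ∈ P, χ F = 1

/-- A Bishop type lemma. -/
def S_Bishop : Prop :=
  ∀ (A : Type) [NormedCommRing A] [NormedAlgebra ℂ A] [CompleteSpace A] [NormOneClass A],
    NP A → ∀ (φ : WeakDual.characterSpace ℂ A) (Es : Set A) (g : A), φ g = 0 →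
      (∀ e ∈ Es, ‖e‖ ≤ 1 ∧ 3 / 4 ≤ ‖φ e‖) →
      (∀ S : Finset A, (∀ a ∈ S, a = g ∨ a ∈ Es) → ∀ η : ℝ, 0 < η →
        ∃ e ∈ Es, ∀ a ∈ S, ‖e * (a - algebraMap ℂ A (φ a))‖ ≤ η) →
      ∃ F : A, ‖F‖ ≤ 1 ∧ φ F = 1 ∧ ∀ ψ : WeakDual.characterSpace ℂ A, ψ g ≠ 0 → ‖ψ F‖ < 1

/-- Peaked filters give strong boundary points. -/
def S_Peaked : Prop :=
  ∀ (X : Type) [NormedAddCommGroup X] [NormedSpace ℂ X] [CompleteSpace ↥(Au X)]
    (L : Filter ↥(ball (0 : X) 1)) [L.NeBot], Peaked L →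
    ∃ χ : WeakDual.characterSpace ℂ ↥(Au X), IsSB χ ∧
      ∀ (g : ↥(Au X)) (c : ℂ), Tendsto (fun x => g.1 x) L (𝓝 c) → χ g = c

end Pool.Agent.NH62.SB
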