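import Pool.Agent.NH62.SB.Defs

/-!
Statements for the exponent one.
-/

set_option autoImplicit false

open Metric Set Filter Topology
open scoped ENNReal BoundedContinuousFunction

namespace Pool.Agent.NH62.SB

/-- bounded functions on the natural numbers -/
def Bdd (h : ℕ → ℂ) : Prop := ∃ C : ℝ, ∀ n, ‖h n‖ ≤ C

/-- the pairing of a bounded and a summable function -/
noncomputable def pr (h x : ℕ → ℂ) : ℂ := ∑' n, h n * x n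

/-- the summable functions of norm at most one -/
def U1 (x : ℕ → ℂ) : Prop := Summable (fun n => ‖x n‖) ∧ ∑' n, ‖x n‖ ≤ 1

/-- bounded linear functionals of norm exactly `M` on the bounded functions, with the
approximation property of Goldstine -/
structure Mean (μ : (ℕ → ℂ) → ℂ) (M : ℝ) : Prop where
  nonneg : 0 ≤ M
  add : ∀ h k : ℕ → ℂ, Bdd h → Bdd k → μ (fun n => h n + k n) = μ h + μ k
  smul : ∀ (c : ℂ) (h : ℕ → ℂ), Bdd h → μ (fun n => c * h n) = c * μ h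
  bd : ∀ (h : ℕ → ℂ) (C : ℝ), 0 ≤ C → (∀ n, ‖h n‖ ≤ C) → ‖μ h‖ ≤ M * C
  near : ∀ ε : ℝ, 0 < ε → ∃ h : ℕ → ℂ, (∀ n, ‖h n‖ ≤ 1) ∧ M - ε ≤ (μ h).re
  gold : ∀ (H : Finset (ℕ → ℂ)), (∀ h ∈ H, Bdd h) → ∀ ε : ℝ, 0 < ε →
    ∃ y : ℕ → ℂ, Summable (fun n => ‖y n‖) ∧ ∑' n, ‖y n‖ ≤ M ∧ ∀ h ∈ H, ‖pr h y - μ h‖ ≤ ε

/-- truncation of a function to a set -/
noncomputable def cut (E : Set ℕ) (h : ℕ → ℂ) : ℕ → ℂ := E.indicator h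

/-- the total mass of `μ` on the set `E` is at most `ε` -/
def Small (μ : (ℕ → ℂ) → ℂ) (E : Set ℕ) (ε : ℝ) : Prop :=
  ∀ h : ℕ → ℂ, (∀ n, ‖h n‖ ≤ 1) → (∀ n, n ∉ E → h n = 0) → ‖μ h‖ ≤ ε

/-- triangle free symmetric relations -/
def TF (a : ℕ → ℕ → Prop) : Prop :=
  (∀ n m, a n m → a m n) ∧ ∀ n m l, a n m → a m l → ¬ a l n

open Classical in
/-- the kernel one half minus twice the adjacency -/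
noncomputable def ker (a : ℕ → ℕ → Prop) (n m : ℕ) : ℝ := if a n m then -(3 / 2) else 1 / 2

/-- the quadratic form of the kernel restricted to the set `E` -/
noncomputable def Rf (a : ℕ → ℕ → Prop) (E : Set ℕ) (x : ℕ → ℂ) : ℂ :=
  ∑' q : ℕ × ℕ, (ker a q.1 q.2 : ℂ) * cut E x q.1 * cut E x q.2

/-- the mass of `x` on `E` -/
noncomputable def mass (E : Set ℕ) (x : ℕ → ℂ) : ℝ := ∑' n, ‖cut E x n‖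

/-- weighted Mantel inequality and the two consequences for the quadratic form -/
def S_Mantel : Prop :=
  ∀ a : ℕ → ℕ → Prop, TF a → ∀ (E : Set ℕ) (x : ℕ → ℂ), Summable (fun n => ‖x n‖) →
    ‖Rf a E x‖ ≤ mass E x ^ 2 ∧
    ‖∑' n, cut E x n‖ ^ 4 ≤ 4 * (mass E x ^ 4 - ‖Rf a E x‖ ^ 2)

/-- Lipschitz bound for the quadratic form -/
def S_RLip : Prop :=
  ∀ (a : ℕ → ℕ → Prop) (E : Set ℕ) (x y : ℕ → ℂ), Summable (fun n => ‖x n‖) →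
    Summable (fun n => ‖y n‖) →
    ‖Rf a E x - Rf a E y‖ ≤ 3 / 2 * (mass E x + mass E y) * mass E (fun n => x n - y n)

/-- the graph and the ultrafilter -/
def S_Graph : Prop :=
  ∀ (μ : (ℕ → ℂ) → ℂ) (M : ℝ), Mean μ M →
    ∃ (a : ℕ → ℕ → Prop) (E₀ : Set ℕ) (u : Ultrafilter ℕ), TF a ∧ E₀ ∈ u ∧
      (∀ E ∈ u, ∃ n ∈ E, ∃ m ∈ E, a n m) ∧ (∀ F : Finset ℕ, ((F : Set ℕ)ᶜ) ∈ u) ∧
      ∀ ε : ℝ, 0 < ε → ∃ F : Finset ℕ, Small μ (E₀ \ (F : Set ℕ)) ε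

/-- The quantities which are controlled: `x` is `τ`-good. -/
structure Good (a : ℕ → ℕ → Prop) (μ : (ℕ → ℂ) → ℂ) (A : ℝ) (E : Set ℕ) (l : ℕ → ℂ)
    (Γ : Finset (ℕ → ℂ)) (τ : ℝ) (x : ℕ → ℂ) : Prop where
  u1 : U1 x
  align : mass Eᶜ x - (pr l x).re ≤ τ
  sum : ‖∑' n, cut E x n‖ ≤ τ
  quad : ‖Rf a E x - (A : ℂ) ^ 2‖ ≤ τ
  pins : ∀ g ∈ Γ, ‖pr g x - μ g‖ ≤ τ

/-- the restriction of the mean to points -/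
noncomputable def pt (μ : (ℕ → ℂ) → ℂ) (n : ℕ) : ℂ := μ (Pi.single n 1)

/-- Good points lie in a prescribed member of the filter. -/
def S_GoodImp : Prop :=
  ∀ (a : ℕ → ℕ → Prop) (μ : (ℕ → ℂ) → ℂ) (M : ℝ) (E₀ : Set ℕ), TF a → Mean μ M →
    0 ≤ M → M ≤ 1 →
    (∀ ε : ℝ, 0 < ε → ∃ F : Finset ℕ, Small μ (E₀ \ (F : Set ℕ)) ε) →
    ∀ (H : Finset (ℕ → ℂ)) (_ : ∀ h ∈ H, Bdd h) (D : Finset (Set ℕ))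
      (_ : ∀ E ∈ D, E ⊆ E₀) (η : ℝ), 0 < η →
    ∃ (τ : ℝ) (F : Finset ℕ), 0 < τ ∧
      ∀ (E : Set ℕ) (l : ℕ → ℂ), E ⊆ E₀ → (∀ E' ∈ D, E ⊆ E') → (∀ n ∈ F, n ∉ E) →
        (∀ h ∈ H, ∀ n ∈ E, ∀ m ∈ E, ‖h n - h m‖ ≤ τ) →
        (∀ i ∈ F, ∀ n ∈ E, ∀ m ∈ E, ker a i n = ker a i m) →
        Small μ E τ → (∀ n ∈ E, l n = 0) → (∀ n, n ∉ E → ‖l n‖ = 1) →
        ∀ Γ : Finset (ℕ → ℂ), (∀ h ∈ H, cut Eᶜ h ∈ Γ) → (∀ i ∈ F, Pi.single i 1 ∈ Γ) →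
          cut (E₀ \ (F : Set ℕ)) l ∈ Γ →
        ∀ x : ℕ → ℂ, Good a μ (1 - M) E l Γ τ x →
          (∀ h ∈ H, ‖pr h x - μ h‖ ≤ η) ∧
          ∀ E' ∈ D, ‖Rf a E' x - (Rf a E' (pt μ) + ((1 - M : ℝ) : ℂ) ^ 2)‖ ≤ η

/-- the test function -/
noncomputable def Ft (a : ℕ → ℕ → Prop) (μ : (ℕ → ℂ) → ℂ) (M : ℝ) (E : Set ℕ) (l : ℕ → ℂ)
    (G : Finset (ℕ → ℝ)) (ε C : ℝ) (x : ℕ → ℂ) : ℂ :=
  Complex.exp ((-C : ℝ) + ((2 / (1 - M) : ℝ) : ℂ) * (pr l x - (M : ℂ)) -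
    (ε : ℂ) * ∑ g ∈ G, (pr (fun n => (g n : ℂ) * l n) x - μ (fun n => (g n : ℂ) * l n)) ^ 2) *
    (Rf a E x / ((1 - M : ℝ) : ℂ) ^ 2)

/-- The test function is bounded by one and pins its arguments. -/
def S_Test : Prop :=
  ∀ (a : ℕ → ℕ → Prop) (μ : (ℕ → ℂ) → ℂ) (M : ℝ), TF a → Mean μ M → M < 1 →
    ∀ (r : ℕ) (τ : ℝ), 0 < τ → ∃ (ε δ : ℝ), 0 < ε ∧ 0 < δ ∧ ∀ κ : ℝ, 0 < κ →
      ∃ (θ C : ℝ), 0 < θ ∧ 0 ≤ C ∧ C ≤ κ ∧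
        ∀ (E : Set ℕ) (l : ℕ → ℂ) (G : Finset (ℕ → ℝ)), G.card ≤ r →
          (∀ g ∈ G, ∀ n, |g n| ≤ 1) → (∀ n ∈ E, l n = 0) → (∀ n, n ∉ E → ‖l n‖ = 1) →
          M - θ ≤ (μ l).re → 
          (∀ x : ℕ → ℂ, U1 x → ‖Ft a μ M E l G ε C x‖ ≤ 1) ∧
          ∀ x : ℕ → ℂ, U1 x → ‖Ft a μ M E l G ε C x - 1‖ ≤ δ →
            mass Eᶜ x - (pr l x).re ≤ τ ∧ ‖∑' n, cut E x n‖ ≤ τ ∧
            ‖Rf a E x - ((1 - M : ℝ) : ℂ) ^ 2‖ ≤ τ ∧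
            ∀ g ∈ G, ‖pr (fun n => (g n : ℂ) * l n) x - μ (fun n => (g n : ℂ) * l n)‖ ≤ τ

/-- Existence of spike points. -/
def S_Spike : Prop :=
  ∀ (a : ℕ → ℕ → Prop) (μ : (ℕ → ℂ) → ℂ) (M : ℝ), TF a → Mean μ M → M < 1 →
    ∀ (τ : ℝ), 0 < τ → ∃ θ : ℝ, 0 < θ ∧
      ∀ (E : Set ℕ) (l : ℕ → ℂ) (Γ : Finset (ℕ → ℂ)), (∃ n ∈ E, ∃ m ∈ E, a n m) →
        (∀ g ∈ Γ, Bdd g ∧ ∀ n ∈ E, g n = 0) →
        (∀ n ∈ E, l n = 0) → (∀ n, n ∉ E → ‖l n‖ = 1) → M - θ ≤ (μ l).re →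
        ∃ x : ℕ → ℂ, (∑' n, ‖x n‖ < 1) ∧ Good a μ (1 - M) E l Γ τ x

/-- the pairing and the quadratic form as continuous maps on the space of summable sequences,
and the dictionary between that space and summable functions -/
def S_Mem1 : Prop :=
  (∀ h : ℕ → ℂ, Bdd h → ∃ f : StrongDual ℂ (lp (fun _ : ℕ => ℂ) 1),
    ∀ x : lp (fun _ : ℕ => ℂ) 1, f x = pr h (fun n => x n)) ∧
  (∀ (a : ℕ → ℕ → Prop) (E : Set ℕ),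
    ∃ B : lp (fun _ : ℕ => ℂ) 1 →L[ℂ] lp (fun _ : ℕ => ℂ) 1 →L[ℂ] ℂ,
      ∀ x : lp (fun _ : ℕ => ℂ) 1, B x x = Rf a E (fun n => x n)) ∧
  (∀ x : lp (fun _ : ℕ => ℂ) 1, Summable (fun n => ‖x n‖) ∧ ∑' n, ‖x n‖ = ‖x‖) ∧
  ∀ x : ℕ → ℂ, Summable (fun n => ‖x n‖) → ∃ y : lp (fun _ : ℕ => ℂ) 1, ∀ n, y n = x n

/-- the case of norm one -/
def S_OneSphere : Prop :=
  ∀ (μ : (ℕ → ℂ) → ℂ), Mean μ 1 →
    ∃ L : Filter ↥(ball (0 : lp (fun _ : ℕ => ℂ) 1) 1), L.NeBot ∧ Peaked L ∧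
      ∀ h : ℕ → ℂ, Bdd h → Tendsto (fun x : ↥(ball (0 : lp (fun _ : ℕ => ℂ) 1) 1) =>
        pr h (fun n => (x : lp (fun _ : ℕ => ℂ) 1) n)) L (𝓝 (μ h))

/-- the case of norm less than one -/
def S_OneInside : Prop :=
  ∀ (μ : (ℕ → ℂ) → ℂ) (M : ℝ), Mean μ M → M < 1 →
    ∃ L : Filter ↥(ball (0 : lp (fun _ : ℕ => ℂ) 1) 1), L.NeBot ∧ Peaked L ∧
      ∀ h : ℕ → ℂ, Bdd h → Tendsto (fun x : ↥(ball (0 : lp (fun _ : ℕ => ℂ) 1) 1) =>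
        pr h (fun n => (x : lp (fun _ : ℕ => ℂ) 1) n)) L (𝓝 (μ h))

/-- from the bidual to means -/
def S_Bidual1 : Prop :=
  ∀ (z : StrongDual ℂ (StrongDual ℂ (lp (fun _ : ℕ => ℂ) 1))),
    ∃ μ : (ℕ → ℂ) → ℂ, Mean μ ‖z‖ ∧ ∀ h : StrongDual ℂ (lp (fun _ : ℕ => ℂ) 1),
      Bdd (fun n => h (lp.single 1 n (1 : ℂ))) ∧
      z h = μ (fun n => h (lp.single 1 n (1 : ℂ))) ∧
      ∀ x : lp (fun _ : ℕ => ℂ) 1, h x = pr (fun n => h (lp.single 1 n (1 : ℂ))) (fun n => x n)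

end Pool.Agent.NH62.SB
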