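import Pool.Agent.NH62.SB.Defs

/-!
Statements for exponents larger than one.
-/

set_option autoImplicit false

open Metric Set Filter Topology
open scoped ENNReal BoundedContinuousFunction

namespace Pool.Agent.NH62.SB

/-- The coefficient of the gradient of the r-th power of the modulus. -/
noncomputable def Jr (r : ℝ) (z : ℂ) : ℂ :=
  ((‖z‖ ^ (r - 2) : ℝ) : ℂ) * (starRingEnd ℂ) z

/-- convexity of the r-th power of the modulus, quantitative -/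
def S_D : Prop :=
  ∀ r : ℝ, 1 < r →
    (∀ z : ℂ, ‖Jr r z‖ = ‖z‖ ^ (r - 1) ∧ Jr r z * z = ((‖z‖ ^ r : ℝ) : ℂ)) ∧
    (∀ z w : ℂ, ‖z‖ ^ r + r * (Jr r z * (w - z)).re ≤ ‖w‖ ^ r) ∧
    ∀ (z : ℂ) (ε : ℝ), 0 < ε → ∃ δ : ℝ, 0 < δ ∧ ∀ w : ℂ, ‖w‖ ≤ 1 →
      ‖w‖ ^ r - ‖z‖ ^ r - r * (Jr r z * (w - z)).re ≤ δ → ‖w - z‖ ≤ ε

/-- the k-homogeneous polynomial, sum of k-th powers -/
def S_Q : Prop :=
  ∀ (p : ℝ≥0∞) [Fact (1 ≤ p)], p ≠ ∞ → ∀ k : ℕ, p ≤ (k : ℝ≥0∞) →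
    ∃ M : ContinuousMultilinearMap ℂ (fun _ : Fin k => lp (fun _ : ℕ => ℂ) p) ℂ,
      ∀ x : lp (fun _ : ℕ => ℂ) p, Summable (fun n => ‖x n‖ ^ k) ∧
        M (fun _ => x) = ∑' n, (x n) ^ k

/-- elements of the bidual are elements of the space -/
def S_Refl : Prop :=
  ∀ (p : ℝ≥0∞) [Fact (1 ≤ p)], 1 < p → p ≠ ∞ →
    ∀ z : StrongDual ℂ (StrongDual ℂ (lp (fun _ : ℕ => ℂ) p)),
      ∃ w : lp (fun _ : ℕ => ℂ) p, ‖w‖ ≤ ‖z‖ ∧ ∀ h, z h = h w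

/-- coordinatewise convergence of bounded families is weak convergence -/
def S_Weak : Prop :=
  ∀ (p : ℝ≥0∞) [Fact (1 ≤ p)], 1 < p → p ≠ ∞ →
    ∀ (ι : Type) (L : Filter ι) (x : ι → lp (fun _ : ℕ => ℂ) p) (w : lp (fun _ : ℕ => ℂ) p),
      (∀ i, ‖x i‖ ≤ 1) → (∀ n : ℕ, Tendsto (fun i => x i n) L (𝓝 (w n))) →
      ∀ h : StrongDual ℂ (lp (fun _ : ℕ => ℂ) p), Tendsto (fun i => h (x i)) L (𝓝 (h w))

/-- the case of the unit sphere -/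
def S_Sphere : Prop :=
  ∀ (p : ℝ≥0∞) [Fact (1 ≤ p)], 1 < p → p ≠ ∞ → ∀ w : lp (fun _ : ℕ => ℂ) p, ‖w‖ = 1 →
    ∃ L : Filter ↥(ball (0 : lp (fun _ : ℕ => ℂ) p) 1), L.NeBot ∧ Peaked L ∧
      ∀ n : ℕ, Tendsto (fun x : ↥(ball (0 : lp (fun _ : ℕ => ℂ) p) 1) =>
        (x : lp (fun _ : ℕ => ℂ) p) n) L (𝓝 (w n))

/-- the case of the open ball -/
def S_Inside : Prop :=
  ∀ (p : ℝ≥0∞) [Fact (1 ≤ p)], 1 < p → p ≠ ∞ → ∀ w : lp (fun _ : ℕ => ℂ) p, ‖w‖ < 1 →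
    ∃ L : Filter ↥(ball (0 : lp (fun _ : ℕ => ℂ) p) 1), L.NeBot ∧ Peaked L ∧
      ∀ n : ℕ, Tendsto (fun x : ↥(ball (0 : lp (fun _ : ℕ => ℂ) p) 1) =>
        (x : lp (fun _ : ℕ => ℂ) p) n) L (𝓝 (w n))

/-- key estimate inside the ball: for finitely supported truncations the function
`exp (L_m (x - w)) * (sum of the k-th powers of the coordinates from m on) / s_m ^ k`
has modulus at most one on the ball, with an explicit deficit. -/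
def S_Key : Prop :=
  ∀ (r : ℝ) (k : ℕ), 1 < r → r ≤ k → ∀ (w x : ℕ → ℂ) (m : ℕ) (S : ℝ),
    Summable (fun n => ‖x n‖ ^ r) → ∑' n, ‖x n‖ ^ r ≤ 1 →
    S = 1 - ∑ i ∈ Finset.range m, ‖w i‖ ^ r → 0 < S →
    ∀ T : ℝ, T = ∑' n, ‖x (n + m)‖ ^ r → 
    ‖Complex.exp (((k : ℝ) / S : ℝ) * ∑ i ∈ Finset.range m, Jr r (w i) * (x i - w i)) *
        ((∑' n, x (n + m) ^ k) / ((S ^ ((k : ℝ) / r) : ℝ) : ℂ))‖ ≤
      Real.exp ((k : ℝ) / r * (1 - T / S - (∑ i ∈ Finset.range m,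
        (‖x i‖ ^ r - ‖w i‖ ^ r - r * (Jr r (w i) * (x i - w i)).re)) / S)) *
        (T / S) ^ ((k : ℝ) / r)

end Pool.Agent.NH62.SB
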