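import Pool.Agent.NH62.SB.Mem
import Pool.Agent.NH62.SB.Abs
import Pool.Agent.NH62.SB.StmP
import Pool.Agent.NH62.SB.StmOne

/-!
Final assembly.
-/

set_option autoImplicit false

open Metric Set Filter Topology
open scoped ENNReal BoundedContinuousFunction

namespace Pool.Agent.NH62.SB.Assemble

open Pool.Agent.NH62.SB

/-- The result. -/
def Main : Prop :=
  ∀ (p : ℝ≥0∞) [Fact (1 ≤ p)], p ≠ ∞ →
    ∀ z : StrongDual ℂ (StrongDual ℂ (lp (fun _ : ℕ => ℂ) p)), ‖z‖ ≤ 1 →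
      ∃ φ : WeakDual.characterSpace ℂ ↥(Au (lp (fun _ : ℕ => ℂ) p)),
        (∀ (h : StrongDual ℂ (lp (fun _ : ℕ => ℂ) p)) (f : ↥(Au (lp (fun _ : ℕ => ℂ) p))),
          (∀ x : ↥(ball (0 : lp (fun _ : ℕ => ℂ) p) 1), f.1 x = h x) → φ f = z h) ∧
        IsSB φ

theorem main (hC : S_Complete) (hP : S_Peaked) (hRefl : S_Refl) (hWeak : S_Weak)
    (hSph : S_Sphere) (hIns : S_Inside) (hB1 : S_Bidual1) (h1s : S_OneSphere)
    (h1i : S_OneInside) : Main := by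
  intro p _ hp z hz
  have := hC (lp (fun _ : ℕ => ℂ) p)
  -- it suffices to find a peaked filter converging weakly to z
  suffices h : ∃ L : Filter ↥(ball (0 : lp (fun _ : ℕ => ℂ) p) 1), L.NeBot ∧ Peaked L ∧
      ∀ h : StrongDual ℂ (lp (fun _ : ℕ => ℂ) p),
        Tendsto (fun x : ↥(ball (0 : lp (fun _ : ℕ => ℂ) p) 1) => h x) L (𝓝 (z h)) by
    obtain ⟨L, hL1, hL2, hL3⟩ := h
    have := hL1
    obtain ⟨χ, hχ, hχ'⟩ := hP (lp (fun _ : ℕ => ℂ) p) L hL2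
    refine ⟨χ, fun h f hf => ?_, hχ⟩
    apply hχ'
    have : (fun x : ↥(ball (0 : lp (fun _ : ℕ => ℂ) p) 1) => f.1 x) =
        fun x : ↥(ball (0 : lp (fun _ : ℕ => ℂ) p) 1) => h x := funext hf
    rw [this]
    exact hL3 h
  by_cases hp1 : p = 1
  · subst hp1
    obtain ⟨μ, hμ, hμ'⟩ := hB1 z
    have key : ∃ L : Filter ↥(ball (0 : lp (fun _ : ℕ => ℂ) 1) 1), L.NeBot ∧ Peaked L ∧
      ∀ h : ℕ → ℂ, Bdd h → Tendsto (fun x : ↥(ball (0 : lp (fun _ : ℕ => ℂ) 1) 1) =>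
        pr h (fun n => (x : lp (fun _ : ℕ => ℂ) 1) n)) L (𝓝 (μ h)) := by
      rcases hz.lt_or_eq with h | h
      · exact h1i μ ‖z‖ hμ h
      · rw [h] at hμ
        exact h1s μ hμ
    obtain ⟨L, hL1, hL2, hL3⟩ := key
    refine ⟨L, hL1, hL2, fun h => ?_⟩
    have e : (fun x : ↥(ball (0 : lp (fun _ : ℕ => ℂ) 1) 1) => h x) =
        fun x : ↥(ball (0 : lp (fun _ : ℕ => ℂ) 1) 1) =>
          pr (fun n => h (lp.single 1 n (1 : ℂ))) (fun n => (x : lp (fun _ : ℕ => ℂ) 1) n) :=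
      funext fun x => (hμ' h).2.2 x
    rw [e, (hμ' h).2.1]
    exact hL3 _ (hμ' h).1
  · have hp1' : 1 < p := lt_of_le_of_ne Fact.out (Ne.symm hp1)
    obtain ⟨w, hw, hw'⟩ := hRefl p hp1' hp z
    have key : ∃ L : Filter ↥(ball (0 : lp (fun _ : ℕ => ℂ) p) 1), L.NeBot ∧ Peaked L ∧
        ∀ n : ℕ, Tendsto (fun x : ↥(ball (0 : lp (fun _ : ℕ => ℂ) p) 1) =>
          (x : lp (fun _ : ℕ => ℂ) p) n) L (𝓝 (w n)) := by
      rcases (hw.trans hz).lt_or_eq with h | h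
      · exact hIns p hp1' hp w h
      · exact hSph p hp1' hp w h
    obtain ⟨L, hL1, hL2, hL3⟩ := key
    refine ⟨L, hL1, hL2, fun h => ?_⟩
    rw [hw' h]
    exact hWeak p hp1' hp _ L (fun x => (x : lp (fun _ : ℕ => ℂ) p)) w
      (fun x => by
        have := x.2
        rw [mem_ball_zero_iff] at this
        exact this.le) hL3 h

end Pool.Agent.NH62.SB.Assemble
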