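import Pool.Agent.NH62.SB.StmOne

/-! # The bidual of the summable sequences as means on the bounded functions (Goldstine) -/

set_option autoImplicit false

open Metric Set Filter Topology
open scoped ENNReal BoundedContinuousFunction

namespace Pool.Agent.NH62.SB.Bidual1

/-- Approximation of a functional on the dual by vectors, on finitely many functionals. -/
theorem goldstine {X : Type} [NormedAddCommGroup X] [NormedSpace ℂ X]
    (F : StrongDual ℂ (StrongDual ℂ X)) {ι : Type} [Fintype ι]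
    (b : ι → StrongDual ℂ X) (δ : ℝ) (hδ : 0 < δ) :
    ∃ x : X, ‖x‖ ≤ ‖F‖ ∧ ∀ j, ‖b j x - F (b j)‖ < δ := by
  classical
  let _ : NormedSpace ℝ X := NormedSpace.restrictScalars ℝ ℂ X
  let L : X →ₗ[ℂ] (ι → ℂ) := LinearMap.pi fun j => (b j).toLinearMap
  let S : Set (ι → ℂ) := L '' Metric.closedBall (0 : X) ‖F‖
  let p : ι → ℂ := fun j => F (b j)
  have hS : Convex ℝ S := by
    rintro _ ⟨x, hx, rfl⟩ _ ⟨y, hy, rfl⟩ s t hs ht hst
    refine ⟨(s : ℂ) • x + (t : ℂ) • y, ?_, ?_⟩
    · rw [mem_closedBall_zero_iff] at hx hy ⊢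
      calc ‖(s : ℂ) • x + (t : ℂ) • y‖ ≤ ‖(s : ℂ) • x‖ + ‖(t : ℂ) • y‖ := norm_add_le _ _
        _ = s * ‖x‖ + t * ‖y‖ := by
            rw [norm_smul, norm_smul, Complex.norm_real, Complex.norm_real,
              Real.norm_of_nonneg hs, Real.norm_of_nonneg ht]
        _ ≤ s * ‖F‖ + t * ‖F‖ := by gcongr
        _ = ‖F‖ := by rw [← add_mul, hst, one_mul]
    · rw [map_add, map_smul, map_smul]
      rfl
  by_cases hp : p ∈ closure S
  · obtain ⟨_, ⟨x, hx, rfl⟩, hdist⟩ := Metric.mem_closure_iff.1 hp δ hδ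
    refine ⟨x, by simpa using hx, fun j => ?_⟩
    have h1 : dist (p j) (L x j) ≤ dist p (L x) := dist_le_pi_dist p (L x) j
    have h2 : dist (p j) (L x j) < δ := lt_of_le_of_lt h1 hdist
    rw [dist_comm, dist_eq_norm] at h2
    exact h2
  · exfalso
    obtain ⟨f, u, hf1, hf2⟩ := RCLike.geometric_hahn_banach_closed_point (𝕜 := ℂ) hS.closure
      isClosed_closure hp
    let g : StrongDual ℂ X := ∑ j, f (Pi.single j 1) • b j
    have hfv : ∀ v : ι → ℂ, f v = ∑ j, v j * f (Pi.single j 1) := by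
      intro v
      conv_lhs => rw [← Finset.univ_sum_single v, map_sum]
      refine Finset.sum_congr rfl fun j _ => ?_
      have : (Pi.single j (v j) : ι → ℂ) = v j • Pi.single j 1 := by
        rw [← Pi.single_smul]; simp
      rw [this, map_smul, smul_eq_mul]
    have hg : ∀ x, g x = f (L x) := by
      intro x
      rw [hfv]
      simp only [g, _root_.sum_apply]
      refine Finset.sum_congr rfl fun j _ => ?_
      show f (Pi.single j 1) * b j x = L x j * _
      rw [mul_comm]; rfl
    have hFg : F g = f p := by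
      rw [hfv]
      simp only [g, map_sum, map_smul, smul_eq_mul]
      refine Finset.sum_congr rfl fun j _ => ?_
      rw [mul_comm]
    have h1 : ∀ x : X, ‖x‖ ≤ ‖F‖ → (g x).re < u := by
      intro x hx
      rw [hg]
      exact hf1 _ (subset_closure ⟨x, by simpa using hx, rfl⟩)
    have h1' : ∀ x : X, ‖x‖ ≤ ‖F‖ → ‖g x‖ < u := by
      intro x hx
      rcases eq_or_ne (g x) 0 with h0 | h0
      · rw [h0, norm_zero]
        have := h1 0 (by rw [norm_zero]; exact norm_nonneg F)
        simpa using this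
      · have hn : (‖g x‖ : ℂ) ≠ 0 := by simpa using h0
        set c : ℂ := (‖g x‖ : ℂ) / g x with hc
        have hcn : ‖c‖ = 1 := by
          rw [hc, norm_div, Complex.norm_real, norm_norm]
          exact div_self (by simpa using h0)
        have h3 := h1 (c • x) (by rw [norm_smul, hcn, one_mul]; exact hx)
        rw [map_smul, smul_eq_mul, hc, div_mul_cancel₀ _ h0, Complex.ofReal_re] at h3
        exact h3
    have hu : 0 < u := lt_of_le_of_lt (norm_nonneg _) (h1' 0 (by rw [norm_zero]; exact norm_nonneg F))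
    have h2 : ‖F g‖ ≤ ‖F‖ * ‖g‖ := F.le_opNorm g
    have hre : (F g).re ≤ ‖F g‖ := Complex.re_le_norm _
    have hf2' : u < (F g).re := by rw [hFg]; exact hf2
    rcases (norm_nonneg F).eq_or_lt with h0 | h0
    · rw [← h0, zero_mul] at h2
      linarith
    · have h3 : ‖g‖ ≤ u / ‖F‖ := by
        refine g.opNorm_le_bound (by positivity) fun x => ?_
        rcases eq_or_ne x 0 with rfl | hx
        · simp
        have hxn : 0 < ‖x‖ := norm_pos_iff.2 hx
        have e5 : ‖((‖F‖ / ‖x‖ : ℝ) : ℂ) • x‖ = ‖F‖ := by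
          rw [norm_smul, Complex.norm_real, Real.norm_of_nonneg (div_nonneg (norm_nonneg F) hxn.le),
            div_mul_cancel₀ _ hxn.ne']
        have h5 := h1' (((‖F‖ / ‖x‖ : ℝ) : ℂ) • x) e5.le
        rw [map_smul, norm_smul, Complex.norm_real,
          Real.norm_of_nonneg (div_nonneg (norm_nonneg F) hxn.le), div_mul_eq_mul_div,
          div_lt_iff₀ hxn] at h5
        rw [div_mul_eq_mul_div, le_div_iff₀ h0]
        linarith
      have h4 : ‖F‖ * ‖g‖ ≤ u := by
        calc ‖F‖ * ‖g‖ ≤ ‖F‖ * (u / ‖F‖) := by gcongr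
          _ = u := by field_simp
      linarith

/-- the space of summable sequences -/
abbrev L1 : Type := lp (fun _ : ℕ => ℂ) 1

lemma l1_norm (x : L1) : Summable (fun n => ‖x n‖) ∧ ∑' n, ‖x n‖ = ‖x‖ := by
  constructor
  · have h := lp.memℓp x
    rw [memℓp_gen_iff (by norm_num)] at h
    simpa using h
  · rw [lp.norm_eq_tsum_rpow (by norm_num)]
    simp

lemma pr_summable {h : ℕ → ℂ} (hb : Bdd h) {x : ℕ → ℂ} (hx : Summable fun n => ‖x n‖) :
    Summable fun n => h n * x n := by
  obtain ⟨C, hC⟩ := hb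
  refine Summable.of_norm_bounded (g := fun n => C * ‖x n‖) (hx.mul_left C) fun n => ?_
  rw [norm_mul]
  exact mul_le_mul_of_nonneg_right (hC n) (norm_nonneg _)

lemma pr_le {h : ℕ → ℂ} {C : ℝ} (hC : ∀ n, ‖h n‖ ≤ C) {x : ℕ → ℂ}
    (hx : Summable fun n => ‖x n‖) : ‖pr h x‖ ≤ C * ∑' n, ‖x n‖ := by
  rw [← tsum_mul_left]
  refine tsum_of_norm_bounded (hx.mul_left C).hasSum fun n => ?_
  rw [norm_mul]
  exact mul_le_mul_of_nonneg_right (hC n) (norm_nonneg _)

/-- the functional given by a bounded function -/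
noncomputable def Lam (h : ℕ → ℂ) (hb : Bdd h) : StrongDual ℂ L1 :=
  LinearMap.mkContinuous
    { toFun := fun x => pr h (fun n => x n)
      map_add' := by
        intro x y
        unfold pr
        rw [← Summable.tsum_add (pr_summable hb (l1_norm x).1) (pr_summable hb (l1_norm y).1)]
        congr 1
        ext n
        simp [mul_add]
      map_smul' := by
        intro c x
        unfold pr
        rw [RingHom.id_apply, smul_eq_mul, ← tsum_mul_left]
        congr 1
        ext n
        simp only [lp.coeFn_smul, Pi.smul_apply, smul_eq_mul]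
        ring }
    hb.choose (fun x => by
      have := pr_le hb.choose_spec (l1_norm x).1
      rw [(l1_norm x).2] at this
      exact this)

lemma Lam_apply (h : ℕ → ℂ) (hb : Bdd h) (x : L1) : Lam h hb x = pr h (fun n => x n) := rfl

lemma Lam_norm (h : ℕ → ℂ) (hb : Bdd h) (C : ℝ) (hC0 : 0 ≤ C) (hC : ∀ n, ‖h n‖ ≤ C) :
    ‖Lam h hb‖ ≤ C := by
  refine ContinuousLinearMap.opNorm_le_bound _ hC0 fun x => ?_
  rw [Lam_apply]
  have := pr_le hC (l1_norm x).1
  rw [(l1_norm x).2] at this
  exact this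

lemma bdd_coeff (f : StrongDual ℂ L1) (n : ℕ) : ‖f (lp.single 1 n (1 : ℂ))‖ ≤ ‖f‖ := by
  have h := f.le_opNorm (lp.single 1 n (1 : ℂ))
  rw [lp.norm_single (by norm_num), norm_one, mul_one] at h
  exact h

lemma coeff_bdd (f : StrongDual ℂ L1) : Bdd fun n => f (lp.single 1 n (1 : ℂ)) :=
  ⟨‖f‖, bdd_coeff f⟩

lemma apply_eq (f : StrongDual ℂ L1) (x : L1) :
    f x = pr (fun n => f (lp.single 1 n (1 : ℂ))) (fun n => x n) := by
  have h := lp.hasSum_single (E := fun _ : ℕ => ℂ) (p := 1) (by norm_num) x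
  have h2 := f.hasSum h
  rw [← h2.tsum_eq]
  unfold pr
  congr 1
  ext n
  have h3 : lp.single (E := fun _ : ℕ => ℂ) 1 n (x n) = x n • lp.single 1 n (1 : ℂ) := by
    rw [← lp.single_smul]
    simp
  rw [h3, map_smul, smul_eq_mul, mul_comm]

lemma Lam_coeff (f : StrongDual ℂ L1) : Lam _ (coeff_bdd f) = f := by
  apply ContinuousLinearMap.ext
  intro x
  rw [Lam_apply, ← apply_eq]

theorem bidual1 : S_Bidual1 := by
  classical
  intro z
  let μ : (ℕ → ℂ) → ℂ := fun h => if hb : Bdd h then z (Lam h hb) else 0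
  have hμ : ∀ (h : ℕ → ℂ) (hb : Bdd h), μ h = z (Lam h hb) := fun h hb => dif_pos hb
  refine ⟨μ, ⟨norm_nonneg z, ?_, ?_, ?_, ?_, ?_⟩, ?_⟩
  · -- additivity
    intro h k hh hk
    have hs : Bdd fun n => h n + k n := by
      obtain ⟨C, hC⟩ := hh
      obtain ⟨D, hD⟩ := hk
      exact ⟨C + D, fun n => (norm_add_le _ _).trans (add_le_add (hC n) (hD n))⟩
    rw [hμ _ hs, hμ _ hh, hμ _ hk, ← map_add]
    congr 1
    apply ContinuousLinearMap.ext
    intro x
    rw [ContinuousLinearMap.add_apply, Lam_apply, Lam_apply, Lam_apply]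
    unfold pr
    rw [← Summable.tsum_add (pr_summable hh (l1_norm x).1) (pr_summable hk (l1_norm x).1)]
    congr 1
    ext n
    ring
  · intro c h hh
    have hs : Bdd fun n => c * h n := by
      obtain ⟨C, hC⟩ := hh
      exact ⟨‖c‖ * C, fun n => by
        rw [norm_mul]; exact mul_le_mul_of_nonneg_left (hC n) (norm_nonneg _)⟩
    rw [hμ _ hs, hμ _ hh, ← smul_eq_mul, ← map_smul]
    congr 1
    apply ContinuousLinearMap.ext
    intro x
    rw [ContinuousLinearMap.smul_apply, Lam_apply, Lam_apply, smul_eq_mul]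
    unfold pr
    rw [← tsum_mul_left]
    congr 1
    ext n
    ring
  · intro h C hC0 hC
    have hb : Bdd h := ⟨C, hC⟩
    rw [hμ _ hb]
    exact (z.le_opNorm _).trans (mul_le_mul_of_nonneg_left (Lam_norm h hb C hC0 hC)
      (norm_nonneg _))
  · intro ε hε
    obtain ⟨f, hf1, hf2⟩ := z.exists_lt_apply_of_lt_opNorm (show ‖z‖ - ε < ‖z‖ by linarith)
    rcases eq_or_ne (z f) 0 with h0 | h0
    · refine ⟨fun _ => 0, fun n => by simp, ?_⟩
      rw [h0, norm_zero] at hf2
      have h3 : μ (fun _ => 0) = 0 := by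
        have hb : Bdd fun _ : ℕ => (0 : ℂ) := ⟨0, fun n => by simp⟩
        rw [hμ _ hb]
        have : Lam _ hb = 0 := by
          apply ContinuousLinearMap.ext
          intro x
          rw [Lam_apply]
          simp [pr]
        rw [this, map_zero]
      rw [h3]
      simpa using hf2.le
    · set c : ℂ := (‖z f‖ : ℂ) / z f with hc
      have hcn : ‖c‖ = 1 := by
        rw [hc, norm_div, Complex.norm_real, norm_norm]
        exact div_self (by simpa using h0)
      refine ⟨fun n => (c • f) (lp.single 1 n (1 : ℂ)), fun n => ?_, ?_⟩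
      · refine (bdd_coeff (c • f) n).trans ?_
        rw [norm_smul, hcn, one_mul]
        exact hf1.le
      · rw [hμ _ (coeff_bdd (c • f)), Lam_coeff, map_smul, smul_eq_mul, hc, div_mul_cancel₀ _ h0,
          Complex.ofReal_re]
        exact hf2.le
  · intro H hH ε hε
    obtain ⟨x, hx1, hx2⟩ := goldstine z (fun h : {h // h ∈ H} => Lam h.1 (hH h.1 h.2)) ε hε
    refine ⟨fun n => x n, (l1_norm x).1, ?_, fun h hh => ?_⟩
    · rw [(l1_norm x).2]; exact hx1
    · have := hx2 ⟨h, hh⟩
      rw [Lam_apply] at this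
      rw [hμ _ (hH h hh)]
      exact this.le
  · intro f
    refine ⟨coeff_bdd f, ?_, apply_eq f⟩
    rw [hμ _ (coeff_bdd f), Lam_coeff]

end Pool.Agent.NH62.SB.Bidual1
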