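import Pool.Agent.NH62.SB.Abs

/-!
A Bishop type lemma (1/4 - 3/4).
-/

set_option autoImplicit false

open Metric Set Filter Topology
open scoped ENNReal BoundedContinuousFunction

namespace Pool.Agent.NH62.SB.Bishop

open Pool.Agent.NH62.SB

/-- the weights -/
noncomputable def w (n : ℕ) : ℝ := (1 / 2) ^ (n + 1)

lemma w_pos (n : ℕ) : 0 < w n := by unfold w; positivity

lemma w_hasSum : HasSum w 1 := by
  have h := hasSum_geometric_two
  have h2 := h.mul_left (1 / 2 : ℝ)
  have e : (1 / 2 : ℝ) * 2 = 1 := by norm_num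
  rw [e] at h2
  refine h2.congr_fun ?_ |> id
  intro n
  unfold w
  rw [pow_succ]
  ring

lemma w_anti {m n : ℕ} (h : m ≤ n) : w n ≤ w m := by
  unfold w
  exact pow_le_pow_of_le_one (by norm_num) (by norm_num) (by omega)

lemma w_sum (m : ℕ) : ∑ i ∈ Finset.range m, w i = 1 - 2 * w m := by
  induction m with
  | zero => simp [w]
  | succ m ih =>
    rw [Finset.sum_range_succ, ih]
    unfold w
    ring

lemma w_tail (m : ℕ) : ∑' i, w (i + (m + 1)) = w m := by
  have h := w_hasSum.summable.sum_add_tsum_nat_add (m + 1)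
  rw [w_hasSum.tsum_eq, w_sum] at h
  have : w m = 2 * w (m + 1) := by unfold w; ring
  linarith

/-- the key estimate for sequences of complex numbers -/
lemma key (c : ℕ → ℂ) (hc : ∀ n, ‖c n‖ ≤ 4 / 3)
    (hd : ∀ m n, m < n → ‖c n‖ * ‖c m - 1‖ ≤ w n / 12) :
    ‖∑' n, (w n : ℂ) * c n‖ < 1 ∨ (∀ K : ℕ, ∃ n, K ≤ n ∧ 1 / 4 ≤ ‖c n‖) ∧ ∀ n, c n = 1 := by
  have hs : Summable (fun n => w n * ‖c n‖) :=
    Summable.of_nonneg_of_le (fun n => mul_nonneg (w_pos n).le (norm_nonneg _))
      (fun n => mul_le_mul_of_nonneg_left (hc n) (w_pos n).le) (w_hasSum.summable.mul_right _)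
  have hnorm : ‖∑' n, (w n : ℂ) * c n‖ ≤ ∑' n, w n * ‖c n‖ := by
    have e : ∀ n, ‖(w n : ℂ) * c n‖ = w n * ‖c n‖ := fun n => by
      rw [norm_mul, Complex.norm_real, Real.norm_eq_abs, abs_of_pos (w_pos n)]
    have hs' : Summable (fun n => ‖(w n : ℂ) * c n‖) := by
      simp_rw [e]; exact hs
    refine (norm_tsum_le_tsum_norm hs').trans (le_of_eq ?_)
    exact tsum_congr e
  by_cases hinf : ∀ K : ℕ, ∃ n, K ≤ n ∧ 1 / 4 ≤ ‖c n‖
  · right
    refine ⟨hinf, fun i => ?_⟩
    have h1 : ∀ K : ℕ, ‖c i - 1‖ ≤ w K := by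
      intro K
      obtain ⟨n, hn1, hn2⟩ := hinf (max K (i + 1))
      have h2 := hd i n (by have := le_max_right K (i + 1); omega)
      have h3 : 1 / 4 * ‖c i - 1‖ ≤ w n / 12 :=
        (mul_le_mul_of_nonneg_right hn2 (norm_nonneg _)).trans h2
      have h4 := w_anti (le_trans (le_max_left K (i + 1)) hn1)
      have h5 := w_pos n
      linarith
    have h2 : ‖c i - 1‖ ≤ 0 := by
      refine ge_of_tendsto' (w_hasSum.summable.tendsto_atTop_zero) h1
    have h3 : c i - 1 = 0 := norm_le_zero_iff.1 h2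
    exact sub_eq_zero.1 h3
  · left
    push Not at hinf
    refine lt_of_le_of_lt hnorm ?_
    obtain ⟨K, hK⟩ := hinf
    by_cases hempty : ∀ n, ‖c n‖ < 1 / 4
    · have h1 : ∑' n, w n * ‖c n‖ ≤ ∑' n, w n * (1 / 4) :=
        hs.tsum_le_tsum (fun n => mul_le_mul_of_nonneg_left (hempty n).le (w_pos n).le)
          (w_hasSum.summable.mul_right _)
      rw [tsum_mul_right, w_hasSum.tsum_eq] at h1
      linarith
    · push Not at hempty
      obtain ⟨n0, hn0⟩ := hempty
      -- the largest index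
      obtain ⟨m, hm1, hm2⟩ : ∃ m, 1 / 4 ≤ ‖c m‖ ∧ ∀ n, m < n → ‖c n‖ < 1 / 4 := by
        have hfin : {n | 1 / 4 ≤ ‖c n‖}.Finite := by
          refine (Set.finite_lt_nat K).subset fun n hn => ?_
          by_contra hcon
          simp only [Set.mem_ofPred_eq, not_lt] at hcon
          exact absurd (hK n hcon) (not_lt.2 hn)
        obtain ⟨m, hm1, hm2⟩ := hfin.exists_maximal ⟨n0, hn0⟩
        refine ⟨m, hm1, fun n hn => ?_⟩
        by_contra hcon
        push Not at hcon
        have := hm2 hcon hn.le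
        omega
      rw [← hs.sum_add_tsum_nat_add (m + 1), Finset.sum_range_succ]
      have h1 : ∑ i ∈ Finset.range m, w i * ‖c i‖ ≤ (1 + w m / 3) * (1 - 2 * w m) := by
        rw [← w_sum, Finset.mul_sum]
        refine Finset.sum_le_sum fun i hi => ?_
        rw [Finset.mem_range] at hi
        have h2 := hd i m hi
        have h3 : 1 / 4 * ‖c i - 1‖ ≤ w m / 12 :=
          (mul_le_mul_of_nonneg_right hm1 (norm_nonneg _)).trans h2
        have h4 : ‖c i‖ ≤ ‖c i - 1‖ + 1 := by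
          calc ‖c i‖ = ‖(c i - 1) + 1‖ := by ring_nf
            _ ≤ ‖c i - 1‖ + ‖(1 : ℂ)‖ := norm_add_le _ _
            _ = _ := by rw [norm_one]
        rw [mul_comm]
        exact mul_le_mul_of_nonneg_right (by linarith) (w_pos i).le
      have h2 : w m * ‖c m‖ ≤ w m * (4 / 3) := mul_le_mul_of_nonneg_left (hc m) (w_pos m).le
      have h3 : ∑' i, w (i + (m + 1)) * ‖c (i + (m + 1))‖ ≤ w m * (1 / 4) := by
        rw [← w_tail m, ← tsum_mul_right]
        refine Summable.tsum_le_tsum (fun i => ?_) ?_ ?_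
        · exact mul_le_mul_of_nonneg_left (hm2 _ (by omega)).le (w_pos _).le
        · exact (summable_nat_add_iff (f := fun n => w n * ‖c n‖) (m + 1)).2 hs
        · exact ((summable_nat_add_iff (m + 1)).2 w_hasSum.summable).mul_right _
      have h4 := w_pos m
      nlinarith

theorem bishop : S_Bishop := by
  intro A _ _ _ _ hNP φ Es g hg hEs hex
  classical
  set P : A × ℕ → Prop := fun x => x.1 ∈ Es ∧ ‖x.1 * g‖ ≤ w x.2 / 24 with hP
  set r : A × ℕ → A × ℕ → Prop := fun x y => x.2 < y.2 ∧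
    ‖y.1 * (x.1 - algebraMap ℂ A (φ x.1))‖ ≤ w y.2 / 24 with hr
  obtain ⟨s, hs1, hs2⟩ := exists_seq_of_forall_finset_exists P r (by
    intro s hs
    set k : ℕ := (s.image Prod.snd).sup id + 1 with hk
    have hk' : ∀ x ∈ s, x.2 < k := by
      intro x hx
      have : x.2 ≤ (s.image Prod.snd).sup id :=
        Finset.le_sup (f := id) (Finset.mem_image_of_mem Prod.snd hx)
      omega
    obtain ⟨e, he1, he2⟩ := hex (insert g (s.image Prod.fst)) (by
      intro a ha
      rw [Finset.mem_insert, Finset.mem_image] at ha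
      rcases ha with ha | ⟨x, hx, rfl⟩
      · exact Or.inl ha
      · exact Or.inr (hs x hx).1) (w k / 24) (by have := w_pos k; positivity)
    refine ⟨(e, k), ⟨he1, ?_⟩, fun x hx => ⟨hk' x hx, ?_⟩⟩
    · have := he2 g (Finset.mem_insert_self _ _)
      rw [hg, map_zero, sub_zero] at this
      exact this
    · exact he2 x.1 (Finset.mem_insert_of_mem (Finset.mem_image_of_mem Prod.fst hx)))
  set e : ℕ → A := fun n => (s n).1 with he
  set k : ℕ → ℕ := fun n => (s n).2 with hk
  have hkn : ∀ n, n ≤ k n := by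
    have : StrictMono k := strictMono_nat_of_lt_succ fun n => (hs2 n (n + 1) (by omega)).1
    exact this.id_le
  have he1 : ∀ n, ‖e n‖ ≤ 1 := fun n => (hEs _ (hs1 n).1).1
  have he2 : ∀ n, 3 / 4 ≤ ‖φ (e n)‖ := fun n => (hEs _ (hs1 n).1).2
  have he3 : ∀ n, ‖e n * g‖ ≤ w n / 24 := fun n =>
    (hs1 n).2.trans (div_le_div_of_nonneg_right (w_anti (hkn n)) (by norm_num))
  have he4 : ∀ m n, m < n → ‖e n * (e m - algebraMap ℂ A (φ (e m)))‖ ≤ w n / 24 := fun m n h =>
    (hs2 m n h).2.trans (div_le_div_of_nonneg_right (w_anti (hkn n)) (by norm_num))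
  have he0 : ∀ n, φ (e n) ≠ 0 := fun n h => by
    have := he2 n
    rw [h, norm_zero] at this
    norm_num at this
  have hinv : ∀ n, ‖(φ (e n))⁻¹‖ ≤ 4 / 3 := fun n => by
    rw [norm_inv, inv_le_comm₀ (lt_of_lt_of_le (by norm_num) (he2 n)) (by norm_num)]
    norm_num
    exact he2 n
  set f : ℕ → A := fun n => (φ (e n))⁻¹ • e n with hf
  have hf1 : ∀ n, ‖f n‖ ≤ 4 / 3 := fun n => by
    rw [hf]
    refine (norm_smul_le _ _).trans ?_
    calc ‖(φ (e n))⁻¹‖ * ‖e n‖ ≤ 4 / 3 * 1 := mul_le_mul (hinv n) (he1 n) (norm_nonneg _) (by norm_num)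
      _ = 4 / 3 := by norm_num
  have hsum : Summable (fun n => (w n : ℂ) • f n) := by
    refine Summable.of_norm_bounded (g := fun n => w n * (4 / 3)) (w_hasSum.summable.mul_right _)
      fun n => ?_
    refine (norm_smul_le _ _).trans ?_
    rw [Complex.norm_real, Real.norm_eq_abs, abs_of_pos (w_pos n)]
    exact mul_le_mul_of_nonneg_left (hf1 n) (w_pos n).le
  set F : A := ∑' n, (w n : ℂ) • f n with hF
  have hval : ∀ ψ : WeakDual.characterSpace ℂ A, ψ F = ∑' n, (w n : ℂ) * ψ (f n) := by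
    intro ψ
    have h1 := (WeakDual.CharacterSpace.toCLM ψ).map_tsum hsum
    rw [WeakDual.CharacterSpace.coe_toCLM] at h1
    rw [hF, h1]
    refine tsum_congr fun n => ?_
    rw [map_smul, smul_eq_mul]
  have hφf : ∀ n, φ (f n) = 1 := fun n => by
    rw [hf]
    simp only [map_smul, smul_eq_mul]
    exact inv_mul_cancel₀ (he0 n)
  have hφF : φ F = 1 := by
    rw [hval]
    simp_rw [hφf, mul_one]
    have := Complex.hasSum_ofReal.2 w_hasSum
    rw [this.tsum_eq]
    norm_num
  have hkey : ∀ ψ : WeakDual.characterSpace ℂ A, ‖ψ F‖ < 1 ∨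
      (∀ K : ℕ, ∃ n, K ≤ n ∧ 1 / 4 ≤ ‖ψ (f n)‖) ∧ ∀ n, ψ (f n) = 1 := by
    intro ψ
    rw [hval]
    refine key (fun n => ψ (f n)) (fun n => ?_) fun m n hmn => ?_
    · exact (AlgHom.norm_apply_le_self ψ (f n)).trans (hf1 n)
    · rw [← norm_mul]
      have e1 : ψ (f n) * (ψ (f m) - 1) =
          ((φ (e n))⁻¹ * (φ (e m))⁻¹) * ψ (e n * (e m - algebraMap ℂ A (φ (e m)))) := by
        rw [hf]
        simp only [map_smul, smul_eq_mul, map_mul, map_sub, AlgHomClass.commutes,
          Algebra.algebraMap_self, RingHom.id_apply]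
        have := he0 m
        field_simp
      rw [e1, norm_mul, norm_mul]
      have h2 : ‖ψ (e n * (e m - algebraMap ℂ A (φ (e m))))‖ ≤ w n / 24 :=
        (AlgHom.norm_apply_le_self ψ _).trans (he4 m n hmn)
      have h3 : ‖(φ (e n))⁻¹‖ * ‖(φ (e m))⁻¹‖ ≤ 4 / 3 * (4 / 3) :=
        mul_le_mul (hinv n) (hinv m) (norm_nonneg _) (by norm_num)
      calc _ ≤ 4 / 3 * (4 / 3) * (w n / 24) := mul_le_mul h3 h2 (norm_nonneg _) (by norm_num)
        _ ≤ w n / 12 := by have := w_pos n; linarith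
  refine ⟨F, ?_, hφF, fun ψ hψ => ?_⟩
  · refine hNP F 1 (by norm_num) fun ψ => ?_
    rcases hkey ψ with h | ⟨-, h⟩
    · exact h.le
    · have : ψ F = 1 := by
        rw [hval]
        simp_rw [h, mul_one]
        have := Complex.hasSum_ofReal.2 w_hasSum
        rw [this.tsum_eq]
        norm_num
      rw [this, norm_one]
  · rcases hkey ψ with h | ⟨h, -⟩
    · exact h
    · exfalso
      have h1 : ∀ K : ℕ, ‖ψ g‖ ≤ w K := by
        intro K
        obtain ⟨n, hn1, hn2⟩ := h K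
        have h2 : ‖ψ (f n)‖ * ‖ψ g‖ ≤ w n / 18 := by
          rw [← norm_mul, ← map_mul]
          refine (AlgHom.norm_apply_le_self ψ _).trans ?_
          rw [hf]
          simp only [smul_mul_assoc]
          refine (norm_smul_le _ _).trans ?_
          calc ‖(φ (e n))⁻¹‖ * ‖e n * g‖ ≤ 4 / 3 * (w n / 24) :=
                mul_le_mul (hinv n) (he3 n) (norm_nonneg _) (by norm_num)
            _ = w n / 18 := by ring
        have h3 : 1 / 4 * ‖ψ g‖ ≤ w n / 18 :=
          (mul_le_mul_of_nonneg_right hn2 (norm_nonneg _)).trans h2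
        have h4 := w_anti hn1
        have h5 := w_pos n
        linarith
      have h2 : ‖ψ g‖ ≤ 0 := ge_of_tendsto' (w_hasSum.summable.tendsto_atTop_zero) h1
      exact hψ (norm_le_zero_iff.1 h2)

end Pool.Agent.NH62.SB.Bishop
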