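import Pool.Agent.NH62.SB.Abs

/-!
The algebra is complete.
-/

set_option autoImplicit false

open Metric Set Filter Topology
open scoped ENNReal BoundedContinuousFunction

namespace Pool.Agent.NH62.SB.Complete

open Pool.Agent.NH62.SB

section

variable {X : Type} [NormedAddCommGroup X] [NormedSpace ℂ X]

/-- Cauchy's estimate for the Frechet derivative -/
lemma cauchy (G : X → ℂ) (hG : DifferentiableOn ℂ G (ball (0 : X) 1)) (C : ℝ)
    (hC : ∀ x ∈ ball (0 : X) 1, ‖G x‖ ≤ C) (y : X) (R : ℝ) (hR : 0 < R) (hy : ‖y‖ + R < 1) :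
    ‖fderiv ℂ G y‖ ≤ C / R := by
  have hy0 : 0 ≤ ‖y‖ := norm_nonneg y
  have hC0 : 0 ≤ C := (norm_nonneg _).trans (hC y (by rw [mem_ball_zero_iff]; linarith))
  refine ContinuousLinearMap.opNorm_le_of_unit_norm (by positivity) fun v hv => ?_
  set L : ℂ → X := fun t => y + t • v with hL
  have hLmem : ∀ t : ℂ, ‖t‖ ≤ R → L t ∈ ball (0 : X) 1 := by
    intro t ht
    rw [mem_ball_zero_iff]
    refine lt_of_le_of_lt (norm_add_le _ _) ?_
    rw [norm_smul, hv, mul_one]
    linarith
  have hLd : Differentiable ℂ L := by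
    intro t
    exact (differentiableAt_id.smul_const v).const_add y
  have hd : ∀ t : ℂ, ‖t‖ ≤ R → DifferentiableAt ℂ (fun t => G (L t)) t := by
    intro t ht
    have h1 : DifferentiableAt ℂ G (L t) := hG.differentiableAt (isOpen_ball.mem_nhds (hLmem t ht))
    exact h1.comp t (hLd t)
  have hdc : DiffContOnCl ℂ (fun t => G (L t)) (ball (0 : ℂ) R) := by
    constructor
    · intro t ht
      rw [mem_ball_zero_iff] at ht
      exact (hd t ht.le).differentiableWithinAt
    · intro t ht
      have ht' := closure_ball_subset_closedBall ht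
      rw [mem_closedBall_zero_iff] at ht'
      exact (hd t ht').continuousAt.continuousWithinAt
  have h1 := Complex.norm_deriv_le_of_forall_mem_sphere_norm_le hR hdc (C := C) fun t ht => by
    rw [mem_sphere_zero_iff_norm] at ht
    exact hC _ (hLmem t ht.le)
  have h2 : deriv (fun t => G (L t)) 0 = fderiv ℂ G y v := by
    have h3 : HasFDerivAt G (fderiv ℂ G y) (L 0) := by
      have e : L 0 = y := by simp [hL]
      rw [e]
      exact (hG.differentiableAt (isOpen_ball.mem_nhds (by
        rw [mem_ball_zero_iff]; linarith))).hasFDerivAt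
    have h4 : HasDerivAt L v 0 := by
      have := ((hasDerivAt_id (0 : ℂ)).smul_const v).const_add y
      rw [one_smul] at this
      exact this
    exact (h3.comp_hasDerivAt 0 h4).deriv
  rw [← h2]
  exact h1

/-- uniform limits of holomorphic functions on the ball -/
lemma limit (G : ℕ → X → ℂ) (hG : ∀ n, DifferentiableOn ℂ (G n) (ball (0 : X) 1)) (F : X → ℂ)
    (hu : TendstoUniformlyOn G F atTop (ball (0 : X) 1)) :
    DifferentiableOn ℂ F (ball (0 : X) 1) := by
  intro x0 hx0
  rw [mem_ball_zero_iff] at hx0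
  set R : ℝ := (1 - ‖x0‖) / 4 with hR
  have hR0 : 0 < R := by rw [hR]; linarith
  have hcau : UniformCauchySeqOn (fun n y => fderiv ℂ (G n) y) atTop (ball x0 R) := by
    have hu2 := hu.uniformCauchySeqOn
    rw [Metric.uniformCauchySeqOn_iff] at hu2 ⊢
    intro ε hε
    obtain ⟨N, hN⟩ := hu2 (ε * R / 2) (by positivity)
    refine ⟨N, fun m hm n hn y hy => ?_⟩
    have hyn : ‖y‖ + R < 1 := by
      rw [mem_ball, dist_eq_norm] at hy
      have h1 : ‖y‖ ≤ ‖y - x0‖ + ‖x0‖ := by
        calc ‖y‖ = ‖(y - x0) + x0‖ := by rw [sub_add_cancel]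
          _ ≤ _ := norm_add_le _ _
      linarith
    have hyb : y ∈ ball (0 : X) 1 := by
      rw [mem_ball_zero_iff]; linarith
    have h1 : ∀ x ∈ ball (0 : X) 1, ‖G m x - G n x‖ ≤ ε * R / 2 := by
      intro x hx
      have := hN m hm n hn x hx
      rw [dist_eq_norm] at this
      exact this.le
    have h2 := cauchy (fun x => G m x - G n x) ((hG m).sub (hG n)) _ h1 y R hR0 hyn
    have h3 : fderiv ℂ (fun x => G m x - G n x) y = fderiv ℂ (G m) y - fderiv ℂ (G n) y :=
      fderiv_fun_sub ((hG m).differentiableAt (isOpen_ball.mem_nhds hyb))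
        ((hG n).differentiableAt (isOpen_ball.mem_nhds hyb))
    rw [h3] at h2
    rw [dist_eq_norm]
    refine lt_of_le_of_lt h2 ?_
    have : ε * R / 2 / R = ε / 2 := by field_simp
    rw [this]
    linarith
  have hlim : ∀ y ∈ ball x0 R, ∃ g : X →L[ℂ] ℂ, Tendsto (fun n => fderiv ℂ (G n) y) atTop (𝓝 g) :=
    fun y hy => cauchySeq_tendsto_of_complete (hcau.cauchySeq hy)
  choose! g hg using hlim
  have hx0mem : x0 ∈ ball x0 R := mem_ball_self hR0
  have hsub : ball x0 R ⊆ ball (0 : X) 1 := by
    intro y hy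
    rw [mem_ball, dist_eq_norm] at hy
    rw [mem_ball_zero_iff]
    have h1 : ‖y‖ ≤ ‖y - x0‖ + ‖x0‖ := by
      calc ‖y‖ = ‖(y - x0) + x0‖ := by rw [sub_add_cancel]
        _ ≤ _ := norm_add_le _ _
    linarith
  have h := hasFDerivAt_of_tendstoUniformlyOn isOpen_ball
    (hcau.tendstoUniformlyOn_of_tendsto hg)
    (fun n y hy => ((hG n).differentiableAt (isOpen_ball.mem_nhds (hsub hy))).hasFDerivAt)
    (fun y hy => hu.tendsto_at (hsub hy)) hx0mem
  exact h.differentiableAt.differentiableWithinAt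

end

theorem complete : S_Complete := by
  intro X _ _
  classical
  have hclosed : IsClosed ((Au X : Set (↥(ball (0 : X) 1) →ᵇ ℂ))) := by
    rw [← isSeqClosed_iff_isClosed]
    intro f f0 hf hlim
    have hun : TendstoUniformly (fun n => ⇑(f n)) f0 atTop :=
      BoundedContinuousFunction.tendsto_iff_tendstoUniformly.1 hlim
    refine ⟨?_, ?_⟩
    · exact hun.uniformContinuous (Frequently.of_forall fun n => (hf n).1)
    · choose G hG1 hG2 using fun n => (hf n).2
      refine ⟨fun x => if h : x ∈ ball (0 : X) 1 then f0 ⟨x, h⟩ else 0, ?_, fun x => by simp⟩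
      refine limit G hG1 _ ?_
      rw [Metric.tendstoUniformlyOn_iff]
      rw [Metric.tendstoUniformly_iff] at hun
      intro ε hε
      filter_upwards [hun ε hε] with n hn x hx
      have := hn ⟨x, hx⟩
      rw [hG2 n ⟨x, hx⟩] at this
      rw [dif_pos hx]
      exact this
  exact hclosed.completeSpace_coe

end Pool.Agent.NH62.SB.Complete
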