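import Pool.Agent.NH62.SB.StmP

/-!
Quantitative convexity of the `r`-th power of the modulus.
-/

set_option autoImplicit false

open Metric Set Filter Topology
open scoped ENNReal BoundedContinuousFunction

namespace Pool.Agent.NH62.SB.DIneq

open Pool.Agent.NH62.SB

lemma norm_Jr {r : ℝ} (hr : 1 < r) (z : ℂ) : ‖Jr r z‖ = ‖z‖ ^ (r - 1) := by
  unfold Jr
  rw [norm_mul, Complex.norm_real, Real.norm_eq_abs, abs_of_nonneg (by positivity),
    RingHomIsometric.norm_map]
  rcases eq_or_ne z 0 with rfl | hz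
  · rw [norm_zero, mul_zero, Real.zero_rpow (by linarith)]
  · have h0 : 0 < ‖z‖ := norm_pos_iff.2 hz
    have : ‖z‖ ^ (r - 2) * ‖z‖ = ‖z‖ ^ (r - 2) * ‖z‖ ^ (1 : ℝ) := by rw [Real.rpow_one]
    rw [this, ← Real.rpow_add h0]
    congr 1
    ring

lemma Jr_mul {r : ℝ} (hr : 1 < r) (z : ℂ) : Jr r z * z = ((‖z‖ ^ r : ℝ) : ℂ) := by
  unfold Jr
  rw [mul_assoc, mul_comm ((starRingEnd ℂ) z), Complex.mul_conj, Complex.normSq_eq_norm_sq]
  rw [← Complex.ofReal_mul]
  congr 1
  rcases eq_or_ne z 0 with rfl | hz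
  · rw [norm_zero, Real.zero_rpow (by linarith : r ≠ 0)]
    simp
  · have h0 : 0 < ‖z‖ := norm_pos_iff.2 hz
    rw [← Real.rpow_natCast, ← Real.rpow_add h0]
    congr 1
    norm_num

/-- the tangent line inequality -/
lemma tangent {r : ℝ} (hr : 1 < r) {a b : ℝ} (ha : 0 ≤ a) (hb : 0 ≤ b) :
    a ^ r + r * (a ^ (r - 1) * b - a ^ r) ≤ b ^ r ∧
      (a ^ r + r * (a ^ (r - 1) * b - a ^ r) = b ^ r → a = b) := by
  rcases eq_or_lt_of_le ha with h | h
  · subst h
    rw [Real.zero_rpow (by linarith : r ≠ 0), Real.zero_rpow (by linarith : r - 1 ≠ 0)]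
    simp only [zero_mul, sub_self, mul_zero, add_zero]
    refine ⟨by positivity, fun h2 => ?_⟩
    by_contra hne
    have hb' : 0 < b := lt_of_le_of_ne hb hne
    have : 0 < b ^ r := by positivity
    linarith
  · have har : 0 < a ^ r := by positivity
    have e1 : a ^ (r - 1) * b = a ^ r * (b / a) := by
      rw [Real.rpow_sub_one h.ne']
      field_simp
    have e2 : b ^ r = a ^ r * (b / a) ^ r := by
      rw [Real.div_rpow hb ha]
      field_simp
    have e3 : a ^ r + r * (a ^ (r - 1) * b - a ^ r) = a ^ r * (1 + r * (b / a - 1)) := by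
      rw [e1]; ring
    have hs : -1 ≤ b / a - 1 := by
      have : 0 ≤ b / a := by positivity
      linarith
    rw [e3, e2]
    constructor
    · have h1 := one_add_mul_self_le_rpow_one_add hs hr.le
      rw [show 1 + (b / a - 1) = b / a by ring] at h1
      exact mul_le_mul_of_nonneg_left h1 har.le
    · intro h2
      by_contra hne
      have hs' : b / a - 1 ≠ 0 := by
        intro h3
        apply hne
        field_simp at h3
        linarith
      have h1 := one_add_mul_self_lt_rpow_one_add hs hs' hr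
      rw [show 1 + (b / a - 1) = b / a by ring] at h1
      have := mul_lt_mul_of_pos_left h1 har
      linarith

lemma re_eq {r : ℝ} (hr : 1 < r) (z w : ℂ) :
    (Jr r z * (w - z)).re = (Jr r z * w).re - ‖z‖ ^ r := by
  rw [mul_sub, Complex.sub_re, Jr_mul hr, Complex.ofReal_re]

lemma re_le {r : ℝ} (hr : 1 < r) (z w : ℂ) : (Jr r z * w).re ≤ ‖z‖ ^ (r - 1) * ‖w‖ := by
  refine (Complex.re_le_norm _).trans (le_of_eq ?_)
  rw [norm_mul, norm_Jr hr]

lemma nonneg {r : ℝ} (hr : 1 < r) (z w : ℂ) :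
    ‖z‖ ^ r + r * (Jr r z * (w - z)).re ≤ ‖w‖ ^ r := by
  refine le_trans ?_ (tangent hr (norm_nonneg z) (norm_nonneg w)).1
  rw [re_eq hr]
  have := re_le hr z w
  have : r * ((Jr r z * w).re - ‖z‖ ^ r) ≤ r * (‖z‖ ^ (r - 1) * ‖w‖ - ‖z‖ ^ r) :=
    mul_le_mul_of_nonneg_left (by linarith) (by linarith)
  linarith

lemma eq_of {r : ℝ} (hr : 1 < r) (z w : ℂ)
    (h : ‖w‖ ^ r ≤ ‖z‖ ^ r + r * (Jr r z * (w - z)).re) : w = z := by
  have h1 := re_le hr z w
  have h2 := (tangent hr (norm_nonneg z) (norm_nonneg w)).1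
  rw [re_eq hr] at h
  have h3 : r * ((Jr r z * w).re - ‖z‖ ^ r) ≤ r * (‖z‖ ^ (r - 1) * ‖w‖ - ‖z‖ ^ r) :=
    mul_le_mul_of_nonneg_left (by linarith) (by linarith)
  have h4 := (tangent hr (norm_nonneg z) (norm_nonneg w)).2 (by linarith)
  have h5 : (Jr r z * w).re = ‖z‖ ^ (r - 1) * ‖w‖ := by
    have : r * ((Jr r z * w).re - ‖z‖ ^ r) = r * (‖z‖ ^ (r - 1) * ‖w‖ - ‖z‖ ^ r) := by linarith
    have := mul_left_cancel₀ (by linarith : r ≠ 0) this
    linarith
  rcases eq_or_ne z 0 with rfl | hz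
  · rw [norm_zero] at h4
    exact norm_eq_zero.1 h4.symm
  · have h0 : 0 < ‖z‖ := norm_pos_iff.2 hz
    have e : (Jr r z * w).re = ‖z‖ ^ (r - 2) * ((starRingEnd ℂ) z * w).re := by
      unfold Jr
      rw [mul_assoc, Complex.re_ofReal_mul]
    have e2 : ‖z‖ ^ (r - 1) * ‖w‖ = ‖z‖ ^ (r - 2) * ‖z‖ ^ 2 := by
      rw [← h4]
      have : ‖z‖ ^ (r - 1) * ‖z‖ = ‖z‖ ^ (r - 1) * ‖z‖ ^ (1 : ℝ) := by rw [Real.rpow_one]
      rw [this, ← Real.rpow_natCast, ← Real.rpow_add h0, ← Real.rpow_add h0]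
      congr 1
      push_cast
      ring
    rw [e, e2] at h5
    have h6 := mul_left_cancel₀ (by positivity : ‖z‖ ^ (r - 2) ≠ 0) h5
    have h7 : ‖w‖ ^ 2 = ‖z‖ ^ 2 := by rw [h4]
    rw [Complex.sq_norm, Complex.normSq_apply] at h6
    rw [Complex.sq_norm, Complex.normSq_apply, Complex.sq_norm, Complex.normSq_apply] at h7
    simp only [Complex.mul_re, Complex.conj_re, Complex.conj_im] at h6
    have h8 : (w.re - z.re) ^ 2 + (w.im - z.im) ^ 2 = 0 := by nlinarith
    have h9 : w.re - z.re = 0 := by nlinarith [sq_nonneg (w.re - z.re), sq_nonneg (w.im - z.im)]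
    have h10 : w.im - z.im = 0 := by nlinarith [sq_nonneg (w.re - z.re), sq_nonneg (w.im - z.im)]
    exact Complex.ext (by linarith) (by linarith)

theorem dineq : S_D := by
  intro r hr
  refine ⟨fun z => ⟨norm_Jr hr z, Jr_mul hr z⟩, nonneg hr, fun z ε hε => ?_⟩
  set D : ℂ → ℝ := fun w => ‖w‖ ^ r - ‖z‖ ^ r - r * (Jr r z * (w - z)).re with hD
  have hcont : Continuous D := by
    refine Continuous.sub (Continuous.sub ?_ continuous_const) ?_
    · exact continuous_norm.rpow_const fun _ => Or.inr (by linarith)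
    · exact continuous_const.mul
        (Complex.continuous_re.comp (continuous_const.mul (continuous_id.sub continuous_const)))
  set K : Set ℂ := closedBall 0 1 ∩ {w | ε ≤ ‖w - z‖} with hK
  have hKc : IsCompact K := (isCompact_closedBall (0 : ℂ) 1).inter_right
    (isClosed_le continuous_const (continuous_id.sub continuous_const).norm)
  rcases K.eq_empty_or_nonempty with h | h
  · refine ⟨1, one_pos, fun w hw _ => ?_⟩
    by_contra hcon
    push Not at hcon
    have : w ∈ K := ⟨by rw [mem_closedBall_zero_iff]; exact hw, hcon.le⟩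
    rw [h] at this
    exact this
  · obtain ⟨w0, hw0, hmin⟩ := hKc.exists_isMinOn h hcont.continuousOn
    have hpos : 0 < D w0 := by
      by_contra hcon
      push Not at hcon
      have h1 : w0 = z := eq_of hr z w0 (by simp only [hD] at hcon; linarith)
      have h2 : ε ≤ ‖w0 - z‖ := hw0.2
      rw [h1, sub_self, norm_zero] at h2
      linarith
    refine ⟨D w0 / 2, by positivity, fun w hw hle => ?_⟩
    by_contra hcon
    push Not at hcon
    have : w ∈ K := ⟨by rw [mem_closedBall_zero_iff]; exact hw, hcon.le⟩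
    have h1 : D w0 ≤ D w := hmin this
    have h2 : D w ≤ D w0 / 2 := hle
    linarith

end Pool.Agent.NH62.SB.DIneq
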