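import Mathlib

/-!
The uniform algebra of holomorphic, uniformly continuous functions on the open unit ball of a
complex Banach space, its characters, and strong boundary points.
-/

set_option autoImplicit false

open Metric Set Filter Topology
open scoped ENNReal BoundedContinuousFunction

namespace Pool.Agent.NH62.SB

/-- The algebra of all bounded functions on the open unit ball of `X` which are uniformly
continuous and holomorphic (complex Frechet differentiable at every point of the ball), as a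
subalgebra of the bounded continuous functions on the ball with the sup norm. -/
def Au (X : Type) [NormedAddCommGroup X] [NormedSpace ℂ X] :
    Subalgebra ℂ (↥(ball (0 : X) 1) →ᵇ ℂ) where
  carrier := {f | UniformContinuous f ∧
    ∃ F : X → ℂ, DifferentiableOn ℂ F (ball (0 : X) 1) ∧ ∀ x : ↥(ball (0 : X) 1), f x = F x}
  mul_mem' := by
    rintro f g ⟨hf, F, hF, hF'⟩ ⟨hg, G, hG, hG'⟩
    refine ⟨?_, fun x => F x * G x, hF.mul hG, fun x => by simp [hF', hG']⟩
    have hfb := f.norm_coe_le_norm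
    have hgb := g.norm_coe_le_norm
    rw [Metric.uniformContinuous_iff] at hf hg ⊢
    intro ε hε
    have hpos : 0 < ‖f‖ + ‖g‖ + 1 := by positivity
    obtain ⟨δ₁, hδ₁, h₁⟩ := hf (ε / (‖f‖ + ‖g‖ + 1)) (div_pos hε hpos)
    obtain ⟨δ₂, hδ₂, h₂⟩ := hg (ε / (‖f‖ + ‖g‖ + 1)) (div_pos hε hpos)
    refine ⟨min δ₁ δ₂, lt_min hδ₁ hδ₂, fun {a b} hab => ?_⟩
    have e₁ := h₁ (lt_of_lt_of_le hab (min_le_left _ _))
    have e₂ := h₂ (lt_of_lt_of_le hab (min_le_right _ _))
    rw [dist_eq_norm] at e₁ e₂ ⊢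
    have key : (f * g) a - (f * g) b = f a * (g a - g b) + (f a - f b) * g b := by
      simp; ring
    rw [key]
    calc ‖f a * (g a - g b) + (f a - f b) * g b‖
        ≤ ‖f a‖ * ‖g a - g b‖ + ‖f a - f b‖ * ‖g b‖ := by
          refine (norm_add_le _ _).trans ?_
          rw [norm_mul, norm_mul]
      _ ≤ ‖f‖ * ‖g a - g b‖ + ‖f a - f b‖ * ‖g‖ := by
          gcongr
          · exact hfb a
          · exact hgb b
      _ < (‖f‖ + ‖g‖ + 1) * (ε / (‖f‖ + ‖g‖ + 1)) := by
          have hf0 := norm_nonneg f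
          have hg0 := norm_nonneg g
          have h3 : 0 < ε / (‖f‖ + ‖g‖ + 1) := div_pos hε hpos
          nlinarith
      _ = ε := by field_simp
  add_mem' := by
    rintro f g ⟨hf, F, hF, hF'⟩ ⟨hg, G, hG, hG'⟩
    exact ⟨hf.add hg, fun x => F x + G x, hF.add hG, fun x => by simp [hF', hG']⟩
  algebraMap_mem' := fun c =>
    ⟨uniformContinuous_const, fun _ => c, differentiableOn_const _, fun _ => rfl⟩

/-- Strong boundary points of (the character space of) a commutative complex Banach algebra. -/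
def IsSB {A : Type} [NormedCommRing A] [NormedAlgebra ℂ A]
    (φ : WeakDual.characterSpace ℂ A) : Prop :=
  ∀ U ∈ 𝓝 φ, ∀ ε : ℝ, 0 < ε → ∃ f : A, ‖f‖ = 1 ∧ φ f = 1 ∧
    ∀ ψ : WeakDual.characterSpace ℂ A, ψ ∉ U → ‖ψ f‖ < ε

/-- The norm property: an element is bounded in norm by `c` if all characters are bounded by `c`
at it. -/
def NP (A : Type) [NormedCommRing A] [NormedAlgebra ℂ A] : Prop :=
  ∀ (f : A) (c : ℝ), 0 ≤ c → (∀ ψ : WeakDual.characterSpace ℂ A, ‖ψ f‖ ≤ c) → ‖f‖ ≤ c

section Mem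

variable {X : Type} [NormedAddCommGroup X] [NormedSpace ℂ X]

/-- Functions on `X` whose restriction to the open unit ball lies in the algebra `Au X`. -/
def MemAu (F : X → ℂ) : Prop :=
  DifferentiableOn ℂ F (ball (0 : X) 1) ∧ UniformContinuousOn F (ball (0 : X) 1) ∧
    ∃ C : ℝ, ∀ x ∈ ball (0 : X) 1, ‖F x‖ ≤ C

/-- A filter on the open unit ball which is approximately peaked: every member of the filter
contains a set on which a function of the algebra of norm at most one is close to one, while its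
limit along the filter is as close to one as desired. -/
def Peaked (L : Filter ↥(ball (0 : X) 1)) : Prop :=
  ∀ W ∈ L, ∃ δ : ℝ, 0 < δ ∧ ∀ κ : ℝ, 0 < κ → ∃ F : X → ℂ, MemAu F ∧
    (∀ x ∈ ball (0 : X) 1, ‖F x‖ ≤ 1) ∧
    (∃ c : ℂ, Tendsto (fun x : ↥(ball (0 : X) 1) => F x) L (𝓝 c) ∧ ‖c - 1‖ ≤ κ) ∧
    ∀ x : ↥(ball (0 : X) 1), ‖F x - 1‖ ≤ δ → x ∈ W

end Mem

end Pool.Agent.NH62.SB
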