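import Pool.Agent.NH62.SB.StmOne

/-!
Good points lie in a prescribed member of the filter.
-/

set_option autoImplicit false

open Metric Set Filter Topology
open scoped ENNReal BoundedContinuousFunction

namespace Pool.Agent.NH62.SB.GoodImp

lemma ncut (E : Set ℕ) (x : ℕ → ℂ) (n : ℕ) : ‖cut E x n‖ ≤ ‖x n‖ := by
  unfold cut
  exact norm_indicator_le_norm_self x n

lemma scut {x : ℕ → ℂ} (hx : Summable fun n => ‖x n‖) (E : Set ℕ) :
    Summable fun n => ‖cut E x n‖ :=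
  Summable.of_nonneg_of_le (fun _ => norm_nonneg _) (ncut E x) hx

lemma mass_le {x : ℕ → ℂ} (hx : Summable fun n => ‖x n‖) (E : Set ℕ) :
    mass E x ≤ ∑' n, ‖x n‖ :=
  (scut hx E).tsum_le_tsum (ncut E x) hx

lemma mass_nonneg (E : Set ℕ) (x : ℕ → ℂ) : 0 ≤ mass E x := tsum_nonneg fun _ => norm_nonneg _

lemma cut_mem {E : Set ℕ} {x : ℕ → ℂ} {n : ℕ} (h : n ∈ E) : cut E x n = x n :=
  indicator_of_mem h x

lemma cut_nmem {E : Set ℕ} {x : ℕ → ℂ} {n : ℕ} (h : n ∉ E) : cut E x n = 0 :=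
  indicator_of_notMem h x

lemma mass_mono {x : ℕ → ℂ} (hx : Summable fun n => ‖x n‖) {E E' : Set ℕ} (h : E ⊆ E') :
    mass E x ≤ mass E' x := by
  refine (scut hx E).tsum_le_tsum (fun n => ?_) (scut hx E')
  by_cases hn : n ∈ E
  · rw [cut_mem hn, cut_mem (h hn)]
  · rw [cut_nmem hn, norm_zero]
    exact norm_nonneg _

lemma bdd_cut {h : ℕ → ℂ} (hb : Bdd h) (E : Set ℕ) : Bdd (cut E h) := by
  obtain ⟨C, hC⟩ := hb
  exact ⟨C, fun n => (ncut E h n).trans (hC n)⟩

lemma spr {h x : ℕ → ℂ} (hb : Bdd h) (hx : Summable fun n => ‖x n‖) :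
    Summable fun n => h n * x n := by
  obtain ⟨C, hC⟩ := hb
  refine Summable.of_norm_bounded (hx.mul_left C) fun n => ?_
  rw [norm_mul]
  exact mul_le_mul_of_nonneg_right (hC n) (norm_nonneg _)

lemma cut_add (E : Set ℕ) (h : ℕ → ℂ) (n : ℕ) : cut Eᶜ h n + cut E h n = h n := by
  by_cases hn : n ∈ E
  · rw [cut_mem hn, cut_nmem (by simpa using hn), zero_add]
  · rw [cut_nmem hn, cut_mem (by simpa using hn), add_zero]

lemma pr_split {h x : ℕ → ℂ} (hb : Bdd h) (hx : Summable fun n => ‖x n‖) (E : Set ℕ) :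
    pr h x = pr (cut Eᶜ h) x + pr (cut E h) x := by
  unfold pr
  rw [← (spr (bdd_cut hb Eᶜ) hx).tsum_add (spr (bdd_cut hb E) hx)]
  refine tsum_congr fun n => ?_
  rw [← add_mul, cut_add]

lemma mu_split {μ : (ℕ → ℂ) → ℂ} {M : ℝ} (hμ : Mean μ M) {h : ℕ → ℂ} (hb : Bdd h) (E : Set ℕ) :
    μ h = μ (cut Eᶜ h) + μ (cut E h) := by
  rw [← hμ.add _ _ (bdd_cut hb Eᶜ) (bdd_cut hb E)]
  congr 1
  funext n
  rw [cut_add]

/-! ### the bilinear form -/

lemma ker_le (a : ℕ → ℕ → Prop) (n m : ℕ) : ‖(ker a n m : ℂ)‖ ≤ 3 / 2 := by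
  rw [Complex.norm_real]
  unfold ker
  split_ifs <;> norm_num

/-- the bilinear form -/
noncomputable def Bf (a : ℕ → ℕ → Prop) (x y : ℕ → ℂ) : ℂ :=
  ∑' q : ℕ × ℕ, (ker a q.1 q.2 : ℂ) * x q.1 * y q.2

lemma sBf (a : ℕ → ℕ → Prop) {x y : ℕ → ℂ} (hx : Summable fun n => ‖x n‖)
    (hy : Summable fun n => ‖y n‖) :
    Summable fun q : ℕ × ℕ => (ker a q.1 q.2 : ℂ) * x q.1 * y q.2 := by
  have h := Summable.mul_norm hx hy
  refine Summable.of_norm_bounded (h.mul_left (3 / 2)) fun q => ?_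
  rw [mul_assoc, norm_mul]
  exact mul_le_mul_of_nonneg_right (ker_le a _ _) (norm_nonneg _)

lemma Bf_add_left (a : ℕ → ℕ → Prop) {x x' y : ℕ → ℂ} (hx : Summable fun n => ‖x n‖)
    (hx' : Summable fun n => ‖x' n‖) (hy : Summable fun n => ‖y n‖) :
    Bf a (fun n => x n + x' n) y = Bf a x y + Bf a x' y := by
  unfold Bf
  rw [← (sBf a hx hy).tsum_add (sBf a hx' hy)]
  refine tsum_congr fun q => ?_
  ring

lemma Bf_add_right (a : ℕ → ℕ → Prop) {x y y' : ℕ → ℂ} (hx : Summable fun n => ‖x n‖)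
    (hy : Summable fun n => ‖y n‖) (hy' : Summable fun n => ‖y' n‖) :
    Bf a x (fun n => y n + y' n) = Bf a x y + Bf a x y' := by
  unfold Bf
  rw [← (sBf a hx hy).tsum_add (sBf a hx hy')]
  refine tsum_congr fun q => ?_
  ring

lemma ker_symm {a : ℕ → ℕ → Prop} (ha : TF a) (n m : ℕ) : ker a n m = ker a m n := by
  unfold ker
  by_cases h : a n m
  · rw [if_pos h, if_pos (ha.1 n m h)]
  · rw [if_neg h, if_neg (fun h' => h (ha.1 m n h'))]

lemma Bf_symm {a : ℕ → ℕ → Prop} (ha : TF a) (x y : ℕ → ℂ) : Bf a x y = Bf a y x := by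
  unfold Bf
  rw [← (Equiv.prodComm ℕ ℕ).tsum_eq]
  refine tsum_congr fun q => ?_
  simp only [Equiv.prodComm_apply, Prod.fst_swap, Prod.snd_swap]
  rw [ker_symm ha]
  ring

lemma Rf_eq (a : ℕ → ℕ → Prop) (E : Set ℕ) (x : ℕ → ℂ) : Rf a E x = Bf a (cut E x) (cut E x) := rfl

/-- the cross term -/
lemma cross {a : ℕ → ℕ → Prop} {x : ℕ → ℂ} (hx : Summable fun n => ‖x n‖) {E F' : Set ℕ} {τ : ℝ}
    (hτ : ‖∑' n, cut E x n‖ ≤ τ) (hk : ∀ i ∈ F', ∀ n ∈ E, ∀ m ∈ E, ker a i n = ker a i m) :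
    ‖Bf a (cut F' x) (cut E x)‖ ≤ 3 / 2 * τ * mass F' x := by
  have hu := scut hx E
  have hv := scut hx F'
  have hs := sBf a hv hu
  have h1 : Bf a (cut F' x) (cut E x) = ∑' i, ∑' m, (ker a i m : ℂ) * cut F' x i * cut E x m :=
    hs.tsum_prod
  have h2 : ∀ i, ‖∑' m, (ker a i m : ℂ) * cut F' x i * cut E x m‖ ≤
      3 / 2 * τ * ‖cut F' x i‖ := by
    intro i
    have hτ0 : 0 ≤ τ := (norm_nonneg _).trans hτ
    by_cases hi : i ∈ F'
    · by_cases hE : E.Nonempty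
      · obtain ⟨m0, hm0⟩ := hE
        have e : ∀ m, (ker a i m : ℂ) * cut F' x i * cut E x m =
            ((ker a i m0 : ℂ) * cut F' x i) * cut E x m := by
          intro m
          by_cases hm : m ∈ E
          · rw [hk i hi m hm m0 hm0]
          · rw [cut_nmem hm, mul_zero, mul_zero]
        simp_rw [e]
        rw [tsum_mul_left, norm_mul, norm_mul]
        calc ‖(ker a i m0 : ℂ)‖ * ‖cut F' x i‖ * ‖∑' n, cut E x n‖
            ≤ 3 / 2 * ‖cut F' x i‖ * τ := by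
              apply mul_le_mul _ hτ (norm_nonneg _) (by positivity)
              exact mul_le_mul_of_nonneg_right (ker_le a _ _) (norm_nonneg _)
          _ = _ := by ring
      · have e : ∀ m, (ker a i m : ℂ) * cut F' x i * cut E x m = 0 := by
          intro m
          rw [cut_nmem (show m ∉ E from fun h => hE ⟨m, h⟩), mul_zero]
        simp_rw [e]
        rw [tsum_zero, norm_zero]
        positivity
    · simp only [cut_nmem hi, mul_zero, zero_mul, tsum_zero, norm_zero, le_refl]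
  have hsum : Summable fun i => 3 / 2 * τ * ‖cut F' x i‖ := hv.mul_left _
  rw [h1]
  refine (tsum_of_norm_bounded hsum.hasSum h2).trans_eq ?_
  rw [tsum_mul_left]
  rfl

/-! ### the mean -/

lemma mu_zero {μ : (ℕ → ℂ) → ℂ} {M : ℝ} (hμ : Mean μ M) : μ (fun _ => 0) = 0 := by
  have h := hμ.smul 0 (fun _ => 0) ⟨0, fun _ => by simp⟩
  simpa using h

lemma bdd_fin (K : Finset ℕ) (c : ℕ → ℂ) :
    Bdd (fun m => ∑ n ∈ K, c n * (Pi.single n (1 : ℂ) : ℕ → ℂ) m) := by
  refine ⟨∑ n ∈ K, ‖c n‖, fun m => ?_⟩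
  refine (norm_sum_le _ _).trans (Finset.sum_le_sum fun n _ => ?_)
  rw [norm_mul]
  refine mul_le_of_le_one_right (norm_nonneg _) ?_
  by_cases h : m = n
  · subst h
    simp
  · rw [Pi.single_eq_of_ne h]
    simp

lemma bdd_single (n : ℕ) : Bdd (Pi.single n (1 : ℂ) : ℕ → ℂ) := by
  refine ⟨1, fun m => ?_⟩
  by_cases h : m = n
  · subst h
    simp
  · rw [Pi.single_eq_of_ne h]
    simp

lemma mu_fin {μ : (ℕ → ℂ) → ℂ} {M : ℝ} (hμ : Mean μ M) (K : Finset ℕ) (c : ℕ → ℂ) :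
    μ (fun m => ∑ n ∈ K, c n * (Pi.single n (1 : ℂ) : ℕ → ℂ) m) = ∑ n ∈ K, c n * pt μ n := by
  classical
  induction K using Finset.induction_on with
  | empty => simpa using mu_zero hμ
  | insert n K hn ih =>
    have e : (fun m => ∑ i ∈ insert n K, c i * (Pi.single i (1 : ℂ) : ℕ → ℂ) m) =
        fun m => (fun m => c n * (Pi.single n (1 : ℂ) : ℕ → ℂ) m) m +
          (fun m => ∑ i ∈ K, c i * (Pi.single i (1 : ℂ) : ℕ → ℂ) m) m := by
      funext m
      rw [Finset.sum_insert hn]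
    have b1 : Bdd (fun m => c n * (Pi.single n (1 : ℂ) : ℕ → ℂ) m) := by
      have := bdd_fin {n} c
      simpa using this
    rw [e, hμ.add _ _ b1 (bdd_fin K c), ih, hμ.smul _ _ (bdd_single n), Finset.sum_insert hn]
    rfl

/-- the phase -/
noncomputable def phs (z : ℂ) : ℂ := if z = 0 then 0 else (starRingEnd ℂ) z / ‖z‖

lemma phs_norm (z : ℂ) : ‖phs z‖ ≤ 1 := by
  unfold phs
  split_ifs with h
  · simp
  · rw [norm_div, RCLike.norm_conj, Complex.norm_real, norm_norm,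
      div_self (norm_ne_zero_iff.2 h)]

lemma phs_mul (z : ℂ) : phs z * z = (‖z‖ : ℂ) := by
  unfold phs
  split_ifs with h
  · simp [h]
  · have h1 : (‖z‖ : ℂ) ≠ 0 := Complex.ofReal_ne_zero.2 (norm_ne_zero_iff.2 h)
    rw [div_mul_eq_mul_div, div_eq_iff h1, mul_comm, Complex.mul_conj, Complex.normSq_eq_norm_sq]
    push_cast
    ring

lemma fin_val (K : Finset ℕ) (c : ℕ → ℂ) (m : ℕ) :
    (∑ n ∈ K, c n * (Pi.single n (1 : ℂ) : ℕ → ℂ) m) = if m ∈ K then c m else 0 := by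
  classical
  split_ifs with h
  · rw [Finset.sum_eq_single m]
    · simp
    · intro n _ hn
      rw [Pi.single_eq_of_ne (Ne.symm hn), mul_zero]
    · intro h'
      exact absurd h h'
  · refine Finset.sum_eq_zero fun n hn => ?_
    rw [Pi.single_eq_of_ne (show m ≠ n from fun h' => h (by rw [h']; exact hn)), mul_zero]

lemma sum_pt {μ : (ℕ → ℂ) → ℂ} {M : ℝ} (hμ : Mean μ M) (K : Finset ℕ) {ε : ℝ}
    (h : ∀ c : ℕ → ℂ, (∀ n, ‖c n‖ ≤ 1) → (∀ n, n ∉ K → c n = 0) → ‖μ c‖ ≤ ε) :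
    ∑ n ∈ K, ‖pt μ n‖ ≤ ε := by
  classical
  set c : ℕ → ℂ := fun m => ∑ n ∈ K, phs (pt μ n) * (Pi.single n (1 : ℂ) : ℕ → ℂ) m with hc
  have hv : ∀ m, c m = if m ∈ K then phs (pt μ m) else 0 := fun m =>
    fin_val K (fun n => phs (pt μ n)) m
  have h1 : ‖μ c‖ ≤ ε := by
    refine h c (fun n => ?_) (fun n hn => ?_)
    · rw [hv]
      split_ifs
      · exact phs_norm _
      · simp
    · rw [hv, if_neg hn]
  have h2 : μ c = ((∑ n ∈ K, ‖pt μ n‖ : ℝ) : ℂ) := by
    rw [hc, mu_fin hμ K]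
    push_cast
    exact Finset.sum_congr rfl fun n _ => phs_mul _
  rw [h2, Complex.norm_real, Real.norm_eq_abs,
    abs_of_nonneg (Finset.sum_nonneg fun n _ => norm_nonneg _)] at h1
  exact h1

lemma pt_summable {μ : (ℕ → ℂ) → ℂ} {M : ℝ} (hμ : Mean μ M) :
    (Summable fun n => ‖pt μ n‖) ∧ ∑' n, ‖pt μ n‖ ≤ M := by
  have h : ∀ K : Finset ℕ, ∑ n ∈ K, ‖pt μ n‖ ≤ M := by
    intro K
    refine sum_pt hμ K fun c hc _ => ?_
    have := hμ.bd c 1 zero_le_one hc
    rwa [mul_one] at this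
  exact ⟨summable_of_sum_le (fun n => norm_nonneg _) h,
    Real.tsum_le_of_sum_le (fun n => norm_nonneg _) h⟩

lemma pt_small {μ : (ℕ → ℂ) → ℂ} {M : ℝ} (hμ : Mean μ M) {G : Set ℕ} {ε : ℝ}
    (h : Small μ G ε) : mass G (pt μ) ≤ ε := by
  classical
  refine Real.tsum_le_of_sum_le (fun n => norm_nonneg _) fun K => ?_
  have e : ∑ n ∈ K, ‖cut G (pt μ) n‖ = ∑ n ∈ K.filter (· ∈ G), ‖pt μ n‖ := by
    rw [Finset.sum_filter]
    refine Finset.sum_congr rfl fun n _ => ?_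
    split_ifs with hn
    · rw [cut_mem hn]
    · rw [cut_nmem hn, norm_zero]
  rw [e]
  refine sum_pt hμ _ fun c hc hc0 => ?_
  refine h c hc fun n hn => hc0 n fun hn' => hn (Finset.mem_filter.1 hn').2

/-! ### first part: the pairings -/

lemma part1 {μ : (ℕ → ℂ) → ℂ} {M C τ : ℝ} (hμ : Mean μ M) (hC1 : 1 ≤ C) (hτ : 0 ≤ τ)
    {E : Set ℕ} (hsmall : Small μ E τ) {h : ℕ → ℂ} (hC : ∀ n, ‖h n‖ ≤ C)
    (hosc : ∀ n ∈ E, ∀ m ∈ E, ‖h n - h m‖ ≤ τ) {x : ℕ → ℂ} (hxs : Summable fun n => ‖x n‖)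
    (hx1 : ∑' n, ‖x n‖ ≤ 1) (hsum : ‖∑' n, cut E x n‖ ≤ τ)
    (hpin : ‖pr (cut Eᶜ h) x - μ (cut Eᶜ h)‖ ≤ τ) :
    ‖pr h x - μ h‖ ≤ (2 * C + 2) * τ := by
  have hb : Bdd h := ⟨C, hC⟩
  have hC0 : 0 < C := by linarith
  have h1 : ‖μ (cut E h)‖ ≤ C * τ := by
    have e : cut E h = fun n => (C : ℂ) * ((C⁻¹ : ℝ) * cut E h n) := by
      funext n
      have : (C : ℂ) ≠ 0 := Complex.ofReal_ne_zero.2 hC0.ne'
      push_cast
      field_simp
    have hn : ∀ n, ‖((C⁻¹ : ℝ) : ℂ) * cut E h n‖ ≤ 1 := by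
      intro n
      rw [norm_mul, Complex.norm_real, Real.norm_eq_abs, abs_of_pos (inv_pos.2 hC0),
        inv_mul_le_iff₀ hC0, mul_one]
      exact (ncut E h n).trans (hC n)
    rw [e, hμ.smul _ _ ⟨1, hn⟩, norm_mul, Complex.norm_real, Real.norm_eq_abs, abs_of_pos hC0]
    refine mul_le_mul_of_nonneg_left (hsmall _ hn fun n hn' => ?_) hC0.le
    rw [cut_nmem hn', mul_zero]
  have h2 : ‖pr (cut E h) x‖ ≤ C * τ + τ := by
    by_cases hE : E.Nonempty
    · obtain ⟨n0, hn0⟩ := hE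
      have s1 : Summable fun n => cut E x n := (scut hxs E).of_norm
      have s2 : Summable fun n => (cut E h n * x n) := spr (bdd_cut hb E) hxs
      have e : pr (cut E h) x = h n0 * ∑' n, cut E x n +
          ∑' n, (cut E h n * x n - h n0 * cut E x n) := by
        unfold pr
        rw [← tsum_mul_left, ← (s1.mul_left (h n0)).tsum_add (s2.sub (s1.mul_left (h n0)))]
        refine tsum_congr fun n => ?_
        ring
      have h3 : ∀ n, ‖cut E h n * x n - h n0 * cut E x n‖ ≤ τ * ‖x n‖ := by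
        intro n
        by_cases hn : n ∈ E
        · rw [cut_mem hn, cut_mem hn, ← sub_mul, norm_mul]
          exact mul_le_mul_of_nonneg_right (hosc n hn n0 hn0) (norm_nonneg _)
        · rw [cut_nmem hn, cut_nmem hn, zero_mul, mul_zero, sub_zero, norm_zero]
          positivity
      have h4 : ‖∑' n, (cut E h n * x n - h n0 * cut E x n)‖ ≤ τ := by
        refine (tsum_of_norm_bounded (hxs.mul_left τ).hasSum h3).trans ?_
        rw [tsum_mul_left]
        exact mul_le_of_le_one_right hτ hx1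
      rw [e]
      refine (norm_add_le _ _).trans (add_le_add ?_ h4)
      rw [norm_mul]
      exact mul_le_mul (hC n0) hsum (norm_nonneg _) hC0.le
    · have e : pr (cut E h) x = 0 := by
        unfold pr
        have : ∀ n, cut E h n * x n = 0 := fun n => by
          rw [cut_nmem (show n ∉ E from fun h => hE ⟨n, h⟩), zero_mul]
        simp_rw [this]
        exact tsum_zero
      rw [e, norm_zero]
      positivity
  have e : pr h x - μ h = (pr (cut Eᶜ h) x - μ (cut Eᶜ h)) + (pr (cut E h) x - μ (cut E h)) := by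
    rw [pr_split hb hxs E, mu_split hμ hb E]
    ring
  rw [e]
  calc ‖(pr (cut Eᶜ h) x - μ (cut Eᶜ h)) + (pr (cut E h) x - μ (cut E h))‖
      ≤ ‖pr (cut Eᶜ h) x - μ (cut Eᶜ h)‖ + ‖pr (cut E h) x - μ (cut E h)‖ := norm_add_le _ _
    _ ≤ τ + ((C * τ + τ) + C * τ) := by
        refine add_le_add hpin ((norm_sub_le _ _).trans (add_le_add h2 h1))
    _ = _ := by ring

/-! ### second part: the quadratic forms -/

lemma mass_G {μ : (ℕ → ℂ) → ℂ} {τ ε : ℝ} {E G : Set ℕ} {l x : ℕ → ℂ}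
    (hxs : Summable fun n => ‖x n‖) (hl0 : ∀ n ∈ E, l n = 0) (hl1 : ∀ n, n ∉ E → ‖l n‖ = 1)
    (halign : mass Eᶜ x - (pr l x).re ≤ τ) (hG : Small μ G ε)
    (hpin : ‖pr (cut G l) x - μ (cut G l)‖ ≤ τ) : mass (G \ E) x ≤ 2 * τ + ε := by
  have hl : ∀ n, ‖l n‖ ≤ 1 := fun n => by
    by_cases hn : n ∈ E
    · rw [hl0 n hn]; simp
    · rw [hl1 n hn]
  have hlb : Bdd l := ⟨1, hl⟩
  have s1 := scut hxs Eᶜ
  have s2 : Summable fun n => (l n * x n).re := Complex.reCLM.summable (spr hlb hxs)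
  have s3 := scut hxs (G \ E)
  have s4 : Summable fun n => (cut G l n * x n).re := Complex.reCLM.summable (spr (bdd_cut hlb G) hxs)
  have e1 : (pr l x).re = ∑' n, (l n * x n).re := Complex.re_tsum (spr hlb hxs)
  have e2 : (pr (cut G l) x).re = ∑' n, (cut G l n * x n).re :=
    Complex.re_tsum (spr (bdd_cut hlb G) hxs)
  have h1 : mass (G \ E) x - (pr (cut G l) x).re ≤ mass Eᶜ x - (pr l x).re := by
    rw [e1, e2]
    unfold mass
    rw [← s3.tsum_sub s4, ← s1.tsum_sub s2]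
    refine (s3.sub s4).tsum_le_tsum (fun n => ?_) (s1.sub s2)
    have hre : (l n * x n).re ≤ ‖x n‖ := by
      refine (Complex.re_le_norm _).trans ?_
      rw [norm_mul]
      exact mul_le_of_le_one_left (norm_nonneg _) (hl n)
    by_cases hE : n ∈ E
    · have h2 : n ∉ G \ E := fun h => h.2 hE
      have h3 : cut G l n = 0 := by
        by_cases hG' : n ∈ G
        · rw [cut_mem hG', hl0 n hE]
        · exact cut_nmem hG'
      rw [cut_nmem h2, h3, cut_nmem (show n ∉ Eᶜ from fun h => h hE), hl0 n hE]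
    · rw [cut_mem (show n ∈ Eᶜ from hE)]
      by_cases hG' : n ∈ G
      · rw [cut_mem (show n ∈ G \ E from ⟨hG', hE⟩), cut_mem hG']
      · rw [cut_nmem (show n ∉ G \ E from fun h => hG' h.1), cut_nmem hG']
        simp only [norm_zero, zero_mul, Complex.zero_re, sub_zero]
        linarith
  have h2 : ‖μ (cut G l)‖ ≤ ε := hG _ (fun n => (ncut G l n).trans (hl n)) fun n hn => cut_nmem hn
  have h3 : (pr (cut G l) x).re ≤ τ + ε := by
    have h4 := Complex.re_le_norm (pr (cut G l) x - μ (cut G l))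
    have h5 := Complex.re_le_norm (μ (cut G l))
    rw [Complex.sub_re] at h4
    linarith
  linarith

theorem goodImp (hL : S_RLip) : S_GoodImp := by
  intro a μ M E₀ ha hμ hM0 hM1 hsm H hH D hD η hη
  classical
  obtain ⟨C, hC1, hC⟩ : ∃ C : ℝ, 1 ≤ C ∧ ∀ h ∈ H, ∀ n, ‖h n‖ ≤ C := by
    choose! B hB using hH
    refine ⟨1 + ∑ h ∈ H, |B h|, ?_, fun h hh n => ?_⟩
    · have : 0 ≤ ∑ h ∈ H, |B h| := Finset.sum_nonneg fun _ _ => abs_nonneg _
      linarith
    · have h1 : |B h| ≤ ∑ h ∈ H, |B h| :=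
        Finset.single_le_sum (f := fun h => |B h|) (fun _ _ => abs_nonneg _) hh
      have h2 := hB h hh n
      have h3 := le_abs_self (B h)
      linarith
  obtain ⟨F, hF⟩ := hsm (η / 20) (by positivity)
  have hc0 : (0 : ℝ) ≤ (F.card : ℝ) := Nat.cast_nonneg _
  have hC0 : 0 ≤ C := by linarith
  set τ : ℝ := η / (20 * ((F.card : ℝ) + 1) * (C + 1)) with hτ
  have hτ0 : 0 < τ := by positivity
  have hτe : 20 * ((F.card : ℝ) + 1) * (C + 1) * τ = η := by
    rw [hτ]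
    field_simp
  have hτ1 : (2 * C + 2) * τ ≤ η := by
    nlinarith [mul_nonneg (mul_nonneg hc0 (by linarith : (0:ℝ) ≤ C + 1)) hτ0.le,
      mul_nonneg (by linarith : (0:ℝ) ≤ C + 1) hτ0.le]
  have hτ2 : 20 * ((F.card : ℝ) + 1) * τ ≤ η / 2 := by
    have h0 : 0 ≤ ((F.card : ℝ) + 1) * τ := by positivity
    nlinarith [mul_nonneg (by linarith : (0:ℝ) ≤ C - 1) h0]
  refine ⟨τ, F, hτ0, ?_⟩
  intro E l hE hED hFE hosc hker hsmall hl0 hl1 Γ hΓ1 hΓ2 hΓ3 x hx
  obtain ⟨⟨hxs, hx1⟩, halign, hsum, hquad, hpins⟩ := hx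
  refine ⟨fun h hh => (part1 hμ hC1 hτ0.le hsmall (hC h hh) (hosc h hh) hxs hx1 hsum
    (hpins _ (hΓ1 h hh))).trans hτ1, ?_⟩
  intro E' hE'
  have hG := mass_G hxs hl0 hl1 halign hF (hpins _ hΓ3)
  obtain ⟨hps, hp1⟩ := pt_summable hμ
  have hpG := pt_small hμ hF
  set F' : Set ℕ := (F : Set ℕ) ∩ E' with hF'
  have hF'F : ∀ i ∈ F', i ∈ F := fun i hi => by simpa using hi.1
  -- first step
  set y : ℕ → ℂ := fun n => cut E x n + cut F' x n with hy
  have hys : Summable fun n => ‖y n‖ :=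
    Summable.of_nonneg_of_le (fun _ => norm_nonneg _) (fun n => norm_add_le _ _)
      ((scut hxs E).add (scut hxs F'))
  have hdisj : ∀ n ∈ F', n ∉ E := fun n hn => hFE n (hF'F n hn)
  have hyle : ∀ n, ‖y n‖ ≤ ‖x n‖ := by
    intro n
    simp only [hy]
    by_cases h1 : n ∈ F'
    · rw [cut_nmem (hdisj n h1), zero_add]
      exact ncut _ _ _
    · rw [cut_nmem h1, add_zero]
      exact ncut _ _ _
  have hEE' : E ⊆ E' := hED E' hE'
  have st1 : ‖Rf a E' x - Rf a E' y‖ ≤ 3 * (2 * τ + η / 20) := by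
    have h1 := hL a E' x y hxs hys
    have h2 : mass E' x ≤ 1 := (mass_le hxs E').trans hx1
    have h3 : mass E' y ≤ 1 := by
      refine (mass_le hys E').trans ((hys.tsum_le_tsum hyle hxs).trans hx1)
    have h4 : mass E' (fun n => x n - y n) ≤ mass ((E₀ \ (F : Set ℕ)) \ E) x := by
      have s1 : Summable fun n => ‖x n - y n‖ :=
        Summable.of_nonneg_of_le (fun _ => norm_nonneg _) (fun n => norm_sub_le _ _) (hxs.add hys)
      refine (scut s1 E').tsum_le_tsum (fun n => ?_) (scut hxs _)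
      by_cases hn : n ∈ E'
      · rw [cut_mem hn]
        by_cases h5 : n ∈ E
        · have h6 : n ∉ F' := fun h => hdisj n h h5
          simp only [hy]
          rw [cut_mem h5, cut_nmem h6, add_zero, sub_self, norm_zero]
          exact norm_nonneg _
        · by_cases h6 : n ∈ (F : Set ℕ)
          · have h7 : n ∈ F' := ⟨h6, hn⟩
            simp only [hy]
            rw [cut_nmem h5, cut_mem h7, zero_add, sub_self, norm_zero]
            exact norm_nonneg _
          · have h7 : n ∉ F' := fun h => h6 h.1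
            simp only [hy]
            rw [cut_nmem h5, cut_nmem h7, zero_add, sub_zero,
              cut_mem (show n ∈ (E₀ \ (F : Set ℕ)) \ E from ⟨⟨hD E' hE' hn, h6⟩, h5⟩)]
      · rw [cut_nmem hn, norm_zero]
        exact norm_nonneg _
    have h5 := mass_nonneg E' (fun n => x n - y n)
    have h6 : 3 / 2 * (mass E' x + mass E' y) * mass E' (fun n => x n - y n) ≤
        3 / 2 * (1 + 1) * mass E' (fun n => x n - y n) :=
      mul_le_mul_of_nonneg_right (by linarith) h5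
    linarith
  have e1 : Rf a E' y = Rf a E x + Rf a F' x + 2 * Bf a (cut F' x) (cut E x) := by
    have e2 : cut E' y = fun n => cut E x n + cut F' x n := by
      funext n
      by_cases hn : n ∈ E'
      · rw [cut_mem hn]
      · rw [cut_nmem hn, cut_nmem (show n ∉ E from fun h => hn (hEE' h)),
          cut_nmem (show n ∉ F' from fun h => hn h.2), add_zero]
    rw [Rf_eq, e2, Bf_add_left a (scut hxs E) (scut hxs F')
      (Summable.of_nonneg_of_le (fun _ => norm_nonneg _) (fun n => norm_add_le _ _)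
      ((scut hxs E).add (scut hxs F'))), Bf_add_right a (scut hxs E) (scut hxs E) (scut hxs F'),
      Bf_add_right a (scut hxs F') (scut hxs E) (scut hxs F'), Bf_symm ha (cut E x) (cut F' x),
      Rf_eq, Rf_eq]
    ring
  have hm1 : mass F' x ≤ 1 := (mass_le hxs F').trans hx1
  have st2 : ‖2 * Bf a (cut F' x) (cut E x)‖ ≤ 3 * τ := by
    have h1 := cross hxs hsum (fun i hi => hker i (hF'F i hi))
    rw [norm_mul, Complex.norm_ofNat]
    have h2 : 3 / 2 * τ * mass F' x ≤ 3 / 2 * τ * 1 :=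
      mul_le_mul_of_nonneg_left hm1 (by positivity)
    linarith
  have st3 : ‖Rf a F' x - Rf a F' (pt μ)‖ ≤ 3 * ((F.card : ℝ) * τ) := by
    have h1 := hL a F' x (pt μ) hxs hps
    have h3 : mass F' (pt μ) ≤ 1 := ((mass_le hps F').trans hp1).trans hM1
    have h4 : mass F' (fun n => x n - pt μ n) ≤ (F.card : ℝ) * τ := by
      unfold mass
      rw [tsum_eq_sum (s := F) (fun n hn => by
        rw [cut_nmem (show n ∉ F' from fun h => hn (hF'F n h)), norm_zero])]
      refine (Finset.sum_le_card_nsmul F _ τ fun n hn => ?_).trans_eq (nsmul_eq_mul _ _)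
      refine (ncut _ _ _).trans ?_
      have h5 := hpins _ (hΓ2 n hn)
      have e : pr (Pi.single n 1) x = x n := by
        unfold pr
        rw [tsum_eq_single n]
        · simp
        · intro m hm
          rw [Pi.single_eq_of_ne hm, zero_mul]
      rw [e] at h5
      exact h5
    have h5 := mass_nonneg F' (fun n => x n - pt μ n)
    have h6 : 3 / 2 * (mass F' x + mass F' (pt μ)) * mass F' (fun n => x n - pt μ n) ≤
        3 / 2 * (1 + 1) * mass F' (fun n => x n - pt μ n) :=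
      mul_le_mul_of_nonneg_right (by linarith) h5
    linarith
  have st4 : ‖Rf a E' (pt μ) - Rf a F' (pt μ)‖ ≤ 3 * (η / 20) := by
    have e2 : Rf a F' (pt μ) = Rf a E' (cut F' (pt μ)) := by
      have e3 : cut E' (cut F' (pt μ)) = cut F' (pt μ) := by
        funext n
        by_cases hn : n ∈ E'
        · rw [cut_mem hn]
        · rw [cut_nmem hn, cut_nmem (show n ∉ F' from fun h => hn h.2)]
      rw [Rf_eq, Rf_eq, e3]
    rw [e2]
    have hcs := scut hps F'
    have h1 := hL a E' (pt μ) (cut F' (pt μ)) hps hcs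
    have h2 : mass E' (pt μ) ≤ 1 := ((mass_le hps E').trans hp1).trans hM1
    have h3 : mass E' (cut F' (pt μ)) ≤ 1 := by
      refine (mass_le hcs E').trans ?_
      exact ((hcs.tsum_le_tsum (ncut _ _) hps).trans hp1).trans hM1
    have h4 : mass E' (fun n => pt μ n - cut F' (pt μ) n) ≤ mass (E₀ \ (F : Set ℕ)) (pt μ) := by
      have s1 : Summable fun n => ‖pt μ n - cut F' (pt μ) n‖ :=
        Summable.of_nonneg_of_le (fun _ => norm_nonneg _) (fun n => norm_sub_le _ _) (hps.add hcs)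
      refine (scut s1 E').tsum_le_tsum (fun n => ?_) (scut hps _)
      by_cases hn : n ∈ E'
      · rw [cut_mem hn]
        by_cases h6 : n ∈ (F : Set ℕ)
        · rw [cut_mem (show n ∈ F' from ⟨h6, hn⟩), sub_self, norm_zero]
          exact norm_nonneg _
        · rw [cut_nmem (show n ∉ F' from fun h => h6 h.1), sub_zero,
            cut_mem (show n ∈ E₀ \ (F : Set ℕ) from ⟨hD E' hE' hn, h6⟩)]
      · rw [cut_nmem hn, norm_zero]
        exact norm_nonneg _
    have h5 := mass_nonneg E' (fun n => pt μ n - cut F' (pt μ) n)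
    have h6 : 3 / 2 * (mass E' (pt μ) + mass E' (cut F' (pt μ))) *
        mass E' (fun n => pt μ n - cut F' (pt μ) n) ≤
        3 / 2 * (1 + 1) * mass E' (fun n => pt μ n - cut F' (pt μ) n) :=
      mul_le_mul_of_nonneg_right (by linarith) h5
    linarith
  have e3 : Rf a E' x - (Rf a E' (pt μ) + ((1 - M : ℝ) : ℂ) ^ 2) =
      (Rf a E' x - Rf a E' y) + (Rf a E x - ((1 - M : ℝ) : ℂ) ^ 2) +
        (Rf a F' x - Rf a F' (pt μ)) + 2 * Bf a (cut F' x) (cut E x) -
        (Rf a E' (pt μ) - Rf a F' (pt μ)) := by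
    rw [e1]
    ring
  rw [e3]
  have n1 := norm_sub_le ((Rf a E' x - Rf a E' y) + (Rf a E x - ((1 - M : ℝ) : ℂ) ^ 2) +
        (Rf a F' x - Rf a F' (pt μ)) + 2 * Bf a (cut F' x) (cut E x))
        (Rf a E' (pt μ) - Rf a F' (pt μ))
  have n2 := norm_add_le ((Rf a E' x - Rf a E' y) + (Rf a E x - ((1 - M : ℝ) : ℂ) ^ 2) +
        (Rf a F' x - Rf a F' (pt μ))) (2 * Bf a (cut F' x) (cut E x))
  have n3 := norm_add_le ((Rf a E' x - Rf a E' y) + (Rf a E x - ((1 - M : ℝ) : ℂ) ^ 2))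
        (Rf a F' x - Rf a F' (pt μ))
  have n4 := norm_add_le (Rf a E' x - Rf a E' y) (Rf a E x - ((1 - M : ℝ) : ℂ) ^ 2)
  have hcτ : 0 ≤ (F.card : ℝ) * τ := by positivity
  nlinarith

end Pool.Agent.NH62.SB.GoodImp
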