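import Pool.Agent.NH62.SB.StmOne

/-!
The shift graph on a thin set of natural numbers, and an ultrafilter all members of which contain
an edge.
-/

set_option autoImplicit false

open Metric Set Filter Topology

namespace Pool.Agent.NH62.SB.Graph

theorem small_mono {μ : (ℕ → ℂ) → ℂ} {E E' : Set ℕ} {ε : ℝ} (h : Small μ E ε) (hE : E' ⊆ E) :
    Small μ E' ε :=
  fun f hf hf' => h f hf fun n hn => hf' n fun h' => hn (hE h')

theorem small_le {μ : (ℕ → ℂ) → ℂ} {E : Set ℕ} {ε ε' : ℝ} (h : Small μ E ε) (hE : ε ≤ ε') :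
    Small μ E ε' :=
  fun f hf hf' => (h f hf hf').trans hE

theorem bdd_of_le {h : ℕ → ℂ} (hh : ∀ n, ‖h n‖ ≤ 1) : Bdd h := ⟨1, hh⟩

/-- Every infinite set has an infinite subset of small mass. -/
theorem exists_small {μ : (ℕ → ℂ) → ℂ} {M : ℝ} (hμ : Mean μ M) (I : Set ℕ) (hI : I.Infinite)
    {ε : ℝ} (hε : 0 < ε) : ∃ J ⊆ I, J.Infinite ∧ Small μ J ε := by
  classical
  by_contra hcon
  push Not at hcon
  -- an injection of pairs
  have : Infinite ↥I := hI.to_subtype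
  obtain ⟨f⟩ : Nonempty (ℕ × ℕ ↪ ↥I) :=
    ⟨(Denumerable.eqv (ℕ × ℕ)).toEmbedding.trans (Infinite.natEmbedding ↥I)⟩
  set J : ℕ → Set ℕ := fun k => Set.range fun n => ((f (k, n) : ↥I) : ℕ) with hJ
  have hJI : ∀ k, J k ⊆ I := by
    rintro k _ ⟨n, rfl⟩
    exact (f (k, n)).2
  have hJinf : ∀ k, (J k).Infinite := by
    intro k
    refine Set.infinite_range_of_injective ?_
    intro n m hnm
    have h1 : f (k, n) = f (k, m) := Subtype.ext hnm
    have h2 := f.injective h1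
    exact (Prod.ext_iff.1 h2).2
  have hJdis : ∀ k l n, n ∈ J k → n ∈ J l → k = l := by
    rintro k l _ ⟨n, rfl⟩ ⟨m, hm⟩
    have h1 : f (l, m) = f (k, n) := Subtype.ext hm
    have h2 := f.injective h1
    exact (Prod.ext_iff.1 h2).1.symm
  have hbad : ∀ k, ∃ h : ℕ → ℂ, (∀ n, ‖h n‖ ≤ 1) ∧ (∀ n, n ∉ J k → h n = 0) ∧ ε ≤ (μ h).re := by
    intro k
    have h1 := hcon (J k) (hJI k) (hJinf k)
    unfold Small at h1
    push Not at h1
    obtain ⟨h, h2, h3, h4⟩ := h1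
    have h5 : μ h ≠ 0 := by
      intro h0
      rw [h0, norm_zero] at h4
      exact absurd h4 (not_lt.2 hε.le)
    have h6 : 0 < ‖μ h‖ := norm_pos_iff.2 h5
    refine ⟨fun n => (star (μ h) / (‖μ h‖ : ℂ)) * h n, ?_, ?_, ?_⟩
    · intro n
      rw [norm_mul, norm_div, norm_star, Complex.norm_real, norm_norm, div_self h6.ne', one_mul]
      exact h2 n
    · intro n hn
      simp [h3 n hn]
    · rw [hμ.smul _ _ (bdd_of_le h2)]
      have h7 : star (μ h) / (‖μ h‖ : ℂ) * μ h = ((‖μ h‖ : ℝ) : ℂ) := by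
        have h8 : star (μ h) * μ h = ((‖μ h‖ : ℝ) : ℂ) ^ 2 := by
          have := Complex.conj_mul' (μ h)
          simpa using this
        have h9 : ((‖μ h‖ : ℝ) : ℂ) ≠ 0 := by exact_mod_cast h6.ne'
        rw [div_mul_eq_mul_div, h8]
        field_simp
      rw [h7, Complex.ofReal_re]
      exact h4.le
  choose g hg1 hg2 hg3 using hbad
  have hsum : ∀ r : ℕ, ∃ h : ℕ → ℂ, (∀ n, ‖h n‖ ≤ 1) ∧ (∀ n, (∀ k < r, n ∉ J k) → h n = 0) ∧
      (r : ℝ) * ε ≤ (μ h).re := by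
    intro r
    induction r with
    | zero =>
      refine ⟨fun n => 0 * g 0 n, by simp, by simp, ?_⟩
      rw [hμ.smul _ _ (bdd_of_le (hg1 0))]
      simp
    | succ r ih =>
      obtain ⟨h, h1, h2, h3⟩ := ih
      refine ⟨fun n => h n + g r n, ?_, ?_, ?_⟩
      · intro n
        by_cases hn : n ∈ J r
        · have : h n = 0 := by
            refine h2 n fun k hk hnk => ?_
            have := hJdis k r n hnk hn
            omega
          simp only [this, zero_add]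
          exact hg1 r n
        · simp only [hg2 r n hn, add_zero]
          exact h1 n
      · intro n hn
        show h n + g r n = 0
        rw [h2 n fun k hk => hn k (by omega), hg2 r n (hn r (by omega)), add_zero]
      · rw [hμ.add _ _ (bdd_of_le h1) (bdd_of_le (hg1 r)), Complex.add_re]
        push_cast
        nlinarith [hg3 r]
  obtain ⟨r, hr⟩ := exists_nat_gt (M / ε)
  obtain ⟨h, h1, -, h3⟩ := hsum r
  have h4 := hμ.bd h 1 zero_le_one h1
  have h5 := Complex.re_le_norm (μ h)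
  have h6 : M < r * ε := (div_lt_iff₀ hε).1 hr
  linarith

/-- a thin infinite sequence -/
theorem exists_seq {μ : (ℕ → ℂ) → ℂ} {M : ℝ} (hμ : Mean μ M) :
    ∃ g : ℕ → ℕ, Function.Injective g ∧
      ∀ ε : ℝ, 0 < ε → ∃ j : ℕ, Small μ {n | ∃ i, j ≤ i ∧ g i = n} ε := by
  classical
  have step : ∀ (I : {I : Set ℕ // I.Infinite}) (j : ℕ), ∃ J : {I : Set ℕ // I.Infinite},
      J.1 ⊆ I.1 ∧ Small μ J.1 ((1 / 2 : ℝ) ^ j) := by
    intro I j
    obtain ⟨J, h1, h2, h3⟩ := exists_small hμ I.1 I.2 (ε := (1 / 2 : ℝ) ^ j) (by positivity)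
    exact ⟨⟨J, h2⟩, h1, h3⟩
  choose T hT1 hT2 using step
  let I : ℕ → {I : Set ℕ // I.Infinite} := fun j =>
    Nat.rec ⟨Set.univ, Set.infinite_univ⟩ (fun j J => T J j) j
  have hI : ∀ j, I (j + 1) = T (I j) j := fun j => rfl
  have hImono : ∀ i j, i ≤ j → (I j).1 ⊆ (I i).1 := by
    intro i j hij
    induction j, hij using Nat.le_induction with
    | base => exact subset_rfl
    | succ j _ ih =>
      rw [hI]
      exact (hT1 _ _).trans ih
  have hIs : ∀ j, Small μ (I (j + 1)).1 ((1 / 2 : ℝ) ^ j) := fun j => by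
    rw [hI]
    exact hT2 _ _
  have pick : ∀ j N : ℕ, ∃ n, N < n ∧ n ∈ (I (j + 1)).1 := by
    intro j N
    obtain ⟨n, hn, hn'⟩ := (I (j + 1)).2.exists_gt N
    exact ⟨n, hn', hn⟩
  choose P hP1 hP2 using pick
  let g : ℕ → ℕ := fun j => Nat.rec (P 0 0) (fun j N => P (j + 1) N) j
  have hg : ∀ j, g (j + 1) = P (j + 1) (g j) := fun j => rfl
  have hgI : ∀ j, g j ∈ (I (j + 1)).1 := by
    intro j
    cases j with
    | zero => exact hP2 0 0
    | succ j =>
      rw [hg]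
      exact hP2 (j + 1) (g j)
  have hgm : StrictMono g := strictMono_nat_of_lt_succ fun j => by
    rw [hg]
    exact hP1 _ _
  refine ⟨g, hgm.injective, fun ε hε => ?_⟩
  obtain ⟨j, hj⟩ := exists_pow_lt_of_lt_one hε (by norm_num : (1 / 2 : ℝ) < 1)
  refine ⟨j, small_le (small_mono (hIs j) ?_) hj.le⟩
  rintro _ ⟨i, hi, rfl⟩
  exact hImono (j + 1) (i + 1) (by omega) (hgI i)

/-- finitely colourable sets -/
def FC (a : ℕ → ℕ → Prop) (E : Set ℕ) : Prop :=
  ∃ (K : Type) (_ : Finite K) (c : ℕ → K), ∀ n ∈ E, ∀ m ∈ E, a n m → c n ≠ c m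

theorem fc_mono {a : ℕ → ℕ → Prop} {E E' : Set ℕ} (h : FC a E) (hE : E' ⊆ E) : FC a E' := by
  obtain ⟨K, hK, c, hc⟩ := h
  exact ⟨K, hK, c, fun n hn m hm => hc n (hE hn) m (hE hm)⟩

theorem fc_union {a : ℕ → ℕ → Prop} {A B : Set ℕ} (hA : FC a A) (hB : FC a B) :
    FC a (A ∪ B) := by
  obtain ⟨K, hK, c, hc⟩ := hA
  obtain ⟨L, hL, d, hd⟩ := hB
  refine ⟨K × L × Prop, inferInstance, fun n => (c n, d n, n ∈ A), ?_⟩
  intro n hn m hm hnm h
  simp only [Prod.mk.injEq] at h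
  obtain ⟨h1, h2, h3⟩ := h
  by_cases hnA : n ∈ A
  · exact hc n hnA m (by rwa [← h3]) hnm h1
  · have hmA : m ∉ A := by rwa [← h3]
    exact hd n (hn.resolve_left hnA) m (hm.resolve_left hmA) hnm h2

theorem fc_indep {a : ℕ → ℕ → Prop} {E : Set ℕ} (h : ∀ n ∈ E, ∀ m ∈ E, ¬ a n m) : FC a E :=
  ⟨Unit, inferInstance, fun _ => (), fun n hn m hm hnm => (h n hn m hm hnm).elim⟩

theorem fc_finite {a : ℕ → ℕ → Prop} (ha : ∀ n, ¬ a n n) (F : Finset ℕ) :
    FC a (F : Set ℕ) := by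
  classical
  refine ⟨Option ↥F, inferInstance, fun n => if h : n ∈ F then some ⟨n, h⟩ else none, ?_⟩
  intro n hn m hm hnm h
  have hn' : n ∈ F := hn
  have hm' : m ∈ F := hm
  simp only [hn', hm', dif_pos, Option.some.injEq, Subtype.mk.injEq] at h
  rw [h] at hnm
  exact ha m hnm

/-- The shift graph and the ultrafilter. -/
theorem graph : S_Graph := by
  classical
  intro μ M hμ
  obtain ⟨g, hg, hgs⟩ := exists_seq hμ
  set G : ℕ × ℕ → ℕ := fun p => g (Nat.pair p.1 p.2) with hG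
  have hGi : ∀ p q : ℕ × ℕ, G p = G q → p = q := by
    intro p q h
    have h1 : Nat.pair p.1 p.2 = Nat.pair q.1 q.2 := hg h
    have h2 := Nat.pair_eq_pair.1 h1
    exact Prod.ext h2.1 h2.2
  let a : ℕ → ℕ → Prop := fun n m => ∃ p q : ℕ × ℕ, p.1 < p.2 ∧ q.1 < q.2 ∧ n = G p ∧ m = G q ∧
    (p.2 = q.1 ∨ q.2 = p.1)
  have hTF : TF a := by
    constructor
    · rintro n m ⟨p, q, h1, h2, h3, h4, h5⟩
      exact ⟨q, p, h2, h1, h4, h3, h5.symm⟩
    · rintro n m l ⟨p, q, h1, h2, h3, h4, h5⟩ ⟨q', r, h6, h7, h8, h9, h10⟩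
        ⟨r', p', h11, h12, h13, h14, h15⟩
      have e1 : q = q' := hGi _ _ (h4.symm.trans h8)
      have e2 : r = r' := hGi _ _ (h9.symm.trans h13)
      have e3 : p = p' := hGi _ _ (h3.symm.trans h14)
      subst e1
      subst e2
      subst e3
      omega
  have hirr : ∀ n, ¬ a n n := fun n h => hTF.2 n n n h h h
  have hnot : ¬ FC a Set.univ := by
    rintro ⟨K, hK, c, hc⟩
    let S : ℕ → Set K := fun i => {k | ∃ j, i < j ∧ c (G (i, j)) = k}
    have hlt : ∀ i j, i < j → S i ≠ S j := by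
      intro i j hij h
      have h1 : c (G (i, j)) ∈ S i := ⟨j, hij, rfl⟩
      rw [h] at h1
      obtain ⟨k, hk, hk'⟩ := h1
      exact hc (G (i, j)) trivial (G (j, k)) trivial
        ⟨(i, j), (j, k), hij, hk, rfl, rfl, Or.inl rfl⟩ hk'.symm
    have hinj : Function.Injective S := by
      intro i j h
      rcases lt_trichotomy i j with h1 | h1 | h1
      · exact (hlt i j h1 h).elim
      · exact h1
      · exact (hlt j i h1 h.symm).elim
    exact not_injective_infinite_finite S hinj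
  let 𝓕 : Filter ℕ :=
    { sets := {E | FC a Eᶜ}
      univ_sets := by
        refine fc_indep ?_
        simp
      sets_of_superset := by
        intro E E' hE hEE'
        exact fc_mono hE (Set.compl_subset_compl.2 hEE')
      inter_sets := by
        intro E E' hE hE'
        show FC a (E ∩ E')ᶜ
        rw [Set.compl_inter]
        exact fc_union hE hE' }
  have hF : ∀ E : Set ℕ, E ∈ 𝓕 ↔ FC a Eᶜ := fun E => Iff.rfl
  have : 𝓕.NeBot := by
    refine ⟨fun h => hnot ?_⟩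
    have h1 : (∅ : Set ℕ) ∈ 𝓕 := Filter.empty_mem_iff_bot.2 h
    rw [hF, Set.compl_empty] at h1
    exact h1
  have hle : (↑(Ultrafilter.of 𝓕) : Filter ℕ) ≤ 𝓕 := Ultrafilter.of_le 𝓕
  refine ⟨a, Set.range g, Ultrafilter.of 𝓕, hTF, ?_, ?_, ?_, ?_⟩
  · refine hle ?_
    rw [hF]
    refine fc_indep ?_
    rintro n hn m - ⟨p, q, -, -, h, -, -⟩
    exact hn ⟨_, h.symm⟩
  · intro E hE
    by_contra hcon
    push Not at hcon
    have h1 : Eᶜ ∈ 𝓕 := by
      rw [hF, compl_compl]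
      exact fc_indep hcon
    have h2 : Eᶜ ∈ Ultrafilter.of 𝓕 := hle h1
    exact (Ultrafilter.compl_mem_iff_notMem.1 h2) hE
  · intro F
    refine hle ?_
    rw [hF, compl_compl]
    exact fc_finite hirr F
  · intro ε hε
    obtain ⟨j, hj⟩ := hgs ε hε
    refine ⟨(Finset.range j).image g, small_mono hj ?_⟩
    rintro _ ⟨⟨i, rfl⟩, hi⟩
    refine ⟨i, ?_, rfl⟩
    by_contra hcon
    exact hi (by simpa using ⟨i, by omega, rfl⟩)

end Pool.Agent.NH62.SB.Graph
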