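import Pool.Agent.NH62.SB.Defs

/-!
Closure properties of the class of functions whose restriction to the ball lies in the algebra.
-/

set_option autoImplicit false

open Metric Set Filter Topology
open scoped ENNReal BoundedContinuousFunction

namespace Pool.Agent.NH62.SB

section

variable {X : Type} [NormedAddCommGroup X] [NormedSpace ℂ X]

/-- the element of the algebra given by a function -/
noncomputable def MemAu.toAu {F : X → ℂ} (h : MemAu F) : ↥(Au X) :=
  ⟨BoundedContinuousFunction.ofNormedAddCommGroup (fun x : ↥(ball (0 : X) 1) => F x)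
    (h.2.1.continuousOn.domRestrict) h.2.2.choose (fun x => h.2.2.choose_spec x x.2),
    by
      have := h.2.1
      rw [uniformContinuousOn_iff_restrict] at this
      exact this, F, h.1, fun _ => rfl⟩

@[simp] theorem MemAu.toAu_apply {F : X → ℂ} (h : MemAu F) (x : ↥(ball (0 : X) 1)) :
    h.toAu.1 x = F x := rfl

theorem MemAu.norm_le {F : X → ℂ} (h : MemAu F) {C : ℝ} (hC : 0 ≤ C)
    (hb : ∀ x ∈ ball (0 : X) 1, ‖F x‖ ≤ C) : ‖h.toAu‖ ≤ C := by
  show ‖(h.toAu).1‖ ≤ C
  rw [BoundedContinuousFunction.norm_le hC]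
  intro x
  exact hb x x.2

theorem memAu_const (c : ℂ) : MemAu (fun _ : X => c) :=
  ⟨differentiableOn_const _, uniformContinuous_const.uniformContinuousOn, ‖c‖, fun _ _ => le_rfl⟩

theorem MemAu.add {F G : X → ℂ} (hF : MemAu F) (hG : MemAu G) : MemAu (fun x => F x + G x) := by
  obtain ⟨h1, h2, C, h3⟩ := hF
  obtain ⟨g1, g2, D, g3⟩ := hG
  rw [uniformContinuousOn_iff_restrict] at h2 g2
  refine ⟨h1.add g1, uniformContinuousOn_iff_restrict.2 (h2.add g2), C + D, fun x hx => (norm_add_le _ _).trans ?_⟩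
  exact add_le_add (h3 x hx) (g3 x hx)

theorem MemAu.neg {F : X → ℂ} (hF : MemAu F) : MemAu (fun x => -F x) := by
  obtain ⟨h1, h2, C, h3⟩ := hF
  rw [uniformContinuousOn_iff_restrict] at h2
  exact ⟨h1.neg, uniformContinuousOn_iff_restrict.2 h2.neg, C, fun x hx => by rw [norm_neg]; exact h3 x hx⟩

theorem MemAu.sub {F G : X → ℂ} (hF : MemAu F) (hG : MemAu G) : MemAu (fun x => F x - G x) := by
  obtain ⟨h1, h2, C, h3⟩ := hF
  obtain ⟨g1, g2, D, g3⟩ := hG
  rw [uniformContinuousOn_iff_restrict] at h2 g2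
  refine ⟨h1.sub g1, uniformContinuousOn_iff_restrict.2 (h2.sub g2), C + D, fun x hx => (norm_sub_le _ _).trans ?_⟩
  exact add_le_add (h3 x hx) (g3 x hx)

theorem MemAu.mul {F G : X → ℂ} (hF : MemAu F) (hG : MemAu G) : MemAu (fun x => F x * G x) := by
  have e := (Au X).mul_mem hF.toAu.2 hG.toAu.2
  obtain ⟨h1, h2, C, h3⟩ := hF
  obtain ⟨g1, g2, D, g3⟩ := hG
  refine ⟨h1.mul g1, ?_, C * D, fun x hx => ?_⟩
  · rw [uniformContinuousOn_iff_restrict]
    exact e.1
  · rw [norm_mul]
    have h0 : 0 ≤ C := (norm_nonneg _).trans (h3 x hx)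
    exact mul_le_mul (h3 x hx) (g3 x hx) (norm_nonneg _) h0

theorem MemAu.const_mul {F : X → ℂ} (hF : MemAu F) (c : ℂ) : MemAu (fun x => c * F x) :=
  (memAu_const c).mul hF

theorem MemAu.div_const {F : X → ℂ} (hF : MemAu F) (c : ℂ) : MemAu (fun x => F x / c) := by
  have := hF.mul (memAu_const c⁻¹)
  simpa [div_eq_mul_inv] using this

theorem MemAu.pow {F : X → ℂ} (hF : MemAu F) (k : ℕ) : MemAu (fun x => F x ^ k) := by
  induction k with
  | zero => simpa using memAu_const (X := X) 1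
  | succ k ih => simpa [pow_succ] using ih.mul hF

theorem memAu_sum {ι : Type} (s : Finset ι) (F : ι → X → ℂ) (h : ∀ i ∈ s, MemAu (F i)) :
    MemAu (fun x => ∑ i ∈ s, F i x) := by
  classical
  induction s using Finset.induction_on with
  | empty => simpa using memAu_const (X := X) 0
  | insert a s ha ih =>
    have h1 := (h a (Finset.mem_insert_self _ _)).add
      (ih fun i hi => h i (Finset.mem_insert_of_mem hi))
    refine (congrArg MemAu ?_).mp h1
    funext x
    rw [Finset.sum_insert ha]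

/-- composition with an entire function -/
theorem MemAu.comp {F : X → ℂ} (hF : MemAu F) {g : ℂ → ℂ} (hg : Differentiable ℂ g) :
    MemAu (fun x => g (F x)) := by
  obtain ⟨h1, h2, C, h3⟩ := hF
  have hK : IsCompact (closedBall (0 : ℂ) C) := isCompact_closedBall 0 C
  have hgc : ContinuousOn g (closedBall (0 : ℂ) C) := hg.continuous.continuousOn
  have hgu : UniformContinuousOn g (closedBall (0 : ℂ) C) :=
    hK.uniformContinuousOn_of_continuous hgc
  have hm : MapsTo F (ball (0 : X) 1) (closedBall (0 : ℂ) C) := by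
    intro x hx
    rw [mem_closedBall_zero_iff]
    exact h3 x hx
  obtain ⟨D, hD⟩ := hK.exists_bound_of_continuousOn hgc
  exact ⟨hg.comp_differentiableOn h1, hgu.comp h2 hm, D, fun x hx => hD _ (hm hx)⟩

theorem MemAu.cexp {F : X → ℂ} (hF : MemAu F) : MemAu (fun x => Complex.exp (F x)) :=
  hF.comp Complex.differentiable_exp

/-- continuous linear functionals -/
theorem memAu_clm (h : StrongDual ℂ X) : MemAu (fun x => h x) := by
  refine ⟨h.differentiable.differentiableOn, h.uniformContinuous.uniformContinuousOn, ‖h‖,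
    fun x hx => ?_⟩
  rw [mem_ball_zero_iff] at hx
  calc ‖h x‖ ≤ ‖h‖ * ‖x‖ := h.le_opNorm x
    _ ≤ ‖h‖ * 1 := by gcongr
    _ = ‖h‖ := mul_one _

/-- diagonals of continuous bilinear forms -/
theorem memAu_bilin (B : X →L[ℂ] X →L[ℂ] ℂ) : MemAu (fun x => B x x) := by
  refine ⟨?_, ?_, ‖B‖, fun x hx => ?_⟩
  · exact (B.differentiable.differentiableOn).clm_apply differentiableOn_id
  · have hL : LipschitzOnWith (Real.toNNReal (2 * ‖B‖)) (fun x => B x x) (ball (0 : X) 1) := by
      rw [lipschitzOnWith_iff_norm_sub_le]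
      intro x hx y hy
      rw [mem_ball_zero_iff] at hx hy
      have e : B x x - B y y = B x (x - y) + B (x - y) y := by
        simp
      rw [e, Real.coe_toNNReal _ (by positivity)]
      calc ‖B x (x - y) + B (x - y) y‖ ≤ ‖B x (x - y)‖ + ‖B (x - y) y‖ := norm_add_le _ _
        _ ≤ ‖B‖ * ‖x‖ * ‖x - y‖ + ‖B‖ * ‖x - y‖ * ‖y‖ :=
          add_le_add (B.le_opNorm₂ _ _) (B.le_opNorm₂ _ _)
        _ ≤ ‖B‖ * 1 * ‖x - y‖ + ‖B‖ * ‖x - y‖ * 1 := by gcongr
        _ = 2 * ‖B‖ * ‖x - y‖ := by ring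
    exact hL.uniformContinuousOn
  · rw [mem_ball_zero_iff] at hx
    calc ‖B x x‖ ≤ ‖B‖ * ‖x‖ * ‖x‖ := B.le_opNorm₂ _ _
      _ ≤ ‖B‖ * 1 * 1 := by gcongr
      _ = ‖B‖ := by ring

/-- diagonals of continuous multilinear forms -/
theorem memAu_multilin {k : ℕ} (M : ContinuousMultilinearMap ℂ (fun _ : Fin k => X) ℂ) :
    MemAu (fun x => M fun _ => x) := by
  let d : X →L[ℂ] (Fin k → X) := ContinuousLinearMap.pi fun _ => ContinuousLinearMap.id ℂ X
  have hd : ∀ x, (fun _ : Fin k => x) = d x := fun x => rfl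
  refine ⟨?_, ?_, ‖M‖, fun x hx => ?_⟩
  · have h1 : Differentiable ℂ (fun m : Fin k → X => M m) := fun m => (M.hasFDerivAt m).differentiableAt
    exact (h1.comp d.differentiable).differentiableOn
  · have hL : LipschitzOnWith (Real.toNNReal (‖M‖ * k)) (fun x => M fun _ => x)
        (ball (0 : X) 1) := by
      rw [lipschitzOnWith_iff_norm_sub_le]
      intro x hx y hy
      rw [mem_ball_zero_iff] at hx hy
      rw [Real.coe_toNNReal _ (by positivity)]
      have e := M.norm_image_sub_le (fun _ => x) (fun _ => y)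
      have n1 : ‖fun _ : Fin k => x‖ ≤ 1 := (pi_norm_const_le x).trans hx.le
      have n2 : ‖fun _ : Fin k => y‖ ≤ 1 := (pi_norm_const_le y).trans hy.le
      have n3 : ‖(fun _ : Fin k => x) - fun _ : Fin k => y‖ ≤ ‖x - y‖ := by
        have : ((fun _ : Fin k => x) - fun _ : Fin k => y) = fun _ : Fin k => x - y := rfl
        rw [this]
        exact pi_norm_const_le _
      refine e.trans ?_
      rw [Fintype.card_fin]
      have n4 : max ‖fun _ : Fin k => x‖ ‖fun _ : Fin k => y‖ ^ (k - 1) ≤ 1 :=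
        pow_le_one₀ (le_max_of_le_left (norm_nonneg _)) (max_le n1 n2)
      calc ‖M‖ * k * max ‖fun _ : Fin k => x‖ ‖fun _ : Fin k => y‖ ^ (k - 1) *
          ‖(fun _ : Fin k => x) - fun _ : Fin k => y‖
          ≤ ‖M‖ * k * 1 * ‖x - y‖ := by gcongr
        _ = ‖M‖ * k * ‖x - y‖ := by ring
    exact hL.uniformContinuousOn
  · rw [mem_ball_zero_iff] at hx
    have e := M.le_opNorm (fun _ => x)
    refine e.trans ?_
    have : ∏ _i : Fin k, ‖x‖ ≤ 1 := Finset.prod_le_one (fun _ _ => norm_nonneg _) fun _ _ => hx.le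
    calc ‖M‖ * ∏ _i : Fin k, ‖x‖ ≤ ‖M‖ * 1 := by gcongr
      _ = ‖M‖ := mul_one _

end

end Pool.Agent.NH62.SB
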