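import Pool.Agent.NH62.SB.StmP
import Pool.Agent.NH62.SB.Mem

/-!
The case of the open ball (helper56).
-/

set_option autoImplicit false

open Metric Set Filter Topology
open scoped ENNReal BoundedContinuousFunction

namespace Pool.Agent.NH62.SB.Inside

/-- an elementary inequality for the logarithm -/
theorem log_ineq {t : ℝ} (ht : 0 < t) : (√t - 1) ^ 2 ≤ t - 1 - Real.log t := by
  have h1 : Real.log t = 2 * Real.log √t := by
    rw [Real.log_sqrt ht.le]
    ring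
  have h2 : Real.log √t ≤ √t - 1 := Real.log_le_sub_one_of_pos (Real.sqrt_pos.mpr ht)
  have h3 : √t ^ 2 = t := Real.sq_sqrt ht.le
  nlinarith

theorem bd {c t d u : ℝ} (hc : 0 < c) (ht : 0 ≤ t) (hu : 0 < u)
    (h : u ≤ Real.exp (c * (1 - t - d)) * t ^ c) :
    0 < t ∧ (√t - 1) ^ 2 + d ≤ -(Real.log u) / c := by
  have ht0 : 0 < t := by
    rcases ht.lt_or_eq with h1 | h1
    · exact h1
    · exfalso
      rw [← h1, Real.zero_rpow hc.ne', mul_zero] at h
      linarith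
  refine ⟨ht0, ?_⟩
  rw [Real.rpow_def_of_pos ht0, ← Real.exp_add] at h
  have h1 := Real.log_le_log hu h
  rw [Real.log_exp] at h1
  rw [le_div_iff₀ hc]
  have h2 := log_ineq ht0
  nlinarith

theorem le_one {c t d : ℝ} (hc : 0 < c) (ht : 0 ≤ t) (hd : 0 ≤ d) :
    Real.exp (c * (1 - t - d)) * t ^ c ≤ 1 := by
  rcases ht.lt_or_eq with h1 | h1
  · rw [Real.rpow_def_of_pos h1, ← Real.exp_add, Real.exp_le_one_iff]
    have h2 := Real.log_le_sub_one_of_pos h1
    nlinarith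
  · rw [← h1, Real.zero_rpow hc.ne', mul_zero]
    norm_num

/-- A version of Tannery's theorem: no mass escapes. -/
theorem tannery {a : ℕ → ℕ → ℝ} {b : ℕ → ℝ} {f : ℕ → ℕ → ℂ} {m : ℕ → ℕ} {c : ℕ → ℝ} {C : ℝ}
    (hC : 0 ≤ C) (hb : Summable b) (hb0 : ∀ i, 0 ≤ b i)
    (hm : Tendsto m atTop atTop) (hab : ∀ i, Tendsto (fun j => a j i) atTop (𝓝 (b i)))
    (hac : ∀ j, ∑ i ∈ Finset.range (m j), a j i ≤ c j)
    (hc : Tendsto c atTop (𝓝 (∑' i, b i)))
    (hf : ∀ i, Tendsto (fun j => f j i) atTop (𝓝 0))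
    (hfa : ∀ j i, ‖f j i‖ ≤ C * (a j i + b i)) :
    Tendsto (fun j => ∑ i ∈ Finset.range (m j), f j i) atTop (𝓝 0) := by
  rw [Metric.tendsto_atTop]
  intro ε hε
  obtain ⟨η, hη, hηε⟩ : ∃ η : ℝ, 0 < η ∧ η * (1 + 4 * C) < ε := by
    refine ⟨ε / (2 * (1 + 4 * C)), by positivity, ?_⟩
    have : 0 < 1 + 4 * C := by positivity
    field_simp
    linarith
  have h1 : Tendsto (fun M => ∑ i ∈ Finset.range M, b i) atTop (𝓝 (∑' i, b i)) :=
    hb.hasSum.tendsto_sum_nat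
  obtain ⟨M, hM⟩ : ∃ M, ∑' i, b i - η < ∑ i ∈ Finset.range M, b i :=
    (h1.eventually (lt_mem_nhds (by linarith))).exists
  have e1 : ∀ᶠ j in atTop, M ≤ m j := hm.eventually_ge_atTop M
  have e2 : ∀ᶠ j in atTop, ∑ i ∈ Finset.range M, ‖f j i‖ < η := by
    have h2 : Tendsto (fun j => ∑ i ∈ Finset.range M, ‖f j i‖) atTop
        (𝓝 (∑ i ∈ Finset.range M, ‖(0 : ℂ)‖)) := tendsto_finsetSum _ fun i _ => (hf i).norm
    rw [norm_zero, Finset.sum_const_zero] at h2
    exact h2.eventually (gt_mem_nhds hη)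
  have e3 : ∀ᶠ j in atTop, c j < ∑' i, b i + η := hc.eventually (gt_mem_nhds (by linarith))
  have e4 : ∀ᶠ j in atTop, ∑ i ∈ Finset.range M, b i - η < ∑ i ∈ Finset.range M, a j i :=
    (tendsto_finsetSum _ fun i _ => hab i).eventually (lt_mem_nhds (by linarith))
  obtain ⟨N, hN⟩ := Filter.eventually_atTop.mp (e1.and (e2.and (e3.and e4)))
  refine ⟨N, fun j hj => ?_⟩
  obtain ⟨g1, g2, g3, g4⟩ := hN j hj
  rw [dist_zero_right]
  have s1 : ∑ i ∈ Finset.range (m j), f j i =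
      ∑ i ∈ Finset.range M, f j i + ∑ i ∈ Finset.Ico M (m j), f j i :=
    (Finset.sum_range_add_sum_Ico _ g1).symm
  have s2 : ∑ i ∈ Finset.range M, a j i + ∑ i ∈ Finset.Ico M (m j), a j i =
      ∑ i ∈ Finset.range (m j), a j i := Finset.sum_range_add_sum_Ico _ g1
  have s3 : ∑ i ∈ Finset.range M, b i + ∑ i ∈ Finset.Ico M (m j), b i =
      ∑ i ∈ Finset.range (m j), b i := Finset.sum_range_add_sum_Ico _ g1
  have s4 : ∑ i ∈ Finset.range (m j), b i ≤ ∑' i, b i :=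
    hb.sum_le_tsum _ fun i _ => hb0 i
  have s5 : ‖∑ i ∈ Finset.range M, f j i‖ ≤ ∑ i ∈ Finset.range M, ‖f j i‖ := norm_sum_le _ _
  have s6 : ‖∑ i ∈ Finset.Ico M (m j), f j i‖ ≤
      C * (∑ i ∈ Finset.Ico M (m j), a j i + ∑ i ∈ Finset.Ico M (m j), b i) := by
    refine (norm_sum_le _ _).trans ?_
    rw [← Finset.sum_add_distrib, Finset.mul_sum]
    exact Finset.sum_le_sum fun i _ => hfa j i
  have s7 := hac j
  rw [s1]
  refine (norm_add_le _ _).trans_lt ?_
  have s8 : C * (∑ i ∈ Finset.Ico M (m j), a j i + ∑ i ∈ Finset.Ico M (m j), b i) ≤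
      C * (4 * η) := by
    apply mul_le_mul_of_nonneg_left _ hC
    linarith
  nlinarith

theorem pow_le_rpow {y r : ℝ} {k : ℕ} (h0 : 0 ≤ y) (h1 : y ≤ 1) (hr : 0 < r) (hk : r ≤ k) :
    y ^ k ≤ y ^ r := by
  rcases h0.lt_or_eq with h | h
  · rw [← Real.rpow_natCast]
    exact Real.rpow_le_rpow_of_exponent_ge h h1 hk
  · rw [← h, Real.zero_rpow hr.ne', zero_pow]
    rintro rfl
    rw [Nat.cast_zero] at hk
    linarith

/-- Young's inequality, weak form -/
theorem young {x y r : ℝ} (hx : 0 ≤ x) (hy : 0 ≤ y) (hr : 1 < r) :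
    y ^ (r - 1) * x ≤ x ^ r + y ^ r := by
  have h0 : r ≠ 0 := by linarith
  rcases le_total x y with h | h
  · have h1 : y ^ (r - 1) * x ≤ y ^ (r - 1) * y := by
      apply mul_le_mul_of_nonneg_left h (Real.rpow_nonneg hy _)
    have h2 : y ^ (r - 1) * y = y ^ r := by
      rcases hy.lt_or_eq with h3 | h3
      · rw [← Real.rpow_add_one h3.ne', sub_add_cancel]
      · rw [← h3, Real.zero_rpow h0, mul_zero]
    have h3 : 0 ≤ x ^ r := Real.rpow_nonneg hx _
    linarith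
  · have h1 : y ^ (r - 1) * x ≤ x ^ (r - 1) * x := by
      apply mul_le_mul_of_nonneg_right _ hx
      exact Real.rpow_le_rpow hy h (by linarith)
    have h2 : x ^ (r - 1) * x = x ^ r := by
      rcases hx.lt_or_eq with h3 | h3
      · rw [← Real.rpow_add_one h3.ne', sub_add_cancel]
      · rw [← h3, Real.zero_rpow h0, mul_zero]
    have h3 : 0 ≤ y ^ r := Real.rpow_nonneg hy _
    linarith

section lemmas

variable {p : ℝ≥0∞} [Fact (1 ≤ p)]

theorem coord_lt (x : lp (fun _ : ℕ => ℂ) p) (hx : ‖x‖ < 1) (n : ℕ) : ‖x n‖ < 1 := by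
  have hp0 : p ≠ 0 := by
    intro h
    have h1 : (1 : ℝ≥0∞) ≤ p := Fact.out
    rw [h] at h1
    simp at h1
  exact (lp.norm_apply_le_norm hp0 x n).trans_lt hx

omit [Fact (1 ≤ p)] in
theorem summ (hp : 0 < p.toReal) (x : lp (fun _ : ℕ => ℂ) p) :
    Summable fun n => ‖x n‖ ^ p.toReal := (lp.memℓp x).summable hp

omit [Fact (1 ≤ p)] in
theorem tsum_eq (hp : 0 < p.toReal) (x : lp (fun _ : ℕ => ℂ) p) :
    ∑' n, ‖x n‖ ^ p.toReal = ‖x‖ ^ p.toReal := (lp.norm_rpow_eq_tsum hp x).symm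

theorem coord_cont (n : ℕ) : Continuous fun x : lp (fun _ : ℕ => ℂ) p => x n :=
  (lp.evalCLM ℂ (fun _ : ℕ => ℂ) p n).continuous

theorem coord_mem (n : ℕ) : MemAu fun x : lp (fun _ : ℕ => ℂ) p => x n :=
  memAu_clm (lp.evalCLM ℂ (fun _ : ℕ => ℂ) p n)

end lemmas

/-- the remaining mass -/
noncomputable def Sm (r : ℝ) (w : ℕ → ℂ) (m : ℕ) : ℝ := 1 - ∑ i ∈ Finset.range m, ‖w i‖ ^ r

/-- the deficits -/
noncomputable def Dm (r : ℝ) (w x : ℕ → ℂ) (i : ℕ) : ℝ :=
  ‖x i‖ ^ r - ‖w i‖ ^ r - r * (Jr r (w i) * (x i - w i)).re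

/-- the test functions -/
noncomputable def Fm (r : ℝ) (k : ℕ) (w x : ℕ → ℂ) (q : ℂ) (m : ℕ) : ℂ :=
  Complex.exp ((((k : ℝ) / Sm r w m : ℝ) : ℂ) * ∑ i ∈ Finset.range m, Jr r (w i) * (x i - w i)) *
    ((q - ∑ i ∈ Finset.range m, x i ^ k) / ((Sm r w m ^ ((k : ℝ) / r) : ℝ) : ℂ))

section seq

variable {r : ℝ} {k : ℕ} {w : ℕ → ℂ}

theorem Sm_tendsto (hw : Summable fun n => ‖w n‖ ^ r) :
    Tendsto (Sm r w) atTop (𝓝 (1 - ∑' n, ‖w n‖ ^ r)) :=
  hw.hasSum.tendsto_sum_nat.const_sub 1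

theorem le_Sm (hw : Summable fun n => ‖w n‖ ^ r) (m : ℕ) : 1 - ∑' n, ‖w n‖ ^ r ≤ Sm r w m := by
  unfold Sm
  have := hw.sum_le_tsum (Finset.range m) fun i _ => Real.rpow_nonneg (norm_nonneg (w i)) r
  linarith

/-- the bound for the test functions -/
theorem Fm_bound (hK : S_Key) (hr : 1 < r) (hk : r ≤ k) (hw : Summable fun n => ‖w n‖ ^ r)
    (hw1 : ∑' n, ‖w n‖ ^ r < 1) {x : ℕ → ℂ} (hx : Summable fun n => ‖x n‖ ^ r)
    (hx1 : ∑' n, ‖x n‖ ^ r ≤ 1) (hxk : Summable fun n => ‖x n‖ ^ k) (m : ℕ) :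
    ‖Fm r k w x (∑' n, x n ^ k) m‖ ≤ Real.exp ((k : ℝ) / r *
      (1 - (∑' n, ‖x (n + m)‖ ^ r) / Sm r w m -
        (∑ i ∈ Finset.range m, Dm r w x i) / Sm r w m)) *
        ((∑' n, ‖x (n + m)‖ ^ r) / Sm r w m) ^ ((k : ℝ) / r) := by
  have hS : 0 < Sm r w m := lt_of_lt_of_le (by linarith) (le_Sm hw m)
  have h1 := hK r k hr hk w x m (Sm r w m) hx hx1 rfl hS _ rfl
  have h2 : Summable fun n => x n ^ k := by
    apply Summable.of_norm
    simpa only [norm_pow] using hxk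
  have h3 : ∑' n, x (n + m) ^ k = ∑' n, x n ^ k - ∑ i ∈ Finset.range m, x i ^ k := by
    rw [← h2.sum_add_tsum_nat_add m]
    ring
  rw [h3] at h1
  exact h1

/-- If the test functions converge to one at the points `x j` then the points converge. -/
theorem seq_lim (hD : S_D) (hK : S_Key) (hr : 1 < r) (hk : r ≤ k)
    (hw : Summable fun n => ‖w n‖ ^ r) (hw1 : ∑' n, ‖w n‖ ^ r < 1) (hwn : ∀ n, ‖w n‖ ≤ 1)
    (hwk : Summable fun n => ‖w n‖ ^ k)
    {x : ℕ → ℕ → ℂ} (hx : ∀ j, Summable fun n => ‖x j n‖ ^ r)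
    (hx1 : ∀ j, ∑' n, ‖x j n‖ ^ r ≤ 1) (hxn : ∀ j n, ‖x j n‖ ≤ 1)
    (hxk : ∀ j, Summable fun n => ‖x j n‖ ^ k) {m : ℕ → ℕ} (hm : Tendsto m atTop atTop)
    (hF : Tendsto (fun j => Fm r k w (x j) (∑' n, x j n ^ k) (m j)) atTop (𝓝 1)) :
    (∀ n, Tendsto (fun j => x j n) atTop (𝓝 (w n))) ∧
      Tendsto (fun j => ∑' n, x j n ^ k) atTop
        (𝓝 (∑' n, w n ^ k + (((1 - ∑' n, ‖w n‖ ^ r) ^ ((k : ℝ) / r) : ℝ) : ℂ))) := by
  obtain ⟨hD1, hD2, hD3⟩ := hD r hr
  have hr0 : 0 < r := by linarith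
  have hk0 : (0 : ℝ) < k := by linarith
  set S : ℝ := 1 - ∑' n, ‖w n‖ ^ r with hSdef
  have hS0 : 0 < S := by linarith
  have hSm : ∀ j, 0 < Sm r w (m j) := fun j => lt_of_lt_of_le hS0 (le_Sm hw _)
  have hSlim : Tendsto (fun j => Sm r w (m j)) atTop (𝓝 S) := (Sm_tendsto hw).comp hm
  set T : ℕ → ℝ := fun j => ∑' n, ‖x j (n + m j)‖ ^ r with hT
  have hT0 : ∀ j, 0 ≤ T j := fun j => tsum_nonneg fun n => Real.rpow_nonneg (norm_nonneg _) _
  set t : ℕ → ℝ := fun j => T j / Sm r w (m j) with ht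
  have ht0 : ∀ j, 0 ≤ t j := fun j => div_nonneg (hT0 j) (hSm j).le
  set d : ℕ → ℝ := fun j => (∑ i ∈ Finset.range (m j), Dm r w (x j) i) / Sm r w (m j) with hd
  have hDm0 : ∀ j i, 0 ≤ Dm r w (x j) i := by
    intro j i
    have := hD2 (w i) (x j i)
    unfold Dm
    linarith
  have hd0 : ∀ j, 0 ≤ d j := fun j =>
    div_nonneg (Finset.sum_nonneg fun i _ => hDm0 j i) (hSm j).le
  set u : ℕ → ℝ := fun j => ‖Fm r k w (x j) (∑' n, x j n ^ k) (m j)‖ with hu
  have hulim : Tendsto u atTop (𝓝 1) := by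
    have := hF.norm
    rwa [norm_one] at this
  have hbd : ∀ j, u j ≤ Real.exp ((k : ℝ) / r * (1 - t j - d j)) * t j ^ ((k : ℝ) / r) :=
    fun j => Fm_bound hK hr hk hw hw1 (hx j) (hx1 j) (hxk j) (m j)
  have hkr : 0 < (k : ℝ) / r := by positivity
  have hev : ∀ᶠ j in atTop, (√(t j) - 1) ^ 2 + d j ≤ -(Real.log (u j)) / ((k : ℝ) / r) := by
    filter_upwards [hulim.eventually (lt_mem_nhds one_pos)] with j hj
    exact (bd hkr (ht0 j) hj (hbd j)).2
  have hloglim : Tendsto (fun j => -(Real.log (u j)) / ((k : ℝ) / r)) atTop (𝓝 0) := by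
    have h1 := ((Real.continuousAt_log one_ne_zero).tendsto.comp hulim).neg.div_const ((k : ℝ) / r)
    rw [Real.log_one, neg_zero, zero_div] at h1
    exact h1
  have hdlim : Tendsto d atTop (𝓝 0) :=
    squeeze_zero' (Eventually.of_forall hd0)
      (hev.mono fun j hj => by nlinarith [sq_nonneg (√(t j) - 1)]) hloglim
  have hsqlim : Tendsto (fun j => (√(t j) - 1) ^ 2) atTop (𝓝 0) :=
    squeeze_zero' (Eventually.of_forall fun j => sq_nonneg _)
      (hev.mono fun j hj => by linarith [hd0 j]) hloglim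
  have htlim : Tendsto t atTop (𝓝 1) := by
    have h1 : Tendsto (fun j => |√(t j) - 1|) atTop (𝓝 0) := by
      have h2 := (Real.continuous_sqrt.tendsto 0).comp hsqlim
      rw [Real.sqrt_zero] at h2
      refine h2.congr fun j => ?_
      exact Real.sqrt_sq_eq_abs _
    have h2 : Tendsto (fun j => √(t j) - 1) atTop (𝓝 0) :=
      (tendsto_zero_iff_abs_tendsto_zero _).mpr h1
    have h3 : Tendsto (fun j => √(t j)) atTop (𝓝 1) := by
      have h4 := h2.add_const 1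
      rw [zero_add] at h4
      refine h4.congr fun j => ?_
      ring
    have h4 := h3.pow 2
    rw [one_pow] at h4
    refine h4.congr fun j => ?_
    exact Real.sq_sqrt (ht0 j)
  have hTlim : Tendsto T atTop (𝓝 S) := by
    have h1 := htlim.mul hSlim
    rw [one_mul] at h1
    refine h1.congr fun j => ?_
    exact div_mul_cancel₀ _ (hSm j).ne'
  -- the coordinates
  have hDlim : ∀ i, Tendsto (fun j => Dm r w (x j) i) atTop (𝓝 0) := by
    intro i
    have h1 := hdlim.mul hSlim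
    rw [zero_mul] at h1
    refine squeeze_zero' (Eventually.of_forall fun j => hDm0 j i) ?_ h1
    filter_upwards [hm.eventually_gt_atTop i] with j hj
    rw [hd]
    dsimp only
    rw [div_mul_cancel₀ _ (hSm j).ne']
    exact Finset.single_le_sum (f := fun i => Dm r w (x j) i) (fun i _ => hDm0 j i)
      (Finset.mem_range.mpr hj)
  have hcoord : ∀ n, Tendsto (fun j => x j n) atTop (𝓝 (w n)) := by
    intro n
    rw [Metric.tendsto_atTop']
    intro ε hε
    obtain ⟨δ, hδ, h1⟩ := hD3 (w n) (ε / 2) (by positivity)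
    obtain ⟨N, hN⟩ := Filter.eventually_atTop.mp ((hDlim n).eventually (gt_mem_nhds hδ))
    refine ⟨N, fun j hj => ?_⟩
    rw [dist_eq_norm]
    have h2 := h1 (x j n) (hxn j n) (hN j hj.le).le
    linarith
  refine ⟨hcoord, ?_⟩
  -- no mass escapes
  have hab : ∀ i, Tendsto (fun j => ‖x j i‖ ^ r) atTop (𝓝 (‖w i‖ ^ r)) := fun i =>
    (hcoord i).norm.rpow_const (Or.inr hr0.le)
  have hac : ∀ j, ∑ i ∈ Finset.range (m j), ‖x j i‖ ^ r ≤ 1 - T j := by
    intro j
    have h1 := (hx j).sum_add_tsum_nat_add (m j)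
    have h2 := hx1 j
    rw [← h1] at h2
    have h3 : T j = ∑' n, ‖x j (n + m j)‖ ^ r := rfl
    linarith
  have hclim : Tendsto (fun j => 1 - T j) atTop (𝓝 (∑' n, ‖w n‖ ^ r)) := by
    have h1 := hTlim.const_sub 1
    rwa [hSdef, sub_sub_cancel] at h1
  have hA : Tendsto (fun j => ∑ i ∈ Finset.range (m j), (x j i ^ k - w i ^ k)) atTop (𝓝 0) := by
    refine tannery zero_le_one hw (fun i => Real.rpow_nonneg (norm_nonneg _) _) hm hab hac hclim
      ?_ ?_
    · intro i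
      have h1 := ((hcoord i).pow k).sub_const (w i ^ k)
      rwa [sub_self] at h1
    · intro j i
      rw [one_mul]
      refine (norm_sub_le _ _).trans ?_
      rw [norm_pow, norm_pow]
      exact add_le_add (pow_le_rpow (norm_nonneg _) (hxn j i) hr0 hk)
        (pow_le_rpow (norm_nonneg _) (hwn i) hr0 hk)
  have hE : Tendsto (fun j => ∑ i ∈ Finset.range (m j), Jr r (w i) * (x j i - w i)) atTop
      (𝓝 0) := by
    refine tannery (C := 3) (by norm_num) hw (fun i => Real.rpow_nonneg (norm_nonneg _) _) hm hab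
      hac hclim ?_ ?_
    · intro i
      have h1 := ((hcoord i).sub_const (w i)).const_mul (Jr r (w i))
      rwa [sub_self, mul_zero] at h1
    · intro j i
      rw [norm_mul, (hD1 (w i)).1]
      have h1 : ‖x j i - w i‖ ≤ ‖x j i‖ + ‖w i‖ := norm_sub_le _ _
      have h2 := young (norm_nonneg (x j i)) (norm_nonneg (w i)) hr
      have h3 := young (norm_nonneg (w i)) (norm_nonneg (w i)) hr
      have h4 : 0 ≤ ‖w i‖ ^ (r - 1) := Real.rpow_nonneg (norm_nonneg _) _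
      have h5 : 0 ≤ ‖x j i‖ ^ r := Real.rpow_nonneg (norm_nonneg _) _
      calc ‖w i‖ ^ (r - 1) * ‖x j i - w i‖ ≤ ‖w i‖ ^ (r - 1) * (‖x j i‖ + ‖w i‖) := by gcongr
        _ = ‖w i‖ ^ (r - 1) * ‖x j i‖ + ‖w i‖ ^ (r - 1) * ‖w i‖ := by ring
        _ ≤ _ := by linarith
  have hwsum : Tendsto (fun j => ∑ i ∈ Finset.range (m j), w i ^ k) atTop
      (𝓝 (∑' n, w n ^ k)) := by
    have h2 : Summable fun n => w n ^ k := by
      apply Summable.of_norm
      simpa only [norm_pow] using hwk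
    exact h2.hasSum.tendsto_sum_nat.comp hm
  -- the last part
  have hKlim : Tendsto (fun j => ((Sm r w (m j) ^ ((k : ℝ) / r) : ℝ) : ℂ)) atTop
      (𝓝 ((S ^ ((k : ℝ) / r) : ℝ) : ℂ)) :=
    (Complex.continuous_ofReal.tendsto _).comp (hSlim.rpow_const (Or.inr hkr.le))
  have hexp : Tendsto (fun j => Complex.exp (-((((k : ℝ) / Sm r w (m j) : ℝ) : ℂ) *
      ∑ i ∈ Finset.range (m j), Jr r (w i) * (x j i - w i)))) atTop (𝓝 1) := by
    have h1 : Tendsto (fun j => (((k : ℝ) / Sm r w (m j) : ℝ) : ℂ)) atTop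
        (𝓝 (((k : ℝ) / S : ℝ) : ℂ)) :=
      (Complex.continuous_ofReal.tendsto _).comp (tendsto_const_nhds.div hSlim hS0.ne')
    have h2 := (h1.mul hE).neg
    rw [mul_zero, neg_zero] at h2
    have h3 := (Complex.continuous_exp.tendsto 0).comp h2
    rw [Complex.exp_zero] at h3
    exact h3
  have hB : Tendsto (fun j => ∑' n, x j n ^ k - ∑ i ∈ Finset.range (m j), x j i ^ k) atTop
      (𝓝 ((S ^ ((k : ℝ) / r) : ℝ) : ℂ)) := by
    have h1 := (hF.mul hexp).mul hKlim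
    rw [one_mul, one_mul] at h1
    refine h1.congr fun j => ?_
    have h2 : ((Sm r w (m j) ^ ((k : ℝ) / r) : ℝ) : ℂ) ≠ 0 := by
      rw [Complex.ofReal_ne_zero]
      exact (Real.rpow_pos_of_pos (hSm j) _).ne'
    unfold Fm
    rw [Complex.exp_neg]
    have h3 := Complex.exp_ne_zero ((((k : ℝ) / Sm r w (m j) : ℝ) : ℂ) *
      ∑ i ∈ Finset.range (m j), Jr r (w i) * (x j i - w i))
    generalize Complex.exp ((((k : ℝ) / Sm r w (m j) : ℝ) : ℂ) *
      ∑ i ∈ Finset.range (m j), Jr r (w i) * (x j i - w i)) = e at h3 ⊢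
    field_simp
  have h1 := (hA.add hwsum).add hB
  rw [zero_add] at h1
  refine h1.congr fun j => ?_
  rw [Finset.sum_sub_distrib]
  ring

theorem Fm_cont (m : ℕ) : Continuous fun z : (ℕ → ℂ) × ℂ => Fm r k w z.1 z.2 m := by
  unfold Fm
  have h1 : ∀ i, Continuous fun z : (ℕ → ℂ) × ℂ => z.1 i := fun i =>
    (continuous_apply i).comp continuous_fst
  refine Continuous.mul (Complex.continuous_exp.comp (continuous_const.mul
    (continuous_finsetSum _ fun i _ => continuous_const.mul ((h1 i).sub continuous_const)))) ?_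
  exact (continuous_snd.sub (continuous_finsetSum _ fun i _ => (h1 i).pow k)).div_const _

theorem Fm_lim (hr : 1 < r) (hk : r ≤ k) (hw : Summable fun n => ‖w n‖ ^ r)
    (hw1 : ∑' n, ‖w n‖ ^ r < 1) (hwk : Summable fun n => ‖w n‖ ^ k) :
    Tendsto (fun m => Fm r k w w (∑' n, w n ^ k +
      (((1 - ∑' n, ‖w n‖ ^ r) ^ ((k : ℝ) / r) : ℝ) : ℂ)) m) atTop (𝓝 1) := by
  have hr0 : 0 < r := by linarith
  have hk0 : (0 : ℝ) < k := by linarith
  have hkr : 0 < (k : ℝ) / r := by positivity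
  have h2 : Summable fun n => w n ^ k := by
    apply Summable.of_norm
    simpa only [norm_pow] using hwk
  have hS0 : 0 < 1 - ∑' n, ‖w n‖ ^ r := by linarith
  have hne : (((1 - ∑' n, ‖w n‖ ^ r) ^ ((k : ℝ) / r) : ℝ) : ℂ) ≠ 0 := by
    rw [Complex.ofReal_ne_zero]
    exact (Real.rpow_pos_of_pos hS0 _).ne'
  have hKlim : Tendsto (fun m => ((Sm r w m ^ ((k : ℝ) / r) : ℝ) : ℂ)) atTop
      (𝓝 (((1 - ∑' n, ‖w n‖ ^ r) ^ ((k : ℝ) / r) : ℝ) : ℂ)) :=
    (Complex.continuous_ofReal.tendsto _).comp ((Sm_tendsto hw).rpow_const (Or.inr hkr.le))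
  have h3 := ((h2.hasSum.tendsto_sum_nat).const_sub (∑' n, w n ^ k +
      (((1 - ∑' n, ‖w n‖ ^ r) ^ ((k : ℝ) / r) : ℝ) : ℂ))).div hKlim hne
  rw [add_sub_cancel_left, div_self hne] at h3
  refine h3.congr fun m => ?_
  unfold Fm
  simp

end seq

/-- the test functions on the space -/
noncomputable def TF {p : ℝ≥0∞} [Fact (1 ≤ p)] (r : ℝ) (k : ℕ) (w : lp (fun _ : ℕ => ℂ) p)
    (M : ContinuousMultilinearMap ℂ (fun _ : Fin k => lp (fun _ : ℕ => ℂ) p) ℂ) (m : ℕ)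
    (x : lp (fun _ : ℕ => ℂ) p) : ℂ :=
  Fm r k (fun n => w n) (fun n => x n) (M fun _ => x) m

theorem TF_mem {p : ℝ≥0∞} [Fact (1 ≤ p)] (r : ℝ) (k : ℕ) (w : lp (fun _ : ℕ => ℂ) p)
    (M : ContinuousMultilinearMap ℂ (fun _ : Fin k => lp (fun _ : ℕ => ℂ) p) ℂ) (m : ℕ) :
    MemAu (TF r k w M m) := by
  have h1 : MemAu fun x : lp (fun _ : ℕ => ℂ) p =>
      ∑ i ∈ Finset.range m, Jr r (w i) * (x i - w i) :=
    memAu_sum _ (fun i (x : lp (fun _ : ℕ => ℂ) p) => Jr r (w i) * (x i - w i))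
      fun i _ => ((coord_mem i).sub (memAu_const _)).const_mul _
  have h2 : MemAu fun x : lp (fun _ : ℕ => ℂ) p => ∑ i ∈ Finset.range m, x i ^ k :=
    memAu_sum _ (fun i (x : lp (fun _ : ℕ => ℂ) p) => x i ^ k) fun i _ => (coord_mem i).pow k
  exact (h1.const_mul (((k : ℝ) / Sm r (fun n => w n) m : ℝ) : ℂ)).cexp.mul
    (((memAu_multilin M).sub h2).div_const ((Sm r (fun n => w n) m ^ ((k : ℝ) / r) : ℝ) : ℂ))

/-- the map to the coordinates -/
noncomputable def phi {p : ℝ≥0∞} [Fact (1 ≤ p)] {k : ℕ}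
    (M : ContinuousMultilinearMap ℂ (fun _ : Fin k => lp (fun _ : ℕ => ℂ) p) ℂ)
    (x : ↥(ball (0 : lp (fun _ : ℕ => ℂ) p) 1)) : (ℕ → ℂ) × ℂ :=
  (fun n => (x : lp (fun _ : ℕ => ℂ) p) n, M fun _ => (x : lp (fun _ : ℕ => ℂ) p))

theorem TF_tendsto {p : ℝ≥0∞} [Fact (1 ≤ p)] (r : ℝ) (k : ℕ) (w : lp (fun _ : ℕ => ℂ) p)
    (M : ContinuousMultilinearMap ℂ (fun _ : Fin k => lp (fun _ : ℕ => ℂ) p) ℂ) (m : ℕ) (q0 : ℂ)
    (L : Filter ↥(ball (0 : lp (fun _ : ℕ => ℂ) p) 1))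
    (hφ : Tendsto (phi M) L (𝓝 ((fun n => w n), q0))) :
    Tendsto (fun x : ↥(ball (0 : lp (fun _ : ℕ => ℂ) p) 1) =>
      TF r k w M m (x : lp (fun _ : ℕ => ℂ) p)) L
      (𝓝 (Fm r k (fun n => w n) (fun n => w n) q0 m)) := by
  have h1 := ((Fm_cont (r := r) (k := k) (w := fun n => w n) m).tendsto
    ((fun n => w n), q0)).comp hφ
  exact h1

theorem inside (hD : S_D) (hQ : S_Q) (hK : S_Key) : S_Inside := by
  intro p _ hp1 hptop w hw
  obtain ⟨r, hrdef⟩ : ∃ r : ℝ, r = p.toReal := ⟨_, rfl⟩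
  have hr : 1 < r := by
    rw [hrdef, ← ENNReal.toReal_one]
    exact (ENNReal.toReal_lt_toReal ENNReal.one_ne_top hptop).mpr hp1
  have hr0 : 0 < r := by linarith
  have hpr : 0 < p.toReal := hrdef ▸ hr0
  obtain ⟨k, hk⟩ := exists_nat_ge r
  have hk0 : (0 : ℝ) < k := by linarith
  have hkr : 0 < (k : ℝ) / r := by positivity
  have hpk : p ≤ (k : ℝ≥0∞) := by
    rw [← ENNReal.toReal_le_toReal hptop (ENNReal.natCast_ne_top k), ENNReal.toReal_natCast,
      ← hrdef]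
    exact hk
  obtain ⟨M, hM⟩ := hQ p hptop k hpk
  have hsum : ∀ x : lp (fun _ : ℕ => ℂ) p, Summable fun n => ‖x n‖ ^ r := by
    intro x
    rw [hrdef]
    exact summ hpr x
  have htsum : ∀ x : lp (fun _ : ℕ => ℂ) p, ∑' n, ‖x n‖ ^ r = ‖x‖ ^ r := by
    intro x
    rw [hrdef]
    exact tsum_eq hpr x
  have hw1 : ∑' n, ‖w n‖ ^ r < 1 := by
    rw [htsum w]
    exact Real.rpow_lt_one (norm_nonneg _) hw hr0
  have hS0 : 0 < 1 - ∑' n, ‖w n‖ ^ r := by linarith
  have hwk : Summable fun n => w n ^ k := by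
    apply Summable.of_norm
    simpa only [norm_pow] using (hM w).1
  obtain ⟨q0, hq0⟩ : ∃ q0 : ℂ, q0 = ∑' n, w n ^ k +
      (((1 - ∑' n, ‖w n‖ ^ r) ^ ((k : ℝ) / r) : ℝ) : ℂ) := ⟨_, rfl⟩
  obtain ⟨L, hL⟩ : ∃ L : Filter ↥(ball (0 : lp (fun _ : ℕ => ℂ) p) 1),
      L = comap (phi M) (𝓝 ((fun n => w n), q0)) := ⟨_, rfl⟩
  have hφ : Tendsto (phi M) L (𝓝 ((fun n => w n), q0)) := by
    rw [hL]
    exact tendsto_comap
  refine ⟨L, ?_, ?_, ?_⟩
  · -- the filter is proper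
    obtain ⟨s, hs⟩ : ∃ s : ℝ, s = (1 - ∑' n, ‖w n‖ ^ r) ^ (1 / r) := ⟨_, rfl⟩
    have hs0 : 0 < s := by
      rw [hs]
      exact Real.rpow_pos_of_pos hS0 _
    have hsr : s ^ r = 1 - ∑' n, ‖w n‖ ^ r := by
      rw [hs, ← Real.rpow_mul hS0.le, one_div_mul_cancel hr0.ne', Real.rpow_one]
    have hsk : s ^ k = (1 - ∑' n, ‖w n‖ ^ r) ^ ((k : ℝ) / r) := by
      rw [hs, ← Real.rpow_natCast, ← Real.rpow_mul hS0.le]
      congr 1
      ring
    let τ : ℕ → ℝ := fun j => s * (1 - 1 / ((j : ℝ) + 1))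
    have hτ0 : ∀ j, 0 ≤ τ j := by
      intro j
      have : 1 / ((j : ℝ) + 1) ≤ 1 := by
        rw [div_le_one (by positivity)]
        linarith [Nat.cast_nonneg (α := ℝ) j]
      exact mul_nonneg hs0.le (by linarith)
    have hτs : ∀ j, τ j < s := by
      intro j
      have : 0 < 1 / ((j : ℝ) + 1) := by positivity
      have h2 : s * (1 - 1 / ((j : ℝ) + 1)) < s * 1 := by
        apply mul_lt_mul_of_pos_left _ hs0
        linarith
      rwa [mul_one] at h2
    have hτlim : Tendsto τ atTop (𝓝 s) := by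
      have h1 := (tendsto_one_div_add_atTop_nhds_zero_nat (𝕜 := ℝ)).const_sub 1
      have h2 := h1.const_mul s
      rw [sub_zero, mul_one] at h2
      exact h2
    let y : ℕ → lp (fun _ : ℕ => ℂ) p := fun j => w + lp.single p j ((τ j : ℂ) - w j)
    have hy : ∀ j n, y j n = if n = j then (τ j : ℂ) else w n := by
      intro j n
      change w n + (lp.single p j ((τ j : ℂ) - w j) : lp (fun _ : ℕ => ℂ) p) n = _
      by_cases h : n = j
      · subst h
        rw [lp.single_apply_self, if_pos rfl]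
        ring
      · rw [lp.single_apply_ne _ _ _ h, if_neg h, add_zero]
    have hy1 : ∀ j, ‖y j‖ < 1 := by
      intro j
      by_contra hcon
      have h1 : 1 ≤ ‖y j‖ ^ r := Real.one_le_rpow (not_lt.mp hcon) hr0.le
      have h2 : ‖y j‖ ^ r ≤ ∑' n, ‖w n‖ ^ r + τ j ^ r := by
        rw [← htsum (y j)]
        have h3 : HasSum (fun n => ‖w n‖ ^ r + (if n = j then τ j ^ r else 0))
            (∑' n, ‖w n‖ ^ r + τ j ^ r) := (hsum w).hasSum.add (hasSum_ite_eq j _)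
        rw [← h3.tsum_eq]
        refine Summable.tsum_le_tsum (fun n => ?_) (hsum (y j)) h3.summable
        rw [hy]
        by_cases h : n = j
        · rw [if_pos h, if_pos h, Complex.norm_real, Real.norm_of_nonneg (hτ0 j)]
          have := Real.rpow_nonneg (norm_nonneg (w n)) r
          linarith
        · rw [if_neg h, if_neg h, add_zero]
      have h3 : τ j ^ r < s ^ r := Real.rpow_lt_rpow (hτ0 j) (hτs j) hr0
      rw [hsr] at h3
      linarith
    have hQy : ∀ j, (M fun _ => y j) = ∑' n, w n ^ k + ((τ j : ℂ) ^ k - w j ^ k) := by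
      intro j
      rw [(hM (y j)).2]
      have h3 : HasSum (fun n => w n ^ k + (if n = j then (τ j : ℂ) ^ k - w j ^ k else 0))
          (∑' n, w n ^ k + ((τ j : ℂ) ^ k - w j ^ k)) := hwk.hasSum.add (hasSum_ite_eq j _)
      rw [← h3.tsum_eq]
      refine tsum_congr fun n => ?_
      rw [hy]
      by_cases h : n = j
      · subst h
        rw [if_pos rfl, if_pos rfl]
        ring
      · rw [if_neg h, if_neg h, add_zero]
    let z : ℕ → ↥(ball (0 : lp (fun _ : ℕ => ℂ) p) 1) := fun j =>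
      ⟨y j, mem_ball_zero_iff.mpr (hy1 j)⟩
    have hz : Tendsto z atTop L := by
      rw [hL, tendsto_comap_iff]
      refine Tendsto.prodMk_nhds ?_ ?_
      · rw [tendsto_pi_nhds]
        intro n
        refine (tendsto_const_nhds (x := w n)).congr' ?_
        filter_upwards [Filter.eventually_gt_atTop n] with j hj
        change w n = y j n
        rw [hy, if_neg hj.ne]
      · have h1 : Tendsto (fun j => ∑' n, w n ^ k + ((τ j : ℂ) ^ k - w j ^ k)) atTop (𝓝 q0) := by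
          have h2 : Tendsto (fun j => (τ j : ℂ)) atTop (𝓝 (s : ℂ)) :=
            (Complex.continuous_ofReal.tendsto _).comp hτlim
          have h3 := ((h2.pow k).sub hwk.tendsto_atTop_zero).const_add (∑' n, w n ^ k)
          rw [sub_zero] at h3
          rw [hq0, ← hsk]
          push_cast
          exact h3
        refine h1.congr fun j => ?_
        exact (hQy j).symm
    exact hz.neBot
  · -- peaked
    intro W hW
    by_contra hcon
    push Not at hcon
    have hstep : ∀ j : ℕ, ∃ (m : ℕ) (x : ↥(ball (0 : lp (fun _ : ℕ => ℂ) p) 1)), j ≤ m ∧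
        ‖TF r k w M m (x : lp (fun _ : ℕ => ℂ) p) - 1‖ ≤ 1 / ((j : ℝ) + 1) ∧ x ∉ W := by
      intro j
      obtain ⟨κ, hκ, h2⟩ := hcon (1 / ((j : ℝ) + 1)) (by positivity)
      have h3 := Fm_lim hr hk (hsum w) hw1 (hM w).1
      rw [← hq0] at h3
      obtain ⟨m, hm, hm2⟩ : ∃ m, j ≤ m ∧ ‖Fm r k (fun n => w n) (fun n => w n) q0 m - 1‖ ≤ κ := by
        have h4 := (tendsto_iff_norm_sub_tendsto_zero.mp h3).eventually (gt_mem_nhds hκ)
        obtain ⟨m, h5, h6⟩ := (h4.and (Filter.eventually_ge_atTop j)).exists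
        exact ⟨m, h6, h5.le⟩
      have hle : ∀ x ∈ ball (0 : lp (fun _ : ℕ => ℂ) p) 1, ‖TF r k w M m x‖ ≤ 1 := by
        intro x hx
        rw [mem_ball_zero_iff] at hx
        have hx1 : ∑' n, ‖x n‖ ^ r ≤ 1 := by
          rw [htsum x]
          exact Real.rpow_le_one (norm_nonneg _) hx.le hr0.le
        unfold TF
        rw [(hM x).2]
        refine (Fm_bound hK hr hk (hsum w) hw1 (hsum x) hx1 (hM x).1 m).trans ?_
        have hSm : 0 < Sm r (fun n => w n) m := lt_of_lt_of_le hS0 (le_Sm (hsum w) m)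
        refine le_one hkr ?_ ?_
        · exact div_nonneg (tsum_nonneg fun n => Real.rpow_nonneg (norm_nonneg _) _) hSm.le
        · refine div_nonneg (Finset.sum_nonneg fun i _ => ?_) hSm.le
          have := (hD r hr).2.1 (w i) (x i)
          unfold Dm
          linarith
      obtain ⟨x, hx1, hx2⟩ := h2 (TF r k w M m) (TF_mem r k w M m) hle
        ⟨_, TF_tendsto r k w M m q0 L hφ, hm2⟩
      exact ⟨m, x, hm, hx1, hx2⟩
    choose m x hm hx1 hxW using hstep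
    have hmlim : Tendsto m atTop atTop := tendsto_atTop_mono hm tendsto_id
    have hxlt : ∀ j, ‖(x j : lp (fun _ : ℕ => ℂ) p)‖ < 1 := fun j => mem_ball_zero_iff.mp (x j).2
    have hFlim : Tendsto (fun j => Fm r k (fun n => w n)
        (fun n => (x j : lp (fun _ : ℕ => ℂ) p) n)
        (∑' n, (x j : lp (fun _ : ℕ => ℂ) p) n ^ k) (m j)) atTop (𝓝 1) := by
      rw [tendsto_iff_norm_sub_tendsto_zero]
      refine squeeze_zero (fun j => norm_nonneg _) (fun j => ?_)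
        (tendsto_one_div_add_atTop_nhds_zero_nat (𝕜 := ℝ))
      have h1 := hx1 j
      unfold TF at h1
      rw [(hM (x j)).2] at h1
      exact h1
    obtain ⟨h1, h2⟩ := seq_lim hD hK hr hk (hsum w) hw1 (fun n => (coord_lt w hw n).le) (hM w).1
      (x := fun j n => (x j : lp (fun _ : ℕ => ℂ) p) n) (fun j => hsum (x j))
      (fun j => by
        rw [htsum (x j)]
        exact Real.rpow_le_one (norm_nonneg _) (hxlt j).le hr0.le)
      (fun j n => (coord_lt _ (hxlt j) n).le) (fun j => (hM (x j)).1) hmlim hFlim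
    have hxL : Tendsto x atTop L := by
      rw [hL, tendsto_comap_iff]
      refine Tendsto.prodMk_nhds ?_ ?_
      · rw [tendsto_pi_nhds]
        exact h1
      · rw [← hq0] at h2
        refine h2.congr fun j => ?_
        exact ((hM (x j)).2).symm
    obtain ⟨j, hj⟩ := (hxL.eventually hW).exists
    exact hxW j hj
  · intro n
    exact ((continuous_apply n).tendsto _).comp ((continuous_fst.tendsto _).comp hφ)

end Pool.Agent.NH62.SB.Inside
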