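import Pool.Agent.NH62.SB.StmP

/-!
The basic estimate for exponents larger than one.
-/

set_option autoImplicit false

open Metric Set Filter Topology
open scoped ENNReal BoundedContinuousFunction

namespace Pool.Agent.NH62.SB.Key

open Pool.Agent.NH62.SB

lemma tsum_pow_le {r : ℝ} {k : ℕ} (hr : 1 < r) (hk : r ≤ k) (y : ℕ → ℂ)
    (hy : Summable (fun n => ‖y n‖ ^ r)) :
    ‖∑' n, y n ^ k‖ ≤ (∑' n, ‖y n‖ ^ r) ^ ((k : ℝ) / r) := by
  have hr0 : 0 < r := by linarith
  set T := ∑' n, ‖y n‖ ^ r with hT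
  have hT0 : 0 ≤ T := tsum_nonneg fun n => by positivity
  have hle : ∀ n, ‖y n‖ ^ r ≤ T := fun n => hy.le_tsum n fun m _ => by positivity
  have hc : 1 ≤ (k : ℝ) / r := by rw [le_div_iff₀ hr0]; linarith
  have hk0 : (k : ℝ) / r ≠ 0 := by linarith
  have hpow : ∀ n, ‖y n ^ k‖ = (‖y n‖ ^ r) ^ ((k : ℝ) / r) := by
    intro n
    rw [norm_pow, ← Real.rpow_mul (norm_nonneg _), mul_div_cancel₀ _ hr0.ne', Real.rpow_natCast]
  have hkey : ∀ n, ‖y n ^ k‖ ≤ T ^ ((k : ℝ) / r - 1) * ‖y n‖ ^ r := by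
    intro n
    rw [hpow n]
    rcases eq_or_lt_of_le (show 0 ≤ ‖y n‖ ^ r by positivity) with h | h
    · rw [← h, Real.zero_rpow hk0, mul_zero]
    · have e : (‖y n‖ ^ r) ^ ((k : ℝ) / r) = (‖y n‖ ^ r) ^ ((k : ℝ) / r - 1) * ‖y n‖ ^ r := by
        rw [← Real.rpow_add_one h.ne']
        congr 1
        ring
      rw [e]
      refine mul_le_mul_of_nonneg_right ?_ h.le
      exact Real.rpow_le_rpow h.le (hle n) (by linarith)
  have hs : Summable (fun n => ‖y n ^ k‖) :=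
    Summable.of_nonneg_of_le (fun n => norm_nonneg _) hkey (hy.mul_left _)
  refine (norm_tsum_le_tsum_norm hs).trans ?_
  refine (hs.tsum_le_tsum hkey (hy.mul_left _)).trans (le_of_eq ?_)
  rw [tsum_mul_left, ← hT]
  rcases eq_or_lt_of_le hT0 with h | h
  · rw [← h, mul_zero, Real.zero_rpow hk0]
  · rw [← Real.rpow_add_one h.ne']
    congr 1
    ring

theorem key : S_Key := by
  intro r k hr hk w x m S hs hx1 hS hS0 T hT
  have hr0 : 0 < r := by linarith
  have hk0 : (0 : ℝ) < k := by linarith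
  have hsT : Summable (fun n => ‖x (n + m)‖ ^ r) :=
    (summable_nat_add_iff (f := fun n => ‖x n‖ ^ r) m).2 hs
  have hT0 : 0 ≤ T := by rw [hT]; exact tsum_nonneg fun n => by positivity
  rw [norm_mul, Complex.norm_exp, Complex.re_ofReal_mul, Complex.re_sum, norm_div,
    Complex.norm_real, Real.norm_eq_abs, abs_of_nonneg (by positivity)]
  refine mul_le_mul ?_ ?_ (by positivity) (by positivity)
  · refine Real.exp_le_exp.2 ?_
    set R := ∑ i ∈ Finset.range m, (Jr r (w i) * (x i - w i)).re with hR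
    have e1 : ∑ i ∈ Finset.range m, (‖x i‖ ^ r - ‖w i‖ ^ r - r * (Jr r (w i) * (x i - w i)).re) =
        ∑ i ∈ Finset.range m, ‖x i‖ ^ r - ∑ i ∈ Finset.range m, ‖w i‖ ^ r - r * R := by
      rw [Finset.sum_sub_distrib, Finset.sum_sub_distrib, ← Finset.mul_sum]
    rw [e1]
    have e2 : ∑ i ∈ Finset.range m, ‖x i‖ ^ r + T ≤ 1 := by
      rw [hT, hs.sum_add_tsum_nat_add m]
      exact hx1
    have e3 : (k : ℝ) / r * (1 - T / S - (∑ i ∈ Finset.range m, ‖x i‖ ^ r -
        ∑ i ∈ Finset.range m, ‖w i‖ ^ r - r * R) / S) - (k : ℝ) / S * R =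
        (k : ℝ) / (r * S) * (1 - (∑ i ∈ Finset.range m, ‖x i‖ ^ r + T)) := by
      have h1 : ∑ i ∈ Finset.range m, ‖w i‖ ^ r = 1 - S := by linarith
      rw [h1]
      field_simp
      ring
    have e4 : 0 ≤ (k : ℝ) / (r * S) * (1 - (∑ i ∈ Finset.range m, ‖x i‖ ^ r + T)) :=
      mul_nonneg (by positivity) (by linarith)
    linarith
  · rw [Real.div_rpow hT0 hS0.le]
    refine div_le_div_of_nonneg_right ?_ (by positivity)
    rw [hT]
    exact tsum_pow_le hr hk (fun n => x (n + m)) hsT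

end Pool.Agent.NH62.SB.Key
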