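import Pool.Agent.NH62.SB.StmOne

/-!
# Weighted Mantel inequality and the quadratic form (helper93, for helper62)
-/

set_option autoImplicit false

namespace Pool.Agent.NH62.SB.Mantel

open Finset Pool.Agent.NH62.SB

open Classical in
/-- the adjacency -/
noncomputable def ad (a : ℕ → ℕ → Prop) (n m : ℕ) : ℝ := if a n m then 1 else 0

lemma ad_nonneg (a : ℕ → ℕ → Prop) (n m : ℕ) : 0 ≤ ad a n m := by
  unfold ad; split_ifs <;> norm_num

lemma ad_le (a : ℕ → ℕ → Prop) (n m : ℕ) : ad a n m ≤ 1 := by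
  unfold ad; split_ifs <;> norm_num

lemma ker_eq (a : ℕ → ℕ → Prop) (n m : ℕ) : ker a n m = 1 / 2 - 2 * ad a n m := by
  unfold ker ad; split_ifs <;> norm_num

lemma ad_symm {a : ℕ → ℕ → Prop} (h : TF a) (n m : ℕ) : ad a n m = ad a m n := by
  unfold ad
  by_cases hnm : a n m
  · rw [if_pos hnm, if_pos (h.1 n m hnm)]
  · rw [if_neg hnm, if_neg (fun h' => hnm (h.1 m n h'))]

/-- the finite weighted Mantel inequality -/
lemma fin_mantel {a : ℕ → ℕ → Prop} (h : TF a) (S : Finset ℕ) (w : ℕ → ℝ) (hw : ∀ n, 0 ≤ w n) :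
    2 * ∑ n ∈ S, ∑ m ∈ S, ad a n m * (w n * w m) ≤ (∑ n ∈ S, w n) ^ 2 := by
  set b := ∑ n ∈ S, w n with hb
  set d : ℕ → ℝ := fun n => ∑ m ∈ S, ad a n m * w m with hd
  have hb0 : 0 ≤ b := sum_nonneg fun n _ => hw n
  have hd0 : ∀ n, 0 ≤ d n := fun n => sum_nonneg fun m _ => mul_nonneg (ad_nonneg _ _ _) (hw m)
  set T := ∑ n ∈ S, ∑ m ∈ S, ad a n m * (w n * w m) with hT
  have hT1 : T = ∑ n ∈ S, w n * d n := by
    rw [hT]
    refine sum_congr rfl fun n _ => ?_
    rw [hd, mul_sum]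
    refine sum_congr rfl fun m _ => by ring
  have hT0 : 0 ≤ T := by
    rw [hT1]
    exact sum_nonneg fun n _ => mul_nonneg (hw n) (hd0 n)
  have hdd : ∀ n m, ad a n m * (d n + d m) ≤ ad a n m * b := by
    intro n m
    by_cases hnm : a n m
    · have e : ad a n m = 1 := by unfold ad; rw [if_pos hnm]
      rw [e, one_mul, one_mul, hd, hb]
      simp only
      rw [← sum_add_distrib]
      refine sum_le_sum fun l _ => ?_
      have h1 : ad a n l + ad a m l ≤ 1 := by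
        unfold ad
        by_cases h1 : a n l
        · have h2 : ¬ a m l := fun h2 => h.2 n m l hnm h2 (h.1 n l h1)
          rw [if_pos h1, if_neg h2]; norm_num
        · rw [if_neg h1]; split_ifs <;> norm_num
      nlinarith [hw l]
    · have e : ad a n m = 0 := by unfold ad; rw [if_neg hnm]
      rw [e, zero_mul, zero_mul]
  have hS : 2 * ∑ n ∈ S, w n * d n ^ 2 ≤ b * T := by
    have e1 : ∑ n ∈ S, ∑ m ∈ S, ad a n m * (w n * w m) * d n = ∑ n ∈ S, w n * d n ^ 2 := by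
      refine sum_congr rfl fun n _ => ?_
      have e0 : w n * d n ^ 2 = (w n * d n) * ∑ m ∈ S, ad a n m * w m := by
        rw [sq, ← mul_assoc]
      rw [e0, mul_sum]
      refine sum_congr rfl fun m _ => by ring
    have e2 : ∑ n ∈ S, ∑ m ∈ S, ad a n m * (w n * w m) * d m = ∑ n ∈ S, w n * d n ^ 2 := by
      rw [sum_comm, ← e1]
      refine sum_congr rfl fun n _ => sum_congr rfl fun m _ => ?_
      rw [ad_symm h m n]
      ring
    calc 2 * ∑ n ∈ S, w n * d n ^ 2 =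
        ∑ n ∈ S, ∑ m ∈ S, (w n * w m) * (ad a n m * (d n + d m)) := by
          rw [two_mul]
          nth_rewrite 1 [← e1]
          rw [← e2, ← sum_add_distrib]
          refine sum_congr rfl fun n _ => ?_
          rw [← sum_add_distrib]
          refine sum_congr rfl fun m _ => by ring
      _ ≤ ∑ n ∈ S, ∑ m ∈ S, (w n * w m) * (ad a n m * b) := by
          refine sum_le_sum fun n _ => sum_le_sum fun m _ => ?_
          exact mul_le_mul_of_nonneg_left (hdd n m) (mul_nonneg (hw n) (hw m))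
      _ = b * T := by
          rw [hT, mul_sum]
          refine sum_congr rfl fun n _ => ?_
          rw [mul_sum]
          refine sum_congr rfl fun m _ => by ring
  have hCS : T ^ 2 ≤ b * ∑ n ∈ S, w n * d n ^ 2 := by
    rw [hT1, hb]
    refine sum_sq_le_sum_mul_sum_of_sq_le_mul S (fun n _ => hw n)
      (fun n _ => mul_nonneg (hw n) (sq_nonneg _)) fun n _ => le_of_eq (by ring)
  have h5 : 2 * T ^ 2 ≤ b ^ 2 * T := by nlinarith
  rcases hT0.eq_or_lt with h6 | h6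
  · rw [← h6]
    nlinarith [sq_nonneg b]
  · have : T * (2 * T) ≤ T * b ^ 2 := by nlinarith
    exact le_of_mul_le_mul_left this h6

lemma summable_cut {E : Set ℕ} {x : ℕ → ℂ} (hx : Summable fun n => ‖x n‖) :
    Summable fun n => ‖cut E x n‖ := by
  refine Summable.of_nonneg_of_le (fun n => norm_nonneg _) (fun n => ?_) hx
  unfold cut
  by_cases h : n ∈ E
  · rw [Set.indicator_of_mem h]
  · rw [Set.indicator_of_notMem h, norm_zero]
    exact norm_nonneg _

/-- the infinite weighted Mantel inequality -/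
lemma inf_mantel {a : ℕ → ℕ → Prop} (h : TF a) (w : ℕ → ℝ) (hw : ∀ n, 0 ≤ w n)
    (hs : Summable w) :
    2 * ∑' q : ℕ × ℕ, ad a q.1 q.2 * (w q.1 * w q.2) ≤ (∑' n, w n) ^ 2 := by
  have hb0 : 0 ≤ ∑' n, w n := tsum_nonneg hw
  have hnn : ∀ q : ℕ × ℕ, 0 ≤ ad a q.1 q.2 * (w q.1 * w q.2) := fun q =>
    mul_nonneg (ad_nonneg _ _ _) (mul_nonneg (hw _) (hw _))
  have key : ∀ s : Finset (ℕ × ℕ),
      ∑ q ∈ s, ad a q.1 q.2 * (w q.1 * w q.2) ≤ (∑' n, w n) ^ 2 / 2 := by
    intro s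
    set S : Finset ℕ := s.image Prod.fst ∪ s.image Prod.snd with hS
    have hsub : s ⊆ S ×ˢ S := by
      intro q hq
      rw [mem_product]
      exact ⟨mem_union_left _ (mem_image_of_mem _ hq), mem_union_right _ (mem_image_of_mem _ hq)⟩
    have h1 : ∑ q ∈ s, ad a q.1 q.2 * (w q.1 * w q.2) ≤
        ∑ q ∈ S ×ˢ S, ad a q.1 q.2 * (w q.1 * w q.2) :=
      sum_le_sum_of_subset_of_nonneg hsub fun q _ _ => hnn q
    rw [sum_product] at h1
    have h2 := fin_mantel h S w hw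
    have h3 : ∑ n ∈ S, w n ≤ ∑' n, w n := hs.sum_le_tsum S fun n _ => hw n
    have h4 : 0 ≤ ∑ n ∈ S, w n := sum_nonneg fun n _ => hw n
    nlinarith
  have h1 := Real.tsum_le_of_sum_le hnn key
  linarith

theorem mantel : S_Mantel := by
  intro a ha E x hx
  have hy := summable_cut (E := E) hx
  set y := cut E x with hyd
  set w : ℕ → ℝ := fun n => ‖y n‖ with hw
  have hw0 : ∀ n, 0 ≤ w n := fun n => norm_nonneg _
  have hprod : Summable fun q : ℕ × ℕ => w q.1 * w q.2 :=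
    hy.mul_of_nonneg hy hw0 hw0
  have hyy : Summable fun q : ℕ × ℕ => y q.1 * y q.2 := by
    refine Summable.of_norm ?_
    simp_rw [norm_mul]
    exact hprod
  have hay : Summable fun q : ℕ × ℕ => (ad a q.1 q.2 : ℂ) * (y q.1 * y q.2) := by
    refine Summable.of_norm (Summable.of_nonneg_of_le (fun q => norm_nonneg _) (fun q => ?_) hprod)
    rw [norm_mul, norm_mul, Complex.norm_real, Real.norm_of_nonneg (ad_nonneg _ _ _)]
    exact mul_le_of_le_one_left (mul_nonneg (norm_nonneg _) (norm_nonneg _)) (ad_le _ _ _)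
  set b : ℝ := mass E x with hb
  have hbb : b = ∑' n, w n := rfl
  have hb2 : ∑' q : ℕ × ℕ, w q.1 * w q.2 = b ^ 2 := by
    rw [sq, hbb]
    exact (Summable.tsum_mul_tsum hy hy hprod).symm
  set s : ℂ := ∑' n, y n with hsd
  have hs2 : ∑' q : ℕ × ℕ, y q.1 * y q.2 = s ^ 2 := by
    rw [sq]
    exact (tsum_mul_tsum_of_summable_norm hy hy).symm
  set A : ℂ := ∑' q : ℕ × ℕ, (ad a q.1 q.2 : ℂ) * (y q.1 * y q.2) with hA
  have hAn : ‖A‖ ≤ b ^ 2 / 2 := by
    have h1 : ‖A‖ ≤ ∑' q : ℕ × ℕ, ‖(ad a q.1 q.2 : ℂ) * (y q.1 * y q.2)‖ :=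
      norm_tsum_le_tsum_norm hay.norm
    have h2 : ∑' q : ℕ × ℕ, ‖(ad a q.1 q.2 : ℂ) * (y q.1 * y q.2)‖ =
        ∑' q : ℕ × ℕ, ad a q.1 q.2 * (w q.1 * w q.2) := by
      refine tsum_congr fun q => ?_
      rw [norm_mul, norm_mul, Complex.norm_real, Real.norm_of_nonneg (ad_nonneg _ _ _)]
    have h3 := inf_mantel ha w hw0 hy
    rw [h2] at h1
    rw [← hbb] at h3
    linarith
  have hR : Rf a E x = s ^ 2 / 2 - 2 * A := by
    unfold Rf
    rw [← hyd]
    have e : ∀ q : ℕ × ℕ, (ker a q.1 q.2 : ℂ) * y q.1 * y q.2 =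
        (1 / 2) * (y q.1 * y q.2) - 2 * ((ad a q.1 q.2 : ℂ) * (y q.1 * y q.2)) := by
      intro q
      rw [ker_eq]
      push_cast
      ring
    rw [tsum_congr e, (hyy.mul_left _).tsum_sub (hay.mul_left _), tsum_mul_left, tsum_mul_left,
      hs2, ← hA]
    ring
  -- the two forms
  set Q : ℂ := -2 * A with hQ
  set P : ℂ := Q + s ^ 2 with hP
  have hQn : ‖Q‖ ≤ b ^ 2 := by
    rw [hQ, norm_mul, norm_neg, Complex.norm_ofNat]
    linarith
  have hPn : ‖P‖ ≤ b ^ 2 := by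
    have e : P = ∑' q : ℕ × ℕ, ((1 - 2 * ad a q.1 q.2 : ℝ) : ℂ) * (y q.1 * y q.2) := by
      have e1 : ∀ q : ℕ × ℕ, ((1 - 2 * ad a q.1 q.2 : ℝ) : ℂ) * (y q.1 * y q.2) =
          y q.1 * y q.2 - 2 * ((ad a q.1 q.2 : ℂ) * (y q.1 * y q.2)) := by
        intro q
        push_cast
        ring
      rw [tsum_congr e1, hyy.tsum_sub (hay.mul_left _), tsum_mul_left, hs2, ← hA, hP, hQ]
      ring
    have hle : ∀ q : ℕ × ℕ, ‖((1 - 2 * ad a q.1 q.2 : ℝ) : ℂ) * (y q.1 * y q.2)‖ ≤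
        w q.1 * w q.2 := by
      intro q
      rw [norm_mul, norm_mul, Complex.norm_real]
      refine mul_le_of_le_one_left (mul_nonneg (norm_nonneg _) (norm_nonneg _)) ?_
      have h1 := ad_nonneg a q.1 q.2
      have h2 := ad_le a q.1 q.2
      rw [Real.norm_eq_abs, abs_le]
      constructor <;> linarith
    rw [e, ← hb2]
    exact tsum_of_norm_bounded hprod.hasSum hle
  have hR2 : 2 * Rf a E x = P + Q := by rw [hR, hP, hQ]; ring
  have hs2' : s ^ 2 = P - Q := by rw [hP]; ring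
  have hRn : 2 * ‖Rf a E x‖ = ‖P + Q‖ := by
    rw [← hR2, norm_mul, Complex.norm_ofNat]
  have hb20 : 0 ≤ b ^ 2 := sq_nonneg b
  refine ⟨?_, ?_⟩
  · have := norm_add_le P Q
    linarith
  · have h1 : ‖P + Q‖ * ‖P + Q‖ + ‖P - Q‖ * ‖P - Q‖ = 2 * (‖P‖ * ‖P‖ + ‖Q‖ * ‖Q‖) := by
      have := parallelogram_law_with_norm ℝ P Q
      simpa only [sq] using this
    have h2 : ‖s‖ ^ 4 = ‖P - Q‖ * ‖P - Q‖ := by
      rw [← hs2', norm_pow]
      ring
    have h3 : ‖P‖ * ‖P‖ ≤ b ^ 2 * b ^ 2 := mul_le_mul hPn hPn (norm_nonneg _) hb20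
    have h4 : ‖Q‖ * ‖Q‖ ≤ b ^ 2 * b ^ 2 := mul_le_mul hQn hQn (norm_nonneg _) hb20
    rw [h2]
    rw [← hRn] at h1
    nlinarith

theorem rlip : S_RLip := by
  intro a E x y hx hy
  have hcx := summable_cut (E := E) hx
  have hcy := summable_cut (E := E) hy
  have hd : Summable fun n => ‖x n - y n‖ :=
    Summable.of_nonneg_of_le (fun n => norm_nonneg _) (fun n => norm_sub_le _ _) (hx.add hy)
  have hcd := summable_cut (E := E) hd
  have hsub : ∀ n, cut E (fun n => x n - y n) n = cut E x n - cut E y n := by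
    intro n
    unfold cut
    by_cases h : n ∈ E
    · simp [Set.indicator_of_mem h]
    · simp [Set.indicator_of_notMem h]
  have hker : ∀ n m, ‖(ker a n m : ℂ)‖ ≤ 3 / 2 := by
    intro n m
    rw [Complex.norm_real, Real.norm_eq_abs, abs_le]
    unfold ker
    split_ifs <;> constructor <;> norm_num
  have hsum : ∀ u v : ℕ → ℂ, (Summable fun n => ‖u n‖) → (Summable fun n => ‖v n‖) →
      Summable fun q : ℕ × ℕ => ‖u q.1‖ * ‖v q.2‖ := fun u v hu hv =>
    hu.mul_of_nonneg hv (fun _ => norm_nonneg _) (fun _ => norm_nonneg _)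
  have hker2 : ∀ u v : ℕ → ℂ, (Summable fun n => ‖u n‖) → (Summable fun n => ‖v n‖) →
      Summable fun q : ℕ × ℕ => (ker a q.1 q.2 : ℂ) * u q.1 * v q.2 := by
    intro u v hu hv
    refine Summable.of_norm (Summable.of_nonneg_of_le (fun q => norm_nonneg _) (fun q => ?_)
      ((hsum u v hu hv).mul_left (3 / 2)))
    rw [norm_mul, norm_mul, mul_assoc]
    exact mul_le_mul_of_nonneg_right (hker _ _) (by positivity)
  have h1 := hker2 _ _ hcx hcx
  have h2 := hker2 _ _ hcy hcy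
  unfold Rf
  rw [← h1.tsum_sub h2]
  have hb : ∀ q : ℕ × ℕ, ‖(ker a q.1 q.2 : ℂ) * cut E x q.1 * cut E x q.2 -
      (ker a q.1 q.2 : ℂ) * cut E y q.1 * cut E y q.2‖ ≤
      3 / 2 * (‖cut E x q.1‖ * ‖cut E (fun n => x n - y n) q.2‖ +
        ‖cut E (fun n => x n - y n) q.1‖ * ‖cut E y q.2‖) := by
    intro q
    rw [hsub, hsub]
    have e : (ker a q.1 q.2 : ℂ) * cut E x q.1 * cut E x q.2 -
        (ker a q.1 q.2 : ℂ) * cut E y q.1 * cut E y q.2 =
        (ker a q.1 q.2 : ℂ) * (cut E x q.1 * (cut E x q.2 - cut E y q.2) +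
          (cut E x q.1 - cut E y q.1) * cut E y q.2) := by ring
    rw [e, norm_mul]
    refine mul_le_mul (hker _ _) ?_ (norm_nonneg _) (by norm_num)
    refine (norm_add_le _ _).trans ?_
    rw [norm_mul, norm_mul]
  have hs1 := hsum _ _ hcx hcd
  have hs2 := hsum _ _ hcd hcy
  have hS := ((hs1.add hs2).mul_left (3 / 2)).hasSum
  refine (tsum_of_norm_bounded hS hb).trans (le_of_eq ?_)
  rw [tsum_mul_left, hs1.tsum_add hs2, ← Summable.tsum_mul_tsum hcx hcd hs1,
    ← Summable.tsum_mul_tsum hcd hcy hs2]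
  unfold mass
  ring

end Pool.Agent.NH62.SB.Mantel
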