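import Pool.Agent.NH62.SB.StmOne

/-!
Pairing and quadratic form on the space of summable sequences.
-/

set_option autoImplicit false

open Metric Set Filter Topology
open scoped ENNReal BoundedContinuousFunction

namespace Pool.Agent.NH62.SB.Mem1

open Pool.Agent.NH62.SB

theorem norm1 (x : lp (fun _ : ℕ => ℂ) 1) : Summable (fun n => ‖x n‖) ∧ ∑' n, ‖x n‖ = ‖x‖ := by
  have h1 : (0 : ℝ) < (1 : ℝ≥0∞).toReal := by simp
  constructor
  · have := (lp.memℓp x).summable h1
    simpa using this
  · have := lp.norm_eq_tsum_rpow h1 x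
    rw [this]
    simp

theorem mem1 : S_Mem1 := by
  refine ⟨?_, ?_, norm1, ?_⟩
  · rintro h ⟨C, hC⟩
    have hC0 : 0 ≤ C := (norm_nonneg _).trans (hC 0)
    have hs : ∀ x : lp (fun _ : ℕ => ℂ) 1, Summable (fun n => ‖h n * x n‖) := by
      intro x
      refine Summable.of_nonneg_of_le (fun _ => norm_nonneg _) (fun n => ?_)
        ((norm1 x).1.mul_left C)
      rw [norm_mul]
      exact mul_le_mul_of_nonneg_right (hC n) (norm_nonneg _)
    let f : lp (fun _ : ℕ => ℂ) 1 →ₗ[ℂ] ℂ :=
      { toFun := fun x => pr h (fun n => x n)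
        map_add' := by
          intro x y
          unfold pr
          rw [← (hs x).of_norm.tsum_add (hs y).of_norm]
          apply tsum_congr
          intro n
          show h n * (x n + y n) = _
          ring
        map_smul' := by
          intro c x
          unfold pr
          simp only [RingHom.id_apply, smul_eq_mul]
          rw [← tsum_mul_left]
          apply tsum_congr
          intro n
          show h n * (c * x n) = _
          ring }
    refine ⟨f.mkContinuous C ?_, fun x => rfl⟩
    intro x
    show ‖pr h (fun n => x n)‖ ≤ C * ‖x‖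
    rw [← (norm1 x).2, ← tsum_mul_left]
    refine (norm_tsum_le_tsum_norm (hs x)).trans ?_
    refine (hs x).tsum_le_tsum (fun n => ?_) ((norm1 x).1.mul_left C)
    rw [norm_mul]
    exact mul_le_mul_of_nonneg_right (hC n) (norm_nonneg _)
  · intro a E
    classical
    have hk : ∀ n m, ‖(ker a n m : ℂ)‖ ≤ 3 / 2 := by
      intro n m
      rw [Complex.norm_real, Real.norm_eq_abs, ker]
      split_ifs <;> norm_num [abs_le]
    have hc : ∀ (x : ℕ → ℂ) n, ‖cut E x n‖ ≤ ‖x n‖ := by
      intro x n
      by_cases hn : n ∈ E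
      · rw [cut, indicator_of_mem hn]
      · rw [cut, indicator_of_notMem hn, norm_zero]; exact norm_nonneg _
    have hb : ∀ (x y : lp (fun _ : ℕ => ℂ) 1) (q : ℕ × ℕ),
        ‖(ker a q.1 q.2 : ℂ) * cut E (fun n => x n) q.1 * cut E (fun n => y n) q.2‖ ≤
          3 / 2 * (‖x q.1‖ * ‖y q.2‖) := by
      intro x y q
      rw [norm_mul, norm_mul, mul_assoc]
      exact mul_le_mul (hk _ _) (mul_le_mul (hc _ _) (hc _ _) (norm_nonneg _) (norm_nonneg _))
        (by positivity) (by norm_num)
    have hsum : ∀ (x y : lp (fun _ : ℕ => ℂ) 1),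
        Summable (fun q : ℕ × ℕ => ‖x q.1‖ * ‖y q.2‖) := by
      intro x y
      exact (norm1 x).1.mul_of_nonneg (norm1 y).1 (fun _ => norm_nonneg _) fun _ => norm_nonneg _
    have hs : ∀ (x y : lp (fun _ : ℕ => ℂ) 1), Summable (fun q : ℕ × ℕ =>
        ‖(ker a q.1 q.2 : ℂ) * cut E (fun n => x n) q.1 * cut E (fun n => y n) q.2‖) := by
      intro x y
      exact Summable.of_nonneg_of_le (fun _ => norm_nonneg _) (hb x y) ((hsum x y).mul_left _)
    have cadd : ∀ (x y : lp (fun _ : ℕ => ℂ) 1) n,
        cut E (fun n => (x + y) n) n = cut E (fun n => x n) n + cut E (fun n => y n) n := by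
      intro x y n
      by_cases hn : n ∈ E
      · simp only [cut, indicator_of_mem hn]; rfl
      · simp only [cut, indicator_of_notMem hn, add_zero]
    have csmul : ∀ (c : ℂ) (x : lp (fun _ : ℕ => ℂ) 1) n,
        cut E (fun n => (c • x) n) n = c * cut E (fun n => x n) n := by
      intro c x n
      by_cases hn : n ∈ E
      · simp only [cut, indicator_of_mem hn]; rfl
      · simp only [cut, indicator_of_notMem hn, mul_zero]
    let f : lp (fun _ : ℕ => ℂ) 1 →ₗ[ℂ] lp (fun _ : ℕ => ℂ) 1 →ₗ[ℂ] ℂ :=
      LinearMap.mk₂ ℂ (fun x y => ∑' q : ℕ × ℕ, (ker a q.1 q.2 : ℂ) * cut E (fun n => x n) q.1 *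
          cut E (fun n => y n) q.2)
        (by
          intro x y z
          rw [← (hs x z).of_norm.tsum_add (hs y z).of_norm]
          apply tsum_congr
          intro q
          rw [cadd]; ring)
        (by
          intro c x z
          rw [smul_eq_mul, ← tsum_mul_left]
          apply tsum_congr
          intro q
          rw [csmul]; ring)
        (by
          intro x y z
          rw [← (hs x y).of_norm.tsum_add (hs x z).of_norm]
          apply tsum_congr
          intro q
          rw [cadd]; ring)
        (by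
          intro c x z
          rw [smul_eq_mul, ← tsum_mul_left]
          apply tsum_congr
          intro q
          rw [csmul]; ring)
    refine ⟨f.mkContinuous₂ (3 / 2) ?_, fun x => rfl⟩
    intro x y
    show ‖∑' q : ℕ × ℕ, (ker a q.1 q.2 : ℂ) * cut E (fun n => x n) q.1 *
          cut E (fun n => y n) q.2‖ ≤ _
    refine (norm_tsum_le_tsum_norm (hs x y)).trans ?_
    refine ((hs x y).tsum_le_tsum (hb x y) ((hsum x y).mul_left _)).trans ?_
    rw [tsum_mul_left]
    have e := (norm1 x).1.tsum_mul_tsum (norm1 y).1 (hsum x y)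
    rw [(norm1 x).2, (norm1 y).2] at e
    rw [← e, mul_assoc]
  · intro x hx
    have hm : Memℓp x 1 := by
      rw [memℓp_gen_iff (by simp)]
      simpa using hx
    exact ⟨⟨x, hm⟩, fun n => rfl⟩

end Pool.Agent.NH62.SB.Mem1
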