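import Pool.Agent.NH62.SB.Mem
import Pool.Agent.NH62.SB.StmOne

/-!
Assembly of the case p = 1, norm less than one.
-/

set_option autoImplicit false

open Metric Set Filter Topology
open scoped ENNReal BoundedContinuousFunction

namespace Pool.Agent.NH62.SB.OneInside

open Pool.Agent.NH62.SB

theorem Bdd.cut {h : ℕ → ℂ} (hh : Bdd h) (E : Set ℕ) : Bdd (cut E h) := by
  obtain ⟨C, hC⟩ := hh
  refine ⟨max C 0, fun n => ?_⟩
  by_cases hn : n ∈ E
  · rw [SB.cut, indicator_of_mem hn]; exact (hC n).trans (le_max_left _ _)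
  · rw [SB.cut, indicator_of_notMem hn, norm_zero]; exact le_max_right _ _

theorem bdd_of_le {h : ℕ → ℂ} {C : ℝ} (hC : ∀ n, ‖h n‖ ≤ C) : Bdd h := ⟨C, hC⟩

theorem Bdd.add' {h k : ℕ → ℂ} (hh : Bdd h) (hk : Bdd k) : Bdd (fun n => h n + k n) := by
  obtain ⟨C, hC⟩ := hh
  obtain ⟨D, hD⟩ := hk
  exact ⟨C + D, fun n => (norm_add_le _ _).trans (add_le_add (hC n) (hD n))⟩

theorem Bdd.smul' {h : ℕ → ℂ} (hh : Bdd h) (c : ℂ) : Bdd (fun n => c * h n) := by
  obtain ⟨C, hC⟩ := hh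
  refine ⟨‖c‖ * C, fun n => ?_⟩
  rw [norm_mul]
  exact mul_le_mul_of_nonneg_left (hC n) (norm_nonneg _)

/-- every point of the closed unit disc is the midpoint of two unimodular numbers -/
theorem midpoint (w : ℂ) (hw : ‖w‖ ≤ 1) :
    ∃ u v : ℂ, ‖u‖ = 1 ∧ ‖v‖ = 1 ∧ w = (1 / 2) * u + (1 / 2) * v := by
  by_cases h0 : w = 0
  · exact ⟨1, -1, by simp, by simp, by rw [h0]; ring⟩
  · have hn : ‖w‖ ≠ 0 := norm_ne_zero_iff.2 h0
    have hnC : (‖w‖ : ℂ) ≠ 0 := by exact_mod_cast hn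
    set s : ℝ := Real.sqrt (1 - ‖w‖ ^ 2) with hs
    have hs2 : s ^ 2 = 1 - ‖w‖ ^ 2 := Real.sq_sqrt (by nlinarith [norm_nonneg w])
    have hd : ‖w / (‖w‖ : ℂ)‖ = 1 := by
      rw [norm_div, Complex.norm_real, norm_norm, div_self hn]
    have hu : ∀ t : ℝ, t ^ 2 = s ^ 2 → ‖((‖w‖ : ℝ) : ℂ) + t * Complex.I‖ = 1 := by
      intro t ht
      have : ‖((‖w‖ : ℝ) : ℂ) + t * Complex.I‖ ^ 2 = 1 := by
        rw [← Complex.normSq_eq_norm_sq, Complex.normSq_add_mul_I]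
        rw [ht, hs2]; ring
      nlinarith [norm_nonneg (((‖w‖ : ℝ) : ℂ) + t * Complex.I)]
    refine ⟨w / (‖w‖ : ℂ) * (((‖w‖ : ℝ) : ℂ) + s * Complex.I),
      w / (‖w‖ : ℂ) * (((‖w‖ : ℝ) : ℂ) + ((-s : ℝ) : ℂ) * Complex.I), ?_, ?_, ?_⟩
    · rw [norm_mul, hd, hu s rfl, one_mul]
    · rw [norm_mul, hd, hu (-s) (by ring), one_mul]
    · push_cast
      field_simp
      ring

section

variable {μ : (ℕ → ℂ) → ℂ} {M : ℝ} (hμ : Mean μ M)

include hμ

/-- near unimodular functions -/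
theorem exists_unimod (θ : ℝ) (hθ : 0 < θ) :
    ∃ l : ℕ → ℂ, (∀ n, ‖l n‖ = 1) ∧ M - θ ≤ (μ l).re := by
  obtain ⟨h, h1, h2⟩ := hμ.near θ hθ
  choose u v hu hv huv using fun n => midpoint (h n) (h1 n)
  have bu : Bdd u := bdd_of_le fun n => (hu n).le
  have bv : Bdd v := bdd_of_le fun n => (hv n).le
  have e : μ h = 1 / 2 * μ u + 1 / 2 * μ v := by
    have : h = fun n => (fun n => (1 / 2 : ℂ) * u n) n + (fun n => (1 / 2 : ℂ) * v n) n := by
      funext n; exact huv n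
    rw [this, hμ.add _ _ (Bdd.smul' bu _) (Bdd.smul' bv _), hμ.smul _ _ bu, hμ.smul _ _ bv]
  have e2 : (μ h).re = 1 / 2 * (μ u).re + 1 / 2 * (μ v).re := by
    rw [e]
    simp [Complex.add_re, Complex.mul_re]
  by_cases hc : M - θ ≤ (μ u).re
  · exact ⟨u, hu, hc⟩
  · refine ⟨v, hv, ?_⟩
    push Not at hc
    linarith

theorem exists_l (E : Set ℕ) (θ : ℝ) (hθ : 0 < θ) (hE : Small μ E (θ / 2)) :
    ∃ l : ℕ → ℂ, (∀ n ∈ E, l n = 0) ∧ (∀ n, n ∉ E → ‖l n‖ = 1) ∧ M - θ ≤ (μ l).re := by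
  obtain ⟨l, hl1, hl2⟩ := exists_unimod hμ (θ / 2) (by linarith)
  have bl : Bdd l := bdd_of_le fun n => (hl1 n).le
  refine ⟨cut Eᶜ l, ?_, ?_, ?_⟩
  · intro n hn
    rw [cut, indicator_of_notMem]
    simpa using hn
  · intro n hn
    rw [cut, indicator_of_mem (by simpa using hn)]
    exact hl1 n
  · have e : l = fun n => cut Eᶜ l n + cut E l n := by
      funext n
      by_cases hn : n ∈ E
      · rw [cut, cut, indicator_of_notMem (by simpa using hn), indicator_of_mem hn, zero_add]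
      · rw [cut, cut, indicator_of_mem (by simpa using hn), indicator_of_notMem hn, add_zero]
    have e2 : μ l = μ (cut Eᶜ l) + μ (cut E l) := by
      conv_lhs => rw [e]
      exact hμ.add _ _ (Bdd.cut bl _) (Bdd.cut bl _)
    have e3 : ‖μ (cut E l)‖ ≤ θ / 2 := by
      apply hE
      · intro n
        by_cases hn : n ∈ E
        · rw [cut, indicator_of_mem hn]; exact (hl1 n).le
        · rw [cut, indicator_of_notMem hn]; simp
      · intro n hn
        rw [cut, indicator_of_notMem hn]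
    have e4 : (μ (cut E l)).re ≤ θ / 2 := (Complex.re_le_norm _).trans e3
    have e5 : (μ l).re = (μ (cut Eᶜ l)).re + (μ (cut E l)).re := by rw [e2, Complex.add_re]
    linarith

/-- the point masses of a small set -/
theorem pt_finset (E : Set ℕ) (σ : ℝ) (hE : Small μ E σ) (s : Finset ℕ) (hs : ∀ n ∈ s, n ∈ E) :
    ∑ n ∈ s, ‖pt μ n‖ ≤ σ := by
  classical
  -- the test function
  have hex : ∀ w : ℂ, ∃ c : ℂ, ‖c‖ ≤ 1 ∧ c * w = (‖w‖ : ℂ) := by
    intro w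
    by_cases h0 : w = 0
    · exact ⟨0, by simp, by simp [h0]⟩
    · refine ⟨(starRingEnd ℂ) w / (‖w‖ : ℂ), ?_, ?_⟩
      · rw [norm_div, Complex.norm_real, norm_norm, RCLike.norm_conj]
        exact div_self_le_one _
      · have hn : (‖w‖ : ℂ) ≠ 0 := by exact_mod_cast norm_ne_zero_iff.2 h0
        rw [div_mul_eq_mul_div, Complex.conj_mul', div_eq_iff hn, sq]
  choose c hc1 hc2 using fun n => hex (pt μ n)
  have hb : ∀ i : ℕ, Bdd (Pi.single i (1 : ℂ)) := by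
    intro i
    refine ⟨1, fun n => ?_⟩
    by_cases h : n = i
    · subst h; simp
    · rw [Pi.single_eq_of_ne h]; simp
  have key : ∀ t : Finset ℕ, Bdd (fun n => ∑ i ∈ t, c i * (Pi.single i (1 : ℂ) : ℕ → ℂ) n) ∧
      μ (fun n => ∑ i ∈ t, c i * (Pi.single i (1 : ℂ) : ℕ → ℂ) n) = ∑ i ∈ t, c i * pt μ i := by
    intro t
    induction t using Finset.induction_on with
    | empty =>
      simp only [Finset.sum_empty]
      refine ⟨⟨0, by simp⟩, ?_⟩
      have := hμ.smul 0 (fun _ => 0) ⟨0, by simp⟩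
      simpa using this
    | insert a t ha ih =>
      have e : (fun n => ∑ i ∈ insert a t, c i * (Pi.single i (1 : ℂ) : ℕ → ℂ) n) =
          fun n => (fun n => c a * (Pi.single a (1 : ℂ) : ℕ → ℂ) n) n +
            (fun n => ∑ i ∈ t, c i * (Pi.single i (1 : ℂ) : ℕ → ℂ) n) n := by
        funext n
        rw [Finset.sum_insert ha]
      rw [e]
      refine ⟨Bdd.add' (Bdd.smul' (hb a) _) ih.1, ?_⟩
      rw [hμ.add _ _ (Bdd.smul' (hb a) _) ih.1, hμ.smul _ _ (hb a), ih.2, Finset.sum_insert ha]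
      rfl
  have hval : ∀ n, (∑ i ∈ s, c i * (Pi.single i (1 : ℂ) : ℕ → ℂ) n) = if n ∈ s then c n else 0 := by
    intro n
    by_cases hn : n ∈ s
    · rw [if_pos hn, Finset.sum_eq_single n]
      · simp
      · intro i _ hi
        rw [Pi.single_eq_of_ne (Ne.symm hi), mul_zero]
      · intro h; exact absurd hn h
    · rw [if_neg hn]
      apply Finset.sum_eq_zero
      intro i hi
      have : n ≠ i := fun h => hn (h ▸ hi)
      rw [Pi.single_eq_of_ne this, mul_zero]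
  have h1 := hE (fun n => ∑ i ∈ s, c i * (Pi.single i (1 : ℂ) : ℕ → ℂ) n) (by
    intro n
    simp only [hval]
    split_ifs
    · exact hc1 n
    · simp) (by
    intro n hn
    simp only [hval]
    rw [if_neg (fun h => hn (hs n h))])
  rw [(key s).2] at h1
  have h2 : ∑ i ∈ s, c i * pt μ i = ((∑ i ∈ s, ‖pt μ i‖ : ℝ) : ℂ) := by
    push_cast
    exact Finset.sum_congr rfl fun i _ => hc2 i
  rw [h2, Complex.norm_real] at h1
  exact (le_abs_self _).trans h1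

theorem small_univ : Small μ univ M := by
  intro h h1 _
  have := hμ.bd h 1 zero_le_one h1
  rwa [mul_one] at this

theorem pt_summable : Summable (fun n => ‖pt μ n‖) :=
  summable_of_sum_le (c := M) (fun _ => norm_nonneg _) fun s =>
    pt_finset hμ univ M (small_univ hμ) s fun _ _ => mem_univ _

theorem mass_pt (E : Set ℕ) (σ : ℝ) (hE : Small μ E σ) : mass E (pt μ) ≤ σ := by
  classical
  apply Real.tsum_le_of_sum_le (fun _ => norm_nonneg _)
  intro s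
  have : ∑ n ∈ s, ‖cut E (pt μ) n‖ = ∑ n ∈ s.filter (· ∈ E), ‖pt μ n‖ := by
    rw [Finset.sum_filter]
    apply Finset.sum_congr rfl
    intro n _
    by_cases hn : n ∈ E
    · rw [cut, indicator_of_mem hn, if_pos hn]
    · rw [cut, indicator_of_notMem hn, if_neg hn, norm_zero]
  rw [this]
  exact pt_finset hμ E σ hE _ fun n hn => (Finset.mem_filter.1 hn).2

end

theorem Small.mono {μ : (ℕ → ℂ) → ℂ} {E E' : Set ℕ} {ε ε' : ℝ} (h : Small μ E ε) (hE : E' ⊆ E)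
    (hε : ε ≤ ε') : Small μ E' ε' :=
  fun f h1 h2 => (h f h1 fun n hn => h2 n fun h' => hn (hE h')).trans hε

/-- a member of the ultrafilter with prescribed properties -/
theorem exists_E (a : ℕ → ℕ → Prop) (μ : (ℕ → ℂ) → ℂ) (E₀ : Set ℕ) (u : Ultrafilter ℕ)
    (hE₀ : E₀ ∈ u) (hfree : ∀ F : Finset ℕ, ((F : Set ℕ)ᶜ) ∈ u)
    (htail : ∀ ε : ℝ, 0 < ε → ∃ F : Finset ℕ, Small μ (E₀ \ (F : Set ℕ)) ε)
    (H : Finset (ℕ → ℂ)) (hH : ∀ h ∈ H, Bdd h) (D : Finset (Set ℕ)) (hD : ∀ E ∈ D, E ∈ u)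
    (F : Finset ℕ) (τ σ : ℝ) (hτ : 0 < τ) (hσ : 0 < σ) :
    ∃ E ∈ u, E ⊆ E₀ ∧ (∀ E' ∈ D, E ⊆ E') ∧ (∀ n ∈ F, n ∉ E) ∧
      (∀ h ∈ H, ∀ n ∈ E, ∀ m ∈ E, ‖h n - h m‖ ≤ τ) ∧
      (∀ i ∈ F, ∀ n ∈ E, ∀ m ∈ E, ker a i n = ker a i m) ∧ Small μ E σ := by
  classical
  obtain ⟨F', hF'⟩ := htail σ hσ
  have h1 : ∀ h ∈ H, ∃ S ∈ u, ∀ n ∈ S, ∀ m ∈ S, ‖h n - h m‖ ≤ τ := by
    intro h hh
    obtain ⟨C, hC⟩ := hH h hh
    have hK : IsCompact (closedBall (0 : ℂ) C) := isCompact_closedBall 0 _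
    have := hK.ultrafilter_le_nhds (u.map h) (by
      rw [le_principal_iff]
      show h ⁻¹' (closedBall (0 : ℂ) C) ∈ (u : Filter _)
      refine Filter.univ_mem' ?_
      intro x
      show h x ∈ closedBall (0 : ℂ) C
      rw [mem_closedBall_zero_iff]
      exact hC x)
    obtain ⟨c, _, hc⟩ := this
    have hc' : Tendsto h (u : Filter ℕ) (𝓝 c) := hc
    refine ⟨h ⁻¹' ball c (τ / 2), hc' (ball_mem_nhds c (by linarith)), ?_⟩
    intro n hn m hm
    have hn' : dist (h n) c < τ / 2 := hn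
    have hm' : dist (h m) c < τ / 2 := hm
    rw [← dist_eq_norm]
    linarith [dist_triangle_right (h n) (h m) c]
  have h2 : ∀ i ∈ F, ∃ S ∈ u, ∀ n ∈ S, ∀ m ∈ S, ker a i n = ker a i m := by
    intro i _
    rcases u.mem_or_compl_mem {n | a i n} with h | h
    · refine ⟨_, h, fun n hn m hm => ?_⟩
      have hn' : a i n := hn
      have hm' : a i m := hm
      rw [ker, ker, if_pos hn', if_pos hm']
    · refine ⟨_, h, fun n hn m hm => ?_⟩
      have hn' : ¬ a i n := hn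
      have hm' : ¬ a i m := hm
      rw [ker, ker, if_neg hn', if_neg hm']
  choose! S1 hS1 hS1' using h1
  choose! S2 hS2 hS2' using h2
  have m1 : (⋂ h ∈ H, S1 h) ∈ (u : Filter ℕ) := by
    rw [Filter.biInter_finset_mem]
    exact hS1
  have m2 : (⋂ i ∈ F, S2 i) ∈ (u : Filter ℕ) := by
    rw [Filter.biInter_finset_mem]
    exact hS2
  have m3 : (⋂ E ∈ D, E) ∈ (u : Filter ℕ) := by
    rw [Filter.biInter_finset_mem]
    exact hD
  refine ⟨(E₀ ∩ ((F : Set ℕ)ᶜ ∩ (F' : Set ℕ)ᶜ)) ∩ (((⋂ h ∈ H, S1 h) ∩ ⋂ i ∈ F, S2 i) ∩ ⋂ E ∈ D, E),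
    ?_, ?_, ?_, ?_, ?_, ?_, ?_⟩
  · exact Filter.inter_mem (Filter.inter_mem hE₀ (Filter.inter_mem (hfree F) (hfree F')))
      (Filter.inter_mem (Filter.inter_mem m1 m2) m3)
  · exact fun n hn => hn.1.1
  · intro E' hE' n hn
    have := hn.2.2
    simp only [mem_iInter] at this
    exact this E' hE'
  · intro n hn h
    exact h.1.2.1 hn
  · intro h hh n hn m hm
    have e1 := hn.2.1.1
    have e2 := hm.2.1.1
    simp only [mem_iInter] at e1 e2
    exact hS1' h hh n (e1 h hh) m (e2 h hh)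
  · intro i hi n hn m hm
    have e1 := hn.2.1.2
    have e2 := hm.2.1.2
    simp only [mem_iInter] at e1 e2
    exact hS2' i hi n (e1 i hi) m (e2 i hi)
  · exact Small.mono hF' (fun n hn => ⟨hn.1.1, hn.1.2.2⟩) le_rfl

/-- linearity of the pairing -/
theorem pr_summable {h x : ℕ → ℂ} (hh : Bdd h) (hx : Summable (fun n => ‖x n‖)) :
    Summable (fun n => h n * x n) := by
  obtain ⟨C, hC⟩ := hh
  refine Summable.of_norm_bounded (hx.mul_left C) fun n => ?_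
  rw [norm_mul]
  exact mul_le_mul_of_nonneg_right (hC n) (norm_nonneg _)

theorem pr_add {h k x : ℕ → ℂ} (hh : Bdd h) (hk : Bdd k) (hx : Summable (fun n => ‖x n‖)) :
    pr (fun n => h n + k n) x = pr h x + pr k x := by
  unfold pr
  rw [← (pr_summable hh hx).tsum_add (pr_summable hk hx)]
  exact tsum_congr fun n => add_mul _ _ _

theorem pr_smul {h x : ℕ → ℂ} (c : ℂ) : pr (fun n => c * h n) x = c * pr h x := by
  unfold pr
  rw [← tsum_mul_left]
  exact tsum_congr fun n => mul_assoc _ _ _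

/-- splitting a function into real parts along `l` -/
theorem split_pin {μ : (ℕ → ℂ) → ℂ} {M : ℝ} (hμ : Mean μ M) (l g : ℕ → ℂ) (C : ℝ) (hC : 0 < C)
    (E : Set ℕ) (hl0 : ∀ n ∈ E, l n = 0) (hl1 : ∀ n, n ∉ E → ‖l n‖ = 1)
    (hg0 : ∀ n ∈ E, g n = 0) (hg : ∀ n, ‖g n‖ ≤ C) :
    ∃ g1 g2 : ℕ → ℝ, (∀ n, |g1 n| ≤ 1) ∧ (∀ n, |g2 n| ≤ 1) ∧
      ∀ x : ℕ → ℂ, Summable (fun n => ‖x n‖) → ∀ τ : ℝ,
        ‖pr (fun n => (g1 n : ℂ) * l n) x - μ (fun n => (g1 n : ℂ) * l n)‖ ≤ τ →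
        ‖pr (fun n => (g2 n : ℂ) * l n) x - μ (fun n => (g2 n : ℂ) * l n)‖ ≤ τ →
        ‖pr g x - μ g‖ ≤ 2 * C * τ := by
  have hlb : ∀ n, ‖l n‖ ≤ 1 := by
    intro n
    by_cases hn : n ∈ E
    · rw [hl0 n hn]; simp
    · exact (hl1 n hn).le
  let v : ℕ → ℂ := fun n => (starRingEnd ℂ) (l n) * g n / (C : ℂ)
  have hv : ∀ n, ‖v n‖ ≤ 1 := by
    intro n
    simp only [v]
    rw [norm_div, norm_mul, RCLike.norm_conj, Complex.norm_real, Real.norm_eq_abs, abs_of_pos hC,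
      div_le_one hC]
    calc ‖l n‖ * ‖g n‖ ≤ 1 * C := mul_le_mul (hlb n) (hg n) (norm_nonneg _) zero_le_one
      _ = C := one_mul _
  have hCC : (C : ℂ) ≠ 0 := by exact_mod_cast hC.ne'
  have hrec : ∀ n, g n = (C : ℂ) * (((v n).re : ℂ) * l n) +
      ((C : ℂ) * Complex.I) * (((v n).im : ℂ) * l n) := by
    intro n
    have e1 : (C : ℂ) * (((v n).re : ℂ) * l n) + ((C : ℂ) * Complex.I) * (((v n).im : ℂ) * l n) =
        (C : ℂ) * l n * (((v n).re : ℂ) + ((v n).im : ℂ) * Complex.I) := by ring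
    rw [e1, Complex.re_add_im]
    by_cases hn : n ∈ E
    · rw [hg0 n hn, hl0 n hn]; ring
    · simp only [v]
      have h2 : l n * (starRingEnd ℂ) (l n) = 1 := by
        rw [Complex.mul_conj']
        rw [hl1 n hn]; norm_num
      field_simp
      linear_combination -(g n) * h2
  refine ⟨fun n => (v n).re, fun n => (v n).im, fun n => (Complex.abs_re_le_norm _).trans (hv n),
    fun n => (Complex.abs_im_le_norm _).trans (hv n), ?_⟩
  intro x hx τ h1 h2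
  have b1 : Bdd (fun n => (((v n).re : ℝ) : ℂ) * l n) := by
    refine bdd_of_le (C := 1) fun n => ?_
    rw [norm_mul, Complex.norm_real, Real.norm_eq_abs]
    exact mul_le_one₀ ((Complex.abs_re_le_norm _).trans (hv n)) (norm_nonneg _) (hlb n)
  have b2 : Bdd (fun n => (((v n).im : ℝ) : ℂ) * l n) := by
    refine bdd_of_le (C := 1) fun n => ?_
    rw [norm_mul, Complex.norm_real, Real.norm_eq_abs]
    exact mul_le_one₀ ((Complex.abs_im_le_norm _).trans (hv n)) (norm_nonneg _) (hlb n)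
  have e : g = fun n => (fun n => (C : ℂ) * (((v n).re : ℂ) * l n)) n +
      (fun n => ((C : ℂ) * Complex.I) * (((v n).im : ℂ) * l n)) n := funext hrec
  have p1 : pr g x = (C : ℂ) * pr (fun n => (((v n).re : ℝ) : ℂ) * l n) x +
      ((C : ℂ) * Complex.I) * pr (fun n => (((v n).im : ℝ) : ℂ) * l n) x := by
    conv_lhs => rw [e]
    rw [pr_add (Bdd.smul' b1 _) (Bdd.smul' b2 _) hx, pr_smul, pr_smul]
  have p2 : μ g = (C : ℂ) * μ (fun n => (((v n).re : ℝ) : ℂ) * l n) +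
      ((C : ℂ) * Complex.I) * μ (fun n => (((v n).im : ℝ) : ℂ) * l n) := by
    conv_lhs => rw [e]
    rw [hμ.add _ _ (Bdd.smul' b1 _) (Bdd.smul' b2 _), hμ.smul _ _ b1, hμ.smul _ _ b2]
  rw [p1, p2]
  have e3 : (C : ℂ) * pr (fun n => (((v n).re : ℝ) : ℂ) * l n) x +
      ((C : ℂ) * Complex.I) * pr (fun n => (((v n).im : ℝ) : ℂ) * l n) x -
      ((C : ℂ) * μ (fun n => (((v n).re : ℝ) : ℂ) * l n) +
      ((C : ℂ) * Complex.I) * μ (fun n => (((v n).im : ℝ) : ℂ) * l n)) =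
      (C : ℂ) * (pr (fun n => (((v n).re : ℝ) : ℂ) * l n) x -
        μ (fun n => (((v n).re : ℝ) : ℂ) * l n)) +
      ((C : ℂ) * Complex.I) * (pr (fun n => (((v n).im : ℝ) : ℂ) * l n) x -
        μ (fun n => (((v n).im : ℝ) : ℂ) * l n)) := by ring
  rw [e3]
  refine (norm_add_le _ _).trans ?_
  rw [norm_mul, norm_mul, norm_mul, Complex.norm_I, Complex.norm_real, Real.norm_eq_abs,
    abs_of_pos hC, mul_one]
  calc C * _ + C * _ ≤ C * τ + C * τ :=
        add_le_add (mul_le_mul_of_nonneg_left h1 hC.le) (mul_le_mul_of_nonneg_left h2 hC.le)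
    _ = 2 * C * τ := by ring

end Pool.Agent.NH62.SB.OneInside
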