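import Pool.Agent.NH62.SB.OneInside

/-!
Assembly of the case p = 1, norm less than one: the filter.
-/

set_option autoImplicit false

open Metric Set Filter Topology
open scoped ENNReal BoundedContinuousFunction

namespace Pool.Agent.NH62.SB.OneInside

open Pool.Agent.NH62.SB

/-- the space of summable sequences -/
noncomputable abbrev X1 := lp (fun _ : ℕ => ℂ) 1

/-- coordinates of a point of the ball -/
noncomputable def co (x : ↥(ball (0 : X1) 1)) : ℕ → ℂ := fun n => (x : X1) n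

/-- the filter -/
noncomputable def LF (a : ℕ → ℕ → Prop) (μ : (ℕ → ℂ) → ℂ) (E₀ : Set ℕ) (u : Ultrafilter ℕ)
    (ρ : Set ℕ → ℂ) : Filter ↥(ball (0 : X1) 1) where
  sets := {W | ∃ (H : Finset (ℕ → ℂ)) (D : Finset (Set ℕ)) (η : ℝ), (∀ h ∈ H, Bdd h) ∧
    (∀ E ∈ D, E ∈ u ∧ E ⊆ E₀) ∧ 0 < η ∧ ∀ x : ↥(ball (0 : X1) 1),
      (∀ h ∈ H, ‖pr h (co x) - μ h‖ ≤ η) → (∀ E ∈ D, ‖Rf a E (co x) - ρ E‖ ≤ η) → x ∈ W}
  univ_sets := ⟨∅, ∅, 1, by simp, by simp, one_pos, fun _ _ _ => mem_univ _⟩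
  sets_of_superset := by
    rintro W W' ⟨H, D, η, h1, h2, h3, h4⟩ hW
    exact ⟨H, D, η, h1, h2, h3, fun x a b => hW (h4 x a b)⟩
  inter_sets := by
    classical
    rintro W W' ⟨H, D, η, h1, h2, h3, h4⟩ ⟨H', D', η', h1', h2', h3', h4'⟩
    refine ⟨H ∪ H', D ∪ D', min η η', ?_, ?_, lt_min h3 h3', ?_⟩
    · intro h hh
      rcases Finset.mem_union.1 hh with h' | h'
      · exact h1 h h'
      · exact h1' h h'
    · intro h hh
      rcases Finset.mem_union.1 hh with h' | h'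
      · exact h2 h h'
      · exact h2' h h'
    · intro x e1 e2
      refine ⟨h4 x (fun h hh => (e1 h (Finset.mem_union_left _ hh)).trans (min_le_left _ _))
        (fun E hE => (e2 E (Finset.mem_union_left _ hE)).trans (min_le_left _ _)),
        h4' x (fun h hh => (e1 h (Finset.mem_union_right _ hh)).trans (min_le_right _ _))
        (fun E hE => (e2 E (Finset.mem_union_right _ hE)).trans (min_le_right _ _))⟩

theorem LF_pr (a : ℕ → ℕ → Prop) (μ : (ℕ → ℂ) → ℂ) (E₀ : Set ℕ) (u : Ultrafilter ℕ)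
    (ρ : Set ℕ → ℂ) (h : ℕ → ℂ) (hh : Bdd h) :
    Tendsto (fun x => pr h (co x)) (LF a μ E₀ u ρ) (𝓝 (μ h)) := by
  rw [(Metric.nhds_basis_closedBall).tendsto_right_iff]
  intro η hη
  refine ⟨{h}, ∅, η, ?_, by simp, hη, fun x e1 _ => ?_⟩
  · intro g hg; rw [Finset.mem_singleton] at hg; rw [hg]; exact hh
  · have := e1 h (Finset.mem_singleton_self _)
    show pr h (co x) ∈ closedBall (μ h) η
    rw [mem_closedBall, dist_eq_norm]; exact this

theorem LF_R (a : ℕ → ℕ → Prop) (μ : (ℕ → ℂ) → ℂ) (E₀ : Set ℕ) (u : Ultrafilter ℕ)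
    (ρ : Set ℕ → ℂ) (E : Set ℕ) (hE : E ∈ u) (hE' : E ⊆ E₀) :
    Tendsto (fun x => Rf a E (co x)) (LF a μ E₀ u ρ) (𝓝 (ρ E)) := by
  rw [(Metric.nhds_basis_closedBall).tendsto_right_iff]
  intro η hη
  refine ⟨∅, {E}, η, by simp, ?_, hη, fun x _ e2 => ?_⟩
  · intro g hg; rw [Finset.mem_singleton] at hg; rw [hg]; exact ⟨hE, hE'⟩
  · have := e2 E (Finset.mem_singleton_self _)
    show Rf a E (co x) ∈ closedBall (ρ E) η
    rw [mem_closedBall, dist_eq_norm]; exact this

theorem small_near (κ : ℝ) (hκ : 0 < κ) : ∃ ρ₀ : ℝ, 0 < ρ₀ ∧ ∀ x y : ℂ, ‖x‖ ≤ ρ₀ → ‖y‖ ≤ ρ₀ →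
    ‖Complex.exp x * (1 + y) - 1‖ ≤ κ := by
  have hc : ContinuousAt (fun q : ℂ × ℂ => Complex.exp q.1 * (1 + q.2)) (0, 0) := by
    apply Continuous.continuousAt
    fun_prop
  have h1 := hc.tendsto (Metric.closedBall_mem_nhds _ hκ)
  rw [mem_map, Metric.mem_nhds_iff] at h1
  obtain ⟨ε, hε, h2⟩ := h1
  refine ⟨ε / 2, by linarith, fun x y hx hy => ?_⟩
  have h3 : ((x, y) : ℂ × ℂ) ∈ ball ((0 : ℂ), (0 : ℂ)) ε := by
    rw [mem_ball, Prod.dist_eq, max_lt_iff]
    simp only [dist_zero_right]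
    constructor <;> linarith
  have h4 := h2 h3
  simp only [mem_preimage, mem_closedBall, dist_eq_norm] at h4
  simpa using h4

theorem oneInside (hMt : S_Mantel) (hG : S_Graph) (hGI : S_GoodImp)
    (hT : S_Test) (hS : S_Spike) (hm : S_Mem1) : S_OneInside := by
  classical
  intro μ M hμ hM
  obtain ⟨a, E₀, u, hTF, hE₀, hedge, hfree, htail⟩ := hG μ M hμ
  have hM0 : 0 ≤ M := hμ.nonneg
  let ρ : Set ℕ → ℂ := fun E => Rf a E (pt μ) + ((1 - M : ℝ) : ℂ) ^ 2
  set L := LF a μ E₀ u ρ with hL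
  have hU1 : ∀ x : ↥(ball (0 : X1) 1), U1 (co x) := by
    intro x
    have h := hm.2.2.1 x
    refine ⟨h.1, ?_⟩
    have h2 : ∑' n, ‖co x n‖ = ‖(x : X1)‖ := h.2
    rw [h2]
    have := x.2
    rw [mem_ball_zero_iff] at this
    exact this.le
  -- the pins
  let Γf : Finset (ℕ → ℂ) → Finset ℕ → Set ℕ → (ℕ → ℂ) → Finset (ℕ → ℂ) := fun H F E l =>
    (H.image fun h => cut Eᶜ h) ∪ (F.image fun i => Pi.single i 1) ∪ {cut (E₀ \ (F : Set ℕ)) l}
  have hΓ1 : ∀ H F E l, ∀ h ∈ H, cut Eᶜ h ∈ Γf H F E l := by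
    intro H F E l h hh
    exact Finset.mem_union_left _ (Finset.mem_union_left _ (Finset.mem_image_of_mem _ hh))
  have hΓ2 : ∀ H F E l, ∀ i ∈ F, Pi.single i 1 ∈ Γf H F E l := by
    intro H F E l i hi
    exact Finset.mem_union_left _ (Finset.mem_union_right _
      (Finset.mem_image_of_mem (fun i => (Pi.single i (1 : ℂ) : ℕ → ℂ)) hi))
  have hΓ3 : ∀ H F E l, cut (E₀ \ (F : Set ℕ)) l ∈ Γf H F E l := by
    intro H F E l
    exact Finset.mem_union_right _ (Finset.mem_singleton_self _)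
  have hΓc : ∀ H F E l, (Γf H F E l).card ≤ H.card + F.card + 1 := by
    intro H F E l
    refine (Finset.card_union_le _ _).trans ?_
    rw [Finset.card_singleton]
    gcongr
    refine (Finset.card_union_le _ _).trans ?_
    exact add_le_add Finset.card_image_le Finset.card_image_le
  have hΓb : ∀ (H : Finset (ℕ → ℂ)) (F : Finset ℕ) (E : Set ℕ) (l : ℕ → ℂ) (C : ℝ), 1 ≤ C →
      (∀ h ∈ H, ∀ n, ‖h n‖ ≤ C) →
      (∀ n, ‖l n‖ ≤ 1) → (∀ n ∈ E, l n = 0) → (∀ n ∈ F, n ∉ E) →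
      ∀ g ∈ Γf H F E l, (∀ n, ‖g n‖ ≤ C) ∧ ∀ n ∈ E, g n = 0 := by
    intro H F E l C hC hH hl hl0 hF g hg
    simp only [Γf, Finset.mem_union, Finset.mem_image, Finset.mem_singleton] at hg
    rcases hg with (⟨h, hh, rfl⟩ | ⟨i, hi, rfl⟩) | rfl
    · constructor
      · intro n
        by_cases hn : n ∈ Eᶜ
        · rw [cut, indicator_of_mem hn]; exact hH h hh n
        · rw [cut, indicator_of_notMem hn, norm_zero]; linarith
      · intro n hn
        rw [cut, indicator_of_notMem]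
        simpa using hn
    · constructor
      · intro n
        by_cases h : n = i
        · subst h; simpa using hC
        · rw [Pi.single_eq_of_ne h, norm_zero]; linarith
      · intro n hn
        have : n ≠ i := fun h => hF i hi (h ▸ hn)
        rw [Pi.single_eq_of_ne this]
    · constructor
      · intro n
        by_cases hn : n ∈ E₀ \ (F : Set ℕ)
        · rw [cut, indicator_of_mem hn]; exact (hl n).trans hC
        · rw [cut, indicator_of_notMem hn, norm_zero]; linarith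
      · intro n hn
        by_cases hn' : n ∈ E₀ \ (F : Set ℕ)
        · rw [cut, indicator_of_mem hn']; exact hl0 n hn
        · rw [cut, indicator_of_notMem hn']
  refine ⟨L, ?_, ?_, fun h hh => LF_pr a μ E₀ u ρ h hh⟩
  · -- NeBot
    refine ⟨fun hbot => ?_⟩
    have h0 : (∅ : Set ↥(ball (0 : X1) 1)) ∈ L := by rw [hbot]; exact mem_bot
    obtain ⟨H, D, η, hH, hD, hη, hW⟩ := h0
    obtain ⟨τ, F, hτ, hI⟩ := hGI a μ M E₀ hTF hμ hM0 hM.le htail H hH D
      (fun E hE => (hD E hE).2) η hη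
    obtain ⟨θ, hθ, hSp⟩ := hS a μ M hTF hμ hM τ hτ
    obtain ⟨E, hE, hEE₀, hED, hEF, hEo, hEk, hEs⟩ := exists_E a μ E₀ u hE₀ hfree htail H hH D
      (fun E hE => (hD E hE).1) F τ (min τ (θ / 2)) hτ (lt_min hτ (by linarith))
    obtain ⟨l, hl0, hl1, hl2⟩ := exists_l hμ E θ hθ (Small.mono hEs subset_rfl (min_le_right _ _))
    have hlb : ∀ n, ‖l n‖ ≤ 1 := by
      intro n
      by_cases hn : n ∈ E
      · rw [hl0 n hn]; simp
      · exact (hl1 n hn).le
    choose! Ch hCh using hH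
    let C : ℝ := ∑ h ∈ H, |Ch h| + 1
    have hC1 : 1 ≤ C := by
      have : 0 ≤ ∑ h ∈ H, |Ch h| := Finset.sum_nonneg fun _ _ => abs_nonneg _
      simp only [C]; linarith
    have hCb : ∀ h ∈ H, ∀ n, ‖h n‖ ≤ C := by
      intro h hh n
      have := Finset.single_le_sum (f := fun h => |Ch h|) (fun _ _ => abs_nonneg _) hh
      have h2 := (hCh h hh n).trans (le_abs_self _)
      simp only [C]; linarith
    obtain ⟨x, hx, hg⟩ := hSp E l (Γf H F E l) (hedge E hE) (fun g hg => by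
      have := hΓb H F E l C hC1 hCb hlb hl0 hEF g hg
      exact ⟨⟨C, this.1⟩, this.2⟩) hl0 hl1 hl2
    obtain ⟨y, hy⟩ := hm.2.2.2 x hg.u1.1
    have hyn : ‖y‖ < 1 := by
      rw [← (hm.2.2.1 y).2]
      have : (fun n => ‖y n‖) = fun n => ‖x n‖ := funext fun n => by rw [hy n]
      rw [this]; exact hx
    have hyb : y ∈ ball (0 : X1) 1 := by rw [mem_ball_zero_iff]; exact hyn
    have hco : co ⟨y, hyb⟩ = x := funext hy
    have hfin := hI E l hEE₀ hED hEF hEo hEk
      (Small.mono hEs subset_rfl (min_le_left _ _)) hl0 hl1 (Γf H F E l) (hΓ1 H F E l)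
      (hΓ2 H F E l) (hΓ3 H F E l) x hg
    have := hW ⟨y, hyb⟩ (by rw [hco]; exact hfin.1) (by rw [hco]; exact hfin.2)
    exact this
  · -- Peaked
    intro W hW
    obtain ⟨H, D, η, hH, hD, hη, hW⟩ := hW
    obtain ⟨τ, F, hτ, hI⟩ := hGI a μ M E₀ hTF hμ hM0 hM.le htail H hH D
      (fun E hE => (hD E hE).2) η hη
    choose! Ch hCh using hH
    let C : ℝ := ∑ h ∈ H, |Ch h| + 1
    have hC1 : 1 ≤ C := by
      have : 0 ≤ ∑ h ∈ H, |Ch h| := Finset.sum_nonneg fun _ _ => abs_nonneg _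
      simp only [C]; linarith
    have hC0 : 0 < C := by linarith
    have hCb : ∀ h ∈ H, ∀ n, ‖h n‖ ≤ C := by
      intro h hh n
      have := Finset.single_le_sum (f := fun h => |Ch h|) (fun _ _ => abs_nonneg _) hh
      have h2 := (hCh h hh n).trans (le_abs_self _)
      simp only [C]; linarith
    let r : ℕ := 2 * (H.card + F.card + 1)
    let τ' : ℝ := τ / (2 * C)
    have hτ' : 0 < τ' := by positivity
    have hτ'τ : τ' ≤ τ := by
      apply div_le_self hτ.le
      linarith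
    obtain ⟨ε, δ, hε, hδ, hTe⟩ := hT a μ M hTF hμ hM r τ' hτ'
    refine ⟨δ, hδ, fun κ hκ => ?_⟩
    obtain ⟨ρ₀, hρ₀, hnear⟩ := small_near κ hκ
    have hA : 0 < 1 - M := by linarith
    obtain ⟨θ, Cc, hθ, hCc0, hCcκ, hTe⟩ := hTe (ρ₀ / 2) (by linarith)
    -- the smallness parameter
    let c : ℝ := 2 / (1 - M)
    have hc : 0 < c := by positivity
    obtain ⟨θ', hθ', hθ'θ, hθ'1⟩ : ∃ θ' : ℝ, 0 < θ' ∧ θ' ≤ θ ∧
        c * (θ' + Real.sqrt (2 * θ')) ≤ ρ₀ / 2 := by
      have hcont : ContinuousAt (fun t : ℝ => c * (t + Real.sqrt (2 * t))) 0 := by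
        apply Continuous.continuousAt; fun_prop
      have h1 := hcont.tendsto
      simp only [mul_zero, Real.sqrt_zero, add_zero] at h1
      have h2 := h1 (Metric.ball_mem_nhds 0 (show (0 : ℝ) < ρ₀ / 2 by linarith))
      rw [mem_map, Metric.mem_nhds_iff] at h2
      obtain ⟨ε₁, hε₁, h3⟩ := h2
      refine ⟨min θ (ε₁ / 2), lt_min hθ (by linarith), min_le_left _ _, ?_⟩
      have h4 : min θ (ε₁ / 2) ∈ ball (0 : ℝ) ε₁ := by
        rw [mem_ball, dist_zero_right, Real.norm_eq_abs, abs_of_pos (lt_min hθ (by linarith))]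
        exact (min_le_right _ _).trans_lt (by linarith)
      have h5 := h3 h4
      simp only [mem_preimage, mem_ball, dist_zero_right, Real.norm_eq_abs] at h5
      exact ((le_abs_self _).trans_lt h5).le
    let σ : ℝ := min τ (min (θ' / 2) (min 1 (ρ₀ * (1 - M) ^ 2)))
    have hσ : 0 < σ := lt_min hτ (lt_min (by linarith) (lt_min one_pos (by positivity)))
    obtain ⟨E, hE, hEE₀, hED, hEF, hEo, hEk, hEs⟩ := exists_E a μ E₀ u hE₀ hfree htail H
      (fun h hh => ⟨Ch h, hCh h hh⟩) D (fun E hE => (hD E hE).1) F τ σ hτ hσ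
    obtain ⟨l, hl0, hl1, hl2⟩ := exists_l hμ E θ' hθ' (Small.mono hEs subset_rfl
      ((min_le_right _ _).trans (min_le_left _ _)))
    have hlb : ∀ n, ‖l n‖ ≤ 1 := by
      intro n
      by_cases hn : n ∈ E
      · rw [hl0 n hn]; simp
      · exact (hl1 n hn).le
    have hΓb' := hΓb H F E l C hC1 hCb hlb hl0 hEF
    have hsplit : ∀ g ∈ Γf H F E l, ∃ g1 g2 : ℕ → ℝ, (∀ n, |g1 n| ≤ 1) ∧ (∀ n, |g2 n| ≤ 1) ∧
        ∀ x : ℕ → ℂ, Summable (fun n => ‖x n‖) → ∀ τ : ℝ,
        ‖pr (fun n => (g1 n : ℂ) * l n) x - μ (fun n => (g1 n : ℂ) * l n)‖ ≤ τ →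
        ‖pr (fun n => (g2 n : ℂ) * l n) x - μ (fun n => (g2 n : ℂ) * l n)‖ ≤ τ →
        ‖pr g x - μ g‖ ≤ 2 * C * τ := by
      intro g hg
      exact split_pin hμ l g C hC0 E hl0 hl1 (hΓb' g hg).2 (hΓb' g hg).1
    choose! G1 G2 hG1 hG2 hG3 using hsplit
    let G : Finset (ℕ → ℝ) := (Γf H F E l).image G1 ∪ (Γf H F E l).image G2
    have hGcard : G.card ≤ r := by
      refine (Finset.card_union_le _ _).trans ?_
      have h1 : ((Γf H F E l).image G1).card ≤ H.card + F.card + 1 :=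
        Finset.card_image_le.trans (hΓc H F E l)
      have h2 : ((Γf H F E l).image G2).card ≤ H.card + F.card + 1 :=
        Finset.card_image_le.trans (hΓc H F E l)
      simp only [r]; omega
    have hGb : ∀ g ∈ G, ∀ n, |g n| ≤ 1 := by
      intro g hg
      rcases Finset.mem_union.1 hg with h | h
      · obtain ⟨g', hg', rfl⟩ := Finset.mem_image.1 h
        exact hG1 g' hg'
      · obtain ⟨g', hg', rfl⟩ := Finset.mem_image.1 h
        exact hG2 g' hg'
    obtain ⟨hF1, hF2⟩ := hTe E l G hGcard hGb hl0 hl1 (by linarith)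
    have hbl : Bdd l := ⟨1, hlb⟩
    have hbg : ∀ g ∈ G, Bdd (fun n => (g n : ℂ) * l n) := by
      intro g hg
      refine ⟨1, fun n => ?_⟩
      rw [norm_mul, Complex.norm_real, Real.norm_eq_abs]
      exact mul_le_one₀ (hGb g hg n) (norm_nonneg _) (hlb n)
    refine ⟨fun x : X1 => Ft a μ M E l G ε Cc (fun n => x n), ?_, ?_, ?_, ?_⟩
    · -- MemAu
      have m1 : ∀ h : ℕ → ℂ, Bdd h → MemAu (fun x : X1 => pr h (fun n => x n)) := by
        intro h hh
        obtain ⟨f, hf⟩ := hm.1 h hh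
        have := memAu_clm f
        have e : (fun x : X1 => pr h (fun n => x n)) = fun x => f x := funext fun x => (hf x).symm
        rw [e]; exact this
      have m2 : MemAu (fun x : X1 => Rf a E (fun n => x n)) := by
        obtain ⟨B, hB⟩ := hm.2.1 a E
        have := memAu_bilin B
        have e : (fun x : X1 => Rf a E (fun n => x n)) = fun x => B x x :=
          funext fun x => (hB x).symm
        rw [e]; exact this
      unfold Ft
      refine MemAu.mul (MemAu.cexp (MemAu.sub (MemAu.add (memAu_const _)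
        (MemAu.const_mul (MemAu.sub (m1 l hbl) (memAu_const _)) _)) (MemAu.const_mul
          (memAu_sum G _ fun g hg => MemAu.pow (MemAu.sub (m1 _ (hbg g hg)) (memAu_const _)) 2) _)))
        (MemAu.div_const m2 _)
    · intro x hx
      exact hF1 _ (hU1 ⟨x, hx⟩)
    · -- the limit
      refine ⟨Complex.exp ((-Cc : ℝ) + ((2 / (1 - M) : ℝ) : ℂ) * (μ l - (M : ℂ)) -
        (ε : ℂ) * ∑ g ∈ G, (μ (fun n => (g n : ℂ) * l n) - μ (fun n => (g n : ℂ) * l n)) ^ 2) *
        (ρ E / ((1 - M : ℝ) : ℂ) ^ 2), ?_, ?_⟩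
      · have t1 := LF_pr a μ E₀ u ρ l hbl
        have t2 := LF_R a μ E₀ u ρ E hE hEE₀
        have t3 : Tendsto (fun x => ∑ g ∈ G, (pr (fun n => (g n : ℂ) * l n) (co x) -
            μ (fun n => (g n : ℂ) * l n)) ^ 2) L
            (𝓝 (∑ g ∈ G, (μ (fun n => (g n : ℂ) * l n) - μ (fun n => (g n : ℂ) * l n)) ^ 2)) :=
          tendsto_finsetSum _ fun g hg =>
            ((LF_pr a μ E₀ u ρ _ (hbg g hg)).sub tendsto_const_nhds).pow 2
        have t4 := ((((t1.sub (tendsto_const_nhds (x := (M : ℂ)))).const_mul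
          ((2 / (1 - M) : ℝ) : ℂ)).const_add ((-Cc : ℝ) : ℂ)).sub (t3.const_mul (ε : ℂ))).cexp.mul
          (t2.div_const (((1 - M : ℝ) : ℂ) ^ 2))
        exact t4
      · have hz : ∑ g ∈ G, (μ (fun n => (g n : ℂ) * l n) - μ (fun n => (g n : ℂ) * l n)) ^ 2 = 0 := by
          apply Finset.sum_eq_zero
          intro g _
          rw [sub_self]; norm_num
        rw [hz, mul_zero, sub_zero]
        have hAC : ((1 - M : ℝ) : ℂ) ^ 2 ≠ 0 := by
          apply pow_ne_zero
          exact_mod_cast hA.ne'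
        have hρE : ρ E / ((1 - M : ℝ) : ℂ) ^ 2 = 1 + Rf a E (pt μ) / ((1 - M : ℝ) : ℂ) ^ 2 := by
          simp only [ρ]
          rw [add_div, div_self hAC, add_comm]
        rw [hρE]
        apply hnear
        · -- the exponent
          have e1 : ‖μ l - (M : ℂ)‖ ≤ θ' + Real.sqrt (2 * θ') := by
            have n1 : ‖μ l‖ ≤ M := by
              have := hμ.bd l 1 zero_le_one hlb
              rwa [mul_one] at this
            have n2 : (μ l).re ≤ M := (Complex.re_le_norm _).trans n1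
            have n3 : |(μ l).im| ≤ Real.sqrt (2 * θ') := by
              apply Real.abs_le_sqrt
              have h3 : (μ l).re ^ 2 + (μ l).im ^ 2 = ‖μ l‖ ^ 2 := by
                rw [← Complex.normSq_eq_norm_sq, Complex.normSq_apply]; ring
              have h4 : ‖μ l‖ ^ 2 ≤ M ^ 2 := pow_le_pow_left₀ (norm_nonneg _) n1 2
              by_cases hneg : 0 ≤ M - θ'
              · have h5 : (M - θ') ^ 2 ≤ (μ l).re ^ 2 := pow_le_pow_left₀ hneg hl2 2
                nlinarith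
              · push Not at hneg
                nlinarith [sq_nonneg (μ l).re]
            have n4 : |(μ l - (M : ℂ)).re| ≤ θ' := by
              rw [Complex.sub_re, Complex.ofReal_re, abs_le]
              constructor <;> linarith
            have n5 : |(μ l - (M : ℂ)).im| ≤ Real.sqrt (2 * θ') := by
              rw [Complex.sub_im, Complex.ofReal_im, sub_zero]; exact n3
            exact (Complex.norm_le_abs_re_add_abs_im _).trans (add_le_add n4 n5)
          calc ‖((-Cc : ℝ) : ℂ) + ((2 / (1 - M) : ℝ) : ℂ) * (μ l - (M : ℂ))‖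
              ≤ ‖((-Cc : ℝ) : ℂ)‖ + ‖((2 / (1 - M) : ℝ) : ℂ) * (μ l - (M : ℂ))‖ := norm_add_le _ _
            _ ≤ ρ₀ / 2 + ρ₀ / 2 := by
              apply add_le_add
              · rw [Complex.norm_real, Real.norm_eq_abs, abs_neg, abs_of_nonneg hCc0]
                exact hCcκ
              · rw [norm_mul, Complex.norm_real, Real.norm_eq_abs, abs_of_pos hc]
                exact (mul_le_mul_of_nonneg_left e1 hc.le).trans hθ'1
            _ = ρ₀ := by ring
        · rw [norm_div, norm_pow, Complex.norm_real, Real.norm_eq_abs, abs_of_pos hA,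
            div_le_iff₀ (by positivity)]
          have h1 := (hMt a hTF E (pt μ) (pt_summable hμ)).1
          have h2 := mass_pt hμ E σ hEs
          have h3 : 0 ≤ mass E (pt μ) := tsum_nonneg fun _ => norm_nonneg _
          have h4 : σ ≤ 1 := (min_le_right _ _).trans ((min_le_right _ _).trans (min_le_left _ _))
          have h5 : σ ≤ ρ₀ * (1 - M) ^ 2 :=
            (min_le_right _ _).trans ((min_le_right _ _).trans (min_le_right _ _))
          calc ‖Rf a E (pt μ)‖ ≤ mass E (pt μ) ^ 2 := h1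
            _ ≤ σ ^ 2 := pow_le_pow_left₀ h3 h2 2
            _ ≤ σ * 1 := by rw [sq]; exact mul_le_mul_of_nonneg_left h4 hσ.le
            _ ≤ ρ₀ * (1 - M) ^ 2 := by rw [mul_one]; exact h5
    · intro x hx
      have hx1 := hU1 x
      obtain ⟨g1, g2, g3, g4⟩ := hF2 (co x) hx1 hx
      have hgood : Good a μ (1 - M) E l (Γf H F E l) τ (co x) := by
        refine ⟨hx1, g1.trans hτ'τ, g2.trans hτ'τ, g3.trans hτ'τ, ?_⟩
        intro g hg
        have h1 := hG3 g hg (co x) hx1.1 τ'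
          (g4 _ (Finset.mem_union_left _ (Finset.mem_image_of_mem _ hg)))
          (g4 _ (Finset.mem_union_right _ (Finset.mem_image_of_mem _ hg)))
        refine h1.trans (le_of_eq ?_)
        simp only [τ']
        field_simp
      have hfin := hI E l hEE₀ hED hEF hEo hEk
        (Small.mono hEs subset_rfl (min_le_left _ _)) hl0 hl1 (Γf H F E l) (hΓ1 H F E l)
        (hΓ2 H F E l) (hΓ3 H F E l) (co x) hgood
      exact hW x hfin.1 hfin.2

end Pool.Agent.NH62.SB.OneInside
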