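import Pool.Agent.NH62.SB.StmOne
import Pool.Agent.NH62.SB.Mem

/-!
The case of a functional of norm one on the bounded functions.
-/

set_option autoImplicit false

open Metric Set Filter Topology
open scoped ENNReal BoundedContinuousFunction

namespace Pool.Agent.NH62.SB.OneSphere

/-- linear functionals of norm at most one on the bounded functions -/
structure Fn (ν : (ℕ → ℂ) → ℂ) : Prop where
  add : ∀ h k : ℕ → ℂ, Bdd h → Bdd k → ν (fun n => h n + k n) = ν h + ν k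
  smul : ∀ (c : ℂ) (h : ℕ → ℂ), Bdd h → ν (fun n => c * h n) = c * ν h
  bd : ∀ (h : ℕ → ℂ) (C : ℝ), 0 ≤ C → (∀ n, ‖h n‖ ≤ C) → ‖ν h‖ ≤ C

theorem fn_of_mean {μ : (ℕ → ℂ) → ℂ} (h : Mean μ 1) : Fn μ :=
  ⟨h.add, h.smul, fun k C hC hk => by simpa using h.bd k C hC hk⟩

theorem summ_pr {h x : ℕ → ℂ} (hb : Bdd h) (hx : Summable fun n => ‖x n‖) :
    Summable fun n => h n * x n := by
  obtain ⟨C, hC⟩ := hb
  refine Summable.of_norm_bounded (g := fun n => C * ‖x n‖) (hx.mul_left C) fun n => ?_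
  rw [norm_mul]
  exact mul_le_mul_of_nonneg_right (hC n) (norm_nonneg _)

theorem fn_pr {x : ℕ → ℂ} (hx : U1 x) : Fn (fun h => pr h x) := by
  refine ⟨fun h k hh hk => ?_, fun c h hh => ?_, fun h C hC hh => ?_⟩
  · show pr _ x = pr h x + pr k x
    unfold pr
    rw [← Summable.tsum_add (summ_pr hh hx.1) (summ_pr hk hx.1)]
    congr 1
    funext n
    ring
  · show pr _ x = c * pr h x
    unfold pr
    rw [← tsum_mul_left]
    congr 1
    funext n
    ring
  · show ‖pr h x‖ ≤ C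
    unfold pr
    have hle : ∀ n, ‖h n * x n‖ ≤ C * ‖x n‖ := fun n => by
      rw [norm_mul]
      exact mul_le_mul_of_nonneg_right (hh n) (norm_nonneg _)
    have h1 : Summable fun n => ‖h n * x n‖ :=
      Summable.of_nonneg_of_le (fun _ => norm_nonneg _) hle (hx.1.mul_left C)
    calc ‖∑' n, h n * x n‖ ≤ ∑' n, ‖h n * x n‖ := norm_tsum_le_tsum_norm h1
      _ ≤ ∑' n, C * ‖x n‖ := h1.tsum_le_tsum hle (hx.1.mul_left C)
      _ = C * ∑' n, ‖x n‖ := tsum_mul_left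
      _ ≤ C * 1 := mul_le_mul_of_nonneg_left hx.2 hC
      _ = C := mul_one C

theorem im_sq {ν : (ℕ → ℂ) → ℂ} (hν : Fn ν) (l : ℕ → ℂ) (hl : ∀ n, ‖l n‖ ≤ 1) (g : ℕ → ℝ)
    (hg : ∀ n, |g n| ≤ 1) :
    (ν fun n => (g n : ℂ) * l n).im ^ 2 ≤ 2 * (1 - (ν l).re) := by
  set I : ℝ := (ν fun n => (g n : ℂ) * l n).im with hI
  have b1 : Bdd l := ⟨1, hl⟩
  have b2 : Bdd fun n => (g n : ℂ) * l n := ⟨1, fun n => by
    rw [norm_mul, Complex.norm_real, Real.norm_eq_abs]
    exact mul_le_one₀ (hg n) (norm_nonneg _) (hl n)⟩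
  have b3 : Bdd fun n => ((-I : ℝ) : ℂ) * Complex.I * ((g n : ℂ) * l n) := by
    obtain ⟨C, hC⟩ := b2
    refine ⟨|I| * C, fun n => ?_⟩
    rw [norm_mul, norm_mul, Complex.norm_I, mul_one, Complex.norm_real, Real.norm_eq_abs, abs_neg]
    exact mul_le_mul_of_nonneg_left (hC n) (abs_nonneg _)
  have e1 : ν (fun n => l n + ((-I : ℝ) : ℂ) * Complex.I * ((g n : ℂ) * l n)) =
      ν l + ((-I : ℝ) : ℂ) * Complex.I * ν (fun n => (g n : ℂ) * l n) := by
    rw [hν.add _ _ b1 b3, hν.smul _ _ b2]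
  have h1 : ‖ν (fun n => l n + ((-I : ℝ) : ℂ) * Complex.I * ((g n : ℂ) * l n))‖ ≤ 1 + I ^ 2 / 2 := by
    apply hν.bd _ _ (by positivity)
    intro n
    have e2 : l n + ((-I : ℝ) : ℂ) * Complex.I * ((g n : ℂ) * l n) =
        l n * ((1 : ℝ) + ((-I * g n : ℝ) : ℂ) * Complex.I) := by
      push_cast
      ring
    rw [e2, norm_mul]
    have h3 : ‖((1 : ℝ) : ℂ) + ((-I * g n : ℝ) : ℂ) * Complex.I‖ ≤ 1 + I ^ 2 / 2 := by
      rw [Complex.norm_add_mul_I]
      apply Real.sqrt_le_iff.2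
      refine ⟨by positivity, ?_⟩
      have h4 : g n ^ 2 ≤ 1 := by
        rw [sq_le_one_iff_abs_le_one]
        exact hg n
      have h5 : (-I * g n) ^ 2 ≤ I ^ 2 := by
        have : (-I * g n) ^ 2 = I ^ 2 * g n ^ 2 := by ring
        rw [this]
        exact mul_le_of_le_one_right (sq_nonneg _) h4
      nlinarith [sq_nonneg (I ^ 2)]
    calc ‖l n‖ * ‖((1 : ℝ) : ℂ) + ((-I * g n : ℝ) : ℂ) * Complex.I‖
        ≤ 1 * (1 + I ^ 2 / 2) := mul_le_mul (hl n) h3 (norm_nonneg _) zero_le_one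
      _ = _ := one_mul _
  have h2 := (Complex.re_le_norm _).trans h1
  rw [e1] at h2
  simp only [Complex.add_re, Complex.mul_re, Complex.mul_im, Complex.ofReal_re, Complex.ofReal_im,
    Complex.I_re, Complex.I_im] at h2
  rw [← hI] at h2
  nlinarith

/-- every point of the unit disc is a midpoint of two unimodular numbers -/
theorem midpt (z : ℂ) (hz : ‖z‖ ≤ 1) : ∃ u v : ℂ, ‖u‖ = 1 ∧ ‖v‖ = 1 ∧ u + v = 2 * z := by
  by_cases h0 : z = 0
  · exact ⟨1, -1, by simp, by simp, by simp [h0]⟩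
  have hn : 0 < ‖z‖ := norm_pos_iff.2 h0
  have hw : ‖z / ‖z‖‖ = 1 := by
    rw [norm_div, Complex.norm_real, norm_norm, div_self hn.ne']
  have h1 : 0 ≤ 1 - ‖z‖ ^ 2 := by nlinarith [norm_nonneg z]
  have hs : ‖z‖ ^ 2 + √(1 - ‖z‖ ^ 2) ^ 2 = 1 := by
    rw [Real.sq_sqrt h1]; ring
  refine ⟨z / ‖z‖ * ((‖z‖ : ℝ) + (√(1 - ‖z‖ ^ 2) : ℝ) * Complex.I),
    z / ‖z‖ * ((‖z‖ : ℝ) + ((-√(1 - ‖z‖ ^ 2) : ℝ) : ℂ) * Complex.I), ?_, ?_, ?_⟩
  · rw [norm_mul, hw, one_mul, Complex.norm_add_mul_I, hs, Real.sqrt_one]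
  · rw [norm_mul, hw, one_mul, Complex.norm_add_mul_I, neg_sq, hs, Real.sqrt_one]
  · have : (‖z‖ : ℂ) ≠ 0 := by exact_mod_cast hn.ne'
    push_cast
    field_simp
    ring

theorem unimod {μ : (ℕ → ℂ) → ℂ} (hμ : Mean μ 1) (θ : ℝ) (hθ : 0 < θ) :
    ∃ l : ℕ → ℂ, (∀ n, ‖l n‖ = 1) ∧ 1 - θ ≤ (μ l).re := by
  obtain ⟨h, h1, h2⟩ := hμ.near θ hθ
  choose u v hu hv huv using fun n => midpt (h n) (h1 n)
  have bu : Bdd u := ⟨1, fun n => (hu n).le⟩
  have bv : Bdd v := ⟨1, fun n => (hv n).le⟩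
  have bh : Bdd h := ⟨1, h1⟩
  have e : μ u + μ v = 2 * μ h := by
    rw [← hμ.add _ _ bu bv, ← hμ.smul _ _ bh]
    congr 1
    funext n
    exact huv n
  have e' : (μ u).re + (μ v).re = 2 * (μ h).re := by
    have := congrArg Complex.re e
    simpa using this
  rcases le_total (1 - θ) (μ u).re with hc | hc
  · exact ⟨u, hu, hc⟩
  · exact ⟨v, hv, by linarith⟩

theorem bdd_real_mul (g : ℕ → ℝ) (hg : ∀ n, |g n| ≤ 1) (l : ℕ → ℂ) (hl : ∀ n, ‖l n‖ ≤ 1) :
    Bdd fun n => (g n : ℂ) * l n :=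
  ⟨1, fun n => by
    rw [norm_mul, Complex.norm_real, Real.norm_eq_abs]
    exact mul_le_one₀ (hg n) (norm_nonneg _) (hl n)⟩

/-- the difference at a real multiple of `l` -/
noncomputable def Df (μ : (ℕ → ℂ) → ℂ) (l : ℕ → ℂ) (g : ℕ → ℝ) (x : ℕ → ℂ) : ℂ :=
  pr (fun n => (g n : ℂ) * l n) x - μ (fun n => (g n : ℂ) * l n)

theorem im_Df {μ : (ℕ → ℂ) → ℂ} (hμ : Mean μ 1) {l : ℕ → ℂ} (hl : ∀ n, ‖l n‖ = 1) {θ : ℝ}
    (hθ : 1 - θ ≤ (μ l).re) {g : ℕ → ℝ} (hg : ∀ n, |g n| ≤ 1) {x : ℕ → ℂ} (hx : U1 x) :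
    (Df μ l g x).im ^ 2 ≤ 4 * (1 - (pr l x).re) + 4 * θ := by
  have h1 := im_sq (fn_pr hx) l (fun n => (hl n).le) g hg
  have h2 := im_sq (fn_of_mean hμ) l (fun n => (hl n).le) g hg
  unfold Df
  rw [Complex.sub_im]
  nlinarith [sq_nonneg ((pr (fun n => (g n : ℂ) * l n) x).im + (μ (fun n => (g n : ℂ) * l n)).im)]

/-- the real and imaginary parts of `conj l * h / C` -/
noncomputable def ga (C : ℝ) (l h : ℕ → ℂ) (n : ℕ) : ℝ := (starRingEnd ℂ (l n) * h n).re / C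
noncomputable def gb (C : ℝ) (l h : ℕ → ℂ) (n : ℕ) : ℝ := (starRingEnd ℂ (l n) * h n).im / C

theorem ga_le {C : ℝ} (hC : 0 < C) {l h : ℕ → ℂ} (hl : ∀ n, ‖l n‖ = 1) (hh : ∀ n, ‖h n‖ ≤ C)
    (n : ℕ) : |ga C l h n| ≤ 1 := by
  unfold ga
  rw [abs_div, abs_of_pos hC, div_le_one hC]
  refine (Complex.abs_re_le_norm _).trans ?_
  rw [norm_mul, RCLike.norm_conj, hl, one_mul]
  exact hh n

theorem gb_le {C : ℝ} (hC : 0 < C) {l h : ℕ → ℂ} (hl : ∀ n, ‖l n‖ = 1) (hh : ∀ n, ‖h n‖ ≤ C)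
    (n : ℕ) : |gb C l h n| ≤ 1 := by
  unfold gb
  rw [abs_div, abs_of_pos hC, div_le_one hC]
  refine (Complex.abs_im_le_norm _).trans ?_
  rw [norm_mul, RCLike.norm_conj, hl, one_mul]
  exact hh n

theorem decomp {ν : (ℕ → ℂ) → ℂ} (hν : Fn ν) {C : ℝ} (hC : 0 < C) {l h : ℕ → ℂ}
    (hl : ∀ n, ‖l n‖ = 1) (hh : ∀ n, ‖h n‖ ≤ C) :
    ν h = C * (ν (fun n => (ga C l h n : ℂ) * l n) +
      Complex.I * ν (fun n => (gb C l h n : ℂ) * l n)) := by
  have b1 := bdd_real_mul (ga C l h) (ga_le hC hl hh) l fun n => (hl n).le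
  have b2 := bdd_real_mul (gb C l h) (gb_le hC hl hh) l fun n => (hl n).le
  have b3 : Bdd fun n => Complex.I * ((gb C l h n : ℂ) * l n) := by
    obtain ⟨D, hD⟩ := b2
    exact ⟨D, fun n => by rw [norm_mul, Complex.norm_I, one_mul]; exact hD n⟩
  have b4 : Bdd fun n => (ga C l h n : ℂ) * l n + Complex.I * ((gb C l h n : ℂ) * l n) := by
    obtain ⟨D, hD⟩ := b1
    obtain ⟨D', hD'⟩ := b3
    exact ⟨D + D', fun n => (norm_add_le _ _).trans (add_le_add (hD n) (hD' n))⟩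
  rw [← hν.smul _ _ b2, ← hν.add _ _ b1 b3, ← hν.smul _ _ b4]
  congr 1
  funext n
  have hCc : (C : ℂ) ≠ 0 := by exact_mod_cast hC.ne'
  have e1 : (ga C l h n : ℂ) + Complex.I * (gb C l h n : ℂ) = starRingEnd ℂ (l n) * h n / C := by
    unfold ga gb
    push_cast
    rw [← mul_div_assoc, ← add_div]
    congr 1
    rw [mul_comm Complex.I]
    exact Complex.re_add_im _
  have e2 : starRingEnd ℂ (l n) * l n = 1 := by
    rw [← Complex.normSq_eq_conj_mul_self, Complex.normSq_eq_norm_sq, hl n]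
    simp
  calc h n = C * (starRingEnd ℂ (l n) * l n * h n / C) := by
        rw [e2, one_mul]; field_simp
    _ = C * (starRingEnd ℂ (l n) * h n / C * l n) := by ring
    _ = C * ((ga C l h n : ℂ) * l n + Complex.I * ((gb C l h n : ℂ) * l n)) := by
        rw [← e1]; ring

theorem diff_le {μ : (ℕ → ℂ) → ℂ} (hμ : Mean μ 1) {C : ℝ} (hC : 0 < C) {l h : ℕ → ℂ}
    (hl : ∀ n, ‖l n‖ = 1) (hh : ∀ n, ‖h n‖ ≤ C) {y : ℕ → ℂ} (hy : U1 y) {B : ℝ}
    (h1 : ‖Df μ l (ga C l h) y‖ ≤ B) (h2 : ‖Df μ l (gb C l h) y‖ ≤ B) :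
    ‖pr h y - μ h‖ ≤ C * (B + B) := by
  have e1 : pr h y = C * (pr (fun n => (ga C l h n : ℂ) * l n) y +
      Complex.I * pr (fun n => (gb C l h n : ℂ) * l n) y) := decomp (fn_pr hy) hC hl hh
  have e2 : μ h = C * (μ (fun n => (ga C l h n : ℂ) * l n) +
      Complex.I * μ (fun n => (gb C l h n : ℂ) * l n)) := decomp (fn_of_mean hμ) hC hl hh
  have e3 : pr h y - μ h = C * (Df μ l (ga C l h) y + Complex.I * Df μ l (gb C l h) y) := by
    unfold Df
    linear_combination e1 - e2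
  rw [e3, norm_mul, Complex.norm_real, Real.norm_eq_abs, abs_of_pos hC]
  apply mul_le_mul_of_nonneg_left _ hC.le
  refine (norm_add_le _ _).trans ?_
  rw [norm_mul, Complex.norm_I, one_mul]
  exact add_le_add h1 h2

theorem exp_neg_two_le {δ : ℝ} (h0 : 0 ≤ δ) (h1 : δ ≤ 1 / 2) : Real.exp (-(2 * δ)) ≤ 1 - δ := by
  have h2 : Real.exp (-(2 * δ)) = (Real.exp (2 * δ))⁻¹ := Real.exp_neg _
  have h3 : 1 + 2 * δ ≤ Real.exp (2 * δ) := by linarith [Real.add_one_le_exp (2 * δ)]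
  rw [h2]
  have h4 : (Real.exp (2 * δ))⁻¹ ≤ (1 + 2 * δ)⁻¹ := inv_anti₀ (by positivity) h3
  refine h4.trans ?_
  rw [inv_le_comm₀ (by positivity) (by linarith), inv_le_comm₀ (by linarith) (by positivity)]
  rw [inv_le_iff_one_le_mul₀ (by positivity)]
  nlinarith

theorem oneSphere (hm : S_Mem1) : S_OneSphere := by
  intro μ hμ
  obtain ⟨hm1, -, hm3, hm4⟩ := hm
  set Φ : ↥(ball (0 : lp (fun _ : ℕ => ℂ) 1) 1) → ({h : ℕ → ℂ // Bdd h} → ℂ) :=
    fun x h => pr h.1 (fun n => (x : lp (fun _ : ℕ => ℂ) 1) n) with hΦ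
  set m : {h : ℕ → ℂ // Bdd h} → ℂ := fun h => μ h.1 with hm'
  have hU : ∀ x : ↥(ball (0 : lp (fun _ : ℕ => ℂ) 1) 1),
      U1 (fun n => (x : lp (fun _ : ℕ => ℂ) 1) n) := by
    intro x
    obtain ⟨h1, h2⟩ := hm3 x
    refine ⟨h1, ?_⟩
    rw [h2]
    exact (mem_ball_zero_iff.1 x.2).le
  have hT : ∀ h : ℕ → ℂ, Bdd h → Tendsto (fun x : ↥(ball (0 : lp (fun _ : ℕ => ℂ) 1) 1) =>
        pr h (fun n => (x : lp (fun _ : ℕ => ℂ) 1) n)) (comap Φ (𝓝 m)) (𝓝 (μ h)) := by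
    intro h hh
    have h1 : Tendsto Φ (comap Φ (𝓝 m)) (𝓝 m) := tendsto_comap
    exact (tendsto_pi_nhds.1 h1) ⟨h, hh⟩
  -- members of neighbourhoods of `m`
  have hN : ∀ t ∈ 𝓝 m, ∃ (H : Finset (ℕ → ℂ)) (η : ℝ), (∀ h ∈ H, Bdd h) ∧ 0 < η ∧
      ∀ x : ↥(ball (0 : lp (fun _ : ℕ => ℂ) 1) 1),
        (∀ h ∈ H, ‖pr h (fun n => (x : lp (fun _ : ℕ => ℂ) 1) n) - μ h‖ ≤ η) → Φ x ∈ t := by
    intro t ht
    rw [nhds_pi, Filter.mem_pi] at ht
    obtain ⟨I, hI, s, hs, hst⟩ := ht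
    have h1 : ∀ i : {h : ℕ → ℂ // Bdd h}, ∃ η : ℝ, 0 < η ∧ closedBall (m i) η ⊆ s i := fun i =>
      Metric.nhds_basis_closedBall.mem_iff.1 (hs i)
    choose η hη hηs using h1
    classical
    obtain ⟨η0, hη0, hη1⟩ : ∃ η0 : ℝ, 0 < η0 ∧ ∀ i ∈ I, η0 ≤ η i := by
      rcases hI.toFinset.eq_empty_or_nonempty with he | hne
      · refine ⟨1, one_pos, fun i hi => ?_⟩
        have : i ∈ hI.toFinset := hI.mem_toFinset.2 hi
        rw [he] at this
        simp at this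
      · obtain ⟨j, hj, hjm⟩ := hI.toFinset.exists_min_image η hne
        exact ⟨η j, hη j, fun i hi => hjm i (hI.mem_toFinset.2 hi)⟩
    refine ⟨hI.toFinset.image Subtype.val, η0, ?_, hη0, ?_⟩
    · intro h hh
      rw [Finset.mem_image] at hh
      obtain ⟨i, -, rfl⟩ := hh
      exact i.2
    · intro x hx
      apply hst
      intro i hi
      apply hηs i
      rw [mem_closedBall, dist_eq_norm]
      exact (hx i.1 (Finset.mem_image_of_mem _ (hI.mem_toFinset.2 hi))).trans (hη1 i hi)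
  refine ⟨comap Φ (𝓝 m), ?_, ?_, hT⟩
  · -- NeBot
    rw [comap_neBot_iff]
    intro t ht
    obtain ⟨H, η, hH, hη, hHt⟩ := hN t ht
    obtain ⟨y, hy1, hy2, hy3⟩ := hμ.gold H hH (η / 2) (by positivity)
    set S : ℝ := ∑ h ∈ H, ‖μ h‖ with hS
    have hS0 : 0 ≤ S := Finset.sum_nonneg fun _ _ => norm_nonneg _
    set s : ℝ := η / 2 / (S + η + 1) with hs
    have hs0 : 0 < s := by positivity
    have hs1 : s < 1 := by
      rw [hs, div_lt_one (by positivity)]
      linarith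
    have hsS : s * (S + η) ≤ η / 2 := by
      rw [hs, div_mul_eq_mul_div, div_le_iff₀ (by positivity)]
      nlinarith
    have hxs : Summable fun n => ‖((1 - s : ℝ) : ℂ) * y n‖ := by
      simp only [norm_mul]
      exact hy1.mul_left _
    obtain ⟨x, hx⟩ := hm4 (fun n => ((1 - s : ℝ) : ℂ) * y n) hxs
    have hxn : ‖x‖ < 1 := by
      rw [← (hm3 x).2]
      have e : (fun n => ‖x n‖) = fun n => (1 - s) * ‖y n‖ := by
        funext n
        rw [hx n, norm_mul, Complex.norm_real, Real.norm_eq_abs, abs_of_pos (by linarith)]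
      rw [e, tsum_mul_left]
      nlinarith
    refine ⟨⟨x, mem_ball_zero_iff.2 hxn⟩, hHt _ fun h hh => ?_⟩
    have e1 : pr h (fun n => x n) = ((1 - s : ℝ) : ℂ) * pr h y := by
      unfold pr
      rw [← tsum_mul_left]
      congr 1
      funext n
      show h n * x n = _
      rw [hx n]
      ring
    show ‖pr h (fun n => x n) - μ h‖ ≤ η
    rw [e1]
    have e2 : ((1 - s : ℝ) : ℂ) * pr h y - μ h = ((1 - s : ℝ) : ℂ) * (pr h y - μ h) +
        ((-s : ℝ) : ℂ) * μ h := by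
      push_cast; ring
    rw [e2]
    have h3 := hy3 h hh
    have h4 : ‖μ h‖ ≤ S := Finset.single_le_sum (f := fun h => ‖μ h‖)
      (fun _ _ => norm_nonneg _) hh
    calc ‖((1 - s : ℝ) : ℂ) * (pr h y - μ h) + ((-s : ℝ) : ℂ) * μ h‖
        ≤ (1 - s) * ‖pr h y - μ h‖ + s * ‖μ h‖ := by
          refine (norm_add_le _ _).trans (le_of_eq ?_)
          rw [norm_mul, norm_mul, Complex.norm_real, Complex.norm_real, Real.norm_eq_abs,
            Real.norm_eq_abs, abs_neg, abs_of_pos hs0, abs_of_pos (by linarith)]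
      _ ≤ 1 * (η / 2) + s * S := by
          gcongr
          linarith
      _ ≤ η := by nlinarith
  · -- Peaked
    intro W hW
    rw [mem_comap] at hW
    obtain ⟨t, ht, htW⟩ := hW
    obtain ⟨H, η, hH, hη, hHt⟩ := hN t ht
    -- a common bound
    obtain ⟨C, hC, hCH⟩ : ∃ C : ℝ, 0 < C ∧ ∀ h ∈ H, ∀ n, ‖h n‖ ≤ C := by
      choose! D hD using hH
      refine ⟨1 + ∑ h ∈ H, |D h|, by positivity, fun h hh n => ?_⟩
      have h1 : |D h| ≤ ∑ h ∈ H, |D h| := Finset.single_le_sum (f := fun h => |D h|)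
        (fun _ _ => abs_nonneg _) hh
      linarith [hD h hh n, le_abs_self (D h)]
    set r : ℝ := 2 * (H.card : ℝ) with hr
    have hr0 : 0 ≤ r := by positivity
    set δ : ℝ := min (1 / 2) ((η / (2 * C)) ^ 2 / 14) with hδ
    have hδ0 : 0 < δ := lt_min (by norm_num) (by positivity)
    have hδ1 : δ ≤ 1 / 2 := min_le_left _ _
    have hδ2 : 14 * δ ≤ (η / (2 * C)) ^ 2 := by
      have : δ ≤ (η / (2 * C)) ^ 2 / 14 := min_le_right _ _
      linarith
    refine ⟨δ, hδ0, fun κ hκ => ?_⟩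
    set κ' : ℝ := min 1 (κ / 2) with hκ'
    have hκ'0 : 0 < κ' := lt_min one_pos (by positivity)
    set s : ℝ := min 1 (min δ (κ' / (16 * r + 3))) with hs
    have hs0 : 0 < s := lt_min one_pos (lt_min hδ0 (by positivity))
    have hs1 : s ≤ 1 := min_le_left _ _
    have hsδ : s ≤ δ := (min_le_right _ _).trans (min_le_left _ _)
    have hsκ : (16 * r + 3) * s ≤ κ' := by
      have : s ≤ κ' / (16 * r + 3) := (min_le_right _ _).trans (min_le_right _ _)
      rw [le_div_iff₀ (by positivity)] at this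
      linarith
    set θ : ℝ := s ^ 2 with hθ
    have hθ0 : 0 < θ := by positivity
    have hθs : θ ≤ s := by nlinarith
    obtain ⟨l, hl, hlθ⟩ := unimod hμ θ hθ0
    have hl' : ∀ n, ‖l n‖ ≤ 1 := fun n => (hl n).le
    have bl : Bdd l := ⟨1, hl'⟩
    -- the exponent
    set P : (ℕ → ℂ) → ℂ := fun x => ((-(4 * r * θ) : ℝ) : ℂ) + ((4 * r + 1 : ℝ) : ℂ) * (pr l x - 1) -
      ∑ h ∈ H, (Df μ l (ga C l h) x ^ 2 + Df μ l (gb C l h) x ^ 2) with hP
    have hPre : ∀ x : ℕ → ℂ, (P x).re = -(4 * r * θ) + (4 * r + 1) * ((pr l x).re - 1) -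
        ∑ h ∈ H, ((Df μ l (ga C l h) x).re ^ 2 - (Df μ l (ga C l h) x).im ^ 2 +
          ((Df μ l (gb C l h) x).re ^ 2 - (Df μ l (gb C l h) x).im ^ 2)) := by
      intro x
      simp only [hP, Complex.sub_re, Complex.add_re, Complex.re_sum, Complex.mul_re,
        Complex.ofReal_re, Complex.ofReal_im, Complex.one_re, zero_mul, sub_zero]
      congr 1
      apply Finset.sum_congr rfl
      intro h _
      simp only [sq, Complex.mul_re]
    -- the key estimate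
    have key : ∀ x : ℕ → ℂ, U1 x → (P x).re ≤ -(1 - (pr l x).re) -
        ∑ h ∈ H, ((Df μ l (ga C l h) x).re ^ 2 + (Df μ l (gb C l h) x).re ^ 2) := by
      intro x hx
      rw [hPre x]
      have h1 : ∑ h ∈ H, ((Df μ l (ga C l h) x).im ^ 2 + (Df μ l (gb C l h) x).im ^ 2) ≤
          r * (4 * (1 - (pr l x).re) + 4 * θ) := by
        calc ∑ h ∈ H, ((Df μ l (ga C l h) x).im ^ 2 + (Df μ l (gb C l h) x).im ^ 2)
            ≤ ∑ h ∈ H, 2 * (4 * (1 - (pr l x).re) + 4 * θ) := by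
              apply Finset.sum_le_sum
              intro h hh
              have a1 := im_Df hμ hl hlθ (ga_le hC hl (hCH h hh)) hx
              have a2 := im_Df hμ hl hlθ (gb_le hC hl (hCH h hh)) hx
              linarith
          _ = r * (4 * (1 - (pr l x).re) + 4 * θ) := by
              rw [Finset.sum_const, nsmul_eq_mul, hr]
              ring
      have h2 : ∑ h ∈ H, ((Df μ l (ga C l h) x).re ^ 2 - (Df μ l (ga C l h) x).im ^ 2 +
          ((Df μ l (gb C l h) x).re ^ 2 - (Df μ l (gb C l h) x).im ^ 2)) =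
          ∑ h ∈ H, ((Df μ l (ga C l h) x).re ^ 2 + (Df μ l (gb C l h) x).re ^ 2) -
          ∑ h ∈ H, ((Df μ l (ga C l h) x).im ^ 2 + (Df μ l (gb C l h) x).im ^ 2) := by
        rw [← Finset.sum_sub_distrib]
        apply Finset.sum_congr rfl
        intro h _
        ring
      rw [h2]
      linarith
    have hprl : ∀ x : ℕ → ℂ, U1 x → (pr l x).re ≤ 1 := fun x hx =>
      (Complex.re_le_norm _).trans ((fn_pr hx).bd l 1 zero_le_one hl')
    refine ⟨fun x => Complex.exp (P fun n => x n), ?_, ?_, ?_, ?_⟩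
    · -- MemAu
      apply MemAu.cexp
      have hpr : ∀ h : ℕ → ℂ, Bdd h →
          MemAu (fun x : lp (fun _ : ℕ => ℂ) 1 => pr h (fun n => x n)) := by
        intro h hh
        obtain ⟨f, hf⟩ := hm1 h hh
        have := memAu_clm f
        refine (congrArg MemAu ?_).mp this
        funext x
        exact hf x
      have hD : ∀ g : ℕ → ℝ, (∀ n, |g n| ≤ 1) →
          MemAu (fun x : lp (fun _ : ℕ => ℂ) 1 => Df μ l g (fun n => x n)) := by
        intro g hg
        exact (hpr _ (bdd_real_mul g hg l hl')).sub (memAu_const _)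
      refine MemAu.sub (MemAu.add (memAu_const _) (MemAu.const_mul (MemAu.sub (hpr l bl)
        (memAu_const 1)) _)) ?_
      exact memAu_sum H _ fun h hh => ((hD _ (ga_le hC hl (hCH h hh))).pow 2).add
        ((hD _ (gb_le hC hl (hCH h hh))).pow 2)
    · -- norm at most one
      intro x hx
      have hx' := hU ⟨x, hx⟩
      rw [Complex.norm_exp]
      apply Real.exp_le_one_iff.2
      refine (key _ hx').trans ?_
      have h1 := hprl _ hx'
      have h2 : 0 ≤ ∑ h ∈ H, ((Df μ l (ga C l h) (fun n => x n)).re ^ 2 +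
          (Df μ l (gb C l h) (fun n => x n)).re ^ 2) :=
        Finset.sum_nonneg fun _ _ => by positivity
      simp only at h1
      linarith
    · -- the limit
      have hDf : ∀ g : ℕ → ℝ, (∀ n, |g n| ≤ 1) →
          Tendsto (fun x : ↥(ball (0 : lp (fun _ : ℕ => ℂ) 1) 1) =>
            Df μ l g (fun n => (x : lp (fun _ : ℕ => ℂ) 1) n)) (comap Φ (𝓝 m)) (𝓝 0) := by
        intro g hg
        have h1 := (hT _ (bdd_real_mul g hg l hl')).sub_const (μ fun n => (g n : ℂ) * l n)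
        rw [sub_self] at h1
        exact h1
      refine ⟨Complex.exp (((-(4 * r * θ) : ℝ) : ℂ) + ((4 * r + 1 : ℝ) : ℂ) * (μ l - 1) -
        ∑ h ∈ H, ((0 : ℂ) ^ 2 + 0 ^ 2)), ?_, ?_⟩
      · apply (Complex.continuous_exp.tendsto _).comp
        refine Tendsto.sub (Tendsto.const_add _ (((hT l bl).sub_const 1).const_mul _)) ?_
        refine tendsto_finset_sum _ fun h hh => ?_
        exact ((hDf _ (ga_le hC hl (hCH h hh))).pow 2).add
          ((hDf _ (gb_le hC hl (hCH h hh))).pow 2)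
      · have e0 : ∑ h ∈ H, ((0 : ℂ) ^ 2 + 0 ^ 2) = 0 := by simp
        rw [e0, sub_zero]
        have h1 : (μ l).re ≤ 1 :=
          (Complex.re_le_norm _).trans ((fn_of_mean hμ).bd l 1 zero_le_one hl')
        have h2 := im_sq (fn_of_mean hμ) l hl' (fun _ => 1) (fun _ => by simp)
        simp only [Complex.ofReal_one, one_mul] at h2
        have h3 : |(μ l).im| ≤ 2 * s := by
          apply abs_le_of_sq_le_sq _ (by positivity)
          nlinarith
        have h4 : ‖μ l - 1‖ ≤ 3 * s := by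
          refine (Complex.norm_le_abs_re_add_abs_im _).trans ?_
          simp only [Complex.sub_re, Complex.sub_im, Complex.one_re, Complex.one_im, sub_zero]
          have : |(μ l).re - 1| ≤ θ := by
            rw [abs_le]
            constructor <;> linarith
          linarith
        have h5 : ‖((-(4 * r * θ) : ℝ) : ℂ) + ((4 * r + 1 : ℝ) : ℂ) * (μ l - 1)‖ ≤ κ' := by
          calc ‖((-(4 * r * θ) : ℝ) : ℂ) + ((4 * r + 1 : ℝ) : ℂ) * (μ l - 1)‖
              ≤ 4 * r * θ + (4 * r + 1) * ‖μ l - 1‖ := by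
                refine (norm_add_le _ _).trans (le_of_eq ?_)
                rw [norm_mul, Complex.norm_real, Complex.norm_real, Real.norm_eq_abs,
                  Real.norm_eq_abs, abs_neg, abs_of_nonneg (by positivity),
                  abs_of_nonneg (by positivity)]
            _ ≤ 4 * r * s + (4 * r + 1) * (3 * s) := by gcongr
            _ = (16 * r + 3) * s := by ring
            _ ≤ κ' := hsκ
        have h6 : ‖((-(4 * r * θ) : ℝ) : ℂ) + ((4 * r + 1 : ℝ) : ℂ) * (μ l - 1)‖ ≤ 1 :=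
          h5.trans (min_le_left _ _)
        calc ‖Complex.exp (((-(4 * r * θ) : ℝ) : ℂ) + ((4 * r + 1 : ℝ) : ℂ) * (μ l - 1)) - 1‖
            ≤ 2 * ‖((-(4 * r * θ) : ℝ) : ℂ) + ((4 * r + 1 : ℝ) : ℂ) * (μ l - 1)‖ :=
              Complex.norm_exp_sub_one_le h6
          _ ≤ 2 * κ' := by gcongr
          _ ≤ κ := by
              have : κ' ≤ κ / 2 := min_le_right _ _
              linarith
    · -- peaks
      intro x hx
      apply htW
      apply hHt
      intro h hh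
      have hx' := hU x
      set y : ℕ → ℂ := fun n => (x : lp (fun _ : ℕ => ℂ) 1) n with hy
      have h1 : 1 - δ ≤ ‖Complex.exp (P y)‖ := by
        have h2 : ‖(1 : ℂ)‖ - ‖Complex.exp (P y)‖ ≤ ‖1 - Complex.exp (P y)‖ := norm_sub_norm_le _ _
        rw [norm_one, norm_sub_rev] at h2
        linarith [h2.trans hx]
      rw [Complex.norm_exp] at h1
      have h3 : -(2 * δ) ≤ (P y).re := by
        rw [← Real.exp_le_exp]
        exact (exp_neg_two_le hδ0.le hδ1).trans h1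
      have h4 := h3.trans (key y hx')
      have h5 := hprl y hx'
      have h6 : (Df μ l (ga C l h) y).re ^ 2 + (Df μ l (gb C l h) y).re ^ 2 ≤
          ∑ h ∈ H, ((Df μ l (ga C l h) y).re ^ 2 + (Df μ l (gb C l h) y).re ^ 2) :=
        Finset.single_le_sum (f := fun h => (Df μ l (ga C l h) y).re ^ 2 +
          (Df μ l (gb C l h) y).re ^ 2) (fun _ _ => by positivity) hh
      have hsum0 : 0 ≤ ∑ h ∈ H, ((Df μ l (ga C l h) y).re ^ 2 + (Df μ l (gb C l h) y).re ^ 2) :=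
        Finset.sum_nonneg fun _ _ => by positivity
      have ht : 1 - (pr l y).re ≤ 2 * δ := by linarith
      have a1 := im_Df hμ hl hlθ (ga_le hC hl (hCH h hh)) hx'
      have a2 := im_Df hμ hl hlθ (gb_le hC hl (hCH h hh)) hx'
      have n1 : ‖Df μ l (ga C l h) y‖ ≤ η / (2 * C) := by
        apply (sq_le_sq₀ (norm_nonneg _) (by positivity)).1
        refine le_trans ?_ hδ2
        rw [← Complex.normSq_eq_norm_sq, Complex.normSq_apply, ← sq, ← sq]
        have q1 := sq_nonneg (Df μ l (gb C l h) y).re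
        linarith
      have n2 : ‖Df μ l (gb C l h) y‖ ≤ η / (2 * C) := by
        apply (sq_le_sq₀ (norm_nonneg _) (by positivity)).1
        refine le_trans ?_ hδ2
        rw [← Complex.normSq_eq_norm_sq, Complex.normSq_apply, ← sq, ← sq]
        have q1 := sq_nonneg (Df μ l (ga C l h) y).re
        linarith
      refine (diff_le hμ hC hl (hCH h hh) hx' n1 n2).trans (le_of_eq ?_)
      field_simp
      norm_num

end Pool.Agent.NH62.SB.OneSphere
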