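import Pool.Agent.NH62.SB.Mem
import Pool.Agent.NH62.SB.Abs

/-!
Peaked filters give strong boundary points.
-/

set_option autoImplicit false

open Metric Set Filter Topology
open scoped ENNReal BoundedContinuousFunction

namespace Pool.Agent.NH62.SB.PeakedSB

open Pool.Agent.NH62.SB

section

variable {X : Type} [NormedAddCommGroup X] [NormedSpace ℂ X]

instance : Nonempty ↥(ball (0 : X) 1) := ⟨⟨0, by simp⟩⟩

instance instNormOne : NormOneClass ↥(Au X) := ⟨by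
  show ‖((1 : ↥(Au X)) : ↥(ball (0 : X) 1) →ᵇ ℂ)‖ = 1
  exact norm_one⟩

/-- characters from algebra homomorphisms -/
noncomputable def ch (f : ↥(Au X) →ₐ[ℂ] ℂ) [CompleteSpace ↥(Au X)] :
    WeakDual.characterSpace ℂ ↥(Au X) :=
  WeakDual.CharacterSpace.equivAlgHom.symm f

theorem ch_apply (f : ↥(Au X) →ₐ[ℂ] ℂ) [CompleteSpace ↥(Au X)] (a : ↥(Au X)) :
    ch f a = f a := rfl

/-- evaluation at a point -/
noncomputable def ev (x : ↥(ball (0 : X) 1)) : ↥(Au X) →ₐ[ℂ] ℂ where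
  toFun f := f.1 x
  map_one' := rfl
  map_mul' _ _ := rfl
  map_zero' := rfl
  map_add' _ _ := rfl
  commutes' _ := rfl

theorem np [CompleteSpace ↥(Au X)] : NP ↥(Au X) := by
  intro f c hc h
  show ‖f.1‖ ≤ c
  rw [BoundedContinuousFunction.norm_le hc]
  intro x
  exact h (ch (ev x))

theorem norm_le_of {f : ↥(Au X)} {c : ℝ} (hc : 0 ≤ c) (h : ∀ x, ‖f.1 x‖ ≤ c) : ‖f‖ ≤ c := by
  show ‖f.1‖ ≤ c
  rw [BoundedContinuousFunction.norm_le hc]
  exact h

theorem le_norm (f : ↥(Au X)) (x : ↥(ball (0 : X) 1)) : ‖f.1 x‖ ≤ ‖f‖ :=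
  f.1.norm_coe_le_norm x

/-- limits along ultrafilters exist -/
theorem exists_lim (U : Ultrafilter ↥(ball (0 : X) 1)) (f : ↥(Au X)) :
    ∃ c : ℂ, Tendsto (fun x => f.1 x) U (𝓝 c) := by
  have hK : IsCompact (closedBall (0 : ℂ) ‖f‖) := isCompact_closedBall 0 _
  have := hK.ultrafilter_le_nhds (U.map fun x => f.1 x) (by
    rw [le_principal_iff]
    show (fun x => f.1 x) ⁻¹' (closedBall (0 : ℂ) ‖f‖) ∈ (U : Filter _)
    refine Filter.univ_mem' ?_
    intro x
    show f.1 x ∈ closedBall (0 : ℂ) ‖f‖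
    rw [mem_closedBall_zero_iff]
    exact le_norm f x)
  obtain ⟨c, _, hc⟩ := this
  exact ⟨c, hc⟩

/-- the character given by an ultrafilter -/
noncomputable def uch (U : Ultrafilter ↥(ball (0 : X) 1)) : ↥(Au X) →ₐ[ℂ] ℂ where
  toFun f := (exists_lim U f).choose
  map_one' := tendsto_nhds_unique (exists_lim U 1).choose_spec (by
    show Tendsto (fun _ : ↥(ball (0 : X) 1) => (1 : ℂ)) (U : Filter _) (𝓝 1)
    exact tendsto_const_nhds)
  map_mul' f g := tendsto_nhds_unique (exists_lim U (f * g)).choose_spec (by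
    show Tendsto (fun x => f.1 x * g.1 x) U _
    exact (exists_lim U f).choose_spec.mul (exists_lim U g).choose_spec)
  map_zero' := tendsto_nhds_unique (exists_lim U 0).choose_spec (by
    show Tendsto (fun _ : ↥(ball (0 : X) 1) => (0 : ℂ)) (U : Filter _) (𝓝 0)
    exact tendsto_const_nhds)
  map_add' f g := tendsto_nhds_unique (exists_lim U (f + g)).choose_spec (by
    show Tendsto (fun x => f.1 x + g.1 x) U _
    exact (exists_lim U f).choose_spec.add (exists_lim U g).choose_spec)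
  commutes' c := tendsto_nhds_unique (exists_lim U (algebraMap ℂ _ c)).choose_spec (by
    show Tendsto (fun _ : ↥(ball (0 : X) 1) => c) (U : Filter _) (𝓝 c)
    exact tendsto_const_nhds)

theorem uch_spec (U : Ultrafilter ↥(ball (0 : X) 1)) (f : ↥(Au X)) :
    Tendsto (fun x => f.1 x) U (𝓝 (uch U f)) := (exists_lim U f).choose_spec

theorem half_sq (w : ℂ) (hw : ‖w‖ ≤ 1) : ‖(1 + w) / 2‖ ^ 2 ≤ 1 - ‖w - 1‖ ^ 2 / 4 := by
  have h := parallelogram_law_with_norm ℝ (1 : ℂ) w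
  have h1 : ‖(1 + w) / 2‖ = ‖1 + w‖ / 2 := by
    rw [norm_div]; norm_num
  have h2 : ‖(1 : ℂ) - w‖ = ‖w - 1‖ := norm_sub_rev _ _
  rw [h1]
  have h3 : ‖(1 : ℂ)‖ = 1 := norm_one
  rw [h2, h3] at h
  have h4 : ‖w‖ * ‖w‖ ≤ 1 := by nlinarith [norm_nonneg w]
  nlinarith

end

theorem peaked (hZ : S_Zorn) (hB : S_Bishop) : S_Peaked := by
  classical
  intro X _ _ _ L _ hL
  set U : Ultrafilter ↥(ball (0 : X) 1) := Ultrafilter.of L with hU
  have hUL : (U : Filter _) ≤ L := Ultrafilter.of_le L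
  set φ : WeakDual.characterSpace ℂ ↥(Au X) := ch (uch U) with hφ
  have hφ' : ∀ f : ↥(Au X), Tendsto (fun x => f.1 x) U (𝓝 (φ f)) := fun f => uch_spec U f
  have huniq : ∀ (f : ↥(Au X)) (c : ℂ), Tendsto (fun x => f.1 x) L (𝓝 c) → φ f = c :=
    fun f c hc => tendsto_nhds_unique (hφ' f) (hc.mono_left hUL)
  let G : Set ↥(Au X) := {g | Tendsto (fun x => g.1 x) L (𝓝 (φ g))}
  have hG : ∀ (f : ↥(Au X)) (c : ℂ), Tendsto (fun x => f.1 x) L (𝓝 c) → f ∈ G := by
    intro f c hc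
    show Tendsto (fun x => f.1 x) L (𝓝 (φ f))
    rw [huniq f c hc]
    exact hc
  let Es : Set ↥(Au X) := {e | ‖e‖ ≤ 1 ∧ 3 / 4 ≤ ‖φ e‖ ∧ e ∈ G}
  -- the main step
  have key : ∀ S : Finset ↥(Au X), (∀ a ∈ S, a ∈ G) → ∀ η : ℝ, 0 < η →
      ∃ e ∈ Es, ∀ a ∈ S, ‖e * (a - algebraMap ℂ _ (φ a))‖ ≤ η := by
    intro S hS η hη
    let W : Set ↥(ball (0 : X) 1) := {x | ∀ a ∈ S, ‖a.1 x - φ a‖ ≤ η}
    have hW : W ∈ L := by
      have : W = ⋂ a ∈ S, {x | ‖a.1 x - φ a‖ ≤ η} := by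
        ext x; simp [W]
      rw [this, Filter.biInter_finset_mem]
      intro a ha
      have h1 : Tendsto (fun x => a.1 x) L (𝓝 (φ a)) := hS a ha
      have h2 := h1 (Metric.closedBall_mem_nhds (φ a) hη)
      refine Filter.mem_of_superset h2 ?_
      intro x hx
      simpa [dist_eq_norm] using hx
    obtain ⟨δ, hδ, hL'⟩ := hL W hW
    let ρ : ℝ := max 0 (1 - δ ^ 2 / 4)
    have hρ0 : 0 ≤ ρ := le_max_left _ _
    have hρ1 : ρ < 1 := by
      apply max_lt
      · norm_num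
      · have : 0 < δ ^ 2 := by positivity
        linarith
    let C : ℝ := ∑ a ∈ S, (‖a‖ + ‖φ a‖) + 1
    have hC1 : 0 < C := by
      have : 0 ≤ ∑ a ∈ S, (‖a‖ + ‖φ a‖) := Finset.sum_nonneg fun a _ => by positivity
      simp only [C]; linarith
    have hC : ∀ a ∈ S, ‖a‖ + ‖φ a‖ ≤ C := by
      intro a ha
      have := Finset.single_le_sum (f := fun a : ↥(Au X) => ‖a‖ + ‖φ a‖)
        (fun b _ => by positivity) ha
      simp only [C]; linarith
    obtain ⟨K, hK⟩ := exists_pow_lt_of_lt_one (div_pos hη hC1) hρ1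
    obtain ⟨F, hF, hF1, ⟨c, hc, hcκ⟩, hFW⟩ := hL' (1 / (4 * K + 4)) (by positivity)
    let f : ↥(Au X) := hF.toAu
    have hfx : ∀ x : ↥(ball (0 : X) 1), f.1 x = F x := fun x => rfl
    let e : ↥(Au X) := (algebraMap ℂ ↥(Au X) (1 / 2) * (1 + f)) ^ (2 * K)
    have hex : ∀ x : ↥(ball (0 : X) 1), e.1 x = ((1 + F x) / 2) ^ (2 * K) := by
      intro x
      show ((1 / 2 : ℂ) * (1 + F x)) ^ (2 * K) = _
      congr 1
      ring
    have hhalf : ∀ x : ↥(ball (0 : X) 1), ‖(1 + F x) / 2‖ ≤ 1 := by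
      intro x
      rw [norm_div]
      have h1 : ‖1 + F x‖ ≤ 2 := by
        calc ‖1 + F x‖ ≤ ‖(1 : ℂ)‖ + ‖F x‖ := norm_add_le _ _
          _ ≤ 1 + 1 := by
            gcongr
            · simp
            · exact hF1 x x.2
          _ = 2 := by norm_num
      have h2 : ‖(2 : ℂ)‖ = 2 := by norm_num
      rw [h2]; linarith
    have hlim : Tendsto (fun x => e.1 x) L (𝓝 (((1 + c) / 2) ^ (2 * K))) := by
      have : (fun x : ↥(ball (0 : X) 1) => e.1 x) =
          fun x : ↥(ball (0 : X) 1) => ((1 + F x) / 2) ^ (2 * K) := funext hex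
      rw [this]
      exact ((tendsto_const_nhds.add hc).div_const 2).pow _
    have hφe : φ e = ((1 + c) / 2) ^ (2 * K) := huniq e _ hlim
    refine ⟨e, ⟨?_, ?_, hG e _ hlim⟩, ?_⟩
    · apply norm_le_of zero_le_one
      intro x
      rw [hex, norm_pow]
      exact pow_le_one₀ (norm_nonneg _) (hhalf x)
    · rw [hφe, norm_pow]
      have h1 : 1 - (1 / (4 * K + 4) : ℝ) / 2 ≤ ‖(1 + c) / 2‖ := by
        have h2 : ((1 + c) / 2 : ℂ) = 1 + (c - 1) / 2 := by ring
        rw [h2]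
        have h3 : ‖(c - 1) / 2‖ ≤ (1 / (4 * K + 4) : ℝ) / 2 := by
          rw [norm_div]
          have : ‖(2 : ℂ)‖ = 2 := by norm_num
          rw [this]
          linarith
        have h4 := norm_sub_norm_le (1 : ℂ) (-((c - 1) / 2))
        rw [norm_neg, sub_neg_eq_add, norm_one] at h4
        linarith
      have hpos : (0 : ℝ) < 4 * K + 4 := by positivity
      have h5 : (1 / (4 * K + 4) : ℝ) ≤ 1 / 4 := by
        apply one_div_le_one_div_of_le <;> [norm_num; linarith [(Nat.cast_nonneg K : (0 : ℝ) ≤ K)]]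
      have h6 : (0 : ℝ) ≤ 1 - (1 / (4 * K + 4) : ℝ) / 2 := by linarith
      have h7 := one_add_mul_le_pow (a := -((1 / (4 * K + 4) : ℝ) / 2)) (by
        have : (0 : ℝ) < 1 / (4 * K + 4) := by positivity
        linarith) (2 * K)
      have h8 : (1 : ℝ) + -((1 / (4 * K + 4) : ℝ) / 2) = 1 - (1 / (4 * K + 4) : ℝ) / 2 := by ring
      rw [h8] at h7
      have h9 : (3 / 4 : ℝ) ≤ 1 + ((2 * K : ℕ) : ℝ) * -((1 / (4 * K + 4) : ℝ) / 2) := by
        push_cast
        have : (K : ℝ) * (1 / (4 * K + 4)) ≤ 1 / 4 := by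
          rw [mul_one_div, div_le_div_iff₀ hpos (by norm_num)]
          linarith
        nlinarith
      calc (3 / 4 : ℝ) ≤ _ := h9
        _ ≤ _ := h7
        _ ≤ _ := pow_le_pow_left₀ h6 h1 _
    · intro a ha
      apply norm_le_of hη.le
      intro x
      show ‖e.1 x * (a.1 x - φ a)‖ ≤ η
      rw [norm_mul]
      by_cases hx : ‖F x - 1‖ ≤ δ
      · have h1 : ‖a.1 x - φ a‖ ≤ η := hFW x hx a ha
        have h2 : ‖e.1 x‖ ≤ 1 := by
          rw [hex, norm_pow]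
          exact pow_le_one₀ (norm_nonneg _) (hhalf x)
        calc ‖e.1 x‖ * ‖a.1 x - φ a‖ ≤ 1 * η := mul_le_mul h2 h1 (norm_nonneg _) zero_le_one
          _ = η := one_mul _
      · push Not at hx
        have h1 : ‖e.1 x‖ ≤ ρ ^ K := by
          rw [hex, norm_pow, pow_mul]
          apply pow_le_pow_left₀ (by positivity)
          refine (half_sq (F x) (hF1 x x.2)).trans ?_
          refine le_trans ?_ (le_max_right _ _)
          have : δ ^ 2 ≤ ‖F x - 1‖ ^ 2 := pow_le_pow_left₀ hδ.le hx.le 2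
          linarith
        have h2 : ‖a.1 x - φ a‖ ≤ C := by
          refine (norm_sub_le _ _).trans (le_trans ?_ (hC a ha))
          gcongr
          exact le_norm a x
        calc ‖e.1 x‖ * ‖a.1 x - φ a‖ ≤ ρ ^ K * C := mul_le_mul h1 h2 (norm_nonneg _) (by positivity)
          _ ≤ η / C * C := by gcongr
          _ = η := by field_simp
  -- peak functions
  have hpk : ∀ g : ↥(Au X), g ∈ G → ∃ F : ↥(Au X), ‖F‖ ≤ 1 ∧ φ F = 1 ∧
      ∀ ψ : WeakDual.characterSpace ℂ ↥(Au X), ψ (g - algebraMap ℂ _ (φ g)) ≠ 0 → ‖ψ F‖ < 1 := by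
    intro g hg
    have hg' : g - algebraMap ℂ ↥(Au X) (φ g) ∈ G := by
      have h1 : Tendsto (fun x => g.1 x) L (𝓝 (φ g)) := hg
      exact hG _ (φ g - φ g) (h1.sub tendsto_const_nhds)
    refine hB ↥(Au X) np φ Es (g - algebraMap ℂ _ (φ g)) ?_ (fun e he => ⟨he.1, he.2.1⟩) ?_
    · rw [map_sub]
      have : φ (algebraMap ℂ ↥(Au X) (φ g)) = φ g := AlgHomClass.commutes φ _
      rw [this, sub_self]
    · intro S hS η hη
      refine key S ?_ η hη
      intro a ha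
      rcases hS a ha with h | h
      · rw [h]; exact hg'
      · exact h.2.2
  choose! Fg hFg1 hFg2 hFg3 using hpk
  obtain ⟨χ, hχ, hχP⟩ := hZ ↥(Au X) np φ (Fg '' G) (by
    rintro _ ⟨g, hg, rfl⟩
    exact ⟨hFg1 g hg, hFg2 g hg⟩)
  refine ⟨χ, hχ, ?_⟩
  intro g c hc
  have hg : g ∈ G := hG g c hc
  have h1 := hχP (Fg g) ⟨g, hg, rfl⟩
  have h2 : χ (g - algebraMap ℂ ↥(Au X) (φ g)) = 0 := by
    by_contra h
    have := hFg3 g hg χ h
    rw [h1, norm_one] at this
    exact lt_irrefl _ this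
  rw [map_sub] at h2
  have h3 : χ (algebraMap ℂ ↥(Au X) (φ g)) = φ g := AlgHomClass.commutes χ _
  rw [h3, sub_eq_zero] at h2
  rw [h2, huniq g c hc]

end Pool.Agent.NH62.SB.PeakedSB
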