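import Pool.Agent.NH62.SB.StmP

/-!
The k-homogeneous polynomial, sum of the k-th powers of the coordinates (helper49).
-/

set_option autoImplicit false

open Metric Set Filter Topology
open scoped ENNReal BoundedContinuousFunction

namespace Pool.Agent.NH62.SB.QForm

variable {p : ℝ≥0∞} [Fact (1 ≤ p)]

theorem sum_pow (hpt : p ≠ ∞) {k : ℕ} (hk : p ≤ (k : ℝ≥0∞)) (y : lp (fun _ : ℕ => ℂ) p) :
    Summable (fun n => ‖y n‖ ^ k) ∧ ∑' n, ‖y n‖ ^ k ≤ ‖y‖ ^ k := by
  have h1 : (1 : ℝ≥0∞) ≤ p := Fact.out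
  have hr1 : 1 ≤ p.toReal := by
    have := ENNReal.toReal_mono hpt h1
    simpa using this
  have hr0 : 0 < p.toReal := by linarith
  have hrk : p.toReal ≤ k := by
    have := ENNReal.toReal_mono (ENNReal.natCast_ne_top k) hk
    simpa using this
  have hp0 : p ≠ 0 := (lt_of_lt_of_le one_pos h1).ne'
  have hs := lp.hasSum_norm hr0 y
  have key : ∀ x : ℝ, 0 ≤ x → x ^ k = x ^ p.toReal * x ^ ((k : ℝ) - p.toReal) := by
    intro x hx
    rw [← Real.rpow_add_of_nonneg hx hr0.le (by linarith), ← Real.rpow_natCast x k]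
    congr 1
    ring
  have hle : ∀ n, ‖y n‖ ^ k ≤ ‖y n‖ ^ p.toReal * ‖y‖ ^ ((k : ℝ) - p.toReal) := by
    intro n
    rw [key _ (norm_nonneg _)]
    have h2 := lp.norm_apply_le_norm hp0 y n
    have h3 : ‖y n‖ ^ ((k : ℝ) - p.toReal) ≤ ‖y‖ ^ ((k : ℝ) - p.toReal) :=
      Real.rpow_le_rpow (norm_nonneg _) h2 (by linarith)
    gcongr
  have hs2 := hs.mul_right (‖y‖ ^ ((k : ℝ) - p.toReal))
  have hsum : Summable (fun n => ‖y n‖ ^ k) :=
    Summable.of_nonneg_of_le (fun n => by positivity) hle hs2.summable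
  refine ⟨hsum, ?_⟩
  rw [key _ (norm_nonneg _), ← hs2.tsum_eq]
  exact hsum.tsum_le_tsum hle hs2.summable

/-- the product is at most the sum of the powers -/
theorem prod_le {k : ℕ} (hk : 0 < k) (a : Fin k → ℝ) (ha : ∀ i, 0 ≤ a i) :
    ∏ i, a i ≤ ∑ i, a i ^ k := by
  have : Nonempty (Fin k) := ⟨⟨0, hk⟩⟩
  obtain ⟨i0, -, hi0⟩ := Finset.exists_max_image Finset.univ a Finset.univ_nonempty
  calc ∏ i, a i ≤ ∏ _i : Fin k, a i0 :=
        Finset.prod_le_prod (fun i _ => ha i) (fun i hi => hi0 i hi)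
    _ = a i0 ^ k := by simp
    _ ≤ ∑ i, a i ^ k :=
        Finset.single_le_sum (f := fun i => a i ^ k) (fun i _ => pow_nonneg (ha i) k)
          (Finset.mem_univ i0)

/-- the coordinate as a linear map -/
noncomputable def ev (n : ℕ) : lp (fun _ : ℕ => ℂ) p →ₗ[ℂ] ℂ where
  toFun y := y n
  map_add' _ _ := rfl
  map_smul' _ _ := rfl

/-- the product of the coordinates -/
noncomputable def Mn (k n : ℕ) : MultilinearMap ℂ (fun _ : Fin k => lp (fun _ : ℕ => ℂ) p) ℂ :=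
  (MultilinearMap.mkPiAlgebra ℂ (Fin k) ℂ).compLinearMap (fun _ => ev n)

theorem Mn_apply (k n : ℕ) (x : Fin k → lp (fun _ : ℕ => ℂ) p) : Mn k n x = ∏ i, x i n := rfl

theorem summable_prod (hpt : p ≠ ∞) {k : ℕ} (hk0 : 0 < k) (hk : p ≤ (k : ℝ≥0∞))
    (x : Fin k → lp (fun _ : ℕ => ℂ) p) : Summable (fun n => ∏ i, ‖x i n‖) := by
  refine Summable.of_nonneg_of_le (fun n => Finset.prod_nonneg fun i _ => norm_nonneg _)
    (fun n => prod_le hk0 _ (fun i => norm_nonneg _)) ?_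
  exact summable_sum fun i _ => (sum_pow hpt hk (x i)).1

theorem summable_Mn (hpt : p ≠ ∞) {k : ℕ} (hk0 : 0 < k) (hk : p ≤ (k : ℝ≥0∞))
    (x : Fin k → lp (fun _ : ℕ => ℂ) p) : Summable (fun n => Mn k n x) := by
  refine Summable.of_norm ?_
  simp only [Mn_apply, norm_prod]
  exact summable_prod hpt hk0 hk x

theorem bound (hpt : p ≠ ∞) {k : ℕ} (hk0 : 0 < k) (hk : p ≤ (k : ℝ≥0∞))
    (x : Fin k → lp (fun _ : ℕ => ℂ) p) :
    ∑' n, ∏ i, ‖x i n‖ ≤ k * ∏ i, ‖x i‖ := by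
  by_cases h0 : ∃ i, x i = 0
  · obtain ⟨i, hi⟩ := h0
    have h1 : ∀ n, ∏ i, ‖x i n‖ = 0 := by
      intro n
      refine Finset.prod_eq_zero (Finset.mem_univ i) ?_
      rw [hi]
      simp
    simp only [h1, tsum_zero]
    positivity
  · push Not at h0
    have hpos : ∀ i, 0 < ‖x i‖ := fun i => norm_pos_iff.2 (h0 i)
    have hP : 0 < ∏ i, ‖x i‖ := Finset.prod_pos fun i _ => hpos i
    have h1 : ∀ n, ∏ i, ‖x i n‖ ≤ (∏ i, ‖x i‖) * ∑ i, ‖x i n‖ ^ k / ‖x i‖ ^ k := by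
      intro n
      have h2 := prod_le hk0 (fun i => ‖x i n‖ / ‖x i‖) (fun i => by positivity)
      rw [Finset.prod_div_distrib, div_le_iff₀ hP] at h2
      rw [mul_comm]
      refine h2.trans (le_of_eq ?_)
      congr 1
      exact Finset.sum_congr rfl fun i _ => div_pow _ _ _
    have hs : ∀ i ∈ (Finset.univ : Finset (Fin k)),
        Summable (fun n => ‖x i n‖ ^ k / ‖x i‖ ^ k) := fun i _ =>
      (sum_pow hpt hk (x i)).1.div_const _
    have hs' : Summable (fun n => (∏ i, ‖x i‖) * ∑ i, ‖x i n‖ ^ k / ‖x i‖ ^ k) :=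
      (summable_sum hs).mul_left _
    refine ((summable_prod hpt hk0 hk x).tsum_le_tsum h1 hs').trans ?_
    rw [tsum_mul_left, mul_comm, Summable.tsum_finsetSum hs]
    refine mul_le_mul_of_nonneg_right ?_ hP.le
    calc ∑ i, ∑' n, ‖x i n‖ ^ k / ‖x i‖ ^ k ≤ ∑ _i : Fin k, (1 : ℝ) := by
          refine Finset.sum_le_sum fun i _ => ?_
          rw [tsum_div_const, div_le_one (pow_pos (hpos i) k)]
          exact (sum_pow hpt hk (x i)).2
      _ = k := by simp

/-- the sum of the products of the coordinates -/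
noncomputable def MM (hpt : p ≠ ∞) {k : ℕ} (hk0 : 0 < k) (hk : p ≤ (k : ℝ≥0∞)) :
    MultilinearMap ℂ (fun _ : Fin k => lp (fun _ : ℕ => ℂ) p) ℂ where
  toFun x := ∑' n, Mn k n x
  map_update_add' m i x y := by
    simp only [MultilinearMap.map_update_add]
    exact (summable_Mn hpt hk0 hk _).tsum_add (summable_Mn hpt hk0 hk _)
  map_update_smul' m i c x := by
    simp only [MultilinearMap.map_update_smul]
    exact (summable_Mn hpt hk0 hk _).tsum_const_smul c

theorem qform : S_Q := by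
  intro p _ hpt k hk
  have h1 : (1 : ℝ≥0∞) ≤ p := Fact.out
  have hk0 : 0 < k := by
    rcases Nat.eq_zero_or_pos k with h | h
    · subst h
      have := h1.trans hk
      simp at this
    · exact h
  refine ⟨(MM hpt hk0 hk).mkContinuous k fun x => ?_, fun x => ⟨(sum_pow hpt hk x).1, ?_⟩⟩
  · change ‖∑' n, Mn k n x‖ ≤ k * ∏ i, ‖x i‖
    refine (norm_tsum_le_tsum_norm ?_).trans ?_
    · simp only [Mn_apply, norm_prod]
      exact summable_prod hpt hk0 hk x
    · simp only [Mn_apply, norm_prod]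
      exact bound hpt hk0 hk x
  · change ∑' n, Mn k n (fun _ => x) = _
    refine tsum_congr fun n => ?_
    rw [Mn_apply]
    simp

end Pool.Agent.NH62.SB.QForm
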