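import Pool.Agent.NH62.SB.StmP

/-!
The bidual of little l p for exponents strictly between one and infinity, and weak convergence of
bounded families.
-/

set_option autoImplicit false

open Metric Set Filter Topology
open scoped ENNReal BoundedContinuousFunction

namespace Pool.Agent.NH62.SB.Refl

variable {p : ℝ≥0∞} [Fact (1 ≤ p)]

/-- the truncation to the first coordinates -/
noncomputable def trn (m : ℕ) (x : lp (fun _ : ℕ => ℂ) p) : lp (fun _ : ℕ => ℂ) p :=
  ∑ i ∈ Finset.range m, lp.single p i (x i)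

omit [Fact (1 ≤ p)] in
lemma trn_apply (m : ℕ) (x : lp (fun _ : ℕ => ℂ) p) (i : ℕ) :
    trn m x i = if i < m then x i else 0 := by
  unfold trn
  rw [lp.coeFn_sum, Finset.sum_apply]
  simp only [lp.coeFn_single, Finset.sum_pi_single, Finset.mem_range]

lemma trn_norm_le (hp : 0 < p.toReal) (m : ℕ) (x : lp (fun _ : ℕ => ℂ) p) :
    ‖trn m x‖ ≤ ‖x‖ := by
  have h := lp.norm_sum_single (E := fun _ : ℕ => ℂ) hp (fun i => x i) (Finset.range m)
  have h2 := lp.sum_rpow_le_norm_rpow hp x (Finset.range m)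
  rw [← h] at h2
  exact (Real.rpow_le_rpow_iff (norm_nonneg _) (norm_nonneg _) hp).1 h2

lemma sub_trn_norm_le (hp : 0 < p.toReal) (m : ℕ) (x : lp (fun _ : ℕ => ℂ) p) :
    ‖x - trn m x‖ ≤ ‖x‖ := by
  have h := lp.norm_compl_sum_single (E := fun _ : ℕ => ℂ) hp x (Finset.range m)
  have h2 : (0 : ℝ) ≤ ∑ i ∈ Finset.range m, ‖x i‖ ^ p.toReal :=
    Finset.sum_nonneg fun i _ => by positivity
  have h3 : ‖x - trn m x‖ ^ p.toReal ≤ ‖x‖ ^ p.toReal := by
    unfold trn
    linarith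
  exact (Real.rpow_le_rpow_iff (norm_nonneg _) (norm_nonneg _) hp).1 h3

lemma trn_tendsto (hp : p ≠ ∞) (x : lp (fun _ : ℕ => ℂ) p) :
    Tendsto (fun m => trn m x) atTop (𝓝 x) :=
  (lp.hasSum_single hp x).tendsto_sum_nat

/-- blocks -/
lemma blocks (hp : 0 < p.toReal) (hp' : p ≠ ∞) (h : StrongDual ℂ (lp (fun _ : ℕ => ℂ) p)) (ε : ℝ)
    (hε : 0 < ε)
    (H : ∀ m : ℕ, ∃ x : lp (fun _ : ℕ => ℂ) p, ‖x‖ ≤ 1 ∧ (∀ i < m, x i = 0) ∧ ε < ‖h x‖)
    (J : ℕ) : ∃ (y : lp (fun _ : ℕ => ℂ) p) (M : ℕ), (∀ i, M ≤ i → y i = 0) ∧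
      ‖y‖ ^ p.toReal ≤ J ∧ J * (ε / 2) ≤ (h y).re := by
  induction J with
  | zero =>
    refine ⟨0, 0, fun i _ => by simp, ?_, by simp⟩
    rw [norm_zero, Real.zero_rpow hp.ne']
    simp
  | succ J ih =>
    obtain ⟨y, M, hyM, hyn, hyh⟩ := ih
    obtain ⟨x, hx1, hx0, hxε⟩ := H M
    have ht : Tendsto (fun m => ‖h (trn m x)‖) atTop (𝓝 ‖h x‖) :=
      (h.continuous.norm.tendsto x).comp (trn_tendsto hp' x)
    obtain ⟨N, hN⟩ := (ht.eventually (lt_mem_nhds (show ε / 2 < ‖h x‖ by linarith))).exists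
    set u : lp (fun _ : ℕ => ℂ) p := trn N x with hu
    have hu1 : ‖u‖ ≤ 1 := (trn_norm_le hp N x).trans hx1
    have hu0 : ∀ i < M, u i = 0 := by
      intro i hi
      rw [hu, trn_apply, hx0 i hi, ite_self]
    have huN : ∀ i, N ≤ i → u i = 0 := by
      intro i hi
      rw [hu, trn_apply, if_neg (by omega)]
    -- the rotation
    obtain ⟨c, hc1, hc2⟩ : ∃ c : ℂ, ‖c‖ = 1 ∧ c * h u = (‖h u‖ : ℂ) := by
      by_cases h0 : h u = 0
      · exact ⟨1, by simp, by simp [h0]⟩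
      · refine ⟨(starRingEnd ℂ) (h u) / ‖h u‖, ?_, ?_⟩
        · rw [norm_div, Complex.norm_conj, Complex.norm_real, norm_norm,
            div_self (norm_ne_zero_iff.2 h0)]
        · have h1 : ((‖h u‖ : ℝ) : ℂ) ≠ 0 := by
            rw [Complex.ofReal_ne_zero]
            exact norm_ne_zero_iff.2 h0
          rw [div_mul_eq_mul_div, div_eq_iff h1, mul_comm ((starRingEnd ℂ) (h u)) (h u),
            Complex.mul_conj, Complex.normSq_eq_norm_sq]
          push_cast
          ring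
    refine ⟨y + c • u, max M N, ?_, ?_, ?_⟩
    · intro i hi
      rw [lp.coeFn_add, Pi.add_apply, lp.coeFn_smul, Pi.smul_apply,
        hyM i ((le_max_left _ _).trans hi), huN i ((le_max_right _ _).trans hi)]
      simp
    · have e1 := lp.norm_rpow_eq_tsum hp (y + c • u)
      have e2 := lp.norm_rpow_eq_tsum hp y
      have e3 := lp.norm_rpow_eq_tsum hp u
      have s2 := (lp.memℓp y).summable hp
      have s3 := (lp.memℓp u).summable hp
      have key : ∀ i, ‖(y + c • u) i‖ ^ p.toReal = ‖y i‖ ^ p.toReal + ‖u i‖ ^ p.toReal := by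
        intro i
        rw [lp.coeFn_add, Pi.add_apply, lp.coeFn_smul, Pi.smul_apply, smul_eq_mul]
        rcases lt_or_ge i M with hi | hi
        · rw [hu0 i hi]
          simp [Real.zero_rpow hp.ne']
        · rw [hyM i hi, zero_add, norm_mul, hc1, one_mul, norm_zero, Real.zero_rpow hp.ne',
            zero_add]
      rw [e1, tsum_congr key, s2.tsum_add s3, ← e2, ← e3]
      have h4 : ‖u‖ ^ p.toReal ≤ 1 := Real.rpow_le_one (norm_nonneg _) hu1 hp.le
      push_cast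
      linarith
    · rw [map_add, map_smul, smul_eq_mul, hc2, Complex.add_re, Complex.ofReal_re]
      push_cast
      linarith

/-- the tail lemma -/
lemma tail (hp1 : 1 < p) (hp' : p ≠ ∞) (h : StrongDual ℂ (lp (fun _ : ℕ => ℂ) p)) (ε : ℝ)
    (hε : 0 < ε) :
    ∃ m : ℕ, ∀ x : lp (fun _ : ℕ => ℂ) p, (∀ i < m, x i = 0) → ‖h x‖ ≤ ε * ‖x‖ := by
  have hr1 : 1 < p.toReal := by
    have := (ENNReal.toReal_lt_toReal ENNReal.one_ne_top hp').2 hp1
    simpa using this
  have hr0 : 0 < p.toReal := by linarith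
  by_contra hcon
  push Not at hcon
  have H : ∀ m : ℕ, ∃ x : lp (fun _ : ℕ => ℂ) p, ‖x‖ ≤ 1 ∧ (∀ i < m, x i = 0) ∧ ε < ‖h x‖ := by
    intro m
    obtain ⟨x, hx0, hx⟩ := hcon m
    have hxn : x ≠ 0 := by
      rintro rfl
      simp at hx
    have hxn' : 0 < ‖x‖ := norm_pos_iff.2 hxn
    refine ⟨((‖x‖⁻¹ : ℝ) : ℂ) • x, ?_, ?_, ?_⟩
    · rw [norm_smul, Complex.norm_real, norm_inv, norm_norm, inv_mul_cancel₀ hxn'.ne']
    · intro i hi
      rw [lp.coeFn_smul, Pi.smul_apply, hx0 i hi, smul_zero]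
    · rw [map_smul, norm_smul, Complex.norm_real, norm_inv, norm_norm]
      rw [lt_inv_mul_iff₀ hxn']
      linarith
  have hbl := blocks hr0 hp' h ε hε H
  have hexp : 0 < 1 - p.toReal⁻¹ := by
    have : p.toReal⁻¹ < 1 := inv_lt_one_of_one_lt₀ hr1
    linarith
  have ht : Tendsto (fun J : ℕ => (J : ℝ) ^ (1 - p.toReal⁻¹)) atTop atTop :=
    (tendsto_rpow_atTop hexp).comp tendsto_natCast_atTop_atTop
  obtain ⟨J, hJ, hJ1⟩ :=
    ((ht.eventually_gt_atTop (‖h‖ / (ε / 2))).and (eventually_ge_atTop 1)).exists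
  obtain ⟨y, M, -, hyn, hyh⟩ := hbl J
  have hJpos : (0 : ℝ) < J := by exact_mod_cast hJ1
  have h1 : ‖y‖ ≤ (J : ℝ) ^ (p.toReal⁻¹) := by
    rw [← Real.rpow_le_rpow_iff (norm_nonneg _) (by positivity) hr0, ← Real.rpow_mul hJpos.le,
      inv_mul_cancel₀ hr0.ne', Real.rpow_one]
    exact hyn
  have h2 : (h y).re ≤ ‖h‖ * (J : ℝ) ^ (p.toReal⁻¹) :=
    (Complex.re_le_norm _).trans ((h.le_opNorm y).trans (by gcongr))
  have h3 : (J : ℝ) = (J : ℝ) ^ (1 - p.toReal⁻¹) * (J : ℝ) ^ (p.toReal⁻¹) := by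
    rw [← Real.rpow_add hJpos]
    simp
  have h4 : (0 : ℝ) < (J : ℝ) ^ (p.toReal⁻¹) := by positivity
  rw [div_lt_iff₀ (by positivity)] at hJ
  have h5 : J * (ε / 2) = ((J : ℝ) ^ (1 - p.toReal⁻¹) * (ε / 2)) * (J : ℝ) ^ (p.toReal⁻¹) := by
    conv_lhs => rw [h3]
    ring
  have h6 := mul_lt_mul_of_pos_right hJ h4
  linarith

theorem weak : S_Weak := by
  intro p hF hp1 hp' ι L x w hx hxw h
  have hr0 : 0 < p.toReal := ENNReal.toReal_pos (by positivity) hp'
  rw [Metric.tendsto_nhds]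
  intro ε hε
  have hC : 0 < 1 + ‖w‖ := by positivity
  obtain ⟨m, hm⟩ := tail hp1 hp' h (ε / 2 / (1 + ‖w‖)) (by positivity)
  have hfin : Tendsto (fun i => h (trn m (x i - w))) L (𝓝 0) := by
    have e : ∀ i, h (trn m (x i - w)) =
        ∑ j ∈ Finset.range m, (x i j - w j) * h (lp.single p j (1 : ℂ)) := by
      intro i
      unfold trn
      rw [map_sum]
      refine Finset.sum_congr rfl fun j _ => ?_
      have : lp.single (E := fun _ : ℕ => ℂ) p j ((x i - w) j) =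
          (x i j - w j) • lp.single (E := fun _ : ℕ => ℂ) p j (1 : ℂ) := by
        rw [← lp.single_smul, lp.coeFn_sub]
        simp
      rw [this, map_smul, smul_eq_mul]
    simp only [e]
    have : Tendsto (fun i => ∑ j ∈ Finset.range m, (x i j - w j) * h (lp.single p j (1 : ℂ))) L
        (𝓝 (∑ j ∈ Finset.range m, (w j - w j) * h (lp.single p j (1 : ℂ)))) :=
      tendsto_finsetSum _ fun j _ => ((hxw j).sub_const _).mul_const _
    simpa using this
  filter_upwards [Metric.tendsto_nhds.1 hfin (ε / 2) (by positivity)] with i hi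
  rw [dist_zero_right] at hi
  rw [dist_eq_norm, ← map_sub]
  have e1 : x i - w = trn m (x i - w) + ((x i - w) - trn m (x i - w)) := by abel
  have e2 : ‖h ((x i - w) - trn m (x i - w))‖ ≤ ε / 2 := by
    have h1 := hm ((x i - w) - trn m (x i - w)) (by
      intro j hj
      rw [lp.coeFn_sub, Pi.sub_apply, trn_apply, if_pos hj, sub_self])
    have h2 : ‖(x i - w) - trn m (x i - w)‖ ≤ 1 + ‖w‖ :=
      (sub_trn_norm_le hr0 m _).trans ((norm_sub_le _ _).trans (by linarith [hx i]))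
    calc _ ≤ ε / 2 / (1 + ‖w‖) * ‖(x i - w) - trn m (x i - w)‖ := h1
      _ ≤ ε / 2 / (1 + ‖w‖) * (1 + ‖w‖) := by gcongr
      _ = ε / 2 := by field_simp
  rw [e1, map_add]
  calc _ ≤ ‖h (trn m (x i - w))‖ + ‖h ((x i - w) - trn m (x i - w))‖ := norm_add_le _ _
    _ < ε := by linarith

theorem refl : S_Refl := by
  intro p hF hp1 hp' z
  have hr0 : 0 < p.toReal := ENNReal.toReal_pos (by positivity) hp'
  -- coordinates
  set c : ℕ → ℂ := fun i => z (lp.evalCLM ℂ (fun _ : ℕ => ℂ) p i) with hc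
  -- h composed with the truncation
  have hcomp : ∀ (m : ℕ) (h : StrongDual ℂ (lp (fun _ : ℕ => ℂ) p)),
      ∃ hm : StrongDual ℂ (lp (fun _ : ℕ => ℂ) p), (∀ x, hm x = h (trn m x)) ∧
        z hm = h (∑ i ∈ Finset.range m, lp.single p i (c i)) := by
    intro m h
    refine ⟨∑ i ∈ Finset.range m, h (lp.single p i (1 : ℂ)) •
      (lp.evalCLM ℂ (fun _ : ℕ => ℂ) p i : StrongDual ℂ (lp (fun _ : ℕ => ℂ) p)), ?_, ?_⟩
    · intro x
      unfold trn
      rw [map_sum, _root_.sum_apply]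
      refine Finset.sum_congr rfl fun j _ => ?_
      have : lp.single (E := fun _ : ℕ => ℂ) p j (x j) =
          (x j) • lp.single (E := fun _ : ℕ => ℂ) p j (1 : ℂ) := by
        rw [← lp.single_smul]
        simp
      rw [this, map_smul, smul_eq_mul, _root_.smul_apply, smul_eq_mul, mul_comm]
      rfl
    · rw [map_sum, map_sum]
      refine Finset.sum_congr rfl fun j _ => ?_
      have : lp.single (E := fun _ : ℕ => ℂ) p j (c j) =
          (c j) • lp.single (E := fun _ : ℕ => ℂ) p j (1 : ℂ) := by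
        rw [← lp.single_smul]
        simp
      rw [this, map_smul, map_smul, smul_eq_mul, smul_eq_mul, mul_comm]
  have hnorm : ∀ m : ℕ, ‖∑ i ∈ Finset.range m, lp.single (E := fun _ : ℕ => ℂ) p i (c i)‖ ≤ ‖z‖ := by
    intro m
    refine NormedSpace.norm_le_dual_bound ℂ _ (norm_nonneg z) fun h => ?_
    obtain ⟨hm, h1, h2⟩ := hcomp m h
    rw [← h2]
    refine (z.le_opNorm hm).trans ?_
    gcongr
    refine ContinuousLinearMap.opNorm_le_bound _ (norm_nonneg _) fun x => ?_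
    rw [h1]
    exact (h.le_opNorm _).trans (by gcongr; exact trn_norm_le hr0 m x)
  have hsum : ∀ m : ℕ, ∑ i ∈ Finset.range m, ‖c i‖ ^ p.toReal ≤ ‖z‖ ^ p.toReal := by
    intro m
    rw [← lp.norm_sum_single (E := fun _ : ℕ => ℂ) hr0 c (Finset.range m)]
    exact Real.rpow_le_rpow (norm_nonneg _) (hnorm m) hr0.le
  have hsum' : ∀ s : Finset ℕ, ∑ i ∈ s, ‖c i‖ ^ p.toReal ≤ ‖z‖ ^ p.toReal := by
    intro s
    obtain ⟨m, hm⟩ := s.exists_nat_subset_range
    exact (Finset.sum_le_sum_of_subset_of_nonneg hm fun i _ _ => by positivity).trans (hsum m)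
  have hmem : Memℓp (E := fun _ : ℕ => ℂ) c p := memℓp_gen' hsum'
  let w : lp (fun _ : ℕ => ℂ) p := ⟨c, hmem⟩
  have hw : ∀ i, w i = c i := fun i => rfl
  refine ⟨w, lp.norm_le_of_forall_sum_le hr0 (norm_nonneg z) hsum', fun h => ?_⟩
  -- the convergence
  have t1 : Tendsto (fun m => h (∑ i ∈ Finset.range m, lp.single (E := fun _ : ℕ => ℂ) p i (c i)))
      atTop (𝓝 (h w)) :=
    (h.continuous.tendsto w).comp (trn_tendsto hp' w)
  have t2 : Tendsto (fun m => h (∑ i ∈ Finset.range m, lp.single (E := fun _ : ℕ => ℂ) p i (c i)))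
      atTop (𝓝 (z h)) := by
    rw [Metric.tendsto_nhds]
    intro ε hε
    obtain ⟨m₀, hm₀⟩ := tail hp1 hp' h (ε / 2 / (1 + ‖z‖)) (by positivity)
    filter_upwards [eventually_ge_atTop m₀] with m hm
    obtain ⟨hm', h1, h2⟩ := hcomp m h
    rw [← h2, dist_eq_norm, ← map_sub]
    have h3 : ‖hm' - h‖ ≤ ε / 2 / (1 + ‖z‖) := by
      refine ContinuousLinearMap.opNorm_le_bound _ (by positivity) fun x => ?_
      have : (hm' - h) x = - h (x - trn m x) := by
        rw [ContinuousLinearMap.sub_apply, h1, map_sub]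
        ring
      rw [this, norm_neg]
      refine (hm₀ (x - trn m x) ?_).trans ?_
      · intro i hi
        rw [lp.coeFn_sub, Pi.sub_apply, trn_apply, if_pos (by omega), sub_self]
      · gcongr
        exact sub_trn_norm_le hr0 m x
    calc ‖z (hm' - h)‖ ≤ ‖z‖ * ‖hm' - h‖ := z.le_opNorm _
      _ ≤ ‖z‖ * (ε / 2 / (1 + ‖z‖)) := by gcongr
      _ ≤ (1 + ‖z‖) * (ε / 2 / (1 + ‖z‖)) := by gcongr; linarith
      _ = ε / 2 := by field_simp
      _ < ε := by linarith
  exact tendsto_nhds_unique t2 t1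

end Pool.Agent.NH62.SB.Refl
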