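import Pool.Agent.NH62.SB.Mem
import Pool.Agent.NH62.SB.StmP

/-!
The case of the unit sphere, exponent larger than one.
-/

set_option autoImplicit false

open Metric Set Filter Topology
open scoped ENNReal BoundedContinuousFunction

namespace Pool.Agent.NH62.SB.Sphere

open Pool.Agent.NH62.SB

theorem pow_mul_le {a b r : ℝ} (ha : 0 ≤ a) (hb : 0 ≤ b) (hr : 1 < r) :
    a ^ (r - 1) * b ≤ a ^ r + b ^ r := by
  rcases le_total b a with h | h
  · have h1 : a ^ (r - 1) * b ≤ a ^ (r - 1) * a := mul_le_mul_of_nonneg_left h (by positivity)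
    have h2 : a ^ (r - 1) * a = a ^ r := by
      rcases ha.eq_or_lt with h0 | h0
      · rw [← h0, mul_zero, Real.zero_rpow (by linarith)]
      · rw [← Real.rpow_add_one h0.ne']; congr 1; ring
    have h3 : 0 ≤ b ^ r := by positivity
    linarith
  · have h1 : a ^ (r - 1) * b ≤ b ^ (r - 1) * b :=
      mul_le_mul_of_nonneg_right (Real.rpow_le_rpow ha h (by linarith)) hb
    have h2 : b ^ (r - 1) * b = b ^ r := by
      rcases hb.eq_or_lt with h0 | h0
      · rw [← h0, mul_zero, Real.zero_rpow (by linarith)]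
      · rw [← Real.rpow_add_one h0.ne']; congr 1; ring
    have h3 : 0 ≤ a ^ r := by positivity
    linarith

theorem sphere (hD : S_D) (hW : S_Weak) : S_Sphere := by
  intro p _ hp1 hp w hw
  set r : ℝ := p.toReal with hr
  have hr1 : 1 < r := by
    rw [hr]
    have := (ENNReal.toReal_lt_toReal ENNReal.one_ne_top hp).2 hp1
    simpa using this
  have hr0 : 0 < r := by linarith
  obtain ⟨hJ, hD1, hD2⟩ := hD r hr1
  have hsum : ∀ x : lp (fun _ : ℕ => ℂ) p, Summable (fun n => ‖x n‖ ^ r) := fun x =>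
    (lp.memℓp x).summable hr0
  have hnorm : ∀ x : lp (fun _ : ℕ => ℂ) p, ∑' n, ‖x n‖ ^ r = ‖x‖ ^ r := fun x =>
    (lp.norm_rpow_eq_tsum hr0 x).symm
  -- summability of the functional
  have hs : ∀ x : lp (fun _ : ℕ => ℂ) p, Summable (fun n => Jr r (w n) * x n) := by
    intro x
    refine Summable.of_norm_bounded ((hsum w).add (hsum x)) fun n => ?_
    rw [norm_mul, (hJ (w n)).1]
    exact pow_mul_le (norm_nonneg _) (norm_nonneg _) hr1
  let f : lp (fun _ : ℕ => ℂ) p →ₗ[ℂ] ℂ :=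
    { toFun := fun x => ∑' n, Jr r (w n) * x n
      map_add' := by
        intro x y
        rw [← (hs x).tsum_add (hs y)]
        apply tsum_congr
        intro n
        show Jr r (w n) * (x n + y n) = _
        ring
      map_smul' := by
        intro c x
        rw [RingHom.id_apply, smul_eq_mul, ← tsum_mul_left]
        apply tsum_congr
        intro n
        show Jr r (w n) * (c * x n) = _
        ring }
  have hf : ∀ x, f x = ∑' n, Jr r (w n) * x n := fun _ => rfl
  -- the deficit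
  let Dn : lp (fun _ : ℕ => ℂ) p → ℕ → ℝ := fun x n =>
    ‖x n‖ ^ r - ‖w n‖ ^ r - r * (Jr r (w n) * (x n - w n)).re
  have hDn0 : ∀ x n, 0 ≤ Dn x n := by
    intro x n
    have := hD1 (w n) (x n)
    simp only [Dn]; linarith
  have hDn : ∀ x n, Dn x n = ‖x n‖ ^ r + (r - 1) * ‖w n‖ ^ r - r * (Jr r (w n) * x n).re := by
    intro x n
    have h1 := (hJ (w n)).2
    simp only [Dn]
    rw [mul_sub, h1, Complex.sub_re, Complex.ofReal_re]
    ring
  have hre : ∀ x : lp (fun _ : ℕ => ℂ) p, (f x).re = ∑' n, (Jr r (w n) * x n).re := by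
    intro x
    rw [hf]
    exact Complex.re_tsum (hs x)
  have hsre : ∀ x : lp (fun _ : ℕ => ℂ) p, Summable (fun n => (Jr r (w n) * x n).re) := by
    intro x
    exact (Complex.hasSum_re (hs x).hasSum).summable
  have hDsum : ∀ x : lp (fun _ : ℕ => ℂ) p, Summable (Dn x) ∧
      ∑' n, Dn x n = ‖x‖ ^ r + (r - 1) - r * (f x).re := by
    intro x
    have e : Dn x = fun n => ‖x n‖ ^ r + (r - 1) * ‖w n‖ ^ r - r * (Jr r (w n) * x n).re :=
      funext (hDn x)
    have s1 := (hsum x).add ((hsum w).mul_left (r - 1))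
    have s2 := (hsre x).mul_left r
    refine ⟨by rw [e]; exact s1.sub s2, ?_⟩
    rw [e, s1.tsum_sub s2, (hsum x).tsum_add ((hsum w).mul_left (r - 1)), tsum_mul_left,
      tsum_mul_left, hnorm x, hnorm w, hw, hre, Real.one_rpow, mul_one]
  have hle1 : ∀ x : lp (fun _ : ℕ => ℂ) p, ‖x‖ ≤ 1 → ∑' n, Dn x n ≤ r * (1 - (f x).re) := by
    intro x hx
    rw [(hDsum x).2]
    have : ‖x‖ ^ r ≤ 1 := Real.rpow_le_one (norm_nonneg _) hx hr0.le
    linarith
  have hre1 : ∀ x : lp (fun _ : ℕ => ℂ) p, ‖x‖ ≤ 1 → (f x).re ≤ 1 := by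
    intro x hx
    have h1 := hle1 x hx
    have h2 : 0 ≤ ∑' n, Dn x n := tsum_nonneg (hDn0 x)
    nlinarith
  have hn1 : ∀ x : lp (fun _ : ℕ => ℂ) p, ‖x‖ ≤ 1 → ‖f x‖ ≤ 1 := by
    intro x hx
    by_cases h0 : f x = 0
    · rw [h0]; simp
    · have hn : (‖f x‖ : ℂ) ≠ 0 := by exact_mod_cast norm_ne_zero_iff.2 h0
      let c : ℂ := (starRingEnd ℂ) (f x) / (‖f x‖ : ℂ)
      have hc : ‖c‖ ≤ 1 := by
        simp only [c]
        rw [norm_div, Complex.norm_real, norm_norm, RCLike.norm_conj]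
        exact div_self_le_one _
      have h1 : f (c • x) = (‖f x‖ : ℂ) := by
        rw [map_smul, smul_eq_mul]
        simp only [c]
        rw [div_mul_eq_mul_div, Complex.conj_mul', div_eq_iff hn, sq]
      have h2 := hre1 (c • x) (by
        rw [norm_smul]
        exact mul_le_one₀ hc (norm_nonneg _) hx)
      rw [h1, Complex.ofReal_re] at h2
      exact h2
  let g : StrongDual ℂ (lp (fun _ : ℕ => ℂ) p) := f.mkContinuous 1 (by
    intro x
    rw [one_mul]
    by_cases h0 : x = 0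
    · rw [h0]; simp
    · have hx : ‖x‖ ≠ 0 := norm_ne_zero_iff.2 h0
      have hxC : (‖x‖ : ℂ) ≠ 0 := by exact_mod_cast hx
      have h1 := hn1 ((‖x‖ : ℂ)⁻¹ • x) (by
        rw [norm_smul, norm_inv, Complex.norm_real, norm_norm, inv_mul_cancel₀ hx])
      rw [map_smul, smul_eq_mul, norm_mul, norm_inv, Complex.norm_real, norm_norm] at h1
      have h2 : 0 < ‖x‖ := norm_pos_iff.2 h0
      rw [inv_mul_le_iff₀ h2, mul_one] at h1
      exact h1)
  have hg : ∀ x, g x = f x := fun _ => rfl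
  have hgw : g w = 1 := by
    rw [hg, hf]
    have : (fun n => Jr r (w n) * w n) = fun n => ((‖w n‖ ^ r : ℝ) : ℂ) :=
      funext fun n => (hJ (w n)).2
    rw [this, ← Complex.ofReal_tsum, hnorm, hw, Real.one_rpow, Complex.ofReal_one]
  let co : ↥(ball (0 : lp (fun _ : ℕ => ℂ) p) 1) → (ℕ → ℂ) := fun x n =>
    (x : lp (fun _ : ℕ => ℂ) p) n
  let L : Filter ↥(ball (0 : lp (fun _ : ℕ => ℂ) p) 1) := comap co (𝓝 fun n => w n)
  have hLco : ∀ n : ℕ, Tendsto (fun x : ↥(ball (0 : lp (fun _ : ℕ => ℂ) p) 1) =>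
        (x : lp (fun _ : ℕ => ℂ) p) n) L (𝓝 (w n)) := by
    intro n
    have h1 : Tendsto co L (𝓝 fun n => w n) := tendsto_comap
    exact (tendsto_pi_nhds.1 h1) n
  refine ⟨L, ?_, ?_, hLco⟩
  · -- NeBot
    have hc : ∀ j : ℕ, ‖((1 - 1 / ((j : ℝ) + 2) : ℝ) : ℂ)‖ < 1 := by
      intro j
      rw [Complex.norm_real, Real.norm_eq_abs, abs_of_nonneg]
      · have : (0 : ℝ) < 1 / ((j : ℝ) + 2) := by positivity
        linarith
      · have : 1 / ((j : ℝ) + 2) ≤ 1 := by
          rw [div_le_one (by positivity)]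
          have : (0 : ℝ) ≤ j := Nat.cast_nonneg j
          linarith
        linarith
    let x : ℕ → ↥(ball (0 : lp (fun _ : ℕ => ℂ) p) 1) := fun j =>
      ⟨((1 - 1 / ((j : ℝ) + 2) : ℝ) : ℂ) • w, by
        rw [mem_ball_zero_iff, norm_smul, hw, mul_one]
        exact hc j⟩
    have hx : Tendsto x atTop L := by
      rw [tendsto_comap_iff, tendsto_pi_nhds]
      intro n
      have h1 : Tendsto (fun j : ℕ => ((1 - 1 / ((j : ℝ) + 2) : ℝ) : ℂ) * w n) atTop
          (𝓝 (((1 - 0 : ℝ) : ℂ) * w n)) := by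
        apply Tendsto.mul_const
        apply (Complex.continuous_ofReal.tendsto _).comp
        apply Tendsto.const_sub
        apply Tendsto.const_div_atTop
        exact tendsto_atTop_add_const_right _ _ tendsto_natCast_atTop_atTop
      rw [sub_zero, Complex.ofReal_one, one_mul] at h1
      exact h1
    exact (Filter.map_neBot (f := atTop) (m := x)).mono hx
  · -- Peaked
    intro W hW
    obtain ⟨V, hV, hVW⟩ := hW
    rw [nhds_pi, Filter.mem_pi] at hV
    obtain ⟨I, hI, t, ht, htV⟩ := hV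
    -- for each n in I there is a δ
    have h1 : ∀ n : ℕ, ∃ δ : ℝ, 0 < δ ∧ ∀ x : lp (fun _ : ℕ => ℂ) p, ‖x‖ ≤ 1 →
        Dn x n ≤ δ → x n ∈ t n := by
      intro n
      obtain ⟨ε, hε, hεt⟩ := Metric.mem_nhds_iff.1 (ht n)
      obtain ⟨δ, hδ, h2⟩ := hD2 (w n) (ε / 2) (by linarith)
      refine ⟨δ, hδ, fun x hx hxn => hεt ?_⟩
      have h3 : ‖x n‖ ≤ 1 := (lp.norm_apply_le_norm (zero_lt_one.trans hp1).ne' x n).trans hx
      have h4 := h2 (x n) h3 hxn
      rw [mem_ball, dist_eq_norm]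
      linarith
    choose δ hδ hδ' using h1
    obtain ⟨δ₀, hδ₀, hδ₀'⟩ : ∃ δ₀ : ℝ, 0 < δ₀ ∧ ∀ n ∈ I, δ₀ ≤ δ n := by
      by_cases hne : I.Nonempty
      · obtain ⟨m, hm, hmin⟩ := hI.exists_minimalFor δ I hne
        refine ⟨δ m, hδ m, fun n hn => ?_⟩
        rcases le_total (δ m) (δ n) with h | h
        · exact h
        · exact hmin hn h
      · exact ⟨1, one_pos, fun n hn => absurd ⟨n, hn⟩ hne⟩
    refine ⟨δ₀ / r, by positivity, fun κ hκ => ⟨fun x => g x, memAu_clm g, ?_, ⟨1, ?_, ?_⟩, ?_⟩⟩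
    · intro x hx
      rw [mem_ball_zero_iff] at hx
      exact hn1 x hx.le
    · rw [← hgw]
      exact hW p hp1 hp _ L (fun x => (x : lp (fun _ : ℕ => ℂ) p)) w
        (fun x => by
          have := x.2
          rw [mem_ball_zero_iff] at this
          exact this.le) hLco g
    · simpa using hκ.le
    · intro x hx
      have hxb : ‖(x : lp (fun _ : ℕ => ℂ) p)‖ ≤ 1 := by
        have := x.2
        rw [mem_ball_zero_iff] at this
        exact this.le
      apply hVW
      apply htV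
      intro n hn
      apply hδ' n x hxb
      have h2 : 1 - (f x).re ≤ δ₀ / r := by
        have h3 : |(g x - 1).re| ≤ δ₀ / r := (Complex.abs_re_le_norm _).trans hx
        rw [Complex.sub_re, Complex.one_re, hg] at h3
        have := neg_le_of_abs_le h3
        linarith
      calc Dn x n ≤ ∑' n, Dn x n := (hDsum x).1.le_tsum n fun m _ => hDn0 x m
        _ ≤ r * (1 - (f x).re) := hle1 x hxb
        _ ≤ r * (δ₀ / r) := mul_le_mul_of_nonneg_left h2 hr0.le
        _ = δ₀ := by field_simp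
        _ ≤ δ n := hδ₀' n hn

end Pool.Agent.NH62.SB.Sphere
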