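import Pool.Agent.NH62.SB.StmOne

/-!
SB-14: existence of spike points.
-/

set_option autoImplicit false

open Metric Set Filter Topology
open scoped ENNReal BoundedContinuousFunction

namespace Pool.Agent.NH62.SB.Spike

open Pool.Agent.NH62.SB

theorem spike : S_Spike := by
  classical
  intro a μ M hTF hμ hM1 τ hτ
  have hM0 : 0 ≤ M := hμ.nonneg
  refine ⟨τ / 4, by positivity, ?_⟩
  intro E l Γ hedge hΓ hlE hlc hlμ
  obtain ⟨N, hN, N', hN', hNN'⟩ := hedge
  have hloop : ∀ n, ¬ a n n := fun n h => hTF.2 n n n h h h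
  have hne : N ≠ N' := by
    intro h
    rw [← h] at hNN'
    exact hloop _ hNN'
  have hN'N : a N' N := hTF.1 _ _ hNN'
  have hlB : Bdd l := by
    refine ⟨1, fun n => ?_⟩
    by_cases hn : n ∈ E
    · rw [hlE n hn]; simp
    · exact (hlc n hn).le
  obtain ⟨y, hys, hyM, hyH⟩ := hμ.gold (insert l Γ) (by
    intro h hh
    rcases Finset.mem_insert.1 hh with rfl | hh
    · exact hlB
    · exact (hΓ h hh).1) (τ / 4) (by positivity)
  set A : ℝ := 1 - M with hA
  have hA0 : 0 < A := by linarith
  have hA1 : A ≤ 1 := by linarith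
  set ε₂ : ℝ := min A (τ / 2) with hε₂
  have hε₂0 : 0 < ε₂ := lt_min hA0 (by positivity)
  have hε₂A : ε₂ ≤ A := min_le_left _ _
  have hε₂τ : ε₂ ≤ τ / 2 := min_le_right _ _
  set A' : ℝ := A - ε₂ with hA'
  have hA'0 : 0 ≤ A' := by linarith
  set c : ℂ := ((A' / 2 : ℝ) : ℂ) with hc
  have hcn : ‖c‖ = A' / 2 := by
    rw [hc, Complex.norm_real, Real.norm_of_nonneg (by linarith)]
  set s : ℕ → ℂ := fun n => (if n = N then c else 0) - (if n = N' then c else 0) with hs
  have hsN : s N = c := by
    simp only [hs, if_true, if_neg hne, sub_zero]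
  have hsN' : s N' = -c := by
    simp only [hs, if_true, if_neg hne.symm, zero_sub]
  have hs0 : ∀ n, n ≠ N → n ≠ N' → s n = 0 := by
    intro n h1 h2
    simp only [hs, if_neg h1, if_neg h2, sub_zero]
  have hsE : ∀ n, n ∉ E → s n = 0 := by
    intro n hn
    refine hs0 n ?_ ?_
    · rintro rfl; exact hn hN
    · rintro rfl; exact hn hN'
  set x : ℕ → ℂ := fun n => cut Eᶜ y n + s n with hx
  have hxE : ∀ n ∈ E, x n = s n := by
    intro n hn
    simp only [hx, cut]
    rw [indicator_of_notMem (by simpa using hn), zero_add]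
  have hxc : ∀ n, n ∉ E → x n = y n := by
    intro n hn
    simp only [hx, cut]
    rw [indicator_of_mem (by simpa using hn), hsE n hn, add_zero]
  have hcutE : cut E x = s := by
    funext n
    by_cases hn : n ∈ E
    · rw [cut, indicator_of_mem hn, hxE n hn]
    · rw [cut, indicator_of_notMem hn, hsE n hn]
  have hcutc : cut Eᶜ x = cut Eᶜ y := by
    funext n
    by_cases hn : n ∈ E
    · rw [cut, cut, indicator_of_notMem (by simpa using hn), indicator_of_notMem (by simpa using hn)]
    · rw [cut, cut, indicator_of_mem (by simpa using hn), indicator_of_mem (by simpa using hn),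
        hxc n hn]
  have hss : Summable (fun n => ‖s n‖) := by
    refine summable_of_ne_finset_zero (s := {N, N'}) ?_
    intro n hn
    simp only [Finset.mem_insert, Finset.mem_singleton, not_or] at hn
    rw [hs0 n hn.1 hn.2, norm_zero]
  have hssum : ∑' n, ‖s n‖ = A' := by
    rw [tsum_eq_sum (s := {N, N'})]
    · rw [Finset.sum_pair hne, hsN, hsN', norm_neg, hcn]
      ring
    · intro n hn
      simp only [Finset.mem_insert, Finset.mem_singleton, not_or] at hn
      rw [hs0 n hn.1 hn.2, norm_zero]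
  have hcy : ∀ n, ‖cut Eᶜ y n‖ ≤ ‖y n‖ := by
    intro n
    rw [cut]
    exact norm_indicator_le_norm_self _ _
  have hcys : Summable (fun n => ‖cut Eᶜ y n‖) :=
    Summable.of_nonneg_of_le (fun _ => norm_nonneg _) hcy hys
  have hcyM : ∑' n, ‖cut Eᶜ y n‖ ≤ M := le_trans (hcys.tsum_le_tsum hcy hys) hyM
  have hxs : Summable (fun n => ‖x n‖) :=
    Summable.of_nonneg_of_le (fun _ => norm_nonneg _) (fun n => norm_add_le _ _) (hcys.add hss)
  have hxM : ∑' n, ‖x n‖ ≤ M + A' := by
    calc ∑' n, ‖x n‖ ≤ ∑' n, (‖cut Eᶜ y n‖ + ‖s n‖) :=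
          hxs.tsum_le_tsum (fun n => norm_add_le _ _) (hcys.add hss)
      _ = ∑' n, ‖cut Eᶜ y n‖ + ∑' n, ‖s n‖ := hcys.tsum_add hss
      _ ≤ M + A' := by rw [hssum]; linarith
  have hlt : M + A' < 1 := by linarith
  have hpr : ∀ g : ℕ → ℂ, (∀ n ∈ E, g n = 0) → pr g x = pr g y := by
    intro g hg
    unfold pr
    refine tsum_congr ?_
    intro n
    by_cases hn : n ∈ E
    · rw [hg n hn]; simp
    · rw [hxc n hn]
  refine ⟨x, lt_of_le_of_lt hxM hlt, ?_⟩
  refine ⟨⟨hxs, le_trans hxM hlt.le⟩, ?_, ?_, ?_, ?_⟩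
  · have h1 : mass Eᶜ x ≤ M := by
      unfold mass
      rw [hcutc]
      exact hcyM
    have h2 := hyH l (Finset.mem_insert_self _ _)
    rw [← hpr l hlE] at h2
    have h3 : |(pr l x - μ l).re| ≤ τ / 4 := le_trans (Complex.abs_re_le_norm _) h2
    rw [Complex.sub_re] at h3
    have h4 := (abs_le.1 h3).1
    linarith
  · rw [hcutE, tsum_eq_sum (s := {N, N'})]
    · rw [Finset.sum_pair hne, hsN, hsN', add_neg_cancel, norm_zero]
      exact hτ.le
    · intro n hn
      simp only [Finset.mem_insert, Finset.mem_singleton, not_or] at hn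
      exact hs0 n hn.1 hn.2
  · have hR : Rf a E x = ((A' : ℝ) : ℂ) ^ 2 := by
      unfold Rf
      rw [hcutE, tsum_eq_sum (s := ({N, N'} : Finset ℕ) ×ˢ ({N, N'} : Finset ℕ))]
      · rw [Finset.sum_product, Finset.sum_pair hne, Finset.sum_pair hne, Finset.sum_pair hne]
        simp only [hsN, hsN']
        have k1 : ker a N N = 1 / 2 := by simp only [ker, if_neg (hloop N)]
        have k2 : ker a N' N' = 1 / 2 := by simp only [ker, if_neg (hloop N')]
        have k3 : ker a N N' = -(3 / 2) := by simp only [ker, if_pos hNN']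
        have k4 : ker a N' N = -(3 / 2) := by simp only [ker, if_pos hN'N]
        rw [k1, k2, k3, k4, hc]
        push_cast
        ring
      · intro q hq
        simp only [Finset.mem_product, Finset.mem_insert, Finset.mem_singleton, not_and_or,
          not_or] at hq
        rcases hq with hq | hq
        · rw [hs0 _ hq.1 hq.2]; ring
        · rw [hs0 _ hq.1 hq.2]; ring
    rw [hR]
    have h1 : ((A' : ℝ) : ℂ) ^ 2 - ((A : ℝ) : ℂ) ^ 2 = (((A' ^ 2 - A ^ 2 : ℝ)) : ℂ) := by
      push_cast
      ring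
    rw [h1, Complex.norm_real, Real.norm_eq_abs, abs_le]
    constructor
    · nlinarith
    · nlinarith
  · intro g hg
    have h2 := hyH g (Finset.mem_insert_of_mem hg)
    rw [← hpr g (hΓ g hg).2] at h2
    linarith

end Pool.Agent.NH62.SB.Spike
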