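import Pool.Agent.NH62.SB.StmOne

/-! # Project SB: the test function for the exponent one -/

set_option autoImplicit false

open Metric Set Filter Topology
open scoped ENNReal BoundedContinuousFunction

namespace Pool.Agent.NH62.SB.Test

open Pool.Agent.NH62.SB

theorem re_nonneg {y : ℕ → ℂ} (hy : Summable fun n => ‖y n‖) :
    0 ≤ (∑' n, ‖y n‖) - (∑' n, y n).re := by
  rw [sub_nonneg]
  exact (Complex.re_le_norm _).trans (norm_tsum_le_tsum_norm hy)

theorem im_bound {y : ℕ → ℂ} (hy : Summable fun n => ‖y n‖) (hy1 : ∑' n, ‖y n‖ ≤ 1)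
    {g : ℕ → ℝ} (hg : ∀ n, |g n| ≤ 1) :
    (∑' n, (g n : ℂ) * y n).im ^ 2 ≤ 2 * ((∑' n, ‖y n‖) - (∑' n, y n).re) := by
  have hys : Summable y := hy.of_norm
  have hgy : Summable fun n => (g n : ℂ) * y n := by
    refine Summable.of_norm_bounded hy fun n => ?_
    rw [norm_mul, Complex.norm_real]
    exact mul_le_of_le_one_left (norm_nonneg _) (hg n)
  have hre : Summable fun n => (y n).re := (Complex.hasSum_re hys.hasSum).summable
  have ht0 := re_nonneg hy
  obtain ⟨S, hS⟩ : ∃ S, S = |(∑' n, (g n : ℂ) * y n).im| := ⟨_, rfl⟩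
  obtain ⟨t, ht⟩ : ∃ t, t = (∑' n, ‖y n‖) - (∑' n, y n).re := ⟨_, rfl⟩
  rw [← ht] at ht0
  rw [← sq_abs, ← hS, ← ht]
  have key : ∀ lam : ℝ, 0 < lam → S ≤ lam + t / (2 * lam) := by
    intro lam hl
    have h1 : ∀ n, ‖((g n : ℂ) * y n).im‖ ≤ lam * ‖y n‖ + (‖y n‖ - (y n).re) / (2 * lam) := by
      intro n
      have h2 : ((g n : ℂ) * y n).im = g n * (y n).im := Complex.im_ofReal_mul _ _
      rw [h2, Real.norm_eq_abs, abs_mul]
      have h3 : |g n| * |(y n).im| ≤ |(y n).im| := mul_le_of_le_one_left (abs_nonneg _) (hg n)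
      refine h3.trans ?_
      have h4 : (y n).im ^ 2 = ‖y n‖ ^ 2 - (y n).re ^ 2 := by
        rw [Complex.sq_norm, Complex.normSq_apply]
        ring
      have h5 := Complex.re_le_norm (y n)
      obtain ⟨q, hq⟩ : ∃ q, q = (‖y n‖ - (y n).re) / (2 * lam) := ⟨_, rfl⟩
      have h6 : q * (2 * lam) = ‖y n‖ - (y n).re := by
        rw [hq]
        field_simp
      have hq0 : 0 ≤ q := by
        rw [hq]
        exact div_nonneg (by linarith) (by positivity)
      rw [← hq]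
      refine abs_le_of_sq_le_sq ?_ (add_nonneg (by positivity) hq0)
      have h7 : (lam * ‖y n‖ + q) ^ 2 - (‖y n‖ ^ 2 - (y n).re ^ 2) =
          (lam * ‖y n‖ - q) ^ 2 + (‖y n‖ - (y n).re) ^ 2 := by
        have h8 : 4 * (lam * ‖y n‖ * q) = 2 * ‖y n‖ * (‖y n‖ - (y n).re) := by
          rw [← h6]
          ring
        nlinarith
      rw [h4]
      nlinarith [sq_nonneg (lam * ‖y n‖ - q), sq_nonneg (‖y n‖ - (y n).re)]
    have hs2 : Summable fun n => (‖y n‖ - (y n).re) / (2 * lam) := (hy.sub hre).div_const _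
    have hs1 : Summable fun n => lam * ‖y n‖ := hy.mul_left _
    have hs3 : Summable fun n => ‖((g n : ℂ) * y n).im‖ :=
      Summable.of_nonneg_of_le (fun n => norm_nonneg _) h1 (hs1.add hs2)
    have h9 : S ≤ ∑' n, ‖((g n : ℂ) * y n).im‖ := by
      rw [hS, Complex.im_tsum hgy, ← Real.norm_eq_abs]
      exact norm_tsum_le_tsum_norm hs3
    have h10 : ∑' n, ‖((g n : ℂ) * y n).im‖ ≤
        ∑' n, (lam * ‖y n‖ + (‖y n‖ - (y n).re) / (2 * lam)) :=
      hs3.tsum_le_tsum h1 (hs1.add hs2)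
    have h11 : ∑' n, (lam * ‖y n‖ + (‖y n‖ - (y n).re) / (2 * lam)) =
        lam * ∑' n, ‖y n‖ + t / (2 * lam) := by
      rw [hs1.tsum_add hs2, tsum_mul_left, tsum_div_const, hy.tsum_sub hre, ht,
        Complex.re_tsum hys]
    have h12 : lam * ∑' n, ‖y n‖ ≤ lam := by nlinarith
    linarith
  have hS0 : 0 ≤ S := by rw [hS]; exact abs_nonneg _
  rcases hS0.eq_or_lt with h0 | h0
  · rw [← h0]
    linarith
  · have h1 := key (S / 2) (by linarith)
    have h2 : t / (2 * (S / 2)) * S = t := by field_simp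
    nlinarith

theorem mean_im {μ : (ℕ → ℂ) → ℂ} {M : ℝ} (hμ : Mean μ M) (hM1 : M ≤ 1) {l : ℕ → ℂ}
    (hl : ∀ n, ‖l n‖ ≤ 1) {g : ℕ → ℝ} (hg : ∀ n, |g n| ≤ 1) {θ : ℝ} (hθ : M - θ ≤ (μ l).re) :
    (μ (fun n => (g n : ℂ) * l n)).im ^ 2 ≤ 2 * θ := by
  obtain ⟨J, hJ⟩ : ∃ J, J = μ (fun n => (g n : ℂ) * l n) := ⟨_, rfl⟩
  rw [← hJ]
  have hbl : Bdd l := ⟨1, hl⟩
  have hbgl1 : ∀ n, ‖(g n : ℂ) * l n‖ ≤ 1 := fun n => by
    rw [norm_mul, Complex.norm_real]
    calc |g n| * ‖l n‖ ≤ 1 * 1 := mul_le_mul (hg n) (hl n) (norm_nonneg _) zero_le_one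
      _ = 1 := mul_one 1
  have hbgl : Bdd fun n => (g n : ℂ) * l n := ⟨1, hbgl1⟩
  have key : ∀ lam : ℝ, M - θ - lam * J.im ≤ 1 + lam ^ 2 / 2 - (1 - M) := by
    intro lam
    have hb2 : Bdd fun n => ((lam : ℂ) * Complex.I) * ((g n : ℂ) * l n) := by
      refine ⟨|lam|, fun n => ?_⟩
      rw [norm_mul, norm_mul, Complex.norm_I, Complex.norm_real, mul_one]
      exact mul_le_of_le_one_right (abs_nonneg _) (hbgl1 n)
    have h1 : μ (fun n => l n + ((lam : ℂ) * Complex.I) * ((g n : ℂ) * l n)) =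
        μ l + ((lam : ℂ) * Complex.I) * J := by
      rw [hμ.add _ _ hbl hb2, hμ.smul _ _ hbgl, hJ]
    have h2 := hμ.bd (fun n => l n + ((lam : ℂ) * Complex.I) * ((g n : ℂ) * l n))
      (1 + lam ^ 2 / 2) (by positivity) (fun n => by
        have h3 : l n + ((lam : ℂ) * Complex.I) * ((g n : ℂ) * l n) =
            l n * (1 + ((lam * g n : ℝ) : ℂ) * Complex.I) := by
          push_cast
          ring
        rw [h3, norm_mul]
        have h4 : ‖1 + ((lam * g n : ℝ) : ℂ) * Complex.I‖ ≤ 1 + lam ^ 2 / 2 := by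
          refine abs_le_of_sq_le_sq' ?_ (by positivity) |>.2
          rw [Complex.sq_norm, Complex.normSq_apply]
          have h5 : (1 + ((lam * g n : ℝ) : ℂ) * Complex.I).re = 1 := by simp
          have h6 : (1 + ((lam * g n : ℝ) : ℂ) * Complex.I).im = lam * g n := by simp
          rw [h5, h6]
          have h7 : g n ^ 2 ≤ 1 := by
            rw [sq_le_one_iff_abs_le_one]
            exact hg n
          nlinarith [sq_nonneg lam, sq_nonneg (lam ^ 2)]
        calc ‖l n‖ * ‖1 + ((lam * g n : ℝ) : ℂ) * Complex.I‖ ≤ 1 * (1 + lam ^ 2 / 2) :=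
              mul_le_mul (hl n) h4 (norm_nonneg _) zero_le_one
          _ = _ := one_mul _)
    rw [h1] at h2
    have h3 := (Complex.re_le_norm _).trans h2
    have h4 : (μ l + ((lam : ℂ) * Complex.I) * J).re = (μ l).re - lam * J.im := by
      simp
      ring
    rw [h4] at h3
    have h5 := hμ.nonneg
    nlinarith [sq_nonneg lam]
  have h1 := key (-J.im)
  nlinarith

/-- `u exp (1 - u) ≤ 1` -/
theorem uexp_le (u : ℝ) : u * Real.exp (1 - u) ≤ 1 := by
  have h1 := Real.add_one_le_exp (u - 1)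
  have h2 : Real.exp (u - 1) * Real.exp (1 - u) = 1 := by
    rw [← Real.exp_add]
    simp
  have h3 := Real.exp_pos (1 - u)
  nlinarith

/-- stability of the previous inequality -/
theorem uexp_stab {u δ : ℝ} (hu : 0 ≤ u) (hδ1 : δ ≤ 1 / 2)
    (h : 1 - δ ≤ u * Real.exp (1 - u)) : (u - 1) ^ 2 ≤ 8 * δ * u := by
  have h1 : (1 + (u - 1) / 2) ^ 2 ≤ Real.exp (u - 1) := by
    have h2 : Real.exp (u - 1) = Real.exp ((u - 1) / 2) ^ 2 := by
      rw [← Real.exp_nat_mul]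
      congr 1
      push_cast
      ring
    rw [h2]
    have h3 := Real.add_one_le_exp ((u - 1) / 2)
    exact pow_le_pow_left₀ (by linarith) (by linarith) 2
  have h2 : Real.exp (u - 1) * Real.exp (1 - u) = 1 := by
    rw [← Real.exp_add]
    simp
  have h3 := Real.exp_pos (u - 1)
  have h4 : (1 - δ) * Real.exp (u - 1) ≤ u := by
    calc (1 - δ) * Real.exp (u - 1) ≤ (u * Real.exp (1 - u)) * Real.exp (u - 1) :=
          mul_le_mul_of_nonneg_right h h3.le
      _ = u * (Real.exp (u - 1) * Real.exp (1 - u)) := by ring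
      _ = u := by rw [h2, mul_one]
  have h5 : (1 - δ) * (1 + (u - 1) / 2) ^ 2 ≤ u :=
    (mul_le_mul_of_nonneg_left h1 (by linarith)).trans h4
  have h6 : (1 - δ) * (u - 1) ^ 2 ≤ 4 * δ * u := by nlinarith
  nlinarith [sq_nonneg (u - 1)]

theorem ft_norm (a : ℕ → ℕ → Prop) (μ : (ℕ → ℂ) → ℂ) {M : ℝ} (hM : M < 1) (E : Set ℕ)
    (l : ℕ → ℂ) (G : Finset (ℕ → ℝ)) (ε C : ℝ) (x : ℕ → ℂ) :
    ‖Ft a μ M E l G ε C x‖ = Real.exp (-C + 2 / (1 - M) * ((pr l x).re - M) -
      ε * ∑ g ∈ G, ((pr (fun n => (g n : ℂ) * l n) x - μ (fun n => (g n : ℂ) * l n)).re ^ 2 -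
        (pr (fun n => (g n : ℂ) * l n) x - μ (fun n => (g n : ℂ) * l n)).im ^ 2)) *
      (‖Rf a E x‖ / (1 - M) ^ 2) := by
  unfold Ft
  rw [norm_mul, Complex.norm_exp, norm_div, norm_pow, Complex.norm_real,
    Real.norm_of_nonneg (by linarith : 0 ≤ 1 - M)]
  congr 2
  rw [Complex.sub_re, Complex.add_re, Complex.ofReal_re, Complex.re_ofReal_mul,
    Complex.re_ofReal_mul, Complex.sub_re, Complex.ofReal_re, Complex.re_sum]
  congr 2
  refine Finset.sum_congr rfl fun g _ => ?_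
  rw [sq, Complex.mul_re]
  ring

theorem mass_split {E : Set ℕ} {x : ℕ → ℂ} (hx : Summable fun n => ‖x n‖) :
    mass E x + mass Eᶜ x = ∑' n, ‖x n‖ := by
  unfold mass
  have h1 : ∀ F : Set ℕ, Summable fun n => ‖cut F x n‖ := fun F =>
    Summable.of_nonneg_of_le (fun n => norm_nonneg _)
      (fun n => by unfold cut; exact norm_indicator_le_norm_self _ _) hx
  rw [← (h1 E).tsum_add (h1 Eᶜ)]
  refine tsum_congr fun n => ?_
  unfold cut
  by_cases hn : n ∈ E
  · rw [Set.indicator_of_mem hn, Set.indicator_of_notMem (by simpa using hn)]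
    simp
  · rw [Set.indicator_of_notMem hn, Set.indicator_of_mem (by simpa using hn)]
    simp

/-- the basic estimates -/
theorem basic (hMt : S_Mantel) {a : ℕ → ℕ → Prop} {μ : (ℕ → ℂ) → ℂ} {M : ℝ} (ha : TF a)
    (hμ : Mean μ M) (hM : M < 1) {r : ℕ} {ε θ C : ℝ} (hε : 0 < ε)
    (hεr : 4 * ε * r ≤ 1 / (1 - M)) (hC : C = 4 * r * ε * θ) {E : Set ℕ} {l : ℕ → ℂ}
    {G : Finset (ℕ → ℝ)} (hθ0 : 0 ≤ θ) (hG : G.card ≤ r) (hg : ∀ g ∈ G, ∀ n, |g n| ≤ 1)
    (hl0 : ∀ n ∈ E, l n = 0) (hl1 : ∀ n, n ∉ E → ‖l n‖ = 1) (hθ : M - θ ≤ (μ l).re)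
    {x : ℕ → ℂ} (hx : U1 x) :
    ∃ t d b : ℝ, t = mass Eᶜ x - (pr l x).re ∧ b = mass E x ∧ 0 ≤ t ∧ 0 ≤ d ∧ 0 ≤ b ∧ b ≤ 1 ∧
      (pr l x).re - M = (1 - M) - b - d - t ∧ (pr l x).im ^ 2 ≤ 2 * t ∧
      (∀ g ∈ G, (pr (fun n => (g n : ℂ) * l n) x - μ (fun n => (g n : ℂ) * l n)).im ^ 2 ≤
        4 * t + 4 * θ) ∧
      ‖∑' n, cut E x n‖ ^ 4 ≤ 4 * (b ^ 4 - ‖Rf a E x‖ ^ 2) ∧
      ‖Ft a μ M E l G ε C x‖ ≤ (b / (1 - M) * Real.exp (1 - b / (1 - M))) ^ 2 *
        Real.exp (-(2 / (1 - M) * d + 1 / (1 - M) * t + ε * ∑ g ∈ G,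
          (pr (fun n => (g n : ℂ) * l n) x - μ (fun n => (g n : ℂ) * l n)).re ^ 2)) ∧
      b ^ 2 * ‖Ft a μ M E l G ε C x‖ ≤ ‖Rf a E x‖ := by
  obtain ⟨hxs, hx1⟩ := hx
  have hA : 0 < 1 - M := by linarith
  have hM1 : M ≤ 1 := hM.le
  have hll : ∀ n, ‖l n‖ ≤ 1 := fun n => by
    by_cases hn : n ∈ E
    · rw [hl0 n hn, norm_zero]
      exact zero_le_one
    · exact (hl1 n hn).le
  have hnorm : ∀ n, ‖l n * x n‖ = ‖cut Eᶜ x n‖ := fun n => by
    unfold cut
    by_cases hn : n ∈ E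
    · rw [hl0 n hn, Set.indicator_of_notMem (by simpa using hn)]
      simp
    · rw [Set.indicator_of_mem (by simpa using hn), norm_mul, hl1 n hn, one_mul]
  have hsplit := mass_split (E := E) hxs
  have hmass : ∑' n, ‖l n * x n‖ = mass Eᶜ x := by
    unfold mass
    exact tsum_congr hnorm
  have hys : Summable fun n => ‖l n * x n‖ := by
    refine Summable.of_nonneg_of_le (fun n => norm_nonneg _) (fun n => ?_) hxs
    rw [norm_mul]
    exact mul_le_of_le_one_left (norm_nonneg _) (hll n)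
  have hb0 : 0 ≤ mass E x := tsum_nonneg fun n => norm_nonneg _
  have ha0 : 0 ≤ mass Eᶜ x := tsum_nonneg fun n => norm_nonneg _
  have hy1 : ∑' n, ‖l n * x n‖ ≤ 1 := by rw [hmass]; linarith
  obtain ⟨t, ht⟩ : ∃ t, t = mass Eᶜ x - (pr l x).re := ⟨_, rfl⟩
  obtain ⟨b, hb⟩ : ∃ b, b = mass E x := ⟨_, rfl⟩
  obtain ⟨d, hd⟩ : ∃ d, d = 1 - mass Eᶜ x - b := ⟨_, rfl⟩
  have ht0 : 0 ≤ t := by
    have h := re_nonneg hys
    rw [hmass] at h
    rw [ht]
    exact h
  have hd0 : 0 ≤ d := by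
    rw [hd, hb]
    linarith
  rw [← hb] at hb0
  have hprl : (pr l x).re - M = (1 - M) - b - d - t := by
    rw [hd, ht]
    ring
  have him : ∀ g : ℕ → ℝ, (∀ n, |g n| ≤ 1) → (pr (fun n => (g n : ℂ) * l n) x).im ^ 2 ≤ 2 * t := by
    intro g hg1
    have h := im_bound hys hy1 hg1
    have h2 : ∑' n, (g n : ℂ) * (l n * x n) = pr (fun n => (g n : ℂ) * l n) x := by
      unfold pr
      exact tsum_congr fun n => by ring
    rw [h2, hmass] at h
    rw [ht]
    exact h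
  have him1 : (pr l x).im ^ 2 ≤ 2 * t := by
    have h := him (fun _ => 1) (fun _ => by simp)
    simpa using h
  have hD : ∀ g ∈ G, (pr (fun n => (g n : ℂ) * l n) x - μ (fun n => (g n : ℂ) * l n)).im ^ 2 ≤
      4 * t + 4 * θ := by
    intro g hgG
    have h1 := him g (hg g hgG)
    have h2 := mean_im hμ hM1 hll (hg g hgG) hθ
    rw [Complex.sub_im]
    nlinarith [sq_nonneg ((pr (fun n => (g n : ℂ) * l n) x).im +
      (μ (fun n => (g n : ℂ) * l n)).im)]
  obtain ⟨hR, hs⟩ := hMt a ha E x hxs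
  rw [← hb] at hR hs
  obtain ⟨Q, hQ⟩ : ∃ Q, Q = ∑ g ∈ G,
    (pr (fun n => (g n : ℂ) * l n) x - μ (fun n => (g n : ℂ) * l n)).re ^ 2 := ⟨_, rfl⟩
  have hQ0 : 0 ≤ Q := by
    rw [hQ]
    exact Finset.sum_nonneg fun g _ => sq_nonneg _
  obtain ⟨u, hu⟩ : ∃ u, u = b / (1 - M) := ⟨_, rfl⟩
  have hu0 : 0 ≤ u := by rw [hu]; positivity
  have hub : b = u * (1 - M) := by rw [hu]; field_simp
  have hexp : -C + 2 / (1 - M) * ((pr l x).re - M) - ε * ∑ g ∈ G,
      ((pr (fun n => (g n : ℂ) * l n) x - μ (fun n => (g n : ℂ) * l n)).re ^ 2 -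
        (pr (fun n => (g n : ℂ) * l n) x - μ (fun n => (g n : ℂ) * l n)).im ^ 2) ≤
      2 * (1 - u) + -(2 / (1 - M) * d + 1 / (1 - M) * t + ε * Q) := by
    rw [Finset.sum_sub_distrib, ← hQ, hprl, hC]
    have h1 : ∑ g ∈ G, (pr (fun n => (g n : ℂ) * l n) x - μ (fun n => (g n : ℂ) * l n)).im ^ 2 ≤
        r * (4 * t + 4 * θ) := by
      calc _ ≤ ∑ g ∈ G, (4 * t + 4 * θ) := Finset.sum_le_sum hD
        _ = G.card * (4 * t + 4 * θ) := by rw [Finset.sum_const, nsmul_eq_mul]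
        _ ≤ _ := by
          refine mul_le_mul_of_nonneg_right ?_ (by linarith)
          exact_mod_cast hG
    have h2 : 2 / (1 - M) * (1 - M - b - d - t) = 2 * (1 - u) - 2 / (1 - M) * d -
        2 * (1 / (1 - M)) * t := by
      rw [hub]
      field_simp
    rw [h2]
    have h3 : ε * ∑ g ∈ G,
        (pr (fun n => (g n : ℂ) * l n) x - μ (fun n => (g n : ℂ) * l n)).im ^ 2 ≤
        ε * (r * (4 * t + 4 * θ)) := mul_le_mul_of_nonneg_left h1 hε.le
    have h4 : 4 * ε * r * t ≤ 1 / (1 - M) * t := mul_le_mul_of_nonneg_right hεr ht0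
    nlinarith
  have hF : ‖Ft a μ M E l G ε C x‖ ≤ Real.exp (2 * (1 - u)) *
      Real.exp (-(2 / (1 - M) * d + 1 / (1 - M) * t + ε * Q)) * (‖Rf a E x‖ / (1 - M) ^ 2) := by
    rw [ft_norm a μ hM, ← Real.exp_add]
    exact mul_le_mul_of_nonneg_right (Real.exp_le_exp.2 hexp) (by positivity)
  have he2 : Real.exp (2 * (1 - u)) = Real.exp (1 - u) ^ 2 := by
    rw [← Real.exp_nat_mul]
    congr 1
  have hX0 : 0 ≤ 2 / (1 - M) * d + 1 / (1 - M) * t + ε * Q := by positivity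
  obtain ⟨X, hX⟩ : ∃ X, X = 2 / (1 - M) * d + 1 / (1 - M) * t + ε * Q := ⟨_, rfl⟩
  rw [← hX] at hF hX0
  refine ⟨t, d, b, ht, hb, ht0, hd0, hb0, by linarith, hprl, him1, hD, hs, ?_, ?_⟩
  · rw [← hQ, ← hX, ← hu]
    refine hF.trans ?_
    have h1 : ‖Rf a E x‖ / (1 - M) ^ 2 ≤ u ^ 2 := by
      rw [div_le_iff₀ (by positivity), ← mul_pow, ← hub]
      exact hR
    calc Real.exp (2 * (1 - u)) * Real.exp (-X) * (‖Rf a E x‖ / (1 - M) ^ 2) ≤
          Real.exp (2 * (1 - u)) * Real.exp (-X) * u ^ 2 :=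
          mul_le_mul_of_nonneg_left h1 (by positivity)
      _ = _ := by
          rw [he2]
          ring
  · have h1 : Real.exp (-X) ≤ 1 := Real.exp_le_one_iff.2 (by linarith)
    have h2 : u * Real.exp (1 - u) ≤ 1 := uexp_le u
    have h3 : (u * Real.exp (1 - u)) ^ 2 ≤ 1 := by
      rw [sq_le_one_iff_abs_le_one, abs_of_nonneg (by positivity)]
      exact h2
    calc b ^ 2 * ‖Ft a μ M E l G ε C x‖ ≤ b ^ 2 * (Real.exp (2 * (1 - u)) *
          Real.exp (-X) * (‖Rf a E x‖ / (1 - M) ^ 2)) := mul_le_mul_of_nonneg_left hF (by positivity)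
      _ = (u * Real.exp (1 - u)) ^ 2 * Real.exp (-X) * ‖Rf a E x‖ := by
          rw [he2, hub]
          field_simp
      _ ≤ 1 * 1 * ‖Rf a E x‖ := by gcongr
      _ = ‖Rf a E x‖ := by ring

theorem test (hMt : S_Mantel) : S_Test := by
  intro a μ M ha hμ hM r τ hτ
  have hA : 0 < 1 - M := by linarith
  have hM0 := hμ.nonneg
  have hr0 : (0 : ℝ) ≤ r := Nat.cast_nonneg r
  obtain ⟨c, hc⟩ : ∃ c, c = 2 / (1 - M) := ⟨_, rfl⟩
  have hcA : 1 / (1 - M) = c / 2 := by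
    rw [hc]
    ring
  have hc2 : 2 ≤ c := by
    rw [hc, le_div_iff₀ hA]
    linarith
  obtain ⟨ε, hε⟩ : ∃ ε, ε = c / (8 * (r + 1)) := ⟨_, rfl⟩
  have hε0 : 0 < ε := by
    rw [hε]
    positivity
  have hεr' : ε * (8 * (r + 1)) = c := by
    rw [hε]
    field_simp
  have hεr : 4 * ε * r ≤ 1 / (1 - M) := by
    rw [hcA]
    nlinarith
  obtain ⟨K, hK⟩ : ∃ K, K = 1 + 8 * c + 2 * r + 12 * ε * r := ⟨_, rfl⟩
  have hεr0 : 0 ≤ 12 * ε * r := by positivity
  have hK1 : 1 ≤ K := by rw [hK]; nlinarith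
  obtain ⟨K2, hK2⟩ : ∃ K2, K2 = 2 / ε + 12 := ⟨_, rfl⟩
  have hK21 : 1 ≤ K2 := by
    have : 0 < 2 / ε := by positivity
    rw [hK2]
    linarith
  obtain ⟨σ, hσ0, hσ1, hσ2, hσ3, hσ4, hσ5⟩ : ∃ σ : ℝ, 0 < σ ∧ σ ≤ 1 / 2 ∧ 3 * σ ≤ τ ^ 2 ∧
      σ * K2 ≤ τ ∧ 5 * K * σ ≤ τ ∧ 5 * K * σ ≤ 1 := by
    refine ⟨min (min (1 / 2) (τ ^ 2 / 3)) (min (τ / K2) (min (τ / (5 * K)) (1 / (5 * K)))),
      by positivity, ?_, ?_, ?_, ?_, ?_⟩
    · exact (min_le_left _ _).trans (min_le_left _ _)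
    · have h := (min_le_left (min (1 / 2) (τ ^ 2 / 3))
        (min (τ / K2) (min (τ / (5 * K)) (1 / (5 * K))))).trans (min_le_right _ _)
      linarith
    · rw [← le_div_iff₀ (by linarith)]
      exact (min_le_right _ _).trans (min_le_left _ _)
    · rw [mul_comm, ← le_div_iff₀ (by linarith)]
      exact (min_le_right _ _).trans ((min_le_right _ _).trans (min_le_left _ _))
    · rw [mul_comm, ← le_div_iff₀ (by linarith)]
      exact (min_le_right _ _).trans ((min_le_right _ _).trans (min_le_right _ _))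
  obtain ⟨δ, hδ⟩ : ∃ δ, δ = σ ^ 2 := ⟨_, rfl⟩
  have hδ0 : 0 < δ := by rw [hδ]; positivity
  have hδσ : δ ≤ σ / 2 := by rw [hδ]; nlinarith
  have hδ1 : δ ≤ 1 / 2 := by linarith
  have hστ : σ ≤ τ := by nlinarith
  refine ⟨ε, δ, hε0, hδ0, fun κ hκ => ?_⟩
  obtain ⟨θ, hθ0, hθδ, hθC⟩ : ∃ θ : ℝ, 0 < θ ∧ θ ≤ δ ∧ 4 * r * ε * θ ≤ min κ δ := by
    have h1 : 0 < min κ δ := lt_min hκ hδ0
    have h2 : 0 < 4 * r * ε + 1 := by positivity
    refine ⟨min δ (min κ δ / (4 * r * ε + 1)), by positivity, min_le_left _ _, ?_⟩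
    have h3 := min_le_right δ (min κ δ / (4 * r * ε + 1))
    have h4 : 0 < min δ (min κ δ / (4 * r * ε + 1)) := by positivity
    rw [le_div_iff₀ h2] at h3
    nlinarith
  obtain ⟨C, hC⟩ : ∃ C, C = 4 * r * ε * θ := ⟨_, rfl⟩
  have hC0 : 0 ≤ C := by rw [hC]; positivity
  rw [← hC] at hθC
  have hCδ : C ≤ δ := hθC.trans (min_le_right _ _)
  refine ⟨θ, C, hθ0, hC0, hθC.trans (min_le_left _ _), ?_⟩
  intro E l G hG hg hl0 hl1 hθ
  constructor
  · intro x hx
    obtain ⟨t, d, b, _, _, ht0, hd0, hb0, _, _, _, _, _, hF, _⟩ :=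
      basic hMt ha hμ hM hε0 hεr hC hθ0.le hG hg hl0 hl1 hθ hx
    refine hF.trans ?_
    have h3 : (b / (1 - M) * Real.exp (1 - b / (1 - M))) ^ 2 ≤ 1 := by
      rw [sq_le_one_iff_abs_le_one, abs_of_nonneg (by positivity)]
      exact uexp_le _
    have h4 : Real.exp (-(2 / (1 - M) * d + 1 / (1 - M) * t + ε * ∑ g ∈ G,
        (pr (fun n => (g n : ℂ) * l n) x - μ (fun n => (g n : ℂ) * l n)).re ^ 2)) ≤ 1 := by
      rw [Real.exp_le_one_iff, neg_nonpos]
      have h5 : 0 ≤ ∑ g ∈ G,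
        (pr (fun n => (g n : ℂ) * l n) x - μ (fun n => (g n : ℂ) * l n)).re ^ 2 :=
        Finset.sum_nonneg fun g _ => sq_nonneg _
      positivity
    calc _ ≤ (1 : ℝ) * 1 := by gcongr
      _ = 1 := mul_one 1
  · intro x hx hFδ
    obtain ⟨t, d, b, ht, hb, ht0, hd0, hb0, hb1, hprl, him, hD, hs, hF, hbF⟩ :=
      basic hMt ha hμ hM hε0 hεr hC hθ0.le hG hg hl0 hl1 hθ hx
    rw [← ht]
    obtain ⟨D, hDd⟩ : ∃ D : (ℕ → ℝ) → ℂ,
      ∀ g, D g = pr (fun n => (g n : ℂ) * l n) x - μ (fun n => (g n : ℂ) * l n) := ⟨_, fun _ => rfl⟩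
    simp only [← hDd] at hD hF ⊢
    obtain ⟨u, hu⟩ : ∃ u, u = b / (1 - M) := ⟨_, rfl⟩
    have hu0 : 0 ≤ u := by rw [hu]; positivity
    have hub : b = u * (1 - M) := by rw [hu]; field_simp
    obtain ⟨Q, hQ⟩ : ∃ Q, Q = ∑ g ∈ G, (D g).re ^ 2 := ⟨_, rfl⟩
    have hQ0 : 0 ≤ Q := by
      rw [hQ]
      exact Finset.sum_nonneg fun g _ => sq_nonneg _
    obtain ⟨F, hFd⟩ : ∃ F, F = Ft a μ M E l G ε C x := ⟨_, rfl⟩
    obtain ⟨R, hR⟩ : ∃ R, R = Rf a E x := ⟨_, rfl⟩
    rw [← hFd] at hF hbF hFδ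
    rw [← hR] at hbF hs
    rw [← hu, ← hQ, ← hc, hcA] at hF
    obtain ⟨X, hX⟩ : ∃ X, X = c * d + c / 2 * t + ε * Q := ⟨_, rfl⟩
    have hX0 : 0 ≤ X := by rw [hX]; positivity
    rw [← hX] at hF
    have hF1 : 1 - δ ≤ ‖F‖ := by
      have h1 := norm_sub_norm_le (1 : ℂ) F
      rw [norm_one, norm_sub_rev] at h1
      linarith
    have hv0 : 0 ≤ u * Real.exp (1 - u) := by positivity
    have hv1 := uexp_le u
    have hv2 : (u * Real.exp (1 - u)) ^ 2 ≤ u * Real.exp (1 - u) :=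
      pow_le_of_le_one hv0 hv1 two_ne_zero
    have hE0 := Real.exp_pos (-X)
    have hE1 : Real.exp (-X) ≤ 1 := Real.exp_le_one_iff.2 (by linarith)
    have hE2 : Real.exp (-X) * (1 + X) ≤ 1 := by
      have h1 := Real.add_one_le_exp X
      have h2 : Real.exp (-X) * Real.exp X = 1 := by
        rw [← Real.exp_add]
        simp
      rw [← h2]
      exact mul_le_mul_of_nonneg_left (by linarith) hE0.le
    have hXδ : X ≤ 2 * δ := by
      have h1 : 1 - δ ≤ Real.exp (-X) := by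
        refine hF1.trans (hF.trans ?_)
        exact mul_le_of_le_one_left hE0.le (hv2.trans hv1)
      have h2 : (1 - δ) * (1 + X) ≤ 1 :=
        (mul_le_mul_of_nonneg_right h1 (by linarith)).trans hE2
      have h3 : δ * X ≤ 1 / 2 * X := mul_le_mul_of_nonneg_right hδ1 hX0
      have h4 : (1 - δ) * (1 + X) = 1 + X - δ - δ * X := by ring
      rw [h4] at h2
      linarith
    have hvδ : 1 - δ ≤ u * Real.exp (1 - u) := by
      refine hF1.trans (hF.trans ?_)
      have : (u * Real.exp (1 - u)) ^ 2 * Real.exp (-X) ≤ (u * Real.exp (1 - u)) ^ 2 :=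
        mul_le_of_le_one_right (by positivity) hE1
      linarith
    have hεQ : 0 ≤ ε * Q := by positivity
    have hcd0 : 0 ≤ c * d := by positivity
    have hct0 : 0 ≤ c / 2 * t := by positivity
    have htδ : t ≤ 2 * δ := by
      have h1 : 1 * t ≤ c / 2 * t := mul_le_mul_of_nonneg_right (by linarith) ht0
      linarith
    have hdδ : d ≤ δ := by
      have h1 : 2 * d ≤ c * d := mul_le_mul_of_nonneg_right hc2 hd0
      linarith
    have hQδ : Q ≤ 2 * δ / ε := by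
      rw [le_div_iff₀ hε0]
      linarith
    -- the mass on `E`
    have hbA : (b - (1 - M)) ^ 2 ≤ 8 * δ := by
      have h1 := uexp_stab hu0 hδ1 hvδ
      have h2 : (b - (1 - M)) ^ 2 = (1 - M) ^ 2 * (u - 1) ^ 2 := by
        rw [hub]
        ring
      rw [h2]
      calc (1 - M) ^ 2 * (u - 1) ^ 2 ≤ (1 - M) ^ 2 * (8 * δ * u) :=
            mul_le_mul_of_nonneg_left h1 (by positivity)
        _ = 8 * δ * ((1 - M) * b) := by rw [hub]; ring
        _ ≤ 8 * δ * (1 * 1) := by gcongr; linarith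
        _ = 8 * δ := by ring
    have hbA' : |b - (1 - M)| ≤ 3 * σ := by
      refine abs_le_of_sq_le_sq ?_ (by positivity)
      rw [hδ] at hbA
      have h1 : (3 * σ) ^ 2 = 9 * σ ^ 2 := by ring
      have h2 := sq_nonneg σ
      rw [h1]
      linarith
    -- the components
    have hDn : ∀ g ∈ G, ‖D g‖ ^ 2 ≤ 2 * δ / ε + 12 * δ := by
      intro g hgG
      have h1 : (D g).re ^ 2 ≤ Q := by
        rw [hQ]
        exact Finset.single_le_sum (f := fun g => (D g).re ^ 2) (fun g _ => sq_nonneg _) hgG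
      have h2 := hD g hgG
      rw [Complex.sq_norm, Complex.normSq_apply, ← sq, ← sq]
      linarith
    refine ⟨by linarith, ?_, ?_, ?_⟩
    · -- the sum
      have h1 : ((1 - δ) * b ^ 2) ^ 2 ≤ ‖R‖ ^ 2 := by
        refine pow_le_pow_left₀ (mul_nonneg (by linarith) (by positivity)) ?_ 2
        refine le_trans ?_ hbF
        rw [mul_comm]
        exact mul_le_mul_of_nonneg_left hF1 (by positivity)
      have h2 : ‖∑' n, cut E x n‖ ^ 4 ≤ 8 * δ := by
        have h3 : b ^ 4 ≤ 1 := pow_le_one₀ hb0 hb1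
        have h4 : 4 * (b ^ 4 - ((1 - δ) * b ^ 2) ^ 2) = 4 * b ^ 4 * (1 - (1 - δ) ^ 2) := by ring
        have h5 : 1 - (1 - δ) ^ 2 ≤ 2 * δ := by
          have h7 : 1 - (1 - δ) ^ 2 = 2 * δ - δ ^ 2 := by ring
          have h8 := sq_nonneg δ
          rw [h7]
          linarith
        have h6 : 0 ≤ b ^ 4 := by positivity
        calc ‖∑' n, cut E x n‖ ^ 4 ≤ 4 * (b ^ 4 - ((1 - δ) * b ^ 2) ^ 2) := by linarith
          _ = 4 * b ^ 4 * (1 - (1 - δ) ^ 2) := h4
          _ ≤ 4 * b ^ 4 * (2 * δ) := mul_le_mul_of_nonneg_left h5 (by positivity)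
          _ ≤ 4 * 1 * (2 * δ) := by gcongr
          _ = 8 * δ := by ring
      have h3 : ‖∑' n, cut E x n‖ ^ 4 ≤ τ ^ 4 := by
        refine h2.trans ?_
        rw [hδ]
        have h4 : (3 * σ) ^ 2 ≤ (τ ^ 2) ^ 2 := pow_le_pow_left₀ (by positivity) hσ2 2
        have h5 : (3 * σ) ^ 2 = 9 * σ ^ 2 := by ring
        have h6 : (τ ^ 2) ^ 2 = τ ^ 4 := by ring
        have h7 := sq_nonneg σ
        rw [h5, h6] at h4
        linarith
      exact le_of_pow_le_pow_left₀ (by norm_num) hτ.le h3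
    · -- the quadratic form
      rw [← hR]
      obtain ⟨w, hw⟩ : ∃ w : ℂ, w = ((-C : ℝ) : ℂ) + (c : ℂ) * (pr l x - (M : ℂ)) -
        (ε : ℂ) * ∑ g ∈ G, (D g) ^ 2 := ⟨_, rfl⟩
      have hFw : F = Complex.exp w * (R / ((1 - M : ℝ) : ℂ) ^ 2) := by
        rw [hFd, hw, hR, hc]
        simp only [hDd]
        rfl
      have hp : ‖pr l x - (M : ℂ)‖ ≤ 8 * σ := by
        refine (Complex.norm_le_abs_re_add_abs_im _).trans ?_
        have h1 : (pr l x - (M : ℂ)).re = (1 - M) - b - d - t := by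
          rw [Complex.sub_re, Complex.ofReal_re]
          exact hprl
        have h2 : (pr l x - (M : ℂ)).im = (pr l x).im := by
          rw [Complex.sub_im, Complex.ofReal_im, sub_zero]
        rw [h1, h2]
        have h3 : |(pr l x).im| ≤ 2 * σ := by
          refine abs_le_of_sq_le_sq ?_ (by positivity)
          rw [hδ] at htδ
          have h4 : (2 * σ) ^ 2 = 4 * σ ^ 2 := by ring
          rw [h4]
          linarith
        have h4 : |(1 - M) - b - d - t| ≤ 6 * σ := by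
          rw [abs_le] at hbA' ⊢
          constructor <;> linarith
        linarith
      have hSD : ‖∑ g ∈ G, (D g) ^ 2‖ ≤ r * (2 * δ / ε + 12 * δ) := by
        calc ‖∑ g ∈ G, (D g) ^ 2‖ ≤ ∑ g ∈ G, ‖(D g) ^ 2‖ := norm_sum_le _ _
          _ ≤ ∑ g ∈ G, (2 * δ / ε + 12 * δ) := Finset.sum_le_sum fun g hgG => by
              rw [norm_pow]
              exact hDn g hgG
          _ = G.card * (2 * δ / ε + 12 * δ) := by rw [Finset.sum_const, nsmul_eq_mul]
          _ ≤ _ := by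
              refine mul_le_mul_of_nonneg_right ?_ (by positivity)
              exact_mod_cast hG
      have hwn : ‖w‖ ≤ σ * K := by
        have h1 : ‖w‖ ≤ C + c * (8 * σ) + ε * (r * (2 * δ / ε + 12 * δ)) := by
          rw [hw]
          refine (norm_sub_le _ _).trans (add_le_add ((norm_add_le _ _).trans
            (add_le_add ?_ ?_)) ?_)
          · rw [Complex.norm_real, norm_neg, Real.norm_of_nonneg hC0]
          · rw [norm_mul, Complex.norm_real, Real.norm_of_nonneg (by linarith)]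
            gcongr
          · rw [norm_mul, Complex.norm_real, Real.norm_of_nonneg hε0.le]
            gcongr
        have h2 : ε * (r * (2 * δ / ε + 12 * δ)) = (2 * r + 12 * ε * r) * δ := by
          field_simp
        rw [h2] at h1
        have h3 : (2 * r + 12 * ε * r) * δ ≤ (2 * r + 12 * ε * r) * σ :=
          mul_le_mul_of_nonneg_left (by linarith) (by positivity)
        have h4 : σ * K = σ + c * (8 * σ) + (2 * r + 12 * ε * r) * σ := by
          rw [hK]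
          ring
        rw [h4]
        linarith
      have hw1 : ‖-w‖ ≤ 1 := by
        rw [norm_neg]
        have h10 : 0 ≤ σ * K := by positivity
        have h11 : 5 * K * σ = 5 * (σ * K) := by ring
        rw [h11] at hσ5
        linarith
      have he := Complex.norm_exp_sub_one_le hw1
      rw [norm_neg] at he
      have hRw : R / ((1 - M : ℝ) : ℂ) ^ 2 = F * Complex.exp (-w) := by
        rw [hFw]
        have : Complex.exp w * Complex.exp (-w) = 1 := by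
          rw [← Complex.exp_add]
          simp
        calc R / ((1 - M : ℝ) : ℂ) ^ 2 = (Complex.exp w * Complex.exp (-w)) *
              (R / ((1 - M : ℝ) : ℂ) ^ 2) := by rw [this, one_mul]
          _ = _ := by ring
      have hAc : ((1 - M : ℝ) : ℂ) ≠ 0 := by
        exact_mod_cast hA.ne'
      have h5 : R - ((1 - M : ℝ) : ℂ) ^ 2 = ((1 - M : ℝ) : ℂ) ^ 2 *
          ((F - 1) * Complex.exp (-w) + (Complex.exp (-w) - 1)) := by
        have h6 : R = ((1 - M : ℝ) : ℂ) ^ 2 * (F * Complex.exp (-w)) := by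
          rw [← hRw]
          field_simp
        rw [h6]
        ring
      rw [h5, norm_mul, norm_pow, Complex.norm_real, Real.norm_of_nonneg hA.le]
      have h7 : ‖Complex.exp (-w)‖ ≤ 3 := by
        have h8 : Complex.exp (-w) = (Complex.exp (-w) - 1) + 1 := by ring
        rw [h8]
        refine (norm_add_le _ _).trans ?_
        rw [norm_one]
        rw [norm_neg] at hw1
        linarith
      have h8 : ‖(F - 1) * Complex.exp (-w) + (Complex.exp (-w) - 1)‖ ≤ δ * 3 + 2 * ‖w‖ := by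
        refine (norm_add_le _ _).trans (add_le_add ?_ he)
        rw [norm_mul]
        exact mul_le_mul hFδ h7 (norm_nonneg _) hδ0.le
      have h9 : (1 - M) ^ 2 ≤ 1 := pow_le_one₀ hA.le (by linarith)
      calc (1 - M) ^ 2 * ‖(F - 1) * Complex.exp (-w) + (Complex.exp (-w) - 1)‖ ≤
            1 * (δ * 3 + 2 * ‖w‖) := mul_le_mul h9 h8 (norm_nonneg _) zero_le_one
        _ ≤ τ := by
            have h10 : σ ≤ σ * K := le_mul_of_one_le_right hσ0.le hK1
            have h11 : 5 * K * σ = 5 * (σ * K) := by ring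
            rw [h11] at hσ4
            linarith
    · intro g hgG
      have h1 := hDn g hgG
      refine abs_le_of_sq_le_sq' (h1.trans ?_) hτ.le |>.2
      have h2 : 2 * δ / ε + 12 * δ = K2 * σ ^ 2 := by
        rw [hK2, hδ]
        ring
      rw [h2]
      calc K2 * σ ^ 2 ≤ K2 * K2 * σ ^ 2 := by
            refine mul_le_mul_of_nonneg_right ?_ (by positivity)
            exact le_mul_of_one_le_left (by linarith) hK21
        _ = (σ * K2) ^ 2 := by ring
        _ ≤ τ ^ 2 := pow_le_pow_left₀ (by positivity) hσ3 2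

end Pool.Agent.NH62.SB.Test
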