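import Pool.Agent.NH62.SB.Abs
import Pool.Agent.NH62.SB.Bishop

/-!
Intersections of peak sets contain strong boundary points.
-/

set_option autoImplicit false

open Metric Set Filter Topology
open scoped ENNReal BoundedContinuousFunction

namespace Pool.Agent.NH62.SB.Zorn

open Pool.Agent.NH62.SB
open Pool.Agent.NH62.SB.Bishop (w w_pos w_hasSum w_anti w_sum w_tail)

section

variable {A : Type} [NormedCommRing A] [NormedAlgebra ℂ A] [CompleteSpace A] [NormOneClass A]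

/-- weak peak sets -/
def PSet (S : Set (WeakDual.characterSpace ℂ A)) : Prop :=
  S.Nonempty ∧ IsClosed S ∧ ∀ U : Set (WeakDual.characterSpace ℂ A), IsOpen U → S ⊆ U →
    ∀ ε : ℝ, 0 < ε → ∃ f : A, ‖f‖ ≤ 1 ∧ (∀ ψ ∈ S, ψ f = 1) ∧ ∀ ψ ∉ U, ‖ψ f‖ < ε

lemma cont (a : A) : Continuous (fun ψ : WeakDual.characterSpace ℂ A => ψ a) :=
  (WeakDual.eval_continuous (𝕜 := ℂ) a).comp continuous_subtype_val

lemma half_lt {z : ℂ} (hz : ‖z‖ ≤ 1) (h1 : z ≠ 1) : ‖(1 + z) / 2‖ < 1 := by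
  by_contra hcon
  push Not at hcon
  rw [norm_div, Complex.norm_ofNat, le_div_iff₀ (by norm_num)] at hcon
  have h2 : ‖1 + z‖ ^ 2 ≥ 4 := by nlinarith [norm_nonneg (1 + z)]
  rw [Complex.sq_norm, Complex.normSq_apply] at h2
  have h3 : ‖z‖ ^ 2 ≤ 1 := by nlinarith [norm_nonneg z]
  rw [Complex.sq_norm, Complex.normSq_apply] at h3
  simp only [Complex.add_re, Complex.one_re, Complex.add_im, Complex.one_im, zero_add] at h2
  have h4 : z.re = 1 := by nlinarith [sq_nonneg z.im, sq_nonneg (z.re - 1)]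
  have h5 : z.im = 0 := by
    have : z.im * z.im ≤ 0 := by rw [h4] at h3; linarith
    nlinarith [sq_nonneg z.im]
  exact h1 (Complex.ext h4 h5)

lemma half_le {z : ℂ} (hz : ‖z‖ ≤ 1) : ‖(1 + z) / 2‖ ≤ 1 := by
  rw [norm_div, Complex.norm_ofNat, div_le_iff₀ (by norm_num)]
  refine (norm_add_le _ _).trans ?_
  rw [norm_one]
  linarith

/-- powers of an element small on a compact set -/
lemma exists_pow (K : Set (WeakDual.characterSpace ℂ A)) (hK : IsClosed K) (f : A)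
    (hf : ∀ ψ ∈ K, ‖ψ f‖ < 1) (ε : ℝ) (hε : 0 < ε) :
    ∃ n : ℕ, ∀ ψ ∈ K, ‖ψ (f ^ n)‖ < ε := by
  rcases K.eq_empty_or_nonempty with h | h
  · exact ⟨0, fun ψ hψ => by rw [h] at hψ; exact absurd hψ (Set.notMem_empty _)⟩
  · obtain ⟨ψ0, h0, hmax⟩ := hK.isCompact.exists_isMaxOn h ((cont f).norm.continuousOn)
    have hq := hf ψ0 h0
    obtain ⟨n, hn⟩ := exists_pow_lt_of_lt_one hε hq
    refine ⟨n, fun ψ hψ => ?_⟩
    rw [map_pow, norm_pow]
    refine lt_of_le_of_lt ?_ hn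
    exact pow_le_pow_left₀ (norm_nonneg _) (hmax hψ) n

lemma pset_of_peak (φ : WeakDual.characterSpace ℂ A) (P : Set A)
    (hP : ∀ F ∈ P, ‖F‖ ≤ 1 ∧ φ F = 1) :
    PSet {ψ : WeakDual.characterSpace ℂ A | ∀ F ∈ P, ψ F = 1} := by
  classical
  refine ⟨⟨φ, fun F hF => (hP F hF).2⟩, ?_, fun U hU hSU ε hε => ?_⟩
  · have e : {ψ : WeakDual.characterSpace ℂ A | ∀ F ∈ P, ψ F = 1} =
        ⋂ F ∈ P, {ψ : WeakDual.characterSpace ℂ A | ψ F = 1} := by
      ext ψ; simp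
    rw [e]
    exact isClosed_biInter fun F _ => isClosed_eq (cont F) continuous_const
  · -- finitely many
    have hcomp : IsCompact Uᶜ := hU.isClosed_compl.isCompact
    obtain ⟨t, ht⟩ := hcomp.elim_finite_subcover
      (fun F : P => {ψ : WeakDual.characterSpace ℂ A | ψ F.1 ≠ 1})
      (fun F => isOpen_ne_fun (cont F.1) continuous_const) (by
        intro ψ hψ
        by_contra hcon
        rw [mem_iUnion] at hcon
        push Not at hcon
        refine hψ (hSU fun F hF => ?_)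
        by_contra h
        exact hcon ⟨F, hF⟩ h)
    set g : P → A := fun F => (2⁻¹ : ℂ) • (1 + F.1) with hg
    have hgn : ∀ F, ‖g F‖ ≤ 1 := fun F => by
      rw [hg]
      refine (norm_smul_le _ _).trans ?_
      have h1 : ‖(1 : A) + F.1‖ ≤ 2 := by
        refine (norm_add_le _ _).trans ?_
        rw [norm_one]
        linarith [(hP F.1 F.2).1]
      rw [norm_inv, Complex.norm_ofNat]
      linarith
    have hgv : ∀ (F : P) (ψ : WeakDual.characterSpace ℂ A), ψ (g F) = (1 + ψ F.1) / 2 := fun F ψ => by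
      rw [hg]
      simp only [map_smul, map_add, map_one, smul_eq_mul]
      ring
    set f0 : A := ∏ F ∈ t, g F with hf0
    have hf0n : ‖f0‖ ≤ 1 := by
      rw [hf0]
      refine (Finset.norm_prod_le _ _).trans ?_
      exact Finset.prod_le_one (fun _ _ => norm_nonneg _) fun F _ => hgn F
    have hf0v : ∀ ψ ∈ Uᶜ, ‖ψ f0‖ < 1 := by
      intro ψ hψ
      have h1 := ht hψ
      rw [mem_iUnion₂] at h1
      obtain ⟨F, hF, h2⟩ := h1
      have h3 : ∀ G : P, ‖ψ (g G)‖ ≤ 1 := fun G =>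
        (AlgHom.norm_apply_le_self ψ (g G)).trans (hgn G)
      rw [hf0, map_prod, norm_prod, ← Finset.mul_prod_erase t _ hF]
      have h4 : ‖ψ (g F)‖ < 1 := by
        rw [hgv]
        exact half_lt ((AlgHom.norm_apply_le_self ψ F.1).trans (hP F.1 F.2).1) h2
      have h5 : ∏ G ∈ t.erase F, ‖ψ (g G)‖ ≤ 1 :=
        Finset.prod_le_one (fun _ _ => norm_nonneg _) fun G _ => h3 G
      have h6 : 0 ≤ ∏ G ∈ t.erase F, ‖ψ (g G)‖ := Finset.prod_nonneg fun _ _ => norm_nonneg _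
      calc ‖ψ (g F)‖ * ∏ G ∈ t.erase F, ‖ψ (g G)‖ ≤ ‖ψ (g F)‖ * 1 :=
            mul_le_mul_of_nonneg_left h5 (norm_nonneg _)
        _ < 1 := by rw [mul_one]; exact h4
    obtain ⟨n, hn⟩ := exists_pow Uᶜ hU.isClosed_compl f0 hf0v ε hε
    refine ⟨f0 ^ n, (norm_pow_le f0 n).trans (pow_le_one₀ (norm_nonneg _) hf0n), fun ψ hψ => ?_,
      fun ψ hψ => hn ψ hψ⟩
    rw [map_pow, hf0, map_prod, Finset.prod_eq_one, one_pow]
    intro F _
    rw [hgv, hψ F.1 F.2]
    norm_num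

lemma pset_chain (c : Set (Set (WeakDual.characterSpace ℂ A))) (hc : ∀ S ∈ c, PSet S)
    (hchain : IsChain (· ⊆ ·) c) (hne : c.Nonempty) : PSet (⋂₀ c) := by
  have hdir : DirectedOn (· ⊇ ·) c := by
    intro s hs t ht
    rcases hchain.total hs ht with h | h
    · exact ⟨s, hs, subset_rfl, h⟩
    · exact ⟨t, ht, h, subset_rfl⟩
  haveI : Nonempty c := hne.to_subtype
  refine ⟨?_, isClosed_sInter fun S hS => (hc S hS).2.1, fun U hU hSU ε hε => ?_⟩
  · exact IsCompact.nonempty_sInter_of_directed_nonempty_isCompact_isClosed hdir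
      (fun S hS => (hc S hS).1) (fun S hS => (hc S hS).2.1.isCompact) (fun S hS => (hc S hS).2.1)
  · obtain ⟨⟨S, hS⟩, hSub⟩ := exists_subset_nhds_of_compactSpace (V := fun s : c => (s : Set _))
      (DirectedOn.directed_val hdir) (fun s => (hc s.1 s.2).2.1) (U := U) (by
        intro x hx
        refine hU.mem_nhds (hSU ?_)
        rw [sInter_eq_iInter]
        exact hx)
    obtain ⟨f, h1, h2, h3⟩ := (hc S hS).2.2 U hU hSub ε hε
    exact ⟨f, h1, fun ψ hψ => h2 ψ (hψ S hS), h3⟩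

/-- the estimate for the series -/
lemma series {ε : ℝ} (hε : 0 < ε) (hε1 : ε ≤ 1) (z : ℂ) (B : ℝ) (hB : ‖z‖ ≤ B) (c : ℕ → ℂ)
    (hc1 : ∀ n, ‖c n‖ ≤ 1) (V : Prop)
    (hc : ∀ n, ¬ (‖z‖ < 1 + w n / 4 ∧ (V ∨ ‖z‖ < ε / 2)) → ‖c n‖ ≤ w n * ε / (8 * (1 + B))) :
    ‖z * ∑' n, (w n : ℂ) * c n‖ ≤ 1 ∧ (¬ V → ‖z * ∑' n, (w n : ℂ) * c n‖ < ε) := by
  have hB0 : 0 ≤ B := (norm_nonneg _).trans hB
  have hs : Summable (fun n => w n * ‖c n‖) :=
    Summable.of_nonneg_of_le (fun n => mul_nonneg (w_pos n).le (norm_nonneg _))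
      (fun n => mul_le_mul_of_nonneg_left (hc1 n) (w_pos n).le) (w_hasSum.summable.mul_right _)
  have hnorm : ‖∑' n, (w n : ℂ) * c n‖ ≤ ∑' n, w n * ‖c n‖ := by
    have e : ∀ n, ‖(w n : ℂ) * c n‖ = w n * ‖c n‖ := fun n => by
      rw [norm_mul, Complex.norm_real, Real.norm_eq_abs, abs_of_pos (w_pos n)]
    have hs' : Summable (fun n => ‖(w n : ℂ) * c n‖) := by
      simp_rw [e]; exact hs
    refine (norm_tsum_le_tsum_norm hs').trans (le_of_eq ?_)
    exact tsum_congr e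
  rw [norm_mul]
  have h01 : ∑' n, w n * ‖c n‖ ≤ 1 := by
    have h1 : ∑' n, w n * ‖c n‖ ≤ ∑' n, w n * 1 :=
      hs.tsum_le_tsum (fun n => mul_le_mul_of_nonneg_left (hc1 n) (w_pos n).le)
        (w_hasSum.summable.mul_right _)
    rwa [tsum_mul_right, w_hasSum.tsum_eq, mul_one] at h1
  have hz0 := norm_nonneg z
  by_cases hall : ∀ n, ‖z‖ < 1 + w n / 4 ∧ (V ∨ ‖z‖ < ε / 2)
  · have hz1 : ‖z‖ ≤ 1 := by
      have h1 : Tendsto (fun n => 1 + w n / 4) atTop (𝓝 (1 + 0 / 4)) :=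
        (w_hasSum.summable.tendsto_atTop_zero.div_const 4).const_add 1
      have := ge_of_tendsto' h1 fun n => (hall n).1.le
      linarith
    refine ⟨?_, fun hV => ?_⟩
    · calc ‖z‖ * ‖∑' n, (w n : ℂ) * c n‖ ≤ 1 * 1 :=
          mul_le_mul hz1 (hnorm.trans h01) (norm_nonneg _) (by norm_num)
        _ = 1 := by norm_num
    · have h1 : ‖z‖ < ε / 2 := (hall 0).2.resolve_left hV
      calc ‖z‖ * ‖∑' n, (w n : ℂ) * c n‖ ≤ ε / 2 * 1 :=
          mul_le_mul h1.le (hnorm.trans h01) (norm_nonneg _) (by positivity)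
        _ < ε := by linarith
  · push Not at hall
    classical
    have hex : ∃ n, ¬ (‖z‖ < 1 + w n / 4 ∧ (V ∨ ‖z‖ < ε / 2)) := by
      obtain ⟨n, hn⟩ := hall
      refine ⟨n, fun h => ?_⟩
      obtain ⟨h1, h2⟩ := hn h.1
      rcases h.2 with h3 | h3
      · exact h1 h3
      · linarith
    obtain ⟨m, hm1, hm2⟩ : ∃ m, ¬ (‖z‖ < 1 + w m / 4 ∧ (V ∨ ‖z‖ < ε / 2)) ∧
        ∀ n, n < m → (‖z‖ < 1 + w n / 4 ∧ (V ∨ ‖z‖ < ε / 2)) :=
      ⟨Nat.find hex, Nat.find_spec hex, fun n hn => by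
        have := Nat.find_min hex hn
        push Not at this
        exact not_not.1 (Nat.find_min hex hn)⟩
    have htail : ∀ n, m ≤ n → ‖z‖ * ‖c n‖ ≤ w m * (ε / 8) := by
      intro n hn
      have h1 : ¬ (‖z‖ < 1 + w n / 4 ∧ (V ∨ ‖z‖ < ε / 2)) := by
        rintro ⟨h1, h2⟩
        exact hm1 ⟨lt_of_lt_of_le h1 (by linarith [w_anti hn]), h2⟩
      have h2 := hc n h1
      have h3 : 0 < 8 * (1 + B) := by positivity
      calc ‖z‖ * ‖c n‖ ≤ B * (w n * ε / (8 * (1 + B))) :=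
            mul_le_mul hB h2 (norm_nonneg _) hB0
        _ = (B / (1 + B)) * (w n * (ε / 8)) := by field_simp
        _ ≤ 1 * (w m * (ε / 8)) := by
            refine mul_le_mul ?_ (mul_le_mul_of_nonneg_right (w_anti hn) (by positivity))
              (by have := w_pos n; positivity) (by norm_num)
            rw [div_le_one (by positivity)]
            linarith
        _ = _ := one_mul _
    have hwm := w_pos m
    have hwm2 : w m ≤ 1 / 2 := by
      have := w_anti (Nat.zero_le m)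
      have e : w 0 = 1 / 2 := by unfold w; norm_num
      rw [e] at this
      exact this
    have hsplit : ‖z‖ * ∑' n, w n * ‖c n‖ ≤
        ‖z‖ * (1 - 2 * w m) + 2 * w m * (w m * (ε / 8)) := by
      rw [← hs.sum_add_tsum_nat_add m, mul_add]
      refine add_le_add ?_ ?_
      · refine mul_le_mul_of_nonneg_left ?_ hz0
        rw [← w_sum]
        refine Finset.sum_le_sum fun i _ => ?_
        calc w i * ‖c i‖ ≤ w i * 1 := mul_le_mul_of_nonneg_left (hc1 i) (w_pos i).le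
          _ = w i := mul_one _
      · rw [← tsum_mul_left]
        have h1 : ∑' i, w (i + m) = 2 * w m := by
          have h := w_hasSum.summable.sum_add_tsum_nat_add m
          rw [w_hasSum.tsum_eq, w_sum] at h
          linarith
        rw [← h1, ← tsum_mul_right]
        refine Summable.tsum_le_tsum (fun i => ?_) ?_ ?_
        · calc ‖z‖ * (w (i + m) * ‖c (i + m)‖) = w (i + m) * (‖z‖ * ‖c (i + m)‖) := by ring
            _ ≤ w (i + m) * (w m * (ε / 8)) :=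
              mul_le_mul_of_nonneg_left (htail _ (by omega)) (w_pos _).le
        · exact ((summable_nat_add_iff (f := fun n => w n * ‖c n‖) m).2 hs).mul_left _
        · exact ((summable_nat_add_iff m).2 w_hasSum.summable).mul_right _
    have hle : ‖z‖ * ‖∑' n, (w n : ℂ) * c n‖ ≤
        ‖z‖ * (1 - 2 * w m) + 2 * w m * (w m * (ε / 8)) :=
      (mul_le_mul_of_nonneg_left hnorm hz0).trans hsplit
    have hsm : 2 * w m * (w m * (ε / 8)) ≤ w m * (ε / 8) := by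
      have : 0 ≤ w m * (ε / 8) := by positivity
      nlinarith
    rcases Nat.eq_zero_or_pos m with hm0 | hm0
    · subst hm0
      have e : w 0 = 1 / 2 := by unfold w; norm_num
      rw [e] at hle hsm
      norm_num at hle
      constructor
      · linarith
      · intro _; linarith
    · have h1 := (hm2 (m - 1) (by omega))
      have h2 : w (m - 1) = 2 * w m := by
        obtain ⟨k, rfl⟩ : ∃ k, m = k + 1 := ⟨m - 1, by omega⟩
        rw [Nat.add_sub_cancel]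
        unfold w
        ring
      rw [h2] at h1
      have h3 : ‖z‖ * (1 - 2 * w m) ≤ (1 + 2 * w m / 4) * (1 - 2 * w m) :=
        mul_le_mul_of_nonneg_right h1.1.le (by linarith)
      constructor
      · nlinarith
      · intro hV
        have h4 : ‖z‖ < ε / 2 := h1.2.resolve_left hV
        have h5 : ‖z‖ * (1 - 2 * w m) ≤ ‖z‖ := by nlinarith
        nlinarith

/-- a weak peak set with two points contains a smaller one -/
lemma pset_smaller (hNP : NP A) (S : Set (WeakDual.characterSpace ℂ A)) (hS : PSet S)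
    (ψ1 ψ2 : WeakDual.characterSpace ℂ A) (h1 : ψ1 ∈ S) (h2 : ψ2 ∈ S) (hne : ψ1 ≠ ψ2) :
    ∃ S' : Set (WeakDual.characterSpace ℂ A), PSet S' ∧ S' ⊆ S ∧ ψ1 ∉ S' := by
  obtain ⟨a, ha⟩ : ∃ a, ψ1 a ≠ ψ2 a := by
    by_contra hcon
    push Not at hcon
    exact hne (WeakDual.CharacterSpace.ext hcon)
  -- normalisation
  obtain ⟨ψ0, h0, hmax⟩ := hS.2.1.isCompact.exists_isMaxOn hS.1
    ((cont (a - algebraMap ℂ A (ψ1 a))).norm.continuousOn)
  set b0 : A := a - algebraMap ℂ A (ψ1 a) with hb0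
  have hb2 : ψ2 b0 ≠ 0 := by
    rw [hb0, map_sub, AlgHomClass.commutes]
    simp only [Algebra.algebraMap_self, RingHom.id_apply]
    intro h
    exact ha (sub_eq_zero.1 h).symm
  have hb1 : ψ1 b0 = 0 := by
    rw [hb0, map_sub, AlgHomClass.commutes]
    simp
  have hpos : 0 < ‖ψ0 b0‖ := lt_of_lt_of_le (norm_pos_iff.2 hb2) (hmax h2)
  have hψ0 : ψ0 b0 ≠ 0 := norm_pos_iff.1 hpos
  set b : A := (ψ0 b0)⁻¹ • b0 with hb
  have hbv : ∀ ψ : WeakDual.characterSpace ℂ A, ψ b = (ψ0 b0)⁻¹ * ψ b0 := fun ψ => by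
    rw [hb, map_smul, smul_eq_mul]
  have hbS : ∀ ψ ∈ S, ‖ψ b‖ ≤ 1 := by
    intro ψ hψ
    rw [hbv, norm_mul, norm_inv, inv_mul_le_iff₀ hpos, mul_one]
    exact hmax hψ
  have hb0' : ψ0 b = 1 := by
    rw [hbv]; exact inv_mul_cancel₀ hψ0
  set b' : A := (2⁻¹ : ℂ) • (1 + b) with hb'
  have hb'v : ∀ ψ : WeakDual.characterSpace ℂ A, ψ b' = (1 + ψ b) / 2 := fun ψ => by
    rw [hb']
    simp only [map_smul, map_add, map_one, smul_eq_mul]
    ring
  refine ⟨S ∩ {ψ | ψ b = 1}, ⟨⟨ψ0, h0, hb0'⟩, hS.2.1.inter (isClosed_eq (cont b) continuous_const),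
    fun U hU hSU ε' hε' => ?_⟩, inter_subset_left, fun h => ?_⟩
  swap
  · have h3 : ψ1 b = 1 := h.2
    rw [hbv, hb1, mul_zero] at h3
    exact zero_ne_one h3
  set ε : ℝ := min ε' 1 with hεdef
  have hε : 0 < ε := lt_min hε' one_pos
  have hε1 : ε ≤ 1 := min_le_right _ _
  -- the element e
  obtain ⟨K, hK⟩ := exists_pow (S ∩ Uᶜ) (hS.2.1.inter hU.isClosed_compl) b' (by
    rintro ψ ⟨hψ1, hψ2⟩
    rw [hb'v]
    exact half_lt (hbS ψ hψ1) fun h => hψ2 (hSU ⟨hψ1, h⟩)) (ε / 2) (by positivity)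
  set e : A := b' ^ K with he
  have heS : ∀ ψ ∈ S, ‖ψ e‖ ≤ 1 := by
    intro ψ hψ
    rw [he, map_pow, norm_pow, hb'v]
    exact pow_le_one₀ (norm_nonneg _) (half_le (hbS ψ hψ))
  have he1 : ∀ ψ : WeakDual.characterSpace ℂ A, ψ b = 1 → ψ e = 1 := by
    intro ψ hψ
    rw [he, map_pow, hb'v, hψ]
    norm_num
  set Un : ℕ → Set (WeakDual.characterSpace ℂ A) := fun n =>
    {ψ | ‖ψ e‖ < 1 + w n / 4} ∩ (U ∪ {ψ | ‖ψ e‖ < ε / 2}) with hUn
  have hUno : ∀ n, IsOpen (Un n) := fun n =>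
    (isOpen_lt (cont e).norm continuous_const).inter
      (hU.union (isOpen_lt (cont e).norm continuous_const))
  have hUnS : ∀ n, S ⊆ Un n := by
    intro n ψ hψ
    refine ⟨?_, ?_⟩
    · have := w_pos n
      have h3 := heS ψ hψ
      show ‖ψ e‖ < 1 + w n / 4
      linarith
    · by_cases h3 : ψ ∈ U
      · exact Or.inl h3
      · exact Or.inr (hK ψ ⟨hψ, h3⟩)
  have hB : 0 < 1 + ‖e‖ := by positivity
  have hch : ∀ n, ∃ f : A, ‖f‖ ≤ 1 ∧ (∀ ψ ∈ S, ψ f = 1) ∧ ∀ ψ ∉ Un n, ‖ψ f‖ < w n * ε / (8 * (1 + ‖e‖)) :=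
    fun n => hS.2.2 (Un n) (hUno n) (hUnS n) _ (by have := w_pos n; positivity)
  choose h hh1 hh2 hh3 using hch
  have hsum : Summable (fun n => (w n : ℂ) • h n) := by
    refine Summable.of_norm_bounded (g := fun n => w n) w_hasSum.summable fun n => ?_
    refine (norm_smul_le _ _).trans ?_
    rw [Complex.norm_real, Real.norm_eq_abs, abs_of_pos (w_pos n)]
    calc w n * ‖h n‖ ≤ w n * 1 := mul_le_mul_of_nonneg_left (hh1 n) (w_pos n).le
      _ = w n := mul_one _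
  set E : A := e * ∑' n, (w n : ℂ) • h n with hE
  have hval : ∀ ψ : WeakDual.characterSpace ℂ A, ψ E = ψ e * ∑' n, (w n : ℂ) * ψ (h n) := by
    intro ψ
    have h1 := (WeakDual.CharacterSpace.toCLM ψ).map_tsum hsum
    rw [WeakDual.CharacterSpace.coe_toCLM] at h1
    rw [hE, map_mul, h1]
    congr 1
    refine tsum_congr fun n => ?_
    rw [map_smul, smul_eq_mul]
  have hser : ∀ ψ : WeakDual.characterSpace ℂ A, ‖ψ E‖ ≤ 1 ∧ (¬ (ψ ∈ U) → ‖ψ E‖ < ε) := by
    intro ψ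
    rw [hval]
    refine series hε hε1 (ψ e) ‖e‖ (AlgHom.norm_apply_le_self ψ e) (fun n => ψ (h n))
      (fun n => (AlgHom.norm_apply_le_self ψ _).trans (hh1 n)) (ψ ∈ U) fun n hn => ?_
    exact (hh3 n ψ fun hmem => hn ⟨hmem.1, hmem.2⟩).le
  refine ⟨E, hNP E 1 (by norm_num) fun ψ => (hser ψ).1, ?_, fun ψ hψ =>
    lt_of_lt_of_le ((hser ψ).2 hψ) (min_le_left _ _)⟩
  rintro ψ ⟨hψ1, hψ2⟩
  rw [hval, he1 ψ hψ2, one_mul]
  have : ∀ n, (w n : ℂ) * ψ (h n) = (w n : ℂ) := fun n => by rw [hh2 n ψ hψ1, mul_one]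
  simp_rw [this]
  have := Complex.hasSum_ofReal.2 w_hasSum
  rw [this.tsum_eq]
  norm_num

end

theorem zorn : S_Zorn := by
  intro A _ _ _ _ hNP φ P hP
  obtain ⟨S, hSsub, hSmin⟩ := zorn_superset_nonempty
    {S : Set (WeakDual.characterSpace ℂ A) | PSet S}
    (fun c hc hchain hne => ⟨⋂₀ c, pset_chain c hc hchain hne, fun s hs => sInter_subset_of_mem hs⟩)
    {ψ : WeakDual.characterSpace ℂ A | ∀ F ∈ P, ψ F = 1} (pset_of_peak φ P hP)
  have hS : PSet S := hSmin.prop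
  obtain ⟨χ, hχ⟩ := hS.1
  have hsing : ∀ ψ ∈ S, ψ = χ := by
    intro ψ hψ
    by_contra hne
    obtain ⟨S', hS', hsub, hnot⟩ := pset_smaller hNP S hS ψ χ hψ hχ hne
    exact hnot (hSmin.le_of_le hS' hsub hψ)
  refine ⟨χ, fun U hU ε hε => ?_, fun F hF => hSsub hχ F hF⟩
  obtain ⟨V, hVU, hVo, hVχ⟩ := mem_nhds_iff.1 hU
  obtain ⟨f, h1, h2, h3⟩ := hS.2.2 V hVo (fun ψ hψ => by rw [hsing ψ hψ]; exact hVχ) ε hε
  refine ⟨f, le_antisymm h1 ?_, h2 χ hχ, fun ψ hψ => h3 ψ fun h => hψ (hVU h)⟩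
  have := AlgHom.norm_apply_le_self χ f
  rw [h2 χ hχ, norm_one] at this
  exact this

end Pool.Agent.NH62.SB.Zorn
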